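import Pool.Agent.Lib.MP_1a91b9_ntQH.X1

/-!
# MP_1a91b9_nt (the abelian extensions of exponent four, relative form): the groups of exponent two, one curve
-/

set_option autoImplicit false

namespace Pool.Agent.Lib.MP_1a91b9_ntQH

open NumberField
open Pool.Agent.Lib.MP_1a91b9_ntDF (tw NK cK DiscLe)
open Pool.Agent.Lib.MP_1a91b9_ntQD (nr)
open Pool.Agent.Lib.MP_1a91b9_ntQG (Ext Gm)

private theorem X2_tw {K : Type} [Field K] (A u : K) :
    tw 2 (⟨0, 0, 0, A, 0⟩ : WeierstrassCurve K) K u = ⟨0, 0, 0, A * u ^ 2, 0⟩ := by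
  unfold tw
  refine WeierstrassCurve.ext rfl ?_ ?_ ?_ rfl
  · show algebraMap K K (0 * u ^ (2 / 2)) = 0
    rw [zero_mul, map_zero]
  · show algebraMap K K (0 * u ^ (3 / 2)) = 0
    rw [zero_mul, map_zero]
  · show algebraMap K K (A * u ^ (4 / 2)) = A * u ^ 2
    rfl

private theorem X2_twF {K F : Type} [Field K] [Field F] [Algebra K F] (a u : K) :
    tw 2 (⟨0, 0, 0, a, 0⟩ : WeierstrassCurve K) F (u ^ 1) =
      ⟨0, 0, 0, algebraMap K F (a * u ^ 2), 0⟩ := by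
  unfold tw
  refine WeierstrassCurve.ext rfl ?_ ?_ ?_ rfl
  · show algebraMap K F (0 * (u ^ 1) ^ (2 / 2)) = 0
    rw [zero_mul, map_zero]
  · show algebraMap K F (0 * (u ^ 1) ^ (3 / 2)) = 0
    rw [zero_mul, map_zero]
  · show algebraMap K F (a * (u ^ 1) ^ 2) = algebraMap K F (a * u ^ 2)
    rw [pow_one]

private theorem X2_eqn {K F M : Type} [Field K] [Field F] [Field M] [Algebra K F] [Algebra F M] (a : K)
    {x y : M} (h : y ^ 2 = x ^ 3 + algebraMap F M (algebraMap K F a) * x) :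
    (((⟨0, 0, 0, a, 0⟩ : WeierstrassCurve K).baseChange F).baseChange M).toAffine.Equation x y := by
  rw [WeierstrassCurve.Affine.equation_iff]
  show y ^ 2 + algebraMap F M (algebraMap K F 0) * x * y + algebraMap F M (algebraMap K F 0) * y =
    x ^ 3 + algebraMap F M (algebraMap K F 0) * x ^ 2 + algebraMap F M (algebraMap K F a) * x +
      algebraMap F M (algebraMap K F 0)
  rw [map_zero, map_zero]
  linear_combination h

private theorem X2_disc {K : Type} [Field K] (a : K) :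
    (⟨0, 0, 0, a, 0⟩ : WeierstrassCurve K).Δ = -64 * a ^ 3 := by
  unfold WeierstrassCurve.Δ WeierstrassCurve.b₂ WeierstrassCurve.b₄ WeierstrassCurve.b₆
    WeierstrassCurve.b₈
  ring

private theorem X2_c4 {K : Type} [Field K] (a : K) :
    (⟨0, 0, 0, a, 0⟩ : WeierstrassCurve K).c₄ = -48 * a := by
  unfold WeierstrassCurve.c₄ WeierstrassCurve.b₂ WeierstrassCurve.b₄
  ring

private theorem X2_64 {K : Type} [Field K] [NumberField K] : (-64 : K) ≠ 0 := by
  have h0 : ((-64 : ℤ) : K) ≠ 0 := Int.cast_ne_zero.2 (by norm_num)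
  push_cast at h0
  exact h0

private theorem X2_adj {K : Type} [Field K] (S : Set K) : IntermediateField.adjoin K S = ⊤ := by
  rw [eq_top_iff]
  intro x _
  exact IntermediateField.algebraMap_mem _ x

private theorem X2_neg {K : Type} [Field K] [NumberField K] : IsPrimitiveRoot (-1 : K) 2 := by
  have h0 : orderOf (-1 : K) = 2 := by
    have := Fact.mk Nat.prime_two
    refine orderOf_eq_prime (by norm_num) ?_
    intro h
    have h2 : (2 : K) = 0 := by linear_combination (-1 : K) * h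
    exact two_ne_zero h2
  have h1 := IsPrimitiveRoot.orderOf (-1 : K)
  rwa [h0] at h1

private theorem X2_four {n : ℕ} (g : Multiplicative (Fin n → ZMod 2)) : g ^ 4 = 1 := by
  refine Multiplicative.toAdd.injective ?_
  rw [toAdd_pow, toAdd_one]
  funext k
  show 4 • (Multiplicative.toAdd g k) = 0
  have h : ∀ x : ZMod 2, 4 • x = 0 := by decide
  exact h _

private theorem X2_extM {K : Type} [Field K] [NumberField K] {a : K} {n : ℕ} {d : Fin n → K}
    [NumberField (NK 2 d)] {y : Fin n → NK 2 d} (hy : Pool.Agent.Lib.MP_1a91b9_ntDF.Kum 2 d y)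
    (hM : Pool.Agent.Lib.MP_1a91b9_ntDZ.PropM 2 (⟨0, 0, 0, a, 0⟩ : WeierstrassCurve K) K (NK 2 d)) : ExtM a K (NK 2 d) d := by
  have htop : IntermediateField.adjoin K (Set.range (algebraMap (NK 2 d) (NK 2 d))) = ⊤ := by
    rw [eq_top_iff]
    intro x _
    exact IntermediateField.subset_adjoin K _ ⟨x, rfl⟩
  obtain ⟨-, h2⟩ := hM (NK 2 d) htop
  refine ⟨fun x' y' h => (h2 (NK 2 d)).1.1 x' y' (X2_eqn a h), ?_⟩
  intro F' _ _ i1 i2 i3 i4 i5 J hJ
  obtain rfl : i1 = i2 := by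
    refine Algebra.algebra_ext i1 i2 fun r => ?_
    exact @IsScalarTower.algebraMap_apply K K F' _ _ _ _ i2 i1 i3 r
  have hex : ∃ x : NK 2 d, x ^ 2 = algebraMap K (NK 2 d) (∏ k ∈ J, d k) := by
    refine ⟨∏ k ∈ J, y k, ?_⟩
    rw [← Finset.prod_pow, map_prod]
    exact Finset.prod_congr rfl fun k _ => hy.pow k
  have h := ((h2 F').2.2.2.2 (∏ k ∈ J, d k) hex hJ).1 1 one_pos one_lt_two
  rwa [X2_twF] at h

private theorem X2_propN {K : Type} [Field K] [NumberField K] (hK : Module.finrank ℚ K = 2) {i : K}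
    (hi : i ^ 2 = -1) {a : K} (ha : a ≠ 0) {n : ℕ} {d : Fin n → K} (hd : ∀ k, d k ≠ 0)
    (h : Pool.Agent.Lib.MP_1a91b9_ntMQ.Fin.PropMF (⟨0, 0, 0, a, 0⟩ : WeierstrassCurve K) K d) :
    Module.finrank K (NK 2 d) = 2 ^ n ∧ PropN (⟨0, 0, 0, a, 0⟩ : WeierstrassCurve K) (NK 2 d) := by
  have hp2 : Fact (Nat.Prime 2) := ⟨Nat.prime_two⟩
  obtain ⟨h1, h2⟩ := Pool.Agent.Lib.MP_1a91b9_ntDZ.d2Z K hK (⟨0, 0, 0, a, 0⟩ : WeierstrassCurve K)
    ⟨rfl, rfl, rfl⟩
    (by
      rw [X2_disc]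
      exact mul_ne_zero X2_64 (pow_ne_zero 3 ha))
    1728 (-4) (by simp)
    (by
      rw [X2_disc, X2_c4]
      push_cast
      ring)
    ⟨2 * i, by
      push_cast
      linear_combination 4 * hi⟩ 2 (Or.inl rfl) K (X2_adj _) hd h
  refine ⟨h1, ?_⟩
  obtain ⟨-, hn, -, y, hy⟩ := Pool.Agent.Lib.MP_1a91b9_ntDF.nk_kum (X2_neg (K := K)) hd
  obtain ⟨hgal, ⟨e⟩⟩ := Pool.Agent.Lib.MP_1a91b9_ntDF.a3_grp (X2_neg (K := K)) two_pos hd h1
  have hE := X2_extM hy h2
  have hS : Sit K K (NK 2 d) (NK 2 d) (fun _ => 1) d (fun _ => 1) y y :=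
    { he := fun _ => one_ne_zero
      hb := hd
      hz := fun _ => by rw [one_pow, map_one]
      hy := hy.pow
      hx := fun k => by
        rw [map_one, one_mul]
        rfl
      hN := hy.top
      hM := hy.top
      deg := h1 }
  refine propN_of hK hi ha ?_ ?_ (hypL_of hS hi hE) (hypP_of hS hi hE)
  · intro σ τ
    refine e.injective ?_
    rw [map_mul, map_mul, mul_comm]
  · intro σ
    refine e.injective ?_
    rw [map_pow, map_one]
    exact X2_four _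

private theorem X2_grp {G : Type} [Group G] {n : ℕ} :
    Nonempty (G ≃* Gm (fun _ : Fin n => 2)) ↔ Nonempty (G ≃* Multiplicative (Fin n → ZMod 2)) := by
  have e : Multiplicative (Fin n → ZMod 2) ≃* Gm (fun _ : Fin n => 2) :=
    { toFun := fun f k => Multiplicative.ofAdd (Multiplicative.toAdd f k)
      invFun := fun g => Multiplicative.ofAdd fun k => Multiplicative.toAdd (g k)
      left_inv := fun _ => rfl
      right_inv := fun _ => rfl
      map_mul' := fun _ _ => rfl }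
  exact ⟨fun ⟨g⟩ => ⟨g.trans e.symm⟩, fun ⟨g⟩ => ⟨g.trans e⟩⟩

private theorem X2_ext (K : Type) [Field K] (n : ℕ) :
    Ext K (Gm (fun _ : Fin n => 2)) = Pool.Agent.Lib.MP_1a91b9_ntDF.Ext K 2 n := by
  ext N
  exact and_congr Iff.rfl X2_grp

private theorem X2_ne {K : Type} [Field K] [NumberField K] {d : 𝓞 K}
    (hd : Pool.Agent.Lib.MP_1a91b9_ntDF.Pf 2 d) : d ≠ 0 := by
  rintro rfl
  exact not_isUnit_zero (hd 0 (dvd_zero _))

private theorem X2_nr {K : Type} [Field K] [NumberField K] {a b : 𝓞 K} (hb : b ≠ 0) (h : a ∣ b) :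
    nr a ≤ nr b := by
  have h1 : Algebra.norm ℤ a ∣ Algebra.norm ℤ b := map_dvd (Algebra.norm ℤ) h
  have h2 : Algebra.norm ℤ b ≠ 0 := Algebra.norm_ne_zero_iff.2 hb
  have h3 : |Algebra.norm ℤ a| ≤ |Algebra.norm ℤ b| :=
    Int.le_of_dvd (abs_pos.2 h2) ((abs_dvd_abs _ _).2 h1)
  unfold nr
  exact_mod_cast h3

private theorem X2_ratio {α : Type} {D : Set α} {R S : Set α} (hD : D.Finite) (hRS : R ⊆ S)
    (hSD : S ⊆ D) {c : ℝ} (h : c ≤ (Nat.card R : ℝ) / (Nat.card D : ℝ)) :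
    c ≤ (Nat.card S : ℝ) / (Nat.card D : ℝ) := by
  refine h.trans ?_
  have h1 : Nat.card R ≤ Nat.card S := Nat.card_mono (hD.subset hSD) hRS
  have h2 : (Nat.card R : ℝ) ≤ (Nat.card S : ℝ) := by exact_mod_cast h1
  exact div_le_div_of_nonneg_right h2 (Nat.cast_nonneg _)

open Pool.Agent.Lib.MP_1a91b9_ntDF (cst) in
private theorem X2_cst (p : ℕ) (K F : Type) [Field K] [NumberField K] [Field F] : 0 < cst p K F := by
  unfold cst
  split_ifs with h1
  · exact Pool.Agent.Lib.MP_1a91b9_ntZ.cb_three.1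
  all_goals
    refine (Pool.Agent.Lib.MP_1a91b9_ntZ.cb_two (P := Prime (2 : 𝓞 K)) (Q := ∃ x : F, x ^ 2 = -1)
      (R := Squarefree (2 : 𝓞 K)) ?_).1
    simp only [*, if_true, if_false]

/-- **X2** (medium-). **The groups of exponent two, one curve.** Proof: as `exp_two` (`X1`), with `T = {1}` (`tw 2 E K 1 = E`),
`t = 1` in `l2T`, `v = cst 2 K K ^ ((2^n - 1) [K : K]) > 0` (`cb_two` as in the private `Z7_cst` of `ntDZ/Z7.lean`), which does not depend
on `A`, and `law_disc` with this `v`; `c = v / 2`. -/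
theorem exp_two_one {K : Type} [Field K] [NumberField K] (hK : Module.finrank ℚ K = 2)
    [IsPrincipalIdealRing (𝓞 K)] [Finite (𝓞 K)ˣ]
    (hfin : ∀ Z : ℝ, {x : 𝓞 K | x ≠ 0 ∧ nr x ≤ Z}.Finite) {i : K} (hi : i ^ 2 = -1)
    {n : ℕ} {m : Fin n → ℕ} (hm : ∀ k, m k = 2) :
    ∃ c : ℝ, 0 < c ∧ ∀ A : K, A ≠ 0 → ∀ᶠ X : ℝ in Filter.atTop, c ≤
      (Nat.card {N : IntermediateField K (AlgebraicClosure K) // N ∈ Ext K (Gm m) ∧ DiscLe N X ∧
        PropN (⟨0, 0, 0, A, 0⟩ : WeierstrassCurve K) N} : ℝ) /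
      (Nat.card {N : IntermediateField K (AlgebraicClosure K) // N ∈ Ext K (Gm m) ∧ DiscLe N X} : ℝ) := by
  obtain rfl : m = fun _ => 2 := funext hm
  have hp2 : Fact (Nat.Prime 2) := ⟨Nat.prime_two⟩
  rw [X2_ext]
  set v : ℝ := Pool.Agent.Lib.MP_1a91b9_ntDF.cst 2 K K ^ ((2 ^ n - 1) * Module.finrank K K) with hv
  have hv0 : 0 < v := pow_pos (X2_cst 2 K K) _
  refine ⟨v / 2, half_pos hv0, fun A hA => ?_⟩
  have hmain := Pool.Agent.Lib.MP_1a91b9_ntDF.law_disc (p := 2) X2_neg hfin n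
    (fun N => PropN (⟨0, 0, 0, A, 0⟩ : WeierstrassCurve K) N) v ?_ (v / 2) (half_pos hv0)
  · rwa [sub_half] at hmain
  intro a w hw η hη
  have hcard : ({1} : Set K).ncard = 1 := Set.ncard_singleton 1
  have key := Pool.Agent.Lib.MP_1a91b9_ntDT.l2T K hK (⟨0, 0, 0, A, 0⟩ : WeierstrassCurve K)
    ⟨rfl, rfl, rfl⟩
    (by
      rw [X2_disc]
      exact mul_ne_zero X2_64 (pow_ne_zero 3 hA))
    1728 (-4) (by simp)
    (by
      rw [X2_disc, X2_c4]
      push_cast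
      ring)
    ⟨2 * i, by
      push_cast
      linear_combination 4 * hi⟩ 2 (Or.inl rfl) K (X2_adj _) n ({1} : Set K)
    (fun h => one_ne_zero (Set.mem_singleton_iff.1 h).symm)
    (fun δ hδ δ' hδ' hne => absurd ((Set.mem_singleton_iff.1 hδ).trans
      (Set.mem_singleton_iff.1 hδ').symm) hne) a w hw 1 v
    (by
      rw [if_neg (Set.not_infinite.2 (Set.finite_singleton 1)), hcard, Finset.Icc_self,
        Finset.sum_singleton, Nat.choose_self, Nat.cast_one, one_mul, pow_one, Nat.sub_self,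
        pow_zero, mul_one]) η hη
  filter_upwards [key] with X hX
  refine X2_ratio (D := {d : Fin n → 𝓞 K | (∀ i, Pool.Agent.Lib.MP_1a91b9_ntDF.Pf 2 (d i) ∧
    ((2 : ℕ) : 𝓞 K) ^ a ∣ d i - w i) ∧
      ∃ A, A ≠ 0 ∧ |Algebra.norm ℤ A| ≤ X ∧ ∀ i, d i ∣ A ^ (2 - 1)}) ?_ ?_ ?_ hX
  · have h1 : (Set.pi Set.univ (fun _ : Fin n => {x : 𝓞 K | x ≠ 0 ∧ nr x ≤ X})).Finite :=
      Set.Finite.pi fun _ => hfin X
    refine h1.subset ?_
    rintro d ⟨hd, B, hB, hBX, hdB⟩ k -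
    refine ⟨X2_ne (hd k).1, (X2_nr hB ?_).trans hBX⟩
    have h2 := hdB k
    rwa [Nat.add_one_sub_one, pow_one] at h2
  · rintro d ⟨hd, hB, ht⟩
    refine ⟨hd, hB, ?_⟩
    have hd0 : ∀ k, cK K d k ≠ 0 := fun k h0 => X2_ne (hd k).1 (RingOfIntegers.ext h0)
    obtain ⟨δ, hδ, h⟩ := Set.one_le_encard_iff_nonempty.1 (le_trans (by exact_mod_cast le_rfl) ht)
    rw [Set.mem_singleton_iff] at hδ
    rw [X2_tw, hδ, one_pow, mul_one] at h
    exact X2_propN hK hi hA hd0 h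
  · rintro d ⟨hd, hB, -⟩
    exact ⟨hd, hB⟩

end Pool.Agent.Lib.MP_1a91b9_ntQH
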