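import Pool.Agent.Lib.MP_1a91b9_ntQH.M6
import Pool.Agent.Lib.MP_1a91b9_ntQH.X2
import Pool.Agent.Lib.MP_1a91b9_ntQG.X2
import Pool.Agent.Lib.MP_1a91b9_ntQG.F3

/-!
# MP_1a91b9_nt (the abelian extensions of exponent four, relative form): the theorem
-/

set_option autoImplicit false

namespace Pool.Agent.Lib.MP_1a91b9_ntQH

open NumberField
open Pool.Agent.Lib.MP_1a91b9_ntL (crv)
open Pool.Agent.Lib.MP_1a91b9_ntDF (DiscLe)
open Pool.Agent.Lib.MP_1a91b9_ntQG (Ext Gm QQ F4 Box Ix)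

/-- `K` is a principal ideal domain. -/
private theorem Fin_pid {K : Type} [Field K] [NumberField K] (hK : Module.finrank ℚ K = 2) {i : K}
    (hi : i ^ 2 = -1) : IsPrincipalIdealRing (𝓞 K) := by
  have hW : Pool.Agent.Lib.MP_1a91b9_ntY.CMK (crv (0 : K) 1) := by
    refine ⟨?_, 1728, -4, 2 * i, ?_, ?_, ?_⟩
    · rw [Pool.Agent.Lib.MP_1a91b9_ntY.crv_Δ]
      norm_num
    · simp [Pool.Agent.Lib.MP_1a91b9_ntY.cmList]
    · rw [mul_pow, hi]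
      push_cast
      norm_num
    · refine Pool.Agent.Lib.MP_1a91b9_ntY.hasJ_crv ?_
      push_cast
      norm_num
  have hP : Pool.Agent.Lib.MP_1a91b9_ntY.Pt2 (crv (0 : K) 1) := by
    refine ⟨0, ?_⟩
    unfold crv WeierstrassCurve.b₂ WeierstrassCurve.b₄ WeierstrassCurve.b₆
    ring
  exact Pool.Agent.Lib.MP_1a91b9_ntC.pid_of hK hW hP

/-- `𝓞 K` has finitely many units. -/
private theorem Fin_units {K : Type} [Field K] [NumberField K] (hK : Module.finrank ℚ K = 2) {i : K}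
    (hi : i ^ 2 = -1) : Finite (𝓞 K)ˣ := by
  have h1 : (2 * i) ^ 2 = ((-4 : ℤ) : K) := by
    rw [mul_pow, hi]
    push_cast
    norm_num
  exact Pool.Agent.Lib.MP_1a91b9_ntW.J.finite_units hK
    (Pool.Agent.Lib.MP_1a91b9_ntW.J.no_real h1 (by norm_num))

/-- isomorphic groups have the same extensions -/
private theorem Fin_ext {K : Type} [Field K] {G H : Type} [Group G] [Group H] (φ : G ≃* H) :
    Ext K G = Ext K H := by
  ext N
  exact ⟨fun h => ⟨h.1, ⟨h.2.some.trans φ⟩⟩, fun h => ⟨h.1, ⟨h.2.some.trans φ.symm⟩⟩⟩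

/-- `F4 j` is a number field. -/
private theorem Fin_nf {K : Type} [Field K] [NumberField K] {i : K} (hi : i ^ 2 = -1) {n : ℕ} (j : Ix K n) :
    NumberField (F4 j) := by
  have h0 : ∀ k, ((Pool.Agent.Lib.MP_1a91b9_ntQG.ee j k : 𝓞 K) : K) ≠ 0 := by
    intro k h
    have h1 : Pool.Agent.Lib.MP_1a91b9_ntQG.ee j k = 0 := RingOfIntegers.ext h
    unfold Pool.Agent.Lib.MP_1a91b9_ntQG.ee at h1
    refine mul_ne_zero (Units.ne_zero (j.1 k)) ?_ h1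
    exact Finset.prod_ne_zero_iff.2 fun v _ => pow_ne_zero _ (j.2 v).2
  obtain ⟨-, hnf, -⟩ := Pool.Agent.Lib.MP_1a91b9_ntQG.nk4_kum hi h0
  exact hnf

/-- **The abelian extensions of exponent four, by the discriminant.** -/
theorem fin_QH (K : Type) [Field K] [NumberField K] (hK : Module.finrank ℚ K = 2) (hi : ∃ i : K, i ^ 2 = -1)
    (G : Type) [CommGroup G] [Finite G] (hG : ∀ x : G, x ^ 4 = 1) :
    (∀ A : K, A ≠ 0 → ∀ T : Set K, T.Infinite → 0 ∉ T →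
      (∀ δ ∈ T, ∀ δ' ∈ T, δ ≠ δ' → ¬ IsSquare (δ * δ')) → ∀ (t : ℕ) (ε : ℝ), 0 < ε →
      ∀ᶠ X : ℝ in Filter.atTop, 1 - ε ≤
        (Nat.card {N : IntermediateField K (AlgebraicClosure K) // N ∈ Ext K G ∧ DiscLe N X ∧
          t ≤ {δ ∈ T | PropN (⟨0, 0, 0, A * δ ^ 2, 0⟩ : WeierstrassCurve K) N}.encard} : ℝ) /
        (Nat.card {N : IntermediateField K (AlgebraicClosure K) // N ∈ Ext K G ∧ DiscLe N X} : ℝ)) ∧
    ∃ c : ℝ, 0 < c ∧ ∀ A : K, A ≠ 0 → ∀ᶠ X : ℝ in Filter.atTop, c ≤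
      (Nat.card {N : IntermediateField K (AlgebraicClosure K) // N ∈ Ext K G ∧ DiscLe N X ∧
        PropN (⟨0, 0, 0, A, 0⟩ : WeierstrassCurve K) N} : ℝ) /
      (Nat.card {N : IntermediateField K (AlgebraicClosure K) // N ∈ Ext K G ∧ DiscLe N X} : ℝ) := by
  obtain ⟨i, hi⟩ := hi
  have hpi : IsPrincipalIdealRing (𝓞 K) := Fin_pid hK hi
  have hfu : Finite (𝓞 K)ˣ := Fin_units hK hi
  have hfin := (Pool.Agent.Lib.MP_1a91b9_ntQD.card_le hK hi).1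
  obtain ⟨n, m, hm, ⟨φ⟩⟩ := Pool.Agent.Lib.MP_1a91b9_ntQG.grp G hG
  rw [Fin_ext φ]
  by_cases h4 : ∃ k, m k = 4
  · obtain ⟨g, hg0, hg⟩ := Pool.Agent.Lib.MP_1a91b9_ntQG.grp_four hm h4
    refine ⟨?_, pos_prop hK hi hm hg hg0⟩
    intro A hA T hT h0 hsq t ε hε
    refine Pool.Agent.Lib.MP_1a91b9_ntQG.almost_all hK hi hm hg hg0
      (fun N => (t : ℕ∞) ≤ {δ ∈ T | PropN (⟨0, 0, 0, A * δ ^ 2, 0⟩ : WeierstrassCurve K) N}.encard)
      (fun j η hη => ?_) ε hε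
    have hnf := Fin_nf hi j
    filter_upwards [law_T hK hfin hi hA hT h0 hsq j t η hη] with Z hZ
    refine le_trans ?_ hZ
    have h5 : {b : Fin n → 𝓞 K | b ∈ Box K n Z ∧ Module.finrank K (QQ j b) = ∏ k, m k ∧
        ¬ (t : ℕ∞) ≤ {δ ∈ T | PropN (⟨0, 0, 0, A * δ ^ 2, 0⟩ : WeierstrassCurve K) (QQ j b)}.encard} ⊆
        {b : Fin n → 𝓞 K | b ∈ Box K n Z ∧
        ¬ (t : ℕ∞) ≤ {δ ∈ T | PropN (⟨0, 0, 0, A * δ ^ 2, 0⟩ : WeierstrassCurve K) (QQ j b)}.encard} :=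
      fun b hb => ⟨hb.1, hb.2.2⟩
    have h6 : {b : Fin n → 𝓞 K | b ∈ Box K n Z ∧
        ¬ (t : ℕ∞) ≤ {δ ∈ T | PropN (⟨0, 0, 0, A * δ ^ 2, 0⟩ : WeierstrassCurve K) (QQ j b)}.encard}.Finite :=
      (Pool.Agent.Lib.MP_1a91b9_ntQG.box_fin hfin n Z).subset fun b hb => hb.1
    exact_mod_cast Set.ncard_le_ncard h5 h6
  · have h2 : ∀ k, m k = 2 := fun k => (hm k).resolve_right fun h => h4 ⟨k, h⟩
    exact ⟨fun A hA T hT h0 hsq t ε hε => exp_two hK hfin hi hA hT h0 hsq h2 t ε hε,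
      exp_two_one hK hfin hi h2⟩

end Pool.Agent.Lib.MP_1a91b9_ntQH
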