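import Pool.Agent.Lib.MP_1a91b9_ntQG.F1

/-!
# MP_1a91b9_nt (the abelian extensions of exponent four, relative form): the number of the fields, upper bound
-/

set_option autoImplicit false

namespace Pool.Agent.Lib.MP_1a91b9_ntQH

open NumberField
open Pool.Agent.Lib.MP_1a91b9_ntDF (DiscLe NK)
open Pool.Agent.Lib.MP_1a91b9_ntQD (nr)
open Pool.Agent.Lib.MP_1a91b9_ntQG (Box Ext Gm)

/-- The norm of a nonzero element is at least one. -/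
private theorem M4_one_le_nr {K : Type} [Field K] [NumberField K] {A : 𝓞 K} (hA : A ≠ 0) : 1 ≤ nr A := by
  have h1 : Algebra.norm ℤ A ≠ 0 := Algebra.norm_ne_zero_iff.2 hA
  have h2 : (1 : ℤ) ≤ |Algebra.norm ℤ A| := Int.one_le_abs h1
  show (1 : ℝ) ≤ ((|Algebra.norm ℤ A| : ℤ) : ℝ)
  exact_mod_cast h2

/-- A box with an element. -/
private theorem M4_box_ne {K : Type} [Field K] [NumberField K] {n : ℕ} {Z : ℝ} {b : Fin n → 𝓞 K}
    (hb : b ∈ Box K n Z) : 1 ≤ Z := by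
  obtain ⟨_, A, hA, hZ, _⟩ := hb
  exact (M4_one_le_nr hA).trans hZ

/-- The cardinality of a finite set of pairs. -/
private theorem M4_card_pairs {ι β : Type} (Q : ι → β → Prop) (J : Finset ι)
    (hJ : ∀ j b, Q j b → j ∈ J) (hQ : ∀ j, {b | Q j b}.Finite) :
    {p : ι × β | Q p.1 p.2}.Finite ∧
      Nat.card {p : ι × β // Q p.1 p.2} = ∑ j ∈ J, Nat.card {b // Q j b} := by
  classical
  have e : {p : ι × β // Q p.1 p.2} ≃ Σ j : J, {b // Q j.1 b} :=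
    { toFun := fun p => ⟨⟨p.1.1, hJ _ _ p.2⟩, ⟨p.1.2, p.2⟩⟩
      invFun := fun q => ⟨(q.1.1, q.2.1), q.2.2⟩
      left_inv := fun p => rfl
      right_inv := fun q => rfl }
  have hf : ∀ j : J, Finite {b // Q j.1 b} := fun j => (hQ j.1).to_subtype
  constructor
  · have h0 : Finite {p : ι × β // Q p.1 p.2} := Finite.of_equiv _ e.symm
    exact Set.finite_coe_iff.1 h0
  · rw [Nat.card_congr e, Nat.card_sigma, ← Finset.sum_coe_sort J (fun j => Nat.card {b // Q j b})]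

/-- **M4** (medium). **The upper bound.** Proof: as `few_bad` (`ntQG/F1.lean`, copy its private lemmas) with all the fields instead
of the exceptional ones: the number is at most `∑' j, #Box (Y / s_j) ≤ ∑' j, C / s_j * #Box Y` (`box_cmp`, first part, `one_le_ss`;
`sum_ss`), `Y = X ^ (1 / (2 g))`. -/
theorem total_le {K : Type} [Field K] [NumberField K] (hK : Module.finrank ℚ K = 2)
    [IsPrincipalIdealRing (𝓞 K)] [Finite (𝓞 K)ˣ] {i : K} (hi : i ^ 2 = -1) {n : ℕ} {m : Fin n → ℕ}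
    (hm : ∀ k, m k = 2 ∨ m k = 4) {g : ℕ} (hg : ∏ k, m k = 4 * g) (hg0 : 0 < g) :
    ∃ C : ℝ, 0 < C ∧ ∀ X : ℝ,
      (Nat.card {N : IntermediateField K (AlgebraicClosure K) // N ∈ Ext K (Gm m) ∧ DiscLe N X} : ℝ) ≤
        C * (Nat.card (Box K n (X ^ (1 / (2 * g : ℝ)))) : ℝ) := by
  classical
  have hn : 0 < n := by
    rcases Nat.eq_zero_or_pos n with h0 | h0
    · subst h0
      simp only [Finset.univ_eq_empty, Finset.prod_empty] at hg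
      omega
    · exact h0
  have hfin := (Pool.Agent.Lib.MP_1a91b9_ntQD.card_le hK hi).1
  have hbf : ∀ Z : ℝ, (Box K n Z).Finite := fun Z => Pool.Agent.Lib.MP_1a91b9_ntQG.box_fin hfin n Z
  have hss : Summable fun j : Pool.Agent.Lib.MP_1a91b9_ntQG.Ix K n => (Pool.Agent.Lib.MP_1a91b9_ntQG.ss j)⁻¹ :=
    Pool.Agent.Lib.MP_1a91b9_ntQG.sum_ss hK hi n
  have hs1 : ∀ j : Pool.Agent.Lib.MP_1a91b9_ntQG.Ix K n, 1 ≤ Pool.Agent.Lib.MP_1a91b9_ntQG.ss j :=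
    Pool.Agent.Lib.MP_1a91b9_ntQG.one_le_ss
  have hs0 : ∀ j : Pool.Agent.Lib.MP_1a91b9_ntQG.Ix K n, 0 < Pool.Agent.Lib.MP_1a91b9_ntQG.ss j :=
    fun j => lt_of_lt_of_le one_pos (hs1 j)
  -- the finite sets of the parameters
  have hJ : ∀ Y : ℝ, {j : Pool.Agent.Lib.MP_1a91b9_ntQG.Ix K n | Pool.Agent.Lib.MP_1a91b9_ntQG.ss j ≤ Y}.Finite := by
    intro Y
    have h1 := hss.tendsto_cofinite_zero
    have h2 : ∀ᶠ j : Pool.Agent.Lib.MP_1a91b9_ntQG.Ix K n in Filter.cofinite,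
        (Pool.Agent.Lib.MP_1a91b9_ntQG.ss j)⁻¹ < (max Y 1)⁻¹ :=
      h1.eventually (gt_mem_nhds (inv_pos.2 (lt_of_lt_of_le one_pos (le_max_right Y 1))))
    refine (Filter.eventually_cofinite.1 h2).subset ?_
    intro j hj hlt
    have hj' : Pool.Agent.Lib.MP_1a91b9_ntQG.ss j ≤ Y := hj
    have h3 : (max Y 1)⁻¹ ≤ (Pool.Agent.Lib.MP_1a91b9_ntQG.ss j)⁻¹ :=
      inv_anti₀ (hs0 j) (hj'.trans (le_max_left Y 1))
    exact absurd hlt (not_lt.2 h3)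
  have hmem : ∀ (Y : ℝ) (j : Pool.Agent.Lib.MP_1a91b9_ntQG.Ix K n) (b : Fin n → 𝓞 K),
      b ∈ Box K n (Y / Pool.Agent.Lib.MP_1a91b9_ntQG.ss j) → Pool.Agent.Lib.MP_1a91b9_ntQG.ss j ≤ Y := by
    intro Y j b hb
    have h1 := M4_box_ne hb
    rwa [le_div_iff₀ (hs0 j), one_mul] at h1
  -- the choice of the parameters
  have hpar : ∀ N : IntermediateField K (AlgebraicClosure K), N ∈ Ext K (Gm m) →
      ∃ p : Pool.Agent.Lib.MP_1a91b9_ntQG.Ix K n × (Fin n → 𝓞 K), Pool.Agent.Lib.MP_1a91b9_ntQG.Adm p.1 p.2 ∧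
        N = Pool.Agent.Lib.MP_1a91b9_ntQG.QQ p.1 p.2 ∧
        Module.finrank K (Pool.Agent.Lib.MP_1a91b9_ntQG.QQ p.1 p.2) = ∏ k, m k := by
    intro N hN
    obtain ⟨j, b, h1, h2, h3⟩ := Pool.Agent.Lib.MP_1a91b9_ntQG.ext_par hi hm hN
    exact ⟨(j, b), h1, h2, h3⟩
  have hne : Nonempty (Pool.Agent.Lib.MP_1a91b9_ntQG.Ix K n × (Fin n → 𝓞 K)) :=
    ⟨((fun _ => 1, fun _ => ⟨1, one_ne_zero⟩), fun _ => 1)⟩
  choose! par hadm hpN hpd using hpar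
  have hbox : ∀ (X : ℝ) (N : IntermediateField K (AlgebraicClosure K)), N ∈ Ext K (Gm m) → DiscLe N X →
      (par N).2 ∈ Box K n (X ^ (1 / (2 * g : ℝ)) / Pool.Agent.Lib.MP_1a91b9_ntQG.ss (par N).1) := by
    intro X N hN hX
    refine Pool.Agent.Lib.MP_1a91b9_ntQG.mem_box hi (hadm N hN) hg0 ((hpd N hN).trans hg) ?_
    rw [← hpN N hN]
    exact hX
  have hinj : ∀ N N' : IntermediateField K (AlgebraicClosure K), N ∈ Ext K (Gm m) → N' ∈ Ext K (Gm m) →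
      par N = par N' → N = N' := by
    intro N N' hN hN' he
    rw [hpN N hN, hpN N' hN', he]
  obtain ⟨C, hC0, hC⟩ := (Pool.Agent.Lib.MP_1a91b9_ntQG.box_cmp (K := K) hK hi hn).1
  have hT0 : 0 ≤ ∑' j : Pool.Agent.Lib.MP_1a91b9_ntQG.Ix K n, (Pool.Agent.Lib.MP_1a91b9_ntQG.ss j)⁻¹ :=
    tsum_nonneg fun j => (inv_pos.2 (hs0 j)).le
  refine ⟨C * (∑' j : Pool.Agent.Lib.MP_1a91b9_ntQG.Ix K n, (Pool.Agent.Lib.MP_1a91b9_ntQG.ss j)⁻¹) + 1,
    add_pos_of_nonneg_of_pos (mul_nonneg hC0.le hT0) one_pos, fun X => ?_⟩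
  generalize hY : X ^ (1 / (2 * g : ℝ)) = Y
  obtain ⟨hf, hcard⟩ := M4_card_pairs (fun (j : Pool.Agent.Lib.MP_1a91b9_ntQG.Ix K n) (b : Fin n → 𝓞 K) =>
      b ∈ Box K n (Y / Pool.Agent.Lib.MP_1a91b9_ntQG.ss j)) (hJ Y).toFinset
      (fun j b hb => (hJ Y).mem_toFinset.2 (hmem Y j b hb))
      (fun j => hbf _)
  have h1 : Nat.card {N : IntermediateField K (AlgebraicClosure K) // N ∈ Ext K (Gm m) ∧ DiscLe N X} ≤
      Nat.card {p : Pool.Agent.Lib.MP_1a91b9_ntQG.Ix K n × (Fin n → 𝓞 K) //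
        p.2 ∈ Box K n (Y / Pool.Agent.Lib.MP_1a91b9_ntQG.ss p.1)} := by
    have : Finite {p : Pool.Agent.Lib.MP_1a91b9_ntQG.Ix K n × (Fin n → 𝓞 K) //
        p.2 ∈ Box K n (Y / Pool.Agent.Lib.MP_1a91b9_ntQG.ss p.1)} := hf.to_subtype
    refine Nat.card_le_card_of_injective (fun N => ⟨par N.1, ?_⟩) ?_
    · have h2 := hbox X N.1 N.2.1 N.2.2
      rw [hY] at h2
      exact h2
    · intro N N' he
      exact Subtype.ext (hinj N.1 N'.1 N.2.1 N'.2.1 (Subtype.ext_iff.1 he))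
  have h3 : ∀ j : Pool.Agent.Lib.MP_1a91b9_ntQG.Ix K n,
      (Nat.card {b : Fin n → 𝓞 K // b ∈ Box K n (Y / Pool.Agent.Lib.MP_1a91b9_ntQG.ss j)} : ℝ) ≤
        C * (Pool.Agent.Lib.MP_1a91b9_ntQG.ss j)⁻¹ * (Nat.card (Box K n Y) : ℝ) := by
    intro j
    refine (hC Y _ (hs1 j)).trans (le_of_eq ?_)
    rw [div_eq_mul_inv]
  have h4 : (Nat.card {N : IntermediateField K (AlgebraicClosure K) // N ∈ Ext K (Gm m) ∧ DiscLe N X} : ℝ) ≤
      ∑ j ∈ (hJ Y).toFinset, C * (Pool.Agent.Lib.MP_1a91b9_ntQG.ss j)⁻¹ * (Nat.card (Box K n Y) : ℝ) := by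
    refine le_trans ?_ (Finset.sum_le_sum fun j _ => h3 j)
    rw [← Nat.cast_sum, ← hcard]
    exact_mod_cast h1
  refine h4.trans ?_
  rw [← Finset.sum_mul, ← Finset.mul_sum]
  refine mul_le_mul_of_nonneg_right ?_ (Nat.cast_nonneg _)
  have h5 : ∑ j ∈ (hJ Y).toFinset, (Pool.Agent.Lib.MP_1a91b9_ntQG.ss j)⁻¹ ≤
      ∑' j : Pool.Agent.Lib.MP_1a91b9_ntQG.Ix K n, (Pool.Agent.Lib.MP_1a91b9_ntQG.ss j)⁻¹ :=
    hss.sum_le_tsum _ fun j _ => (inv_pos.2 (hs0 j)).le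
  have h6 := mul_le_mul_of_nonneg_left h5 hC0.le
  linarith

end Pool.Agent.Lib.MP_1a91b9_ntQH
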