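import Pool.Agent.Lib.MP_1a91b9_ntQG.F2

/-!
# MP_1a91b9_nt (the abelian extensions of exponent four, relative form): many fields with a property
-/

set_option autoImplicit false

namespace Pool.Agent.Lib.MP_1a91b9_ntQH

open NumberField
open Pool.Agent.Lib.MP_1a91b9_ntDF (DiscLe NK)
open Pool.Agent.Lib.MP_1a91b9_ntQD (nr)
open Pool.Agent.Lib.MP_1a91b9_ntQG (Box Ext Gm sp)

/-- a squarefree element divides `A` as soon as all its primes do -/
private theorem M5_sqf_dvd {R : Type} [CommRing R] [IsDomain R] [IsPrincipalIdealRing R] (L : R) (hL0 : L ≠ 0) :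
    Squarefree L → ∀ A : R, (∀ q, Prime q → q ∣ L → q ∣ A) → L ∣ A := by
  revert hL0
  refine UniqueFactorizationMonoid.induction_on_prime (P := fun L => L ≠ 0 → Squarefree L → ∀ A : R,
    (∀ q, Prime q → q ∣ L → q ∣ A) → L ∣ A) L (fun h => absurd rfl h) ?_ ?_
  · intro x hx _ _ A _
    exact hx.dvd
  · intro a p ha hp ih _ hsq A hA
    have hsqa : Squarefree a := hsq.squarefree_of_dvd (Dvd.intro_left p rfl)
    have hpa : ¬ p ∣ a := by
      intro h
      have h2 : p * p ∣ p * a := mul_dvd_mul_left p h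
      exact hp.not_isUnit (hsq p h2)
    obtain ⟨c, hc⟩ := ih ha hsqa A (fun q hq hqa => hA q hq (hqa.trans (Dvd.intro_left p rfl)))
    have hpA : p ∣ A := hA p hp (Dvd.intro a rfl)
    rw [hc] at hpA
    rcases hp.dvd_or_dvd hpA with h | h
    · exact absurd h hpa
    · obtain ⟨d, hd⟩ := h
      exact ⟨d, by rw [hc, hd]; ring⟩

private theorem M5_nr_le {K : Type} [Field K] [NumberField K] {L A : 𝓞 K} (hA : A ≠ 0) (h : L ∣ A) :
    nr L ≤ nr A := by
  obtain ⟨c, hc⟩ := h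
  have hc0 : c ≠ 0 := by
    rintro rfl
    exact hA (by rw [hc, mul_zero])
  unfold nr
  have h1 : |Algebra.norm ℤ A| = |Algebra.norm ℤ L| * |Algebra.norm ℤ c| := by
    rw [hc, map_mul, abs_mul]
  have h2 : 1 ≤ |Algebra.norm ℤ c| := Int.one_le_abs (Algebra.norm_ne_zero_iff.2 hc0)
  have h3 : |Algebra.norm ℤ L| ≤ |Algebra.norm ℤ A| := by
    rw [h1]
    exact le_mul_of_one_le_right (abs_nonneg _) h2
  exact_mod_cast h3

private theorem M5_nr_nonneg {K : Type} [Field K] [NumberField K] (A : 𝓞 K) : 0 ≤ nr A := by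
  unfold nr
  exact_mod_cast abs_nonneg _

/-- counting through a map with bounded fibres -/
private theorem M5_count {α β : Type} {S : Set α} {T : Set β} (hT : T.Finite) (φ : α → β)
    (hφ : ∀ b ∈ S, φ b ∈ T) (C : ℕ) (hS : ∀ N ∈ T, {b | b ∈ S ∧ φ b = N}.Finite ∧ Set.ncard {b | b ∈ S ∧ φ b = N} ≤ C) :
    Set.ncard S ≤ C * Set.ncard T := by
  classical
  have hSfin : S.Finite := by
    have h1 : S ⊆ ⋃ N ∈ T, {b | b ∈ S ∧ φ b = N} := by
      intro b hb
      simp only [Set.mem_iUnion]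
      exact ⟨φ b, hφ b hb, hb, rfl⟩
    exact (hT.biUnion (fun N hN => (hS N hN).1)).subset h1
  rw [Set.ncard_eq_toFinset_card S hSfin, Set.ncard_eq_toFinset_card T hT]
  have hmap : hSfin.toFinset.image φ ⊆ hT.toFinset := by
    intro N hN
    rw [Finset.mem_image] at hN
    obtain ⟨b, hb, rfl⟩ := hN
    rw [Set.Finite.mem_toFinset] at hb ⊢
    exact hφ b hb
  have h2 : hSfin.toFinset.card ≤ C * (hSfin.toFinset.image φ).card := by
    apply Finset.card_le_mul_card_image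
    intro N hN
    have hNT : N ∈ T := by
      have := hmap hN
      rwa [Set.Finite.mem_toFinset] at this
    have h3 := (hS N hNT).2
    rw [Set.ncard_eq_toFinset_card _ (hS N hNT).1] at h3
    refine le_trans (Finset.card_le_card ?_) h3
    intro b hb
    rw [Finset.mem_filter, Set.Finite.mem_toFinset] at hb
    rw [Set.Finite.mem_toFinset]
    exact hb
  exact h2.trans (Nat.mul_le_mul_left C (Finset.card_le_card hmap))

/-- the degree is the order of the group -/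
private theorem M5_deg {K : Type} [Field K] [NumberField K] {n : ℕ} {m : Fin n → ℕ}
    (hm : ∀ k, m k = 2 ∨ m k = 4) {N : IntermediateField K (AlgebraicClosure K)} (hN : N ∈ Ext K (Gm m)) :
    FiniteDimensional K N ∧ Module.finrank K N = ∏ k, m k := by
  obtain ⟨hG, ⟨φ⟩⟩ := hN
  have hne : ∀ k, NeZero (m k) := fun k => ⟨by rcases hm k with h | h <;> rw [h] <;> norm_num⟩
  have hfin : ∀ k, Finite (Multiplicative (ZMod (m k))) := fun k => inferInstance
  have hfG : Finite (Gm m) := inferInstance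
  have hfA : Finite (N ≃ₐ[K] N) := Finite.of_equiv _ φ.symm.toEquiv
  have hfd : FiniteDimensional K N := IsGalois.finiteDimensional_of_finite K N
  refine ⟨hfd, ?_⟩
  rw [← IsGalois.card_aut_eq_finrank, Nat.card_congr φ.toEquiv, Nat.card_pi]
  refine Finset.prod_congr rfl fun k _ => ?_
  rw [Nat.card_congr Multiplicative.toAdd, Nat.card_zmod]

/-- **M5** (medium). **Many fields with the property.** Proof: as `many` (`ntQG/F2.lean`): the fields `NK 4 (sp m π b)` of the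
`b` of the hypothesis, for the box `Z = (X / C)^(1/(2g))` (a constant multiple of `X^(1/(2g))`), have `|disc| ≤ X` by `disc_sp`
(`ntQG/R3.lean`; the degree is `∏ m` by `ext_gen`, `ntQG/K4.lean`; a squarefree `L` with the same primes as the `b_k` and
`nr L ≤ Z`), every field comes from at most `C'` tuples (`fib_sp`, `ntQG/C5.lean`), and `#Box Y ≤ C'' #Box (Y / s)` for large `Y`
(`box_cmp`, second part, `ntQG/C1.lean`). -/
theorem many_good {K : Type} [Field K] [NumberField K] (hK : Module.finrank ℚ K = 2)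
    [IsPrincipalIdealRing (𝓞 K)] [Finite (𝓞 K)ˣ] {i : K} (hi : i ^ 2 = -1) {n : ℕ} {m : Fin n → ℕ}
    (hm : ∀ k, m k = 2 ∨ m k = 4) {g : ℕ} (hg : ∏ k, m k = 4 * g) (hg0 : 0 < g) {π : Fin n → 𝓞 K}
    (hπ : ∀ k, π k ≠ 0)
    (hfin : ∀ X : ℝ, {N : IntermediateField K (AlgebraicClosure K) | N ∈ Ext K (Gm m) ∧ DiscLe N X}.Finite)
    {c : ℝ} (hc : 0 < c) :
    ∃ c' : ℝ, 0 < c' ∧ ∀ P : IntermediateField K (AlgebraicClosure K) → Prop,
      (∀ᶠ Z : ℝ in Filter.atTop, c * (Nat.card (Box K n Z) : ℝ) ≤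
        (Nat.card {b : Fin n → 𝓞 K // b ∈ Box K n Z ∧ NK 4 (sp m π b) ∈ Ext K (Gm m) ∧
          P (NK 4 (sp m π b))} : ℝ)) →
      ∀ᶠ X : ℝ in Filter.atTop, c' * (Nat.card (Box K n (X ^ (1 / (2 * g : ℝ)))) : ℝ) ≤
        (Nat.card {N : IntermediateField K (AlgebraicClosure K) // N ∈ Ext K (Gm m) ∧ DiscLe N X ∧ P N} : ℝ) := by
  classical
  have hn : 0 < n := by
    rcases Nat.eq_zero_or_pos n with h | h
    · subst h
      simp only [Finset.univ_eq_empty, Finset.prod_empty] at hg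
      omega
    · exact h
  obtain ⟨C1, hC1, hdisc⟩ := Pool.Agent.Lib.MP_1a91b9_ntQG.disc_sp hi hm hg hg0 π hπ
  obtain ⟨C3, hfib⟩ := Pool.Agent.Lib.MP_1a91b9_ntQG.fib_sp hi hm hπ
  set D : ℝ := max C1 1 with hD
  have hD1 : 1 ≤ D := le_max_right _ _
  have hD0 : 0 < D := by linarith
  have hgr : (0 : ℝ) < (g : ℝ) := by exact_mod_cast hg0
  have h2g : (0 : ℝ) < 2 * (g : ℝ) := by linarith
  set s : ℝ := D ^ (1 / (2 * (g : ℝ))) with hs
  have hs1 : 1 ≤ s := Real.one_le_rpow hD1 (by positivity)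
  have hs0 : 0 < s := by linarith
  have hspow : s ^ (2 * g) = D := by
    rw [hs, ← Real.rpow_natCast, ← Real.rpow_mul hD0.le]
    have : 1 / (2 * (g : ℝ)) * ((2 * g : ℕ) : ℝ) = 1 := by
      push_cast
      field_simp
    rw [this, Real.rpow_one]
  obtain ⟨C4, hC4, hcmp⟩ := (Pool.Agent.Lib.MP_1a91b9_ntQG.box_cmp hK hi hn).2 s hs1
  have hY : Filter.Tendsto (fun X : ℝ => X ^ (1 / (2 * (g : ℝ)))) Filter.atTop Filter.atTop :=
    tendsto_rpow_atTop (by positivity)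
  have hYs : Filter.Tendsto (fun X : ℝ => X ^ (1 / (2 * (g : ℝ))) / s) Filter.atTop Filter.atTop :=
    hY.atTop_div_const hs0
  refine ⟨c / (C4 * ((C3 : ℝ) + 1)), by positivity, fun P hP => ?_⟩
  filter_upwards [hY.eventually hcmp, hYs.eventually hP, Filter.eventually_ge_atTop (0 : ℝ)] with X hX hXP hX0
  set Y : ℝ := X ^ (1 / (2 * (g : ℝ))) with hYdef
  have hY0 : 0 ≤ Y := Real.rpow_nonneg hX0 _
  have hYpow : Y ^ (2 * g) = X := by
    rw [hYdef, ← Real.rpow_natCast, ← Real.rpow_mul hX0]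
    have : 1 / (2 * (g : ℝ)) * ((2 * g : ℕ) : ℝ) = 1 := by
      push_cast
      field_simp
    rw [this, Real.rpow_one]
  -- the fields of the special family
  have hmem : ∀ b : Fin n → 𝓞 K, b ∈ Box K n (Y / s) ∧ NK 4 (sp m π b) ∈ Ext K (Gm m) ∧ P (NK 4 (sp m π b)) →
      NK 4 (sp m π b) ∈ Ext K (Gm m) ∧ DiscLe (NK 4 (sp m π b)) X ∧ P (NK 4 (sp m π b)) := by
    rintro b ⟨⟨hbs, A, hA0, hAY, hbA⟩, h1, hPb⟩
    obtain ⟨hfd, h2⟩ := M5_deg hm h1
    refine ⟨h1, ?_, hPb⟩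
    have hb0 : ∀ k, b k ≠ 0 := fun k => (hbs k).ne_zero
    have hNF : NumberField (NK 4 (sp m π b)) := NumberField.of_module_finite K _
    obtain ⟨L, hLs, hLp⟩ := Pool.Agent.Lib.MP_1a91b9_ntDF.c0_rad (∏ k, b k)
      (Finset.prod_ne_zero_iff.2 (fun k _ => hb0 k))
    have hLp2 : ∀ P, Prime P → (P ∣ L ↔ ∃ k, P ∣ b k) := by
      intro P hP
      rw [hLp P hP, hP.dvd_finsetProd_iff]
      constructor
      · rintro ⟨k, _, hk⟩
        exact ⟨k, hk⟩
      · rintro ⟨k, hk⟩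
        exact ⟨k, Finset.mem_univ k, hk⟩
    have hLA : L ∣ A := by
      apply M5_sqf_dvd L hLs.ne_zero hLs A
      intro q hq hqL
      obtain ⟨k, hk⟩ := (hLp2 q hq).1 hqL
      exact hk.trans (hbA k)
    have hLY : nr L ≤ Y / s := (M5_nr_le hA0 hLA).trans hAY
    refine ⟨hNF, ?_⟩
    have h3 := hdisc b hbs L hLs hLp2 h2 hNF
    refine h3.trans ?_
    have h4 : nr L ^ (2 * g) ≤ (Y / s) ^ (2 * g) := pow_le_pow_left₀ (M5_nr_nonneg L) hLY _
    have h5 : (Y / s) ^ (2 * g) = X / D := by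
      rw [div_pow, hYpow, hspow]
    rw [h5] at h4
    calc C1 * nr L ^ (2 * g) ≤ D * nr L ^ (2 * g) :=
          mul_le_mul_of_nonneg_right (le_max_left _ _) (pow_nonneg (M5_nr_nonneg L) _)
      _ ≤ D * (X / D) := mul_le_mul_of_nonneg_left h4 hD0.le
      _ = X := by field_simp
  have hTfin : {N : IntermediateField K (AlgebraicClosure K) | N ∈ Ext K (Gm m) ∧ DiscLe N X ∧ P N}.Finite :=
    (hfin X).subset fun N hN => ⟨hN.1, hN.2.1⟩
  have hcount := M5_count (S := {b : Fin n → 𝓞 K | b ∈ Box K n (Y / s) ∧ NK 4 (sp m π b) ∈ Ext K (Gm m) ∧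
      P (NK 4 (sp m π b))})
    (T := {N : IntermediateField K (AlgebraicClosure K) | N ∈ Ext K (Gm m) ∧ DiscLe N X ∧ P N}) hTfin
    (fun b => NK 4 (sp m π b)) hmem C3 (by
      intro N hN
      obtain ⟨hf, hle⟩ := hfib N hN.1
      have hsub : {b : Fin n → 𝓞 K | b ∈ {b : Fin n → 𝓞 K | b ∈ Box K n (Y / s) ∧
          NK 4 (sp m π b) ∈ Ext K (Gm m) ∧ P (NK 4 (sp m π b))} ∧ NK 4 (sp m π b) = N} ⊆
          {b : Fin n → 𝓞 K | (∀ k, Squarefree (b k)) ∧ NK 4 (sp m π b) = N} := by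
        rintro b ⟨⟨⟨hbs, _⟩, _⟩, hbN⟩
        exact ⟨hbs, hbN⟩
      refine ⟨hf.subset hsub, (Set.ncard_le_ncard hsub hf).trans ?_⟩
      exact hle)
  have hcount2 : (Nat.card {b : Fin n → 𝓞 K // b ∈ Box K n (Y / s) ∧ NK 4 (sp m π b) ∈ Ext K (Gm m) ∧
      P (NK 4 (sp m π b))} : ℝ) ≤ (C3 : ℝ) * (Nat.card {N : IntermediateField K (AlgebraicClosure K) //
        N ∈ Ext K (Gm m) ∧ DiscLe N X ∧ P N} : ℝ) := by
    exact_mod_cast hcount
  have hB1 : c * (Nat.card (Box K n Y) : ℝ) ≤ C4 * (((C3 : ℝ) + 1) *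
      (Nat.card {N : IntermediateField K (AlgebraicClosure K) // N ∈ Ext K (Gm m) ∧ DiscLe N X ∧ P N} : ℝ)) := by
    calc c * (Nat.card (Box K n Y) : ℝ) ≤ c * (C4 * (Nat.card (Box K n (Y / s)) : ℝ)) :=
          mul_le_mul_of_nonneg_left hX hc.le
      _ = C4 * (c * (Nat.card (Box K n (Y / s)) : ℝ)) := by ring
      _ ≤ C4 * (((C3 : ℝ) + 1) * (Nat.card {N : IntermediateField K (AlgebraicClosure K) //
            N ∈ Ext K (Gm m) ∧ DiscLe N X ∧ P N} : ℝ)) :=
          mul_le_mul_of_nonneg_left ((hXP.trans hcount2).trans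
            (mul_le_mul_of_nonneg_right (by linarith) (Nat.cast_nonneg _))) hC4.le
  rw [div_mul_eq_mul_div, div_le_iff₀ (by positivity)]
  refine hB1.trans (le_of_eq ?_)
  ring

end Pool.Agent.Lib.MP_1a91b9_ntQH
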