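import Pool.Agent.Lib.MP_1a91b9_ntQH.H1

/-!
# MP_1a91b9_nt (the abelian extensions of exponent four, relative form): Kummer theory
-/

set_option autoImplicit false

namespace Pool.Agent.Lib.MP_1a91b9_ntQH

open NumberField
open Pool.Agent.Lib.MP_1a91b9_ntDF (Kum)

section H3aux

open IntermediateField Polynomial

variable {K N : Type*} [Field K] [Field N] [Algebra K N] {p : ℕ} {ι : Type*} [DecidableEq ι]

/-- The degree of `K(x i, i ∈ s)`. -/
private theorem H3_finrank (hp : p.Prime) {x : ι → N}
    (hxK : ∀ i, ∃ a : K, x i ^ p = algebraMap K N a) (s : Finset ι) :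
    FiniteDimensional K (adjoin K (x '' (s : Set ι))) ∧
      Module.finrank K (adjoin K (x '' (s : Set ι))) ≤ p ^ s.card := by
  induction s using Finset.induction_on with
  | empty =>
    rw [Finset.coe_empty, Set.image_empty, adjoin_empty, Finset.card_empty, pow_zero,
      IntermediateField.finrank_bot]
    exact ⟨inferInstance, le_rfl⟩
  | insert i s hi ih =>
    obtain ⟨h1, h2⟩ := ih
    obtain ⟨a, ha⟩ := hxK i
    have hint : IsIntegral (adjoin K (x '' (s : Set ι))) (x i) := by
      refine ⟨X ^ p - C (algebraMap K _ a), monic_X_pow_sub_C _ hp.ne_zero, ?_⟩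
      rw [eval₂_sub, eval₂_pow, eval₂_X, eval₂_C, ha, ← IsScalarTower.algebraMap_apply, sub_self]
    have h3 : (adjoin (adjoin K (x '' (s : Set ι))) {x i}).restrictScalars K =
        adjoin K (x '' ((insert i s : Finset ι) : Set ι)) := by
      rw [adjoin_adjoin_left, Set.union_comm, ← Set.image_singleton, ← Set.image_union,
        Set.singleton_union, ← Finset.coe_insert]
    rw [← h3]
    have h4 : FiniteDimensional (adjoin K (x '' (s : Set ι))) (adjoin (adjoin K (x '' (s : Set ι))) {x i}) :=
      adjoin.finiteDimensional hint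
    have h5 : Module.finrank (adjoin K (x '' (s : Set ι)))
        (adjoin (adjoin K (x '' (s : Set ι))) {x i}) ≤ p := by
      rw [adjoin.finrank hint]
      have h6 : aeval (x i) (X ^ p - C (algebraMap K (adjoin K (x '' (s : Set ι))) a)) = 0 := by
        rw [map_sub, map_pow, aeval_X, aeval_C, ha, ← IsScalarTower.algebraMap_apply, sub_self]
      have h7 := natDegree_le_of_dvd (minpoly.dvd (adjoin K (x '' (s : Set ι))) (x i) h6)
        (monic_X_pow_sub_C _ hp.ne_zero).ne_zero
      rwa [natDegree_X_pow_sub_C] at h7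
    constructor
    · exact FiniteDimensional.trans K (adjoin K (x '' (s : Set ι)))
        (adjoin (adjoin K (x '' (s : Set ι))) {x i})
    · have h6 := Module.finrank_mul_finrank K (adjoin K (x '' (s : Set ι)))
        (adjoin (adjoin K (x '' (s : Set ι))) {x i})
      have h7 : Module.finrank K ((adjoin (adjoin K (x '' (s : Set ι))) {x i}).restrictScalars K) =
          Module.finrank K (adjoin (adjoin K (x '' (s : Set ι))) {x i}) := rfl
      rw [h7, ← h6, Finset.card_insert_of_notMem hi, pow_succ]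
      exact Nat.mul_le_mul h2 h5

/-- If the degree of `K(x)` is `p ^ r` then a product of powers of the `x i` is in `K` only for the exponents zero. -/
private theorem H3_indep {r : ℕ} (hp : p.Prime) {x : Fin r → N} (hx : ∀ i, x i ≠ 0)
    (hxK : ∀ i, ∃ a : K, x i ^ p = algebraMap K N a) (htop : adjoin K (Set.range x) = ⊤)
    (hr : Module.finrank K N = p ^ r) (χ : Fin r → Fin p) {z : K}
    (hz : algebraMap K N z = ∏ i, x i ^ (χ i : ℕ)) (k : Fin r) : (χ k : ℕ) = 0 := by
  classical
  by_contra hk
  set s : Finset (Fin r) := Finset.univ.erase k with hs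
  have h1 : x k ^ (χ k : ℕ) ∈ adjoin K (x '' (s : Set (Fin r))) := by
    have h2 : x k ^ (χ k : ℕ) = algebraMap K N z * (∏ i ∈ s, x i ^ (χ i : ℕ))⁻¹ := by
      rw [hz, ← Finset.mul_prod_erase _ _ (Finset.mem_univ k), ← hs, mul_assoc, mul_inv_cancel₀, mul_one]
      exact Finset.prod_ne_zero_iff.2 fun i _ => pow_ne_zero _ (hx i)
    rw [h2]
    refine mul_mem (IntermediateField.algebraMap_mem _ _) (inv_mem (prod_mem fun i hi => pow_mem ?_ _))
    exact subset_adjoin K _ ⟨i, hi, rfl⟩
  have h2 : x k ^ p ∈ adjoin K (x '' (s : Set (Fin r))) := by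
    obtain ⟨a, ha⟩ := hxK k
    rw [ha]
    exact IntermediateField.algebraMap_mem _ _
  have h3 : x k ∈ adjoin K (x '' (s : Set (Fin r))) := by
    have h4 : Nat.Coprime (χ k : ℕ) p :=
      (Nat.coprime_comm.1 ((Nat.Prime.coprime_iff_not_dvd hp).2 fun h =>
        hk (Nat.eq_zero_of_dvd_of_lt h (χ k).2)))
    have h5 := Nat.gcd_eq_gcd_ab (χ k : ℕ) p
    rw [h4] at h5
    have h6 : x k = (x k ^ (χ k : ℕ)) ^ (Nat.gcdA (χ k : ℕ) p) * (x k ^ p) ^ (Nat.gcdB (χ k : ℕ) p) := by
      rw [← zpow_natCast, ← zpow_natCast, ← zpow_mul, ← zpow_mul, ← zpow_add₀ (hx k), ← h5]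
      simp
    rw [h6]
    exact mul_mem (zpow_mem h1 _) (zpow_mem h2 _)
  have h4 : adjoin K (x '' (s : Set (Fin r))) = ⊤ := by
    rw [eq_top_iff, ← htop, adjoin_le_iff]
    rintro _ ⟨i, rfl⟩
    by_cases hi : i = k
    · rw [hi]
      exact h3
    · exact subset_adjoin K _ ⟨i, Finset.mem_coe.2 (Finset.mem_erase.2 ⟨hi, Finset.mem_univ i⟩), rfl⟩
  have h5 := (H3_finrank hp hxK s).2
  rw [h4, IntermediateField.finrank_top', hr, hs, Finset.card_erase_of_mem (Finset.mem_univ k),
    Finset.card_univ, Fintype.card_fin] at h5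
  have h6 : r - 1 < r := Nat.sub_lt (Fin.pos k) Nat.one_pos
  exact absurd h5 (not_le.2 (Nat.pow_lt_pow_right hp.one_lt h6))

end H3aux

/-- **H3a** (medium-). The square roots are independent. Proof: if `∏_{k ∈ J} y_k` is in `F` and `j ∈ J` then `y_j` is in the
field generated over `F` by the other `y_k`, so that `M` is generated over `F` by `n - 1` square roots and has the degree at
most `2 ^ (n - 1)` (`kum_finrank` in `ntDF/KU.lean`). -/
theorem indep {F M : Type} [Field F] [NumberField F] [Field M] [NumberField M] [Algebra F M] {n : ℕ}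
    {y : Fin n → M} (hy : ∀ k, ∃ c : F, c ≠ 0 ∧ y k ^ 2 = algebraMap F M c)
    (hM : IntermediateField.adjoin F (Set.range y) = ⊤) (hdeg : Module.finrank F M = 2 ^ n)
    (J : Finset (Fin n)) (hJ : J.Nonempty) : ¬ ∃ f : F, algebraMap F M f = ∏ k ∈ J, y k := by
  classical
  rintro ⟨f, hf⟩
  obtain ⟨k, hk⟩ := hJ
  have hy0 : ∀ k, y k ≠ 0 := by
    intro k h
    obtain ⟨c, hc, hck⟩ := hy k
    rw [h, zero_pow two_ne_zero] at hck
    exact hc ((map_eq_zero_iff _ (algebraMap F M).injective).1 hck.symm)
  have h1 := H3_indep Nat.prime_two hy0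
    (fun i => ⟨(hy i).choose, (hy i).choose_spec.2⟩) hM hdeg (fun i => if i ∈ J then 1 else 0) (z := f) (by
      rw [hf, ← Finset.prod_subset (Finset.subset_univ J)]
      · refine Finset.prod_congr rfl fun i hi => ?_
        rw [if_pos hi]
        exact (pow_one _).symm
      · intro i _ hi
        rw [if_neg hi]
        exact pow_zero _) k
  rw [if_pos hk] at h1
  exact one_ne_zero h1

/-- **H3b** (easy+). The square of an element with the fourth power in `K` is fixed by the involutions. Proof: for `σ` over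
`P` `σ z = i^k z`, and `z = σ (σ z) = i^(2k) z`, so `k` is even and `σ (z²) = z²`; `N / P` is Galois. (`z = 0` trivial.) -/
theorem sq_mem {K : Type} [Field K] [NumberField K] {i : K} (hi : i ^ 2 = -1) {N : Type} [Field N]
    [NumberField N] [Algebra K N] [IsGalois K N] (P : Type) [Field P] [NumberField P] [Algebra K P] [Algebra P N]
    [IsScalarTower K P N] (hP : ∀ σ : N ≃ₐ[P] N, σ * σ = 1) {z : N} {c : K} (hz : z ^ 4 = algebraMap K N c) :
    ∃ p : P, algebraMap P N p = z ^ 2 := by
  have hgal : IsGalois P N := IsGalois.tower_top_of_isGalois K P N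
  by_cases h0 : z = 0
  · exact ⟨0, by rw [h0, map_zero, zero_pow two_ne_zero]⟩
  have hfix : ∀ σ : N ≃ₐ[P] N, σ (z ^ 2) = z ^ 2 := by
    intro σ
    have hc : ∀ a : K, σ (algebraMap K N a) = algebraMap K N a := by
      intro a
      rw [IsScalarTower.algebraMap_apply K P N, AlgEquiv.commutes]
    have h2 : σ (σ z) = z := by
      have h := congrArg (fun τ : N ≃ₐ[P] N => τ z) (hP σ)
      exact h
    have h4 : (σ z) ^ 4 = z ^ 4 := by
      rw [← map_pow, hz, hc]
    set u : N := σ z / z with hu
    have hσz : σ z = u * z := by rw [hu, div_mul_cancel₀ _ h0]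
    have hu4 : u ^ 4 = 1 := by rw [hu, div_pow, h4, div_self (pow_ne_zero _ h0)]
    have hI : (algebraMap K N i) ^ 2 = -1 := by rw [← map_pow, hi, map_neg, map_one]
    have hcase : u ^ 2 = 1 ∨ u ^ 2 = -1 := by
      have h : (u ^ 2) * (u ^ 2) = 1 := by rw [← pow_add, hu4]
      exact mul_self_eq_one_iff.1 h
    rcases hcase with h | h
    · rw [map_pow, hσz, mul_pow, h, one_mul]
    · exfalso
      have h5 : u = algebraMap K N i ∨ u = -algebraMap K N i := by
        rw [← sq_eq_sq_iff_eq_or_eq_neg, h, hI]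
      have h6 : σ u = u := by
        rcases h5 with h5 | h5
        · rw [h5, hc]
        · rw [h5, map_neg, hc]
      rw [hσz, map_mul, h6, hσz, ← mul_assoc, ← sq, h, neg_one_mul] at h2
      have h7 : (2 : N) * z = 0 := by
        rw [two_mul]
        nth_rewrite 1 [← h2]
        exact neg_add_cancel z
      exact (mul_ne_zero two_ne_zero h0) h7
  have h := (IsGalois.mem_bot_iff_fixed (F := P) (z ^ 2)).2 hfix
  exact IntermediateField.mem_bot.1 h

/-- **H3c** (easy+). The condition on the involutions is inherited by the larger fields (trivial: restrict the scalars).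
-/
theorem inv_up {P P' N : Type} [Field P] [Field P'] [Field N] [Algebra P P'] [Algebra P N] [Algebra P' N]
    [IsScalarTower P P' N] (hP : ∀ σ : N ≃ₐ[P] N, σ * σ = 1) : ∀ σ : N ≃ₐ[P'] N, σ * σ = 1 := by
  intro σ
  have h := hP (σ.restrictScalars P)
  ext x
  exact congrArg (fun τ : N ≃ₐ[P] N => τ x) h

end Pool.Agent.Lib.MP_1a91b9_ntQH
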