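import Pool.Agent.Lib.MP_1a91b9_ntQH.W0
import Pool.Agent.Lib.MP_1a91b9_ntQH.H3
import Pool.Agent.Lib.MP_1a91b9_ntQG.R4
import Pool.Agent.Lib.MP_1a91b9_ntQG.C0
import Pool.Agent.Lib.MP_1a91b9_ntDT.P5

/-!
# MP_1a91b9_nt (the abelian extensions of exponent four, all the intermediate fields): the laws and the group
-/

set_option autoImplicit false

namespace Pool.Agent.Lib.MP_1a91b9_ntQH

open NumberField
open Pool.Agent.Lib.MP_1a91b9_ntDF (tw NK cK)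
open Pool.Agent.Lib.MP_1a91b9_ntQD (nr)
open Pool.Agent.Lib.MP_1a91b9_ntQG (Box Ext Gm sp)

open Pool.Agent.Lib.MP_1a91b9_ntDF (cst Kum)

private theorem W7_ind {K F : Type} [Field K] [Field F] [NumberField F] [Algebra K F] {n : ℕ} {b : Fin n → K}
    (hb : ∀ k, b k ≠ 0)
    (hdeg : ∀ (N : Type) [Field N] [NumberField N] [Algebra F N] (x : Fin n → N),
      (∀ k, x k ^ 2 = algebraMap F N (algebraMap K F (b k))) →
      IntermediateField.adjoin F (Set.range x) = ⊤ → Module.finrank F N = 2 ^ n)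
    (J : Finset (Fin n)) (hJ : J.Nonempty) (f : F) : f ^ 2 ≠ algebraMap K F (∏ k ∈ J, b k) := by
  have h0 : ∀ k, ∃ y : AlgebraicClosure F, y ^ 2 = algebraMap F (AlgebraicClosure F) (algebraMap K F (b k)) :=
    fun k => IsAlgClosed.exists_pow_nat_eq _ two_pos
  choose y hy using h0
  have hint : ∀ x ∈ Set.range y, IsIntegral F x := by
    rintro _ ⟨k, rfl⟩
    exact (Algebra.IsAlgebraic.isAlgebraic (R := F) (y k)).isIntegral
  have hfd : FiniteDimensional F (IntermediateField.adjoin F (Set.range y)) :=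
    IntermediateField.finiteDimensional_adjoin hint
  have hnf : NumberField (IntermediateField.adjoin F (Set.range y)) := NumberField.of_module_finite F _
  have hx : ∀ k, y k ∈ IntermediateField.adjoin F (Set.range y) :=
    fun k => IntermediateField.subset_adjoin F _ ⟨k, rfl⟩
  obtain ⟨x, hxdef⟩ : ∃ x : Fin n → IntermediateField.adjoin F (Set.range y), ∀ k,
      (x k : AlgebraicClosure F) = y k := ⟨fun k => ⟨y k, hx k⟩, fun _ => rfl⟩
  have hx2 : ∀ k, x k ^ 2 = algebraMap F (IntermediateField.adjoin F (Set.range y)) (algebraMap K F (b k)) := by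
    intro k
    apply Subtype.ext
    show ((x k : IntermediateField.adjoin F (Set.range y)) : AlgebraicClosure F) ^ 2 = _
    rw [hxdef, hy]
    rfl
  have htop : IntermediateField.adjoin F (Set.range x) = ⊤ := by
    rw [eq_top_iff]
    have h1 : IntermediateField.map (IntermediateField.adjoin F (Set.range y)).val
        (IntermediateField.adjoin F (Set.range x)) = IntermediateField.adjoin F (Set.range y) := by
      rw [IntermediateField.adjoin_map, ← Set.range_comp]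
      congr 1
      congr 1
      funext k
      exact hxdef k
    intro z _
    have h2 : (z : AlgebraicClosure F) ∈ IntermediateField.map
        (IntermediateField.adjoin F (Set.range y)).val (IntermediateField.adjoin F (Set.range x)) := by
      rw [h1]
      exact z.2
    obtain ⟨w, hw, hwz⟩ := h2
    have h3 : w = z := Subtype.ext hwz
    rw [← h3]
    exact hw
  have hd := hdeg _ x hx2 htop
  have hI := indep (y := x) (fun k => ⟨algebraMap K F (b k), (map_ne_zero _).2 (hb k), hx2 k⟩) htop hd J hJ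
  intro hf
  have h4 : (∏ k ∈ J, x k) ^ 2 =
      (algebraMap F (IntermediateField.adjoin F (Set.range y)) f) ^ 2 := by
    rw [← Finset.prod_pow, ← map_pow, hf, map_prod, map_prod]
    exact Finset.prod_congr rfl fun k _ => hx2 k
  rcases sq_eq_sq_iff_eq_or_eq_neg.1 h4 with h5 | h5
  · exact hI ⟨f, h5.symm⟩
  · exact hI ⟨-f, by rw [map_neg]; exact h5.symm⟩

private theorem W7_split {R : Type} [CommMonoid R] {n : ℕ} (b : Fin n → R) (c : Fin n → ℕ) :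
    ∏ k, b k ^ c k = (∏ k ∈ Finset.univ.filter (fun k => Odd (c k)), b k) * (∏ k, b k ^ (c k / 2)) ^ 2 := by
  rw [Finset.prod_filter, ← Finset.prod_pow, ← Finset.prod_mul_distrib]
  refine Finset.prod_congr rfl fun k _ => ?_
  split_ifs with h
  · obtain ⟨t, ht⟩ := h
    have e1 : c k / 2 = t := by omega
    rw [e1, ht, ← pow_mul, pow_succ, mul_comm, mul_comm t 2]
  · rw [Nat.not_odd_iff_even] at h
    obtain ⟨t, ht⟩ := h
    have e1 : c k / 2 = t := by omega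
    rw [e1, ht, ← pow_mul, one_mul, mul_two]

private theorem W7_sq {L : Type} [Field L] {i B w : L} (hi : i ^ 2 = -1) (h : B ^ 2 = w ^ 4) :
    ∃ s : L, s ^ 2 = B := by
  have h1 : B ^ 2 = (w ^ 2) ^ 2 := by
    rw [h]
    ring
  rcases sq_eq_sq_iff_eq_or_eq_neg.1 h1 with h2 | h2
  · exact ⟨w, h2.symm⟩
  · refine ⟨i * w, ?_⟩
    rw [mul_pow, hi, h2]
    ring

/-- The group of the special fields. -/
private theorem W7_group {K : Type} [Field K] [NumberField K] {i : K} (hi : i ^ 2 = -1)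
    {n : ℕ} {m : Fin n → ℕ} (hm : ∀ k, m k = 2 ∨ m k = 4) {π : Fin n → 𝓞 K} (hπ0 : ∀ k, π k ≠ 0)
    (hπ1 : ∀ k, m k = 2 → π k = 1)
    (hind : ∀ J : Finset (Fin n), J.Nonempty → (∀ k ∈ J, m k = 4) → ¬ IsSquare (∏ k ∈ J, ((π k : 𝓞 K) : K)))
    {b : Fin n → 𝓞 K} (hb : ∀ k, b k ≠ 0)
    (hdeg : ∀ J : Finset (Fin n), J.Nonempty → ∀ f : NK 4 (fun k => ((π k : 𝓞 K) : K)),
      f ^ 2 ≠ algebraMap K (NK 4 (fun k => ((π k : 𝓞 K) : K))) (∏ k ∈ J, ((b k : 𝓞 K) : K))) :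
    NK 4 (sp m π b) ∈ Ext K (Gm m) := by
  have hc0 : ∀ x : 𝓞 K, x ≠ 0 → (x : K) ≠ 0 := fun x hx => RingOfIntegers.coe_ne_zero_iff.2 hx
  have hsp : ∀ k, sp m π b k = (π k : K) * (b k : K) ^ 2 := by
    intro k
    unfold sp
    split_ifs with h
    · rfl
    · have h2 : m k = 2 := (hm k).resolve_right h
      rw [hπ1 k h2]
      show (1 : K) ^ 2 * _ = (1 : K) * _
      rw [one_pow]
  have hw : ∀ k, sp m π b k ≠ 0 := by
    intro k
    rw [hsp]
    exact mul_ne_zero (hc0 _ (hπ0 k)) (pow_ne_zero 2 (hc0 _ (hb k)))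
  refine (Pool.Agent.Lib.MP_1a91b9_ntQG.mem_ext hi hm hw ?_ ?_).1
  · intro k hk
    refine ⟨(b k : K), ?_⟩
    rw [hsp, hπ1 k hk]
    show (1 : K) * _ = _
    rw [one_mul, pow_two]
  · rintro c ⟨z, hz⟩
    have hP0 : ∀ d : Fin n → ℕ, ∏ k, ((π k : 𝓞 K) : K) ^ d k ≠ 0 := fun d =>
      Finset.prod_ne_zero_iff.2 fun k _ => pow_ne_zero _ (hc0 _ (hπ0 k))
    have hB0 : ∀ d : Fin n → ℕ, ∏ k, ((b k : 𝓞 K) : K) ^ d k ≠ 0 := fun d =>
      Finset.prod_ne_zero_iff.2 fun k _ => pow_ne_zero _ (hc0 _ (hb k))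
    have hz1 : (∏ k, ((π k : 𝓞 K) : K) ^ c k) * (∏ k, ((b k : 𝓞 K) : K) ^ c k) ^ 2 = z ^ 4 := by
      rw [← hz, ← Finset.prod_pow, ← Finset.prod_mul_distrib]
      refine Finset.prod_congr rfl fun k _ => ?_
      rw [hsp]
      ring
    -- all the exponents are even
    have heven : ∀ k, Even (c k) := by
      obtain ⟨-, -, y, hy⟩ := Pool.Agent.Lib.MP_1a91b9_ntQG.nk4_kum (K := K) hi (w := fun k => ((π k : 𝓞 K) : K)) (fun k => hc0 _ (hπ0 k))
      have hiF : (algebraMap K (NK 4 (fun k => ((π k : 𝓞 K) : K))) i) ^ 2 = -1 := by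
        rw [← map_pow, hi, map_neg, map_one]
      have hy0 : ∏ k, y k ^ c k ≠ 0 := by
        refine Finset.prod_ne_zero_iff.2 fun k _ => pow_ne_zero _ fun h => ?_
        have h1 := hy.pow k
        rw [h, zero_pow (by norm_num)] at h1
        exact hc0 _ (hπ0 k) ((map_eq_zero _).1 h1.symm)
      have hY : (∏ k, y k ^ c k) ^ 4 =
          algebraMap K (NK 4 (fun k => ((π k : 𝓞 K) : K))) (∏ k, ((π k : 𝓞 K) : K) ^ c k) := by
        rw [← Finset.prod_pow, map_prod]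
        refine Finset.prod_congr rfl fun k _ => ?_
        rw [← pow_mul, mul_comm, pow_mul, hy.pow k, map_pow]
      have h2 := congrArg (algebraMap K (NK 4 (fun k => ((π k : 𝓞 K) : K)))) hz1
      rw [map_mul, ← hY, map_pow, map_pow] at h2
      have h3 : (algebraMap K (NK 4 (fun k => ((π k : 𝓞 K) : K))) (∏ k, ((b k : 𝓞 K) : K) ^ c k)) ^ 2 =
          (algebraMap K (NK 4 (fun k => ((π k : 𝓞 K) : K))) z / ∏ k, y k ^ c k) ^ 4 := by
        rw [div_pow, eq_div_iff (pow_ne_zero 4 hy0), ← h2]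
        ring
      obtain ⟨s, hs⟩ := W7_sq hiF h3
      rw [W7_split (fun k => ((b k : 𝓞 K) : K)) c, map_mul, map_pow] at hs
      intro k
      by_contra hk
      have hJ : (Finset.univ.filter (fun k => Odd (c k))).Nonempty :=
        ⟨k, Finset.mem_filter.2 ⟨Finset.mem_univ k, Nat.not_even_iff_odd.1 hk⟩⟩
      have hD0 : algebraMap K (NK 4 (fun k => ((π k : 𝓞 K) : K))) (∏ k, ((b k : 𝓞 K) : K) ^ (c k / 2)) ≠ 0 :=
        (map_ne_zero _).2 (hB0 _)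
      refine hdeg _ hJ (s / algebraMap K (NK 4 (fun k => ((π k : 𝓞 K) : K)))
        (∏ k, ((b k : 𝓞 K) : K) ^ (c k / 2))) ?_
      rw [div_pow, hs, mul_div_assoc, div_self (pow_ne_zero 2 hD0), mul_one]
    intro k
    rcases hm k with h | h
    · rw [h]
      exact (heven k).two_dvd
    -- the exponents for `m k = 4`
    choose c' hc' using heven
    have hc2 : ∀ k, c k = c' k * 2 := fun k => by
      rw [hc' k]
      ring
    have h4 : ((∏ k, ((π k : 𝓞 K) : K) ^ c' k) * (∏ k, ((b k : 𝓞 K) : K) ^ c' k) ^ 2) ^ 2 = z ^ 4 := by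
      rw [← hz1]
      have e1 : ∏ k, ((π k : 𝓞 K) : K) ^ c k = (∏ k, ((π k : 𝓞 K) : K) ^ c' k) ^ 2 := by
        rw [← Finset.prod_pow]
        refine Finset.prod_congr rfl fun k _ => ?_
        rw [hc2 k, pow_mul]
      have e2 : ∏ k, ((b k : 𝓞 K) : K) ^ c k = (∏ k, ((b k : 𝓞 K) : K) ^ c' k) ^ 2 := by
        rw [← Finset.prod_pow]
        refine Finset.prod_congr rfl fun k _ => ?_
        rw [hc2 k, pow_mul]
      rw [e1, e2]
      ring
    obtain ⟨s, hs⟩ := W7_sq hi h4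
    obtain ⟨r, hr⟩ : ∃ r, r = s / ∏ k, ((b k : 𝓞 K) : K) ^ c' k := ⟨_, rfl⟩
    have h5 : r ^ 2 = ∏ k, ((π k : 𝓞 K) : K) ^ c' k := by
      rw [hr, div_pow, hs, mul_div_assoc, div_self (pow_ne_zero 2 (hB0 c')), mul_one]
    have hev : Even (c' k) := by
      by_contra hk
      rw [W7_split (fun k => ((π k : 𝓞 K) : K)) c'] at h5
      have hJ : (Finset.univ.filter (fun k => Odd (c' k) ∧ m k = 4)).Nonempty :=
        ⟨k, Finset.mem_filter.2 ⟨Finset.mem_univ k, Nat.not_even_iff_odd.1 hk, h⟩⟩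
      refine hind _ hJ (fun k hk => (Finset.mem_filter.1 hk).2.2) ?_
      have h7 : ∏ k ∈ Finset.univ.filter (fun k => Odd (c' k) ∧ m k = 4), ((π k : 𝓞 K) : K) =
          ∏ k ∈ Finset.univ.filter (fun k => Odd (c' k)), ((π k : 𝓞 K) : K) := by
        refine Finset.prod_subset (fun k hk => ?_) (fun k hk hk' => ?_)
        · exact Finset.mem_filter.2 ⟨Finset.mem_univ k, (Finset.mem_filter.1 hk).2.1⟩
        · have h8 : m k ≠ 4 := fun h8 => hk' (Finset.mem_filter.2 ⟨Finset.mem_univ k, (Finset.mem_filter.1 hk).2, h8⟩)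
          rw [hπ1 k ((hm k).resolve_right h8)]
          rfl
      rw [h7]
      have hD0 : ∏ k, ((π k : 𝓞 K) : K) ^ (c' k / 2) ≠ 0 := hP0 _
      refine ⟨r / ∏ k, ((π k : 𝓞 K) : K) ^ (c' k / 2), ?_⟩
      rw [← pow_two, div_pow, h5, mul_div_assoc, div_self (pow_ne_zero 2 hD0), mul_one]
    obtain ⟨t, ht⟩ := hev
    rw [h, hc2 k, ht]
    exact ⟨t, by ring⟩

private theorem W7_pf {R : Type} [CommMonoid R] (x : R) :
    Squarefree x ↔ Pool.Agent.Lib.MP_1a91b9_ntDF.Pf 2 x := by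
  constructor
  · intro h y hy
    exact h y (by rwa [← pow_two])
  · intro h y hy
    exact h y (by rwa [pow_two])

private theorem W7_all {K : Type} [Field K] [NumberField K] {n : ℕ} (Z : ℝ) (d : Fin n → 𝓞 K) :
    ((∀ i, Pool.Agent.Lib.MP_1a91b9_ntDF.Pf 2 (d i) ∧ ((2 : ℕ) : 𝓞 K) ^ 0 ∣ d i - (fun _ => 0 : Fin n → 𝓞 K) i) ∧
      ∃ A : 𝓞 K, A ≠ 0 ∧ |Algebra.norm ℤ A| ≤ Z ∧ ∀ i, d i ∣ A ^ (2 - 1)) ↔ d ∈ Box K n Z := by
  constructor
  · rintro ⟨h1, A, hA, hZ, h2⟩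
    refine ⟨fun k => (W7_pf _).2 (h1 k).1, A, hA, ?_, fun k => ?_⟩
    · unfold nr
      exact_mod_cast hZ
    · have h3 := h2 k
      rwa [show 2 - 1 = 1 from rfl, pow_one] at h3
  · rintro ⟨h1, A, hA, hZ, h2⟩
    refine ⟨fun k => ⟨(W7_pf _).1 (h1 k), ?_⟩, A, hA, ?_, fun k => ?_⟩
    · rw [pow_zero]
      exact one_dvd _
    · unfold nr at hZ
      exact_mod_cast hZ
    · rw [show 2 - 1 = 1 from rfl, pow_one]
      exact h2 k

private theorem W7_gen {K : Type} [Field K] [NumberField K] {i : K} (hi : i ^ 2 = -1) {n : ℕ} {w : Fin n → K}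
    (hw : ∀ k, w k ≠ 0) :
    IntermediateField.adjoin K {x : NK 4 w | ∃ c : K, x ^ 4 = algebraMap K (NK 4 w) c} = ⊤ := by
  obtain ⟨-, -, y, hy⟩ := Pool.Agent.Lib.MP_1a91b9_ntQG.nk4_kum hi hw
  rw [eq_top_iff, ← hy.top]
  refine IntermediateField.adjoin.mono _ _ _ ?_
  rintro _ ⟨k, rfl⟩
  exact ⟨w k, hy.pow k⟩

private theorem W7_tw {K : Type} [Field K] (A : K) :
    tw 2 (⟨0, 0, 0, A, 0⟩ : WeierstrassCurve K) K 1 = (⟨0, 0, 0, A, 0⟩ : WeierstrassCurve K) := by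
  ext
  · rfl
  · simp [Pool.Agent.Lib.MP_1a91b9_ntDF.tw]
  · simp [Pool.Agent.Lib.MP_1a91b9_ntDF.tw]
  · simp [Pool.Agent.Lib.MP_1a91b9_ntDF.tw]
  · rfl

private theorem W7_cst (p : ℕ) (K F : Type) [Field K] [NumberField K] [Field F] : 0 < cst p K F := by
  unfold cst
  split_ifs with h1
  · exact Pool.Agent.Lib.MP_1a91b9_ntZ.cb_three.1
  all_goals
    refine (Pool.Agent.Lib.MP_1a91b9_ntZ.cb_two (P := Prime (2 : 𝓞 K)) (Q := ∃ x : F, x ^ 2 = -1)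
      (R := Squarefree (2 : 𝓞 K)) ?_).1
    simp only [*, if_true, if_false]

/-- The tuples with the property `M` for one curve. -/
private theorem W7_law {K : Type} [Field K] [NumberField K] (hK : Module.finrank ℚ K = 2) {i : K} (hi : i ^ 2 = -1)
    (F : Type) [Field F] [NumberField F] [Algebra K F]
    (hF : IntermediateField.adjoin K {x : F | ∃ c : K, x ^ 4 = algebraMap K F c} = ⊤) (n : ℕ) :
    ∃ v : ℝ, 0 < v ∧ ∀ A : K, A ≠ 0 → ∀ᶠ Z : ℝ in Filter.atTop,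
      v ≤ (Nat.card {b : Fin n → 𝓞 K // b ∈ Box K n Z ∧
        Pool.Agent.Lib.MP_1a91b9_ntMQ.Fin.PropMF (⟨0, 0, 0, A, 0⟩ : WeierstrassCurve K) F (cK K b)} : ℝ) /
        (Nat.card (Box K n Z) : ℝ) := by
  classical
  obtain ⟨c, hc⟩ : ∃ c, c = cst 2 K F ^ ((2 ^ n - 1) * Module.finrank K F) := ⟨_, rfl⟩
  have hc0 : 0 < c := by
    rw [hc]
    exact pow_pos (W7_cst 2 K F) _
  refine ⟨c / 2, by linarith, fun A hA => ?_⟩
  have hΔ : (⟨0, 0, 0, A, 0⟩ : WeierstrassCurve K).Δ ≠ 0 := by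
    have h1 : (⟨0, 0, 0, A, 0⟩ : WeierstrassCurve K).Δ = -64 * A ^ 3 := by
      simp only [WeierstrassCurve.Δ, WeierstrassCurve.b₂, WeierstrassCurve.b₄,
        WeierstrassCurve.b₆, WeierstrassCurve.b₈]
      ring
    rw [h1]
    exact mul_ne_zero (by norm_num) (pow_ne_zero _ hA)
  have hj : (⟨0, 0, 0, A, 0⟩ : WeierstrassCurve K).c₄ ^ 3 =
      ((1728 : ℤ) : K) * (⟨0, 0, 0, A, 0⟩ : WeierstrassCurve K).Δ := by
    simp only [WeierstrassCurve.Δ, WeierstrassCurve.b₂, WeierstrassCurve.b₄,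
      WeierstrassCurve.b₆, WeierstrassCurve.b₈, WeierstrassCurve.c₄]
    push_cast
    ring
  have hD : ∃ s : K, s ^ 2 = ((-4 : ℤ) : K) := by
    refine ⟨2 * i, ?_⟩
    rw [mul_pow, hi]
    push_cast
    norm_num
  have hu : ∀ (k : Fin n) (q : 𝓞 K), Prime q →
      ¬ (q ^ 2 ∣ ((2 : ℕ) : 𝓞 K) ^ 0 ∧ q ^ 2 ∣ (fun _ => 0 : Fin n → 𝓞 K) k) := by
    rintro _ q hq ⟨h, -⟩
    rw [pow_zero] at h
    exact hq.not_isUnit (isUnit_of_dvd_one ((dvd_pow_self q two_ne_zero).trans h))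
  have hv : c = if ({1} : Set K).Infinite then 1 else ∑ j ∈ Finset.Icc 1 ({1} : Set K).ncard,
      ((({1} : Set K).ncard.choose j : ℕ) : ℝ) *
      (cst 2 K F ^ ((2 ^ n - 1) * Module.finrank K F)) ^ j *
        (1 - cst 2 K F ^ ((2 ^ n - 1) * Module.finrank K F)) ^ (({1} : Set K).ncard - j) := by
    rw [if_neg (Set.not_infinite.2 (Set.finite_singleton 1)), Set.ncard_singleton, ← hc]
    simp
  have key := Pool.Agent.Lib.MP_1a91b9_ntDT.l2T K hK (⟨0, 0, 0, A, 0⟩ : WeierstrassCurve K)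
    ⟨rfl, rfl, rfl⟩ hΔ 1728 (-4) (by simp) hj hD 4 (Or.inr ⟨rfl, i, hi⟩) F hF n
    {1} (fun h => one_ne_zero (Set.mem_singleton_iff.1 h).symm)
    (fun δ hδ δ' hδ' hne => absurd ((Set.mem_singleton_iff.1 hδ).trans (Set.mem_singleton_iff.1 hδ').symm) hne)
    0 (fun _ => 0) hu 1 c hv (c / 2) (by linarith)
  filter_upwards [key] with Z hZ
  have e1 : {d : Fin n → 𝓞 K |
      (∀ i, Pool.Agent.Lib.MP_1a91b9_ntDF.Pf 2 (d i) ∧ ((2 : ℕ) : 𝓞 K) ^ 0 ∣ d i - (fun _ => 0 : Fin n → 𝓞 K) i) ∧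
      ∃ A : 𝓞 K, A ≠ 0 ∧ |Algebra.norm ℤ A| ≤ Z ∧ ∀ i, d i ∣ A ^ (2 - 1)} = Box K n Z :=
    Set.ext fun d => W7_all Z d
  have e2 : {d : Fin n → 𝓞 K |
      (∀ i, Pool.Agent.Lib.MP_1a91b9_ntDF.Pf 2 (d i) ∧ ((2 : ℕ) : 𝓞 K) ^ 0 ∣ d i - (fun _ => 0 : Fin n → 𝓞 K) i) ∧
      (∃ A : 𝓞 K, A ≠ 0 ∧ |Algebra.norm ℤ A| ≤ Z ∧ ∀ i, d i ∣ A ^ (2 - 1)) ∧
      (1 : ℕ) ≤ {δ ∈ ({1} : Set K) | Pool.Agent.Lib.MP_1a91b9_ntMQ.Fin.PropMF
        (tw 2 (⟨0, 0, 0, A, 0⟩ : WeierstrassCurve K) K δ) F (cK K d)}.encard} =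
      {b : Fin n → 𝓞 K | b ∈ Box K n Z ∧
        Pool.Agent.Lib.MP_1a91b9_ntMQ.Fin.PropMF (⟨0, 0, 0, A, 0⟩ : WeierstrassCurve K) F (cK K b)} := by
    ext d
    have h1 : ((1 : ℕ) : ℕ∞) ≤ {δ ∈ ({1} : Set K) | Pool.Agent.Lib.MP_1a91b9_ntMQ.Fin.PropMF
        (tw 2 (⟨0, 0, 0, A, 0⟩ : WeierstrassCurve K) K δ) F (cK K d)}.encard ↔
        Pool.Agent.Lib.MP_1a91b9_ntMQ.Fin.PropMF (⟨0, 0, 0, A, 0⟩ : WeierstrassCurve K) F (cK K d) := by
      rw [Nat.cast_one, Set.one_le_encard_iff_nonempty]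
      constructor
      · rintro ⟨δ, hδ, h⟩
        rw [Set.mem_singleton_iff.1 hδ, W7_tw] at h
        exact h
      · intro h
        refine ⟨1, rfl, ?_⟩
        rw [W7_tw]
        exact h
    rw [Set.mem_ofPred_eq, Set.mem_ofPred_eq, ← W7_all Z d, h1, and_assoc]
  have hZ' : c - c / 2 ≤ (Nat.card ({d : Fin n → 𝓞 K |
      (∀ i, Pool.Agent.Lib.MP_1a91b9_ntDF.Pf 2 (d i) ∧ ((2 : ℕ) : 𝓞 K) ^ 0 ∣ d i - (fun _ => 0 : Fin n → 𝓞 K) i) ∧
      (∃ A : 𝓞 K, A ≠ 0 ∧ |Algebra.norm ℤ A| ≤ Z ∧ ∀ i, d i ∣ A ^ (2 - 1)) ∧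
      (1 : ℕ) ≤ {δ ∈ ({1} : Set K) | Pool.Agent.Lib.MP_1a91b9_ntMQ.Fin.PropMF
        (tw 2 (⟨0, 0, 0, A, 0⟩ : WeierstrassCurve K) K δ) F (cK K d)}.encard} : Set (Fin n → 𝓞 K)) : ℝ) /
      (Nat.card ({d : Fin n → 𝓞 K |
      (∀ i, Pool.Agent.Lib.MP_1a91b9_ntDF.Pf 2 (d i) ∧ ((2 : ℕ) : 𝓞 K) ^ 0 ∣ d i - (fun _ => 0 : Fin n → 𝓞 K) i) ∧
      ∃ A : 𝓞 K, A ≠ 0 ∧ |Algebra.norm ℤ A| ≤ Z ∧ ∀ i, d i ∣ A ^ (2 - 1)} : Set (Fin n → 𝓞 K)) : ℝ) := hZ
  rw [e1, e2] at hZ'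
  have h3 : c / 2 = c - c / 2 := by ring
  rw [h3]
  exact hZ'


/-- **W7a** (easy+). **The law for one curve.** Proof: the private `M2_law` of `M2.lean` (copy). -/
theorem law_F {K : Type} [Field K] [NumberField K] (hK : Module.finrank ℚ K = 2) {i : K} (hi : i ^ 2 = -1)
    {n : ℕ} {e : Fin n → K} (he : ∀ k, e k ≠ 0) [NumberField (NK 4 e)] :
    ∃ v : ℝ, 0 < v ∧ ∀ A : K, A ≠ 0 → ∀ᶠ Z : ℝ in Filter.atTop,
      v ≤ (Nat.card {b : Fin n → 𝓞 K // b ∈ Box K n Z ∧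
        Pool.Agent.Lib.MP_1a91b9_ntMQ.Fin.PropMF (⟨0, 0, 0, A, 0⟩ : WeierstrassCurve K) (NK 4 e) (cK K b)} : ℝ) /
        (Nat.card (Box K n Z) : ℝ) := by
  exact W7_law hK hi (NK 4 e) (W7_gen hi he) n

/-- **W7b** (easy+). **A tuple with the property `M` over `K`.** Proof: `l2T` (`ntDT/P5.lean`) for `F = K`, `l = 4`, `T = {1}`, as in `W7a` (or in
`X2.lean`): the proportion is positive for large `Z`, so there is a tuple. -/
theorem exists_e {K : Type} [Field K] [NumberField K] (hK : Module.finrank ℚ K = 2) {i : K} (hi : i ^ 2 = -1)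
    {A : K} (hA : A ≠ 0) (n : ℕ) :
    ∃ e : Fin n → 𝓞 K, (∀ k, Squarefree (e k)) ∧
      Pool.Agent.Lib.MP_1a91b9_ntMQ.Fin.PropMF (⟨0, 0, 0, A, 0⟩ : WeierstrassCurve K) K (cK K e) := by
  have hF : IntermediateField.adjoin K {x : K | ∃ c : K, x ^ 4 = algebraMap K K c} = ⊤ := by
    rw [eq_top_iff]
    intro x _
    exact IntermediateField.algebraMap_mem _ x
  obtain ⟨v, hv, h⟩ := W7_law hK hi K hF n
  obtain ⟨Z, hZ⟩ := (h A hA).exists
  have h1 : 0 < (Nat.card {b : Fin n → 𝓞 K // b ∈ Box K n Z ∧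
        Pool.Agent.Lib.MP_1a91b9_ntMQ.Fin.PropMF (⟨0, 0, 0, A, 0⟩ : WeierstrassCurve K) K (cK K b)}) := by
    rw [Nat.pos_iff_ne_zero]
    intro h0
    rw [h0, Nat.cast_zero, zero_div] at hZ
    exact absurd hZ (not_le.2 hv)
  obtain ⟨⟨⟨b, hb, hM⟩⟩, -⟩ := Nat.card_pos_iff.1 h1
  exact ⟨b, hb.1, hM⟩

/-- **W7c** (medium-). **The group of the special fields.** Proof: the private `M2_group` of `M2.lean` (copy), where the `π k` are replaced by
the `e k`: the last step (the `c' k` with `m k = 4` are even as `∏ e_k ^ c'_k` is a square in `K`) is `hind`: if `J` is the set of the `k` with `m k = 4`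
and `c' k` odd then `∏_(k in J) e_k` is a square, so `J` is empty. -/
theorem grp_famA {K : Type} [Field K] [NumberField K] {i : K} (hi : i ^ 2 = -1)
    {n : ℕ} {m : Fin n → ℕ} (hm : ∀ k, m k = 2 ∨ m k = 4) {e : Fin n → 𝓞 K} (he : ∀ k, e k ≠ 0)
    {b : Fin n → 𝓞 K} (hb : ∀ k, b k ≠ 0)
    (hind : ∀ J : Finset (Fin n), J.Nonempty → ¬ IsSquare (∏ k ∈ J, ((e k : 𝓞 K) : K)))
    (hdeg : ∀ J : Finset (Fin n), J.Nonempty →
      ∀ f : NK 4 (fun k => (((if m k = 4 then e k else 1 : 𝓞 K)) : K)),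
      f ^ 2 ≠ algebraMap K (NK 4 (fun k => (((if m k = 4 then e k else 1 : 𝓞 K)) : K)))
        (∏ k ∈ J, ((b k : 𝓞 K) : K))) :
    NK 4 (sp m (fun k => if m k = 4 then e k else 1) b) ∈ Ext K (Gm m) := by
  refine W7_group hi hm (π := fun k => if m k = 4 then e k else 1) (fun k => ?_) (fun k hk => ?_) ?_ hb hdeg
  · split_ifs
    · exact he k
    · exact one_ne_zero
  · exact if_neg (by omega)
  · intro J hJ h4 hsq
    refine hind J hJ ?_
    have h1 : ∏ k ∈ J, (((if m k = 4 then e k else 1 : 𝓞 K)) : K) = ∏ k ∈ J, ((e k : 𝓞 K) : K) :=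
      Finset.prod_congr rfl fun k hk => by rw [if_pos (h4 k hk)]
    rw [← h1]
    exact hsq

/-- **W7d** (easy+). The products are not squares in `F` (the private `M2_ind` of `M2.lean`, copy), `F` any field above `K`. -/
theorem ind_F {K F : Type} [Field K] [NumberField K] [Field F] [NumberField F] [Algebra K F] {A : K} {n : ℕ}
    {b : Fin n → K} (hb : ∀ k, b k ≠ 0)
    (hM : Pool.Agent.Lib.MP_1a91b9_ntMQ.Fin.PropMF (⟨0, 0, 0, A, 0⟩ : WeierstrassCurve K) F b)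
    (J : Finset (Fin n)) (hJ : J.Nonempty) (f : F) : f ^ 2 ≠ algebraMap K F (∏ k ∈ J, b k) := by
  exact W7_ind hb (fun N _ _ _ x hx htop => (hM N x hx htop).1) J hJ f

end Pool.Agent.Lib.MP_1a91b9_ntQH
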