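import Pool.Agent.Lib.MP_1a91b9_ntQH.W6
import Pool.Agent.Lib.MP_1a91b9_ntQH.W7
import Pool.Agent.Lib.MP_1a91b9_ntQH.M4
import Pool.Agent.Lib.MP_1a91b9_ntQH.M5

/-!
# MP_1a91b9_nt (the abelian extensions of exponent four, all the intermediate fields): a positive proportion
-/

set_option autoImplicit false

namespace Pool.Agent.Lib.MP_1a91b9_ntQH

open NumberField
open Pool.Agent.Lib.MP_1a91b9_ntDF (tw NK cK DiscLe)
open Pool.Agent.Lib.MP_1a91b9_ntQD (nr)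
open Pool.Agent.Lib.MP_1a91b9_ntQG (Box Ext Gm sp)

/-- **W8a** (easy+). **The special family.** Proof: as `law_one` (`M2.lean`, its last theorem) with `exists_e`, `law_F` for `d_k = e_k` or `1`,
`grp_famA` (`ind_F` for `e` over `K` and for `b` over `F`), `propA_fam`. -/
theorem law_oneA {K : Type} [Field K] [NumberField K] (hK : Module.finrank ℚ K = 2) [IsPrincipalIdealRing (𝓞 K)]
    [Finite (𝓞 K)ˣ] (hfin : ∀ Z : ℝ, {x : 𝓞 K | x ≠ 0 ∧ nr x ≤ Z}.Finite) {i : K} (hi : i ^ 2 = -1)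
    {n : ℕ} {m : Fin n → ℕ} (hm : ∀ k, m k = 2 ∨ m k = 4) {A : K} (hA : A ≠ 0) :
    ∃ e : Fin n → 𝓞 K, (∀ k, e k ≠ 0) ∧ ∃ c : ℝ, 0 < c ∧ ∀ᶠ Z : ℝ in Filter.atTop,
      c * (Nat.card (Box K n Z) : ℝ) ≤ (Nat.card {b : Fin n → 𝓞 K // b ∈ Box K n Z ∧
        NK 4 (sp m (fun k => if m k = 4 then e k else 1) b) ∈ Ext K (Gm m) ∧
        PropA (⟨0, 0, 0, A, 0⟩ : WeierstrassCurve K) (NK 4 (sp m (fun k => if m k = 4 then e k else 1) b))} : ℝ) := by
  classical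
  obtain ⟨e, hsq, hM0⟩ := exists_e hK hi hA n
  have he0 : ∀ k, e k ≠ 0 := fun k => (hsq k).ne_zero
  have heK : ∀ k, cK K e k ≠ 0 := fun k => RingOfIntegers.coe_ne_zero_iff.2 (he0 k)
  have hd : ∀ k, (((if m k = 4 then e k else 1 : 𝓞 K)) : K) ≠ 0 := by
    intro k
    refine RingOfIntegers.coe_ne_zero_iff.2 ?_
    split_ifs
    · exact he0 k
    · exact one_ne_zero
  refine ⟨e, he0, ?_⟩
  obtain ⟨-, hnf, -⟩ := Pool.Agent.Lib.MP_1a91b9_ntQG.nk4_kum hi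
    (w := fun k => (((if m k = 4 then e k else 1 : 𝓞 K)) : K)) hd
  obtain ⟨v, hv, hlaw⟩ := law_F hK hi (e := fun k => (((if m k = 4 then e k else 1 : 𝓞 K)) : K)) hd
  refine ⟨v, hv, ?_⟩
  filter_upwards [hlaw A hA, Filter.eventually_ge_atTop (1 : ℝ)] with Z hZ hZ1
  have hB : (0 : ℝ) < (Nat.card (Box K n Z) : ℝ) := by
    exact_mod_cast Pool.Agent.Lib.MP_1a91b9_ntQG.box_pos hfin n hZ1
  rw [le_div_iff₀ hB] at hZ
  refine hZ.trans ?_
  have hbf := Pool.Agent.Lib.MP_1a91b9_ntQG.box_fin hfin n Z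
  have h1 : {b : Fin n → 𝓞 K | b ∈ Box K n Z ∧
      Pool.Agent.Lib.MP_1a91b9_ntMQ.Fin.PropMF (⟨0, 0, 0, A, 0⟩ : WeierstrassCurve K)
        (NK 4 fun k => (((if m k = 4 then e k else 1 : 𝓞 K)) : K)) (cK K b)} ⊆
      {b : Fin n → 𝓞 K | b ∈ Box K n Z ∧
        NK 4 (sp m (fun k => if m k = 4 then e k else 1) b) ∈ Ext K (Gm m) ∧
        PropA (⟨0, 0, 0, A, 0⟩ : WeierstrassCurve K) (NK 4 (sp m (fun k => if m k = 4 then e k else 1) b))} := by
    rintro b ⟨hb, hM⟩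
    have hb0 : ∀ k, b k ≠ 0 := fun k => (hb.1 k).ne_zero
    have hbK : ∀ k, cK K b k ≠ 0 := fun k => RingOfIntegers.coe_ne_zero_iff.2 (hb0 k)
    refine ⟨hb, ?_, ?_⟩
    · refine grp_famA hi hm he0 hb0 (fun J hJ hsqr => ?_) (fun J hJ f => ?_)
      · obtain ⟨r, hr⟩ := hsqr
        exact ind_F heK hM0 J hJ r (by rw [pow_two, ← hr]; rfl)
      · exact ind_F hbK hM J hJ f
    · have h2 : sp m (fun k => if m k = 4 then e k else 1) b =
          fun k => (((if m k = 4 then e k else 1 : 𝓞 K)) : K) * (cK K b k) ^ 2 := by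
        funext k
        by_cases h : m k = 4
        · simp only [sp, if_pos h]
          rfl
        · simp only [sp, if_neg h]
          show ((1 : 𝓞 K) : K) ^ 2 * (cK K b k) ^ 2 = ((1 : 𝓞 K) : K) * (cK K b k) ^ 2
          have h1 : ((1 : 𝓞 K) : K) = 1 := rfl
          rw [h1, one_pow]
      rw [h2]
      refine propA_fam hK hi hA (e := cK K e) heK hbK (fun k => ?_) hM0 hM
      split_ifs with h
      · exact Or.inl rfl
      · exact Or.inr (map_one _)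
  have h2 := Nat.card_mono (hbf.subset fun b hb => hb.1) h1
  exact_mod_cast h2

/-- **W8** (easy+). **A positive proportion.** Proof: as `pos_prop` (`M6.lean`) with `law_oneA`, `many_good`, `total_le`. -/
theorem pos_propA {K : Type} [Field K] [NumberField K] (hK : Module.finrank ℚ K = 2)
    [IsPrincipalIdealRing (𝓞 K)] [Finite (𝓞 K)ˣ] {i : K} (hi : i ^ 2 = -1) {n : ℕ} {m : Fin n → ℕ}
    (hm : ∀ k, m k = 2 ∨ m k = 4) {g : ℕ} (hg : ∏ k, m k = 4 * g) (hg0 : 0 < g) {A : K} (hA : A ≠ 0) :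
    ∃ c : ℝ, 0 < c ∧ ∀ᶠ X : ℝ in Filter.atTop, c ≤
      (Nat.card {N : IntermediateField K (AlgebraicClosure K) // N ∈ Ext K (Gm m) ∧ DiscLe N X ∧
        PropA (⟨0, 0, 0, A, 0⟩ : WeierstrassCurve K) N} : ℝ) /
      (Nat.card {N : IntermediateField K (AlgebraicClosure K) // N ∈ Ext K (Gm m) ∧ DiscLe N X} : ℝ) := by
  classical
  have hnf := (Pool.Agent.Lib.MP_1a91b9_ntQD.card_le hK hi).1
  obtain ⟨hfin, -⟩ := Pool.Agent.Lib.MP_1a91b9_ntQG.few_bad hK hi hm hg hg0 (fun _ => True) (fun j ε hε => by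
    filter_upwards with Z
    have h0 : IsEmpty {b : Fin n → 𝓞 K // b ∈ Box K n Z ∧
        Module.finrank K (Pool.Agent.Lib.MP_1a91b9_ntQG.QQ j b) = ∏ k, m k ∧ ¬ True} :=
      ⟨fun b => b.2.2.2 trivial⟩
    rw [Nat.card_of_isEmpty, Nat.cast_zero]
    positivity)
  obtain ⟨e, he0, c, hc, hlaw⟩ := law_oneA hK hnf hi hm hA
  obtain ⟨c', hc', hmany⟩ := many_good hK hi hm hg hg0 (π := fun k => if m k = 4 then e k else 1)
    (fun k => by
      split_ifs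
      · exact he0 k
      · exact one_ne_zero) hfin hc
  obtain ⟨C, hC, htot⟩ := total_le hK hi hm hg hg0
  refine ⟨c' / C, div_pos hc' hC, ?_⟩
  filter_upwards [hmany (fun N => PropA (⟨0, 0, 0, A, 0⟩ : WeierstrassCurve K) N) hlaw,
    Filter.eventually_ge_atTop (1 : ℝ)] with X h1 hX
  have hY : (1 : ℝ) ≤ X ^ (1 / (2 * g : ℝ)) := Real.one_le_rpow hX (by positivity)
  have hB : (0 : ℝ) < (Nat.card (Box K n (X ^ (1 / (2 * g : ℝ)))) : ℝ) := by
    exact_mod_cast Pool.Agent.Lib.MP_1a91b9_ntQG.box_pos hnf n hY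
  have h2 := htot X
  have h3 : (Nat.card {N : IntermediateField K (AlgebraicClosure K) // N ∈ Ext K (Gm m) ∧ DiscLe N X ∧
      PropA (⟨0, 0, 0, A, 0⟩ : WeierstrassCurve K) N} : ℝ) ≤
      (Nat.card {N : IntermediateField K (AlgebraicClosure K) // N ∈ Ext K (Gm m) ∧ DiscLe N X} : ℝ) := by
    have h4 : {N : IntermediateField K (AlgebraicClosure K) | N ∈ Ext K (Gm m) ∧
        DiscLe N X ∧ PropA (⟨0, 0, 0, A, 0⟩ : WeierstrassCurve K) N} ⊆
        {N : IntermediateField K (AlgebraicClosure K) | N ∈ Ext K (Gm m) ∧ DiscLe N X} :=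
      fun N hN => ⟨hN.1, hN.2.1⟩
    exact_mod_cast Set.ncard_le_ncard h4 (hfin X)
  have hall : (0 : ℝ) < (Nat.card {N : IntermediateField K (AlgebraicClosure K) //
      N ∈ Ext K (Gm m) ∧ DiscLe N X} : ℝ) := lt_of_lt_of_le (mul_pos hc' hB) (h1.trans h3)
  rw [div_le_div_iff₀ hC hall]
  nlinarith [mul_le_mul_of_nonneg_left h2 hc'.le, mul_le_mul_of_nonneg_right h1 hC.le]

end Pool.Agent.Lib.MP_1a91b9_ntQH
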