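import Pool.Agent.Lib.MP_1a91b9_ntQH.Fin
import Pool.Agent.Lib.MP_1a91b9_ntQH.W8
import Pool.Agent.Lib.MP_1a91b9_ntQT.B1

/-!
# MP_1a91b9_nt (the abelian extensions of exponent four, all the intermediate fields): the theorem
-/

set_option autoImplicit false

namespace Pool.Agent.Lib.MP_1a91b9_ntQH

open NumberField
open Pool.Agent.Lib.MP_1a91b9_ntL (crv)
open Pool.Agent.Lib.MP_1a91b9_ntDF (DiscLe)
open Pool.Agent.Lib.MP_1a91b9_ntQG (Ext Gm)

/-- `K` is a principal ideal domain. -/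
private theorem Fin2_pid {K : Type} [Field K] [NumberField K] (hK : Module.finrank ℚ K = 2) {i : K}
    (hi : i ^ 2 = -1) : IsPrincipalIdealRing (𝓞 K) := by
  have hW : Pool.Agent.Lib.MP_1a91b9_ntY.CMK (crv (0 : K) 1) := by
    refine ⟨?_, 1728, -4, 2 * i, ?_, ?_, ?_⟩
    · rw [Pool.Agent.Lib.MP_1a91b9_ntY.crv_Δ]
      norm_num
    · simp [Pool.Agent.Lib.MP_1a91b9_ntY.cmList]
    · rw [mul_pow, hi]
      push_cast
      norm_num
    · refine Pool.Agent.Lib.MP_1a91b9_ntY.hasJ_crv ?_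
      push_cast
      norm_num
  have hP : Pool.Agent.Lib.MP_1a91b9_ntY.Pt2 (crv (0 : K) 1) := by
    refine ⟨0, ?_⟩
    unfold crv WeierstrassCurve.b₂ WeierstrassCurve.b₄ WeierstrassCurve.b₆
    ring
  exact Pool.Agent.Lib.MP_1a91b9_ntC.pid_of hK hW hP

/-- `𝓞 K` has finitely many units. -/
private theorem Fin2_units {K : Type} [Field K] [NumberField K] (hK : Module.finrank ℚ K = 2) {i : K}
    (hi : i ^ 2 = -1) : Finite (𝓞 K)ˣ := by
  have h1 : (2 * i) ^ 2 = ((-4 : ℤ) : K) := by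
    rw [mul_pow, hi]
    push_cast
    norm_num
  exact Pool.Agent.Lib.MP_1a91b9_ntW.J.finite_units hK
    (Pool.Agent.Lib.MP_1a91b9_ntW.J.no_real h1 (by norm_num))

/-- isomorphic groups have the same extensions -/
private theorem Fin2_ext {K : Type} [Field K] {G H : Type} [Group G] [Group H] (φ : G ≃* H) :
    Ext K G = Ext K H := by
  ext N
  exact ⟨fun h => ⟨h.1, ⟨h.2.some.trans φ⟩⟩, fun h => ⟨h.1, ⟨h.2.some.trans φ.symm⟩⟩⟩

/-- for the groups of exponent two the two properties are the same -/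
private theorem Fin2_two {K : Type} [Field K] [NumberField K] {E : WeierstrassCurve K} {n : ℕ} {m : Fin n → ℕ}
    (hm : ∀ k, m k = 2) {N : IntermediateField K (AlgebraicClosure K)} (hN : N ∈ Ext K (Gm m)) :
    PropN E N ↔ PropA E N := by
  refine ⟨fun h P _ _ _ _ _ => h P fun σ => ?_, fun h P _ _ _ _ _ _ => h P⟩
  obtain ⟨-, ⟨φ⟩⟩ := hN
  have h1 : ∀ τ : N ≃ₐ[K] N, τ * τ = 1 := by
    intro τ
    apply φ.injective
    rw [map_mul, map_one]
    funext k
    have h2 : ((2 : ℕ) : ZMod (m k)) = 0 := by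
      rw [ZMod.natCast_eq_zero_iff, hm k]
    have h3 : Multiplicative.toAdd (φ τ k) + Multiplicative.toAdd (φ τ k) = 0 := by
      have h4 : (2 : ZMod (m k)) * Multiplicative.toAdd (φ τ k) = 0 := by
        rw [show (2 : ZMod (m k)) = ((2 : ℕ) : ZMod (m k)) from rfl, h2, zero_mul]
      rw [← two_mul]
      exact h4
    exact h3
  have h2 := h1 (σ.restrictScalars K)
  ext x
  have h3 := congrArg (fun τ : N ≃ₐ[K] N => (τ x : AlgebraicClosure K)) h2
  exact h3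

/-- the curve `y² = x³ + x`: the L-series over `K` is not zero at `1` -/
private theorem Fin2_one {K : Type} [Field K] [NumberField K] (hK : Module.finrank ℚ K = 2) {i : K}
    (hi : i ^ 2 = -1) {N : Type} [Field N] [NumberField N] [Algebra K N] {E : WeierstrassCurve K}
    (hE : E = ⟨0, 0, 0, 1, 0⟩) (h : PropA E N) : AllS E N := by
  subst hE
  obtain ⟨⟨g, g1, g2, g3⟩, -⟩ := Pool.Agent.Lib.MP_1a91b9_ntQT.b1 hK hi
  have h1 := h K
  refine h1.2.2 ⟨g, g1, fun s hs => ?_, g3⟩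
  have h2 : (⟨0, 0, 0, 1, 0⟩ : WeierstrassCurve K).baseChange K = ⟨0, 0, 0, 1, 0⟩ := WeierstrassCurve.map_id _
  rw [h2]
  exact g2 s hs

/-- **All the intermediate fields, one curve.** -/
theorem fin_A (K : Type) [Field K] [NumberField K] (hK : Module.finrank ℚ K = 2) (hi : ∃ i : K, i ^ 2 = -1)
    (G : Type) [CommGroup G] [Finite G] (hG : ∀ x : G, x ^ 4 = 1) (A : K) (hA : A ≠ 0) :
    ∃ c : ℝ, 0 < c ∧ ∀ᶠ X : ℝ in Filter.atTop, c ≤
      (Nat.card {N : IntermediateField K (AlgebraicClosure K) // N ∈ Ext K G ∧ DiscLe N X ∧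
        PropA (⟨0, 0, 0, A, 0⟩ : WeierstrassCurve K) N} : ℝ) /
      (Nat.card {N : IntermediateField K (AlgebraicClosure K) // N ∈ Ext K G ∧ DiscLe N X} : ℝ) := by
  obtain ⟨i, hi⟩ := hi
  have hpi : IsPrincipalIdealRing (𝓞 K) := Fin2_pid hK hi
  have hfu : Finite (𝓞 K)ˣ := Fin2_units hK hi
  have hfin := (Pool.Agent.Lib.MP_1a91b9_ntQD.card_le hK hi).1
  obtain ⟨n, m, hm, ⟨φ⟩⟩ := Pool.Agent.Lib.MP_1a91b9_ntQG.grp G hG
  rw [Fin2_ext φ]
  by_cases h4 : ∃ k, m k = 4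
  · obtain ⟨g, hg0, hg⟩ := Pool.Agent.Lib.MP_1a91b9_ntQG.grp_four hm h4
    exact pos_propA hK hi hm hg hg0 hA
  · have h2 : ∀ k, m k = 2 := fun k => (hm k).resolve_right fun h => h4 ⟨k, h⟩
    obtain ⟨c, hc, h⟩ := exp_two_one hK hfin hi h2
    refine ⟨c, hc, ?_⟩
    filter_upwards [h A hA] with X hX
    have h5 : {N : IntermediateField K (AlgebraicClosure K) | N ∈ Ext K (Gm m) ∧ DiscLe N X ∧
        PropN (⟨0, 0, 0, A, 0⟩ : WeierstrassCurve K) N} =
        {N : IntermediateField K (AlgebraicClosure K) | N ∈ Ext K (Gm m) ∧ DiscLe N X ∧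
        PropA (⟨0, 0, 0, A, 0⟩ : WeierstrassCurve K) N} := by
      ext N
      exact and_congr_right fun hN => and_congr_right fun _ => Fin2_two h2 hN
    have h6 : Nat.card {N : IntermediateField K (AlgebraicClosure K) // N ∈ Ext K (Gm m) ∧ DiscLe N X ∧
        PropN (⟨0, 0, 0, A, 0⟩ : WeierstrassCurve K) N} =
        Nat.card {N : IntermediateField K (AlgebraicClosure K) // N ∈ Ext K (Gm m) ∧ DiscLe N X ∧
        PropA (⟨0, 0, 0, A, 0⟩ : WeierstrassCurve K) N} :=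
      congrArg (fun s : Set (IntermediateField K (AlgebraicClosure K)) => Nat.card s) h5
    rw [← h6]
    exact hX

/-- **All the intermediate fields, one curve, with the example.** -/
theorem fin_A1 (K : Type) [Field K] [NumberField K] (hK : Module.finrank ℚ K = 2) (hi : ∃ i : K, i ^ 2 = -1)
    (G : Type) [CommGroup G] [Finite G] (hG : ∀ x : G, x ^ 4 = 1) (A : K) (hA : A ≠ 0) :
    ∃ c : ℝ, 0 < c ∧ ∀ᶠ X : ℝ in Filter.atTop, c ≤
      (Nat.card {N : IntermediateField K (AlgebraicClosure K) // N ∈ Ext K G ∧ DiscLe N X ∧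
        (PropA (⟨0, 0, 0, A, 0⟩ : WeierstrassCurve K) N ∧
          ((⟨0, 0, 0, A, 0⟩ : WeierstrassCurve K) = ⟨0, 0, 0, 1, 0⟩ →
            AllS (⟨0, 0, 0, A, 0⟩ : WeierstrassCurve K) N))} : ℝ) /
      (Nat.card {N : IntermediateField K (AlgebraicClosure K) // N ∈ Ext K G ∧ DiscLe N X} : ℝ) := by
  obtain ⟨c, hc, h⟩ := fin_A K hK hi G hG A hA
  obtain ⟨i, hi⟩ := hi
  refine ⟨c, hc, ?_⟩
  filter_upwards [h] with X hX
  have h5 : {N : IntermediateField K (AlgebraicClosure K) | N ∈ Ext K G ∧ DiscLe N X ∧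
      PropA (⟨0, 0, 0, A, 0⟩ : WeierstrassCurve K) N} =
      {N : IntermediateField K (AlgebraicClosure K) | N ∈ Ext K G ∧ DiscLe N X ∧
      (PropA (⟨0, 0, 0, A, 0⟩ : WeierstrassCurve K) N ∧
          ((⟨0, 0, 0, A, 0⟩ : WeierstrassCurve K) = ⟨0, 0, 0, 1, 0⟩ →
            AllS (⟨0, 0, 0, A, 0⟩ : WeierstrassCurve K) N))} := by
    ext N
    refine and_congr_right fun hN => and_congr_right fun hD => ⟨fun h => ⟨h, fun hE => ?_⟩, fun h => h.1⟩
    obtain ⟨hnf, -⟩ := hD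
    exact Fin2_one hK hi hE h
  have h6 : Nat.card {N : IntermediateField K (AlgebraicClosure K) // N ∈ Ext K G ∧ DiscLe N X ∧
      PropA (⟨0, 0, 0, A, 0⟩ : WeierstrassCurve K) N} =
      Nat.card {N : IntermediateField K (AlgebraicClosure K) // N ∈ Ext K G ∧ DiscLe N X ∧
      (PropA (⟨0, 0, 0, A, 0⟩ : WeierstrassCurve K) N ∧
          ((⟨0, 0, 0, A, 0⟩ : WeierstrassCurve K) = ⟨0, 0, 0, 1, 0⟩ →
            AllS (⟨0, 0, 0, A, 0⟩ : WeierstrassCurve K) N))} :=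
    congrArg (fun s : Set (IntermediateField K (AlgebraicClosure K)) => Nat.card s) h5
  rw [← h6]
  exact hX

end Pool.Agent.Lib.MP_1a91b9_ntQH
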