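import Pool.Agent.Lib.MP_1a91b9_ntDZ.Z0
import Pool.Agent.Lib.MP_1a91b9_ntQT.Q1
import Pool.Agent.Lib.MP_1a91b9_ntQG.D0

/-!
# MP_1a91b9_nt (the abelian extensions of exponent four, relative form): definitions
-/

set_option autoImplicit false

namespace Pool.Agent.Lib.MP_1a91b9_ntQH

open NumberField
open Pool.Agent.Lib.MP_1a91b9_ntDV.Fin (RamOK RelBSD BSD0)
open Pool.Agent.Lib.MP_1a91b9_ntQT.Fin (PropS PropR5)
open Pool.Agent.Lib.MP_1a91b9_ntDZ (LNonzero)

/-- The curve `W` has the property `S` over all the fields between `K` and `N`. -/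
def AllS {K : Type} [Field K] [NumberField K] (W : WeierstrassCurve K) (N : Type) [Field N] [Algebra K N] :
    Prop :=
  ∀ (P : Type) [Field P] [NumberField P] [Algebra K P] [Algebra P N] [IsScalarTower K P N],
    PropS K (W.baseChange P)

/-- **The property `N`** of the extension `N` of `K`, for the fields `P` above the field fixed by the elements of order
two of the Galois group. -/
def PropN {K : Type} [Field K] [NumberField K] (E : WeierstrassCurve K) (N : Type) [Field N] [Algebra K N] :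
    Prop :=
  ∀ (P : Type) [Field P] [NumberField P] [Algebra K P] [Algebra P N] [IsScalarTower K P N],
    (∀ σ : N ≃ₐ[P] N, σ * σ = 1) →
    (∀ (P' : Type) [Field P'] [NumberField P'] [Algebra K P'] [Algebra P P'] [IsScalarTower K P P']
      [Algebra P' N] [IsScalarTower P P' N],
      (∀ x' y' : P', (E.baseChange P').toAffine.Equation x' y' →
        ∃ x y : P, algebraMap P P' x = x' ∧ algebraMap P P' y = y') ∧
      (∃ g : ℂ → ℂ, Differentiable ℂ g ∧ g 1 ≠ 0 ∧ ∀ s : ℂ, 3 / 2 < s.re →
        (E.baseChange P').LSeries s = (E.baseChange P).LSeries s * g s) ∧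
      (Module.finrank P P' ≠ 1 → ∃ S : Finset ℕ, ∀ (q : ℕ) [Fact q.Prime], q ∉ S →
        RelBSD q (E.baseChange P) ((E.baseChange P).baseChange P'))) ∧
    (∀ e : P, ¬ IsSquare e → (∃ x : N, x ^ 2 = algebraMap P N e) → PropR5 E P e) ∧
    ((∃ g : ℂ → ℂ, Differentiable ℂ g ∧ (∀ s : ℂ, 3 / 2 < s.re → g s = (E.baseChange P).LSeries s) ∧
      g 1 ≠ 0) → AllS E N)

/-- The first hypothesis: the twists of rank zero. -/
def HypL {K : Type} [Field K] [NumberField K] (A : K) (N : Type) [Field N] [Algebra K N] : Prop :=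
  ∀ (P : Type) [Field P] [NumberField P] [Algebra K P] [Algebra P N] [IsScalarTower K P N],
    (∀ σ : N ≃ₐ[P] N, σ * σ = 1) →
    ∀ e : P, (∃ c : K, e ^ 2 = algebraMap K P c) → (∃ x : N, x ^ 2 = algebraMap P N e) → ¬ IsSquare e →
      LNonzero (⟨0, 0, 0, algebraMap K P A * e ^ 2, 0⟩ : WeierstrassCurve P)

/-- The second hypothesis: the points. -/
def HypP {K : Type} [Field K] [NumberField K] (A : K) (N : Type) [Field N] [Algebra K N] : Prop :=
  ∀ (P : Type) [Field P] [NumberField P] [Algebra K P] [Algebra P N] [IsScalarTower K P N],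
    (∀ σ : N ≃ₐ[P] N, σ * σ = 1) →
    ∀ x' y' : N, y' ^ 2 = x' ^ 3 + algebraMap K N A * x' →
      ∃ x y : P, algebraMap P N x = x' ∧ algebraMap P N y = y'

end Pool.Agent.Lib.MP_1a91b9_ntQH
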