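import Pool.Agent.Lib.MP_1a91b9_ntDF.D0

/-!
# MP_1a91b9_nt (the abelian extensions of exponent four, relative form): Kummer theory
-/

set_option autoImplicit false

namespace Pool.Agent.Lib.MP_1a91b9_ntQH

open NumberField
open Pool.Agent.Lib.MP_1a91b9_ntDF (Kum)

/-- The situation: `N` is generated by the fourth roots `x k = z k * y k` of the `e k * b k ^ 2`, `z k` in `F` a fourth root
of `e k`, and `M` is generated over `F` by the square roots `y k` of the `b k`, of the degree `2 ^ n`. -/
structure Sit (K F N M : Type) [Field K] [Field F] [Field N] [Field M] [Algebra K F] [Algebra K N] [Algebra K M]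
    [Algebra F M] [Algebra N M] {n : ℕ} (e b : Fin n → K) (z : Fin n → F) (y : Fin n → M) (x : Fin n → N) :
    Prop where
  he : ∀ k, e k ≠ 0
  hb : ∀ k, b k ≠ 0
  hz : ∀ k, z k ^ 4 = algebraMap K F (e k)
  hy : ∀ k, y k ^ 2 = algebraMap K M (b k)
  hx : ∀ k, algebraMap N M (x k) = algebraMap F M (z k) * y k
  hN : IntermediateField.adjoin K (Set.range x) = ⊤
  hM : IntermediateField.adjoin F (Set.range y) = ⊤
  deg : Module.finrank F M = 2 ^ n

end Pool.Agent.Lib.MP_1a91b9_ntQH
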