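import Pool.Agent.Lib.MP_1a91b9_ntQH.H0

/-!
# MP_1a91b9_nt (the abelian extensions of exponent four, relative form): the property `R` modulo squares
-/

set_option autoImplicit false

namespace Pool.Agent.Lib.MP_1a91b9_ntQH

open NumberField
open Pool.Agent.Lib.MP_1a91b9_ntDV.Fin (RamOK RelBSD BSD0)
open Pool.Agent.Lib.MP_1a91b9_ntQT.Fin (PropS PropR5)

private theorem H10_ram {K F : Type} [Field K] [NumberField K] [Field F] [NumberField F] [Algebra K F]
    {V V' : WeierstrassCurve F} {C₁ : WeierstrassCurve.VariableChange F} (hV : C₁ • V = V') {q : ℕ} {L : Type}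
    [Field L] [NumberField L] [Algebra F L] (hR : RamOK K V q L) : RamOK K V' q L := by
  intro v w hvw
  refine ⟨(hR v w hvw).1, fun hv V₀ C₀ hV₀ hΔ => ?_⟩
  refine (hR v w hvw).2 hv V₀ (C₀ * C₁) ?_ hΔ
  rw [mul_smul, hV]
  exact hV₀

private theorem H10_propS {K F : Type} [Field K] [NumberField K] [Field F] [NumberField F] [Algebra K F]
    {V V' : WeierstrassCurve F} {C₁ : WeierstrassCurve.VariableChange F} (hV : C₁ • V = V') (h : PropS K V') :
    PropS K V := by
  obtain ⟨S, hS⟩ := h
  refine ⟨S, fun q hq hqS j L M _ _ _ _ _ _ _ _ _ hM hR N _ _ _ W C hC => ?_⟩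
  refine hS q hqS j L M hM (H10_ram hV hR) N W (C₁.map (algebraMap F L) * C) ?_
  rw [mul_smul, hC, ← hV]
  exact WeierstrassCurve.map_variableChange V C₁ (algebraMap F L)

private theorem H10_vc {F : Type} [Field F] (a e : F) (u : Fˣ) :
    (⟨u, 0, 0, 0⟩ : WeierstrassCurve.VariableChange F) •
      (⟨0, 0, 0, a * ((u : F) ^ 2 * e) ^ 2, 0⟩ : WeierstrassCurve F) = ⟨0, 0, 0, a * e ^ 2, 0⟩ := by
  have hu : (u : F) ≠ 0 := u.ne_zero
  ext
  · simp [WeierstrassCurve.variableChange_a₁]
  · simp [WeierstrassCurve.variableChange_a₂]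
  · simp [WeierstrassCurve.variableChange_a₃]
  · simp only [WeierstrassCurve.variableChange_a₄, Units.val_inv_eq_inv_val]
    field_simp
    ring
  · simp [WeierstrassCurve.variableChange_a₆]

/-- **H10** (easy+). **The property `R` depends only on the class modulo squares.** Proof: the curves
`⟨0, 0, 0, A e², 0⟩` and `⟨0, 0, 0, A (c² e)², 0⟩` over `P` are isomorphic (`u = c` or `c⁻¹`: a `VariableChange`), `RamOK K V q L`,
`PropS K V` depend only on the isomorphism class of `V` over `P` (in `PropS` compose the change of variables `C` with the one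
over `L`; compare `towP_vc` in `ntJ`), and a root `y` of `c² e` over `L` gives the root `c⁻¹ y` of `e`, which generates the same
field. -/
theorem propR_sq {K : Type} [Field K] [NumberField K] {A : K} {P : Type} [Field P] [NumberField P]
    [Algebra K P] {e c : P} (hc : c ≠ 0) (h : PropR5 (⟨0, 0, 0, A, 0⟩ : WeierstrassCurve K) P e) :
    PropR5 (⟨0, 0, 0, A, 0⟩ : WeierstrassCurve K) P (c ^ 2 * e) := by
  obtain ⟨u, hu⟩ : ∃ u : Pˣ, (u : P) = c := ⟨Units.mk0 c hc, rfl⟩
  rintro V rfl
  obtain ⟨h1, S, h2⟩ := h _ rfl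
  have hV : (⟨u, 0, 0, 0⟩ : WeierstrassCurve.VariableChange P) •
      (⟨0, 0, 0, algebraMap K P A * (c ^ 2 * e) ^ 2, 0⟩ : WeierstrassCurve P) =
      ⟨0, 0, 0, algebraMap K P A * e ^ 2, 0⟩ := by
    rw [← hu]
    exact H10_vc _ _ u
  refine ⟨H10_propS hV h1, S, fun q hq hqS k L M _ _ _ _ _ _ _ _ _ hM hR L' _ _ _ y hy hgen => ?_⟩
  have hcL : algebraMap L L' (algebraMap P L c) ≠ 0 := by
    rw [Ne, map_eq_zero, map_eq_zero]
    exact hc
  refine h2 q hqS k L M hM (H10_ram hV hR) L' (y / algebraMap L L' (algebraMap P L c)) ?_ ?_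
  · rw [div_pow, hy, div_eq_iff (pow_ne_zero 2 hcL), map_mul, map_mul, map_pow, map_pow]
    ring
  · rw [eq_top_iff, ← hgen, IntermediateField.adjoin_le_iff, Set.singleton_subset_iff]
    have h3 : y = y / algebraMap L L' (algebraMap P L c) * algebraMap L L' (algebraMap P L c) :=
      (div_mul_cancel₀ y hcL).symm
    have h4 : y / algebraMap L L' (algebraMap P L c) ∈
        IntermediateField.adjoin L {y / algebraMap L L' (algebraMap P L c)} :=
      IntermediateField.mem_adjoin_simple_self L _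
    rw [SetLike.mem_coe]
    have h5 := mul_mem h4 (IntermediateField.algebraMap_mem
      (IntermediateField.adjoin L {y / algebraMap L L' (algebraMap P L c)}) (algebraMap P L c))
    rw [← h3] at h5
    exact h5

end Pool.Agent.Lib.MP_1a91b9_ntQH
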