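import Pool.Agent.Lib.MP_1a91b9_ntQH.H1

/-!
# MP_1a91b9_nt (the abelian extensions of exponent four, relative form): Kummer theory
-/

set_option autoImplicit false

namespace Pool.Agent.Lib.MP_1a91b9_ntQH

open NumberField
open Pool.Agent.Lib.MP_1a91b9_ntDF (Kum)

/-- Two fourth roots of the same element differ by a power of `i`. -/
private theorem H2_root {K : Type} [Field K] {i : K} (hi : i ^ 2 = -1) {N : Type} [Field N] [Algebra K N]
    {x y : N} (h : x ^ 4 = y ^ 4) : ∃ c : K, c ^ 4 = 1 ∧ x = algebraMap K N c * y := by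
  have hI2 : (algebraMap K N i) ^ 2 = -1 := by rw [← map_pow, hi, map_neg, map_one]
  have h3 : (x - y) * (x + y) * ((x - algebraMap K N i * y) * (x + algebraMap K N i * y)) = 0 := by
    have e : (x - y) * (x + y) * ((x - algebraMap K N i * y) * (x + algebraMap K N i * y)) =
      (x ^ 2 - y ^ 2) * (x ^ 2 - (algebraMap K N i) ^ 2 * y ^ 2) := by ring
    rw [e, hI2]
    linear_combination h
  have hi4 : i ^ 4 = 1 := by rw [show i ^ 4 = (i ^ 2) ^ 2 by ring, hi]; norm_num
  rcases mul_eq_zero.1 h3 with h4 | h4 <;> rcases mul_eq_zero.1 h4 with h5 | h5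
  · exact ⟨1, by norm_num, by rw [map_one, one_mul]; exact sub_eq_zero.1 h5⟩
  · exact ⟨-1, by norm_num, by rw [map_neg, map_one, neg_mul, one_mul]; exact eq_neg_of_add_eq_zero_left h5⟩
  · exact ⟨i, hi4, sub_eq_zero.1 h5⟩
  · exact ⟨-i, by rw [neg_pow, hi4]; norm_num, by
      rw [map_neg, neg_mul]; exact eq_neg_of_add_eq_zero_left h5⟩

/-- A field generated by fourth roots is a Galois extension. -/
private theorem H2_gal {K : Type} [Field K] [NumberField K] {i : K} (hi : i ^ 2 = -1) {n : ℕ} {w : Fin n → K}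
    {N : Type} [Field N] [NumberField N] [Algebra K N] {y : Fin n → N} (hy : Kum 4 w y) : IsGalois K N := by
  have hI2 : (algebraMap K N i) ^ 2 = -1 := by rw [← map_pow, hi, map_neg, map_one]
  have hfin : FiniteDimensional K N := Module.Finite.of_restrictScalars_finite ℚ K N
  have hnorm : Normal K N := by
    refine ⟨fun z => ?_⟩
    have hz : z ∈ IntermediateField.adjoin K (Set.range y) := by
      rw [hy.top]
      exact IntermediateField.mem_top
    refine IntermediateField.splits_of_mem_adjoin K N ?_ hz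
    rintro _ ⟨k, rfl⟩
    refine ⟨Algebra.IsIntegral.isIntegral _, ?_⟩
    have e1 : minpoly K (y k) ∣ Polynomial.X ^ 4 - Polynomial.C (w k) := by
      refine minpoly.dvd K (y k) ?_
      rw [map_sub, map_pow, Polynomial.aeval_X, Polynomial.aeval_C, hy.pow k, sub_self]
    have e2 : (Polynomial.X ^ 4 - Polynomial.C (w k)).map (algebraMap K N) =
        (Polynomial.X - Polynomial.C (y k)) * (Polynomial.X - Polynomial.C (-(y k))) *
          ((Polynomial.X - Polynomial.C (algebraMap K N i * y k)) *
            (Polynomial.X - Polynomial.C (-(algebraMap K N i * y k)))) := by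
      rw [Polynomial.map_sub, Polynomial.map_pow, Polynomial.map_X, Polynomial.map_C, ← hy.pow k]
      have e3 : (Polynomial.C (algebraMap K N i)) ^ 2 = -1 := by
        rw [← map_pow, hI2, map_neg, map_one]
      rw [map_neg, map_neg, map_mul, map_pow]
      linear_combination (Polynomial.X ^ 2 - Polynomial.C (y k) ^ 2) * Polynomial.C (y k) ^ 2 * e3
    have e3 : ((Polynomial.X ^ 4 - Polynomial.C (w k)).map (algebraMap K N)).Splits := by
      rw [e2]
      exact ((Polynomial.Splits.X_sub_C _).mul (Polynomial.Splits.X_sub_C _)).mul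
        ((Polynomial.Splits.X_sub_C _).mul (Polynomial.Splits.X_sub_C _))
    refine e3.of_dvd ?_ (Polynomial.map_dvd (algebraMap K N) e1)
    rw [e2]
    exact mul_ne_zero (mul_ne_zero (Polynomial.X_sub_C_ne_zero _) (Polynomial.X_sub_C_ne_zero _))
      (mul_ne_zero (Polynomial.X_sub_C_ne_zero _) (Polynomial.X_sub_C_ne_zero _))
  exact ⟨⟩

/-- The monomials span the field. -/
private theorem H2_span {K : Type} [Field K] {n : ℕ} {N : Type} [Field N] [Algebra K N] [FiniteDimensional K N]
    {x : Fin n → N} (hx : IntermediateField.adjoin K (Set.range x) = ⊤) (z : N) :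
    ∃ c : (Fin n → ℕ) →₀ K, (c.sum fun m a => a • ∏ j, x j ^ m j) = z := by
  rw [← Finsupp.mem_span_range_iff_exists_finsupp]
  have h1 : z ∈ Algebra.adjoin K (Set.range x) := by
    have h2 : (IntermediateField.adjoin K (Set.range x)).toSubalgebra = Algebra.adjoin K (Set.range x) :=
      IntermediateField.adjoin_toSubalgebra_of_isAlgebraic (fun y _ => Algebra.IsAlgebraic.isAlgebraic y)
    rw [← h2, hx]
    exact IntermediateField.mem_top
  have h3 : z ∈ Subalgebra.toSubmodule (Algebra.adjoin K (Set.range x)) := h1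
  rw [Algebra.adjoin_eq_span] at h3
  refine Submodule.span_mono ?_ h3
  intro y hy
  refine Submonoid.closure_induction (motive := fun y _ => y ∈ Set.range fun m : Fin n → ℕ => ∏ j, x j ^ m j)
    ?_ ?_ ?_ hy
  · rintro _ ⟨k, rfl⟩
    refine ⟨Pi.single k 1, ?_⟩
    show ∏ j, x j ^ (Pi.single k 1 : Fin n → ℕ) j = x k
    rw [Finset.prod_eq_single k]
    · rw [Pi.single_eq_same, pow_one]
    · intro j _ hj
      rw [Pi.single_eq_of_ne hj, pow_zero]
    · intro h
      exact absurd (Finset.mem_univ k) h
  · refine ⟨0, ?_⟩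
    show ∏ j, x j ^ (0 : Fin n → ℕ) j = 1
    exact Finset.prod_eq_one fun j _ => by rw [Pi.zero_apply, pow_zero]
  · rintro a b _ _ ⟨m, rfl⟩ ⟨m', rfl⟩
    refine ⟨m + m', ?_⟩
    show ∏ j, x j ^ (m + m') j = (∏ j, x j ^ m j) * ∏ j, x j ^ m' j
    rw [← Finset.prod_mul_distrib]
    exact Finset.prod_congr rfl fun j _ => by rw [Pi.add_apply, pow_add]

/-- **H2** (medium). The elements of `N` with the fourth power in `K` are the monomials in the generators. Proof: `N / K`
is Galois (`ntQG.K3`: `kum_gal`; or see its header) and the monomials `∏ x_j ^ (m_j)` span `N` over `K` (the fourth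
powers of the `x_j` are in `K`: the span is a subalgebra which contains the `x_j`; `Algebra.adjoin` of algebraic elements
is the field). `z` is an eigenvector: `σ z = χ(σ) z`, `χ(σ)⁴ = 1`, `χ(σ)` in `K` (a power of `i`), and every monomial is one.
Write `z = ∑ c_m x^m` and take the mean of `χ(σ)⁻¹ σ` over the Galois group: only the monomials with the character `χ`
remain, and there is one as `z ≠ 0`; then `z / x^m` is fixed by the Galois group, so it is in `K`. -/
theorem mono4 {K : Type} [Field K] [NumberField K] {i : K} (hi : i ^ 2 = -1) {n : ℕ} {w : Fin n → K}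
    (hw : ∀ k, w k ≠ 0) {N : Type} [Field N] [NumberField N] [Algebra K N] {x : Fin n → N} (hx : Kum 4 w x)
    {z : N} (hz0 : z ≠ 0) {c : K} (hz : z ^ 4 = algebraMap K N c) :
    ∃ (k : K) (m : Fin n → ℕ), z = algebraMap K N k * ∏ j, x j ^ m j := by
  classical
  have hfin : FiniteDimensional K N := Module.Finite.of_restrictScalars_finite ℚ K N
  have hgal := H2_gal hi hx
  obtain ⟨X, hX⟩ : ∃ X : (Fin n → ℕ) → N, ∀ m, X m = ∏ j, x j ^ m j := ⟨_, fun _ => rfl⟩
  have hx0 : ∀ j, x j ≠ 0 := by
    intro j h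
    have h1 := hx.pow j
    rw [h, zero_pow (by norm_num)] at h1
    exact hw j ((algebraMap K N).injective (by rw [← h1, map_zero]))
  have hX0 : ∀ m, X m ≠ 0 := by
    intro m
    rw [hX]
    exact Finset.prod_ne_zero_iff.2 fun j _ => pow_ne_zero _ (hx0 j)
  have hz' : ∀ σ : N ≃ₐ[K] N, ∃ l : K, l ^ 4 = 1 ∧ σ z = algebraMap K N l * z := by
    intro σ
    refine H2_root hi ?_
    rw [← map_pow, hz, AlgEquiv.commutes]
  have hX' : ∀ (σ : N ≃ₐ[K] N) (m : Fin n → ℕ), ∃ l : K, l ^ 4 = 1 ∧ σ (X m) = algebraMap K N l * X m := by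
    intro σ m
    refine H2_root hi ?_
    have h1 : X m ^ 4 = algebraMap K N (∏ j, w j ^ m j) := by
      rw [hX, ← Finset.prod_pow, map_prod]
      refine Finset.prod_congr rfl fun j _ => ?_
      rw [← pow_mul, mul_comm, pow_mul, hx.pow j, map_pow]
    rw [← map_pow, h1, AlgEquiv.commutes]
  choose l hl4 hl using hz'
  choose μ hμ4 hμ using hX'
  have hl0 : ∀ σ, l σ ≠ 0 := by
    intro σ h
    have h1 := hl4 σ
    rw [h, zero_pow (by norm_num)] at h1
    exact zero_ne_one h1
  have key : ∀ (k : ℕ) (T : Finset (Fin n → ℕ)) (c : (Fin n → ℕ) → K), T.card = k →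
      z = ∑ m ∈ T, algebraMap K N (c m) * X m →
      ∃ (k : K) (m : Fin n → ℕ), z = algebraMap K N k * X m := by
    intro k
    induction k with
    | zero =>
      intro T c hT h
      rw [Finset.card_eq_zero] at hT
      rw [hT, Finset.sum_empty] at h
      exact absurd h hz0
    | succ k ih =>
      intro T c hT h
      by_cases hex : ∃ m ∈ T, ∃ σ, μ σ m ≠ l σ
      · obtain ⟨m₁, hm₁, σ, hσ⟩ := hex
        refine ih (T.erase m₁) (fun m => (l σ - μ σ m₁)⁻¹ * ((μ σ m - μ σ m₁) * c m))
          (by rw [Finset.card_erase_of_mem hm₁, hT]; rfl) ?_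
        have hne : l σ - μ σ m₁ ≠ 0 := sub_ne_zero.2 (Ne.symm hσ)
        have h1 : algebraMap K N (l σ) * z = ∑ m ∈ T, algebraMap K N (μ σ m * c m) * X m := by
          rw [← hl σ]
          conv_lhs => rw [h, map_sum]
          refine Finset.sum_congr rfl fun m _ => ?_
          rw [map_mul, AlgEquiv.commutes, hμ σ m, map_mul]
          ring
        have h2 : algebraMap K N (l σ - μ σ m₁) * z =
            ∑ m ∈ T, algebraMap K N ((μ σ m - μ σ m₁) * c m) * X m := by
          rw [map_sub, sub_mul, h1]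
          conv_lhs => rw [h, Finset.mul_sum, ← Finset.sum_sub_distrib]
          refine Finset.sum_congr rfl fun m _ => ?_
          rw [map_mul, map_mul, map_sub]
          ring
        have h3 : algebraMap K N (l σ - μ σ m₁) * z =
            ∑ m ∈ T.erase m₁, algebraMap K N ((μ σ m - μ σ m₁) * c m) * X m := by
          rw [h2, ← Finset.add_sum_erase T _ hm₁, sub_self, zero_mul, map_zero, zero_mul, zero_add]
        have h4 : z = algebraMap K N (l σ - μ σ m₁)⁻¹ * (algebraMap K N (l σ - μ σ m₁) * z) := by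
          rw [← mul_assoc, ← map_mul, inv_mul_cancel₀ hne, map_one, one_mul]
        conv_lhs => rw [h4, h3, Finset.mul_sum]
        refine Finset.sum_congr rfl fun m _ => ?_
        rw [map_mul (algebraMap K N) ((l σ - μ σ m₁)⁻¹)]
        ring
      · push Not at hex
        have hT' : T.Nonempty := by
          rw [← Finset.card_pos, hT]
          exact Nat.succ_pos k
        obtain ⟨m, hm⟩ := hT'
        have h5 : z / X m ∈ Set.range (algebraMap K N) := by
          refine (IsGalois.mem_range_algebraMap_iff_fixed (F := K) (E := N) (z / X m)).2 fun σ => ?_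
          rw [map_div₀, hl σ, hμ σ m, hex m hm σ, mul_div_mul_left]
          rw [Ne, map_eq_zero]
          exact hl0 σ
        obtain ⟨k', hk'⟩ := h5
        refine ⟨k', m, ?_⟩
        rw [hk', div_mul_cancel₀ _ (hX0 m)]
  obtain ⟨c, hc⟩ := H2_span hx.top z
  obtain ⟨k, m, h⟩ := key _ c.support c rfl (by
    conv_lhs => rw [← hc, Finsupp.sum]
    refine Finset.sum_congr rfl fun m _ => ?_
    rw [hX, Algebra.smul_def])
  exact ⟨k, m, by rw [h, hX]⟩

end Pool.Agent.Lib.MP_1a91b9_ntQH
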