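import Pool.Agent.Lib.MP_1a91b9_ntQH.H2
import Pool.Agent.Lib.MP_1a91b9_ntQH.H3
import Pool.Agent.Lib.MP_1a91b9_ntQG.K3

/-!
# MP_1a91b9_nt (the abelian extensions of exponent four, relative form): the intersections
-/

set_option autoImplicit false

namespace Pool.Agent.Lib.MP_1a91b9_ntQH

open NumberField
open Pool.Agent.Lib.MP_1a91b9_ntDF (Kum)

/-- A field generated by square roots is a Galois extension. -/
private theorem H4_gal {F M : Type} [Field F] [NumberField F] [Field M] [NumberField M] [Algebra F M] {n : ℕ}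
    {y : Fin n → M} (hy : ∀ k, ∃ c : F, y k ^ 2 = algebraMap F M c)
    (hM : IntermediateField.adjoin F (Set.range y) = ⊤) : IsGalois F M := by
  have hfin : FiniteDimensional F M := Module.Finite.of_restrictScalars_finite ℚ F M
  have hnorm : Normal F M := by
    refine ⟨fun z => ?_⟩
    have hz : z ∈ IntermediateField.adjoin F (Set.range y) := by
      rw [hM]
      exact IntermediateField.mem_top
    refine IntermediateField.splits_of_mem_adjoin F M ?_ hz
    rintro _ ⟨k, rfl⟩
    obtain ⟨c, hc⟩ := hy k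
    refine ⟨Algebra.IsIntegral.isIntegral _, ?_⟩
    have e1 : minpoly F (y k) ∣ Polynomial.X ^ 2 - Polynomial.C c := by
      refine minpoly.dvd F (y k) ?_
      rw [map_sub, map_pow, Polynomial.aeval_X, Polynomial.aeval_C, hc, sub_self]
    have e2 : (Polynomial.X ^ 2 - Polynomial.C c).map (algebraMap F M) =
        (Polynomial.X - Polynomial.C (y k)) * (Polynomial.X - Polynomial.C (-(y k))) := by
      rw [Polynomial.map_sub, Polynomial.map_pow, Polynomial.map_X, Polynomial.map_C, ← hc, map_neg, map_pow]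
      ring
    have e3 : ((Polynomial.X ^ 2 - Polynomial.C c).map (algebraMap F M)).Splits := by
      rw [e2]
      exact (Polynomial.Splits.X_sub_C _).mul (Polynomial.Splits.X_sub_C _)
    refine e3.of_dvd ?_ (Polynomial.map_dvd (algebraMap F M) e1)
    rw [e2]
    exact mul_ne_zero (Polynomial.X_sub_C_ne_zero _) (Polynomial.X_sub_C_ne_zero _)
  exact ⟨⟩

section

variable {K F N M : Type} [Field K] [NumberField K] [Field F] [NumberField F] [Field N] [NumberField N] [Field M]
  [NumberField M] [Algebra K F] [Algebra K N] [Algebra K M] [Algebra F M] [Algebra N M] [IsScalarTower K F M]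
  [IsScalarTower K N M] {n : ℕ} {e b : Fin n → K} {z : Fin n → F} {y : Fin n → M} {x : Fin n → N}

/-- **H4a** (easy). `x` is a system of generators. (`x_k⁴ = e_k b_k²` by injectivity of `N → M`.) -/
theorem Sit.kum (h : Sit K F N M e b z y x) : Kum 4 (fun k => e k * b k ^ 2) x := by
  refine ⟨fun k => ?_, h.hN⟩
  apply (algebraMap N M).injective
  rw [map_pow, h.hx, mul_pow, ← map_pow, h.hz, ← IsScalarTower.algebraMap_apply, ← IsScalarTower.algebraMap_apply,
    show y k ^ 4 = (y k ^ 2) ^ 2 by ring, h.hy, map_mul, map_pow]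

/-- **H4b** (easy+). An element with the fourth power in `K` is, over `M`, the product of an element of `F` and of the
`y_k`, `k ∈ J`. (`mono4`, `y_k² = b_k`.) And if `J` is empty then it is a square: `w = k u²`, `u⁴` in `K`. -/
theorem Sit.form (h : Sit K F N M e b z y x) {i : K} (hi : i ^ 2 = -1) {w : N} (hw : w ≠ 0) {c : K}
    (hwc : w ^ 4 = algebraMap K N c) : ∃ (J : Finset (Fin n)) (f : F),
      algebraMap N M w = algebraMap F M f * ∏ k ∈ J, y k ∧ f ≠ 0 ∧
      (J = ∅ → ∃ (k : K) (u : N) (c' : K), w = algebraMap K N k * u ^ 2 ∧ u ^ 4 = algebraMap K N c') := by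
  classical
  obtain ⟨k₀, m, hkm⟩ := mono4 hi (fun k => mul_ne_zero (h.he k) (pow_ne_zero 2 (h.hb k))) h.kum hw hwc
  have h1 : ∀ j, y j ^ m j = algebraMap F M ((algebraMap K F (b j)) ^ (m j / 2)) * (if m j % 2 = 1 then y j else 1) := by
    intro j
    have h2 : y j ^ m j = (y j ^ 2) ^ (m j / 2) * y j ^ (m j % 2) := by
      rw [← pow_mul, ← pow_add, Nat.div_add_mod]
    rw [h2, h.hy, map_pow, ← IsScalarTower.algebraMap_apply]
    rcases Nat.mod_two_eq_zero_or_one (m j) with h3 | h3
    · rw [h3, pow_zero, if_neg (by norm_num)]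
    · rw [h3, pow_one, if_pos rfl]
  have h4 : algebraMap N M w = algebraMap F M (algebraMap K F k₀ * (∏ j, z j ^ m j) *
      ∏ j, (algebraMap K F (b j)) ^ (m j / 2)) * ∏ k ∈ Finset.univ.filter (fun j => m j % 2 = 1), y k := by
    rw [hkm, map_mul, map_prod, ← IsScalarTower.algebraMap_apply, Finset.prod_filter, map_mul, map_mul, map_prod,
      map_prod, ← IsScalarTower.algebraMap_apply, mul_assoc, mul_assoc, ← Finset.prod_mul_distrib,
      ← Finset.prod_mul_distrib]
    congr 1
    refine Finset.prod_congr rfl fun j _ => ?_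
    rw [map_pow, h.hx, mul_pow, h1, map_pow, map_pow]
  refine ⟨Finset.univ.filter (fun j => m j % 2 = 1), _, h4, ?_, fun hJ => ?_⟩
  · intro h0
    rw [h0, map_zero, zero_mul] at h4
    exact hw ((map_eq_zero_iff _ (algebraMap N M).injective).1 h4)
  · have h5 : ∀ j, m j = m j / 2 * 2 := by
      intro j
      have h6 : j ∉ Finset.univ.filter (fun j => m j % 2 = 1) := by
        rw [hJ]
        exact Finset.notMem_empty j
      rw [Finset.mem_filter] at h6
      have h7 : ¬ m j % 2 = 1 := fun h8 => h6 ⟨Finset.mem_univ _, h8⟩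
      omega
    refine ⟨k₀, ∏ j, x j ^ (m j / 2), ∏ j, (e j * b j ^ 2) ^ (m j / 2), ?_, ?_⟩
    · rw [hkm, ← Finset.prod_pow]
      congr 1
      refine Finset.prod_congr rfl fun j _ => ?_
      conv_lhs => rw [h5 j]
      rw [pow_mul]
    · rw [← Finset.prod_pow, map_prod]
      refine Finset.prod_congr rfl fun j _ => ?_
      rw [map_pow, ← h.kum.pow j, ← pow_mul, ← pow_mul, mul_comm]

/-- **H4** (medium). **The intersection of `N` and `F`.** Proof: the elements of `N` whose image in `M` is in `F` are an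
intermediate field `R` of `N / K`; by `between` (`ntQG/K3.lean`, `kum_gal`) for `R` it is generated by elements `w` with `w⁴` in
`K`; for such a `w` the set `J` of `Sit.form` is empty by `indep` (`H3a`, with `c = algebraMap K F (b k)`), so
`w = k u²` and `u²` is in `P` by `sq_mem`. -/
theorem Sit.inter (h : Sit K F N M e b z y x) {i : K} (hi : i ^ 2 = -1) (P : Type) [Field P] [NumberField P]
    [Algebra K P] [Algebra P N] [IsScalarTower K P N] (hP : ∀ σ : N ≃ₐ[P] N, σ * σ = 1) {w : N} {f : F}
    (hw : algebraMap N M w = algebraMap F M f) : ∃ p : P, algebraMap P N p = w := by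
  have hne : ∀ k, e k * b k ^ 2 ≠ 0 := fun k => mul_ne_zero (h.he k) (pow_ne_zero 2 (h.hb k))
  obtain ⟨hg, hc, h4⟩ := Pool.Agent.Lib.MP_1a91b9_ntQG.kum_gal hi h.kum hne
  obtain ⟨R, hR⟩ : ∃ R : IntermediateField K N, ∀ v : N, v ∈ R ↔ ∃ f : F, algebraMap F M f = algebraMap N M v :=
    ⟨((IsScalarTower.toAlgHom K F M).fieldRange).comap (IsScalarTower.toAlgHom K N M), fun v => Iff.rfl⟩
  have h5 := Pool.Agent.Lib.MP_1a91b9_ntQG.between hi hc h4 R
  have key : ∀ v : R, ∃ p : P, algebraMap P N p = (v : N) := by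
    intro v
    have hv : v ∈ IntermediateField.adjoin K {z : R | ∃ c : K, z ^ 4 = algebraMap K R c} := by
      rw [h5]
      exact IntermediateField.mem_top
    refine IntermediateField.adjoin_induction (F := K) (s := {z : R | ∃ c : K, z ^ 4 = algebraMap K R c})
      (p := fun v _ => ∃ p : P, algebraMap P N p = (v : N)) ?_ ?_ ?_ ?_ ?_ hv
    · rintro v ⟨c, hvc⟩
      by_cases hv0 : v = 0
      · exact ⟨0, by rw [hv0, map_zero]; rfl⟩
      · have hv0' : (v : N) ≠ 0 := fun h0 => hv0 (Subtype.ext h0)
        have hvc' : (v : N) ^ 4 = algebraMap K N c := congrArg Subtype.val hvc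
        obtain ⟨J, f₁, hf₁, hf0, hJ⟩ := h.form hi hv0' hvc'
        obtain ⟨f₂, hf₂⟩ := (hR v).1 v.2
        have hJe : J = ∅ := by
          by_contra hJn
          refine indep (F := F) (M := M) (y := y) (fun k => ⟨algebraMap K F (b k), ?_, ?_⟩) h.hM h.deg J
            (Finset.nonempty_iff_ne_empty.2 hJn) ⟨f₂ / f₁, ?_⟩
          · exact fun h0 => h.hb k ((map_eq_zero_iff _ (algebraMap K F).injective).1 h0)
          · rw [h.hy, ← IsScalarTower.algebraMap_apply]
          · have hf1' : algebraMap F M f₁ ≠ 0 := fun h0 =>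
              hf0 ((map_eq_zero_iff _ (algebraMap F M).injective).1 h0)
            rw [map_div₀, hf₂, hf₁, mul_div_cancel_left₀ _ hf1']
        obtain ⟨k, u, c', hvu, hu⟩ := hJ hJe
        obtain ⟨p, hp⟩ := sq_mem hi P hP hu
        refine ⟨algebraMap K P k * p, ?_⟩
        rw [map_mul, hp, ← IsScalarTower.algebraMap_apply, hvu]
    · intro a
      exact ⟨algebraMap K P a, (IsScalarTower.algebraMap_apply K P N a).symm⟩
    · rintro v v' _ _ ⟨p, hp⟩ ⟨p', hp'⟩
      exact ⟨p + p', by rw [map_add, hp, hp']; rfl⟩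
    · rintro v _ ⟨p, hp⟩
      exact ⟨p⁻¹, by rw [map_inv₀, hp]; rfl⟩
    · rintro v v' _ _ ⟨p, hp⟩ ⟨p', hp'⟩
      exact ⟨p * p', by rw [map_mul, hp, hp']; rfl⟩
  exact key ⟨w, (hR w).2 ⟨f, hw.symm⟩⟩

/-- **H4c** (medium+). **The intersection of `N` and `P F`.** Proof (Galois theory): `M / F` is Galois (generated by square
roots). Let `H` be the set of the restrictions to `N` of the `F`-automorphisms of `M` (`N / K` is normal, so the image of `N` in
`M` is stable): a subgroup of the Galois group of `N / K`, whose fixed field is contained in the image of `P` by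
`Sit.inter` (an element of `N` fixed by all the `F`-automorphisms of `M` is in `F`). So `H` contains all the `P`-automorphisms of `N`
(Galois correspondence). If `w` is not in `P` there is a `P`-automorphism `τ` of `N` with `τ w ≠ w` (`N / P` is Galois); it is
the restriction of an `F`-automorphism `σ` of `M`, which fixes `P` and `F`, so the field generated by them, so `w`:
contradiction. Or with `Sit.form` and the linear independence of the products of the `y_k`. -/
theorem Sit.lin (h : Sit K F N M e b z y x) {i : K} (hi : i ^ 2 = -1) (P : Type) [Field P] [NumberField P]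
    [Algebra K P] [Algebra P N] [IsScalarTower K P N] (hP : ∀ σ : N ≃ₐ[P] N, σ * σ = 1) {w : N}
    (hw : algebraMap N M w ∈ IntermediateField.adjoin F (Set.range fun p : P => algebraMap N M (algebraMap P N p))) :
    ∃ p : P, algebraMap P N p = w := by
  have hne : ∀ k, e k * b k ^ 2 ≠ 0 := fun k => mul_ne_zero (h.he k) (pow_ne_zero 2 (h.hb k))
  obtain ⟨hg, -, -⟩ := Pool.Agent.Lib.MP_1a91b9_ntQG.kum_gal hi h.kum hne
  have hfinN : FiniteDimensional K N := Module.Finite.of_restrictScalars_finite ℚ K N
  have hgM : IsGalois F M := H4_gal (fun k => ⟨algebraMap K F (b k), by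
    rw [h.hy, ← IsScalarTower.algebraMap_apply]⟩) h.hM
  have hfinM : FiniteDimensional F M := Module.Finite.of_restrictScalars_finite ℚ F M
  -- the restrictions of the automorphisms of `M / F`
  let H : Subgroup (N ≃ₐ[K] N) :=
    { carrier := {σ | ∃ τ : M ≃ₐ[F] M, ∀ v : N, algebraMap N M (σ v) = τ (algebraMap N M v)}
      mul_mem' := by
        rintro σ σ' ⟨τ, hτ⟩ ⟨τ', hτ'⟩
        refine ⟨τ * τ', fun v => ?_⟩
        rw [AlgEquiv.mul_apply, AlgEquiv.mul_apply, hτ, hτ']
      one_mem' := ⟨1, fun v => rfl⟩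
      inv_mem' := by
        rintro σ ⟨τ, hτ⟩
        refine ⟨τ⁻¹, fun v => ?_⟩
        apply τ.injective
        have h1 : τ (τ⁻¹ (algebraMap N M v)) = algebraMap N M v := τ.apply_symm_apply _
        have h2 : σ (σ⁻¹ v) = v := σ.apply_symm_apply _
        rw [h1, ← hτ, h2] }
  obtain ⟨P', hP'⟩ : ∃ P' : IntermediateField K N, ∀ v : N, v ∈ P' ↔ ∃ p : P, algebraMap P N p = v :=
    ⟨(IsScalarTower.toAlgHom K P N).fieldRange, fun v => Iff.rfl⟩
  have h1 : IntermediateField.fixedField H ≤ P' := by
    intro v hv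
    rw [IntermediateField.mem_fixedField_iff] at hv
    have h2 : ∀ τ : M ≃ₐ[F] M, τ (algebraMap N M v) = algebraMap N M v := by
      intro τ
      have h3 : ∀ v : N, algebraMap N M (((τ.restrictScalars K).restrictNormal N) v) = τ (algebraMap N M v) := fun v =>
        AlgEquiv.restrictNormal_commutes (τ.restrictScalars K) N v
      rw [← h3, hv _ ⟨τ, h3⟩]
    obtain ⟨f, hf⟩ := (IsGalois.mem_range_algebraMap_iff_fixed (F := F) (E := M) (algebraMap N M v)).2 h2
    exact (hP' v).2 (h.inter hi P hP hf.symm)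
  have h2 : P'.fixingSubgroup ≤ H := by
    rw [← IntermediateField.fixingSubgroup_fixedField H]
    exact IntermediateField.fixingSubgroup_antitone h1
  have h3 : w ∈ IntermediateField.fixedField P'.fixingSubgroup := by
    rw [IntermediateField.mem_fixedField_iff]
    intro σ hσ
    obtain ⟨τ, hτ⟩ := h2 hσ
    rw [IntermediateField.mem_fixingSubgroup_iff] at hσ
    apply (algebraMap N M).injective
    rw [hτ]
    refine IntermediateField.adjoin_induction (F := F)
      (s := Set.range fun p : P => algebraMap N M (algebraMap P N p)) (p := fun a _ => τ a = a) ?_ ?_ ?_ ?_ ?_ hw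
    · rintro _ ⟨p, rfl⟩
      change τ (algebraMap N M (algebraMap P N p)) = algebraMap N M (algebraMap P N p)
      rw [← hτ, hσ _ ((hP' _).2 ⟨p, rfl⟩)]
    · intro a
      exact τ.commutes a
    · intro a b _ _ ha hb
      rw [map_add, ha, hb]
    · intro a _ ha
      rw [map_inv₀, ha]
    · intro a b _ _ ha hb
      rw [map_mul, ha, hb]
  rw [IsGalois.fixedField_fixingSubgroup] at h3
  exact (hP' w).1 h3

end

end Pool.Agent.Lib.MP_1a91b9_ntQH
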