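import Pool.Agent.Lib.MP_1a91b9_ntQH.H0
import Pool.Agent.Lib.MP_1a91b9_ntQH.H4
import Pool.Agent.Lib.MP_1a91b9_ntQD.U0

/-!
# MP_1a91b9_nt (the abelian extensions of exponent four, relative form): from the property `M` to the hypotheses
-/

set_option autoImplicit false

namespace Pool.Agent.Lib.MP_1a91b9_ntQH

open NumberField
open Pool.Agent.Lib.MP_1a91b9_ntDZ (PropZ LNonzero)
open Pool.Agent.Lib.MP_1a91b9_ntDF (tw)

/-- There is no condition on the ramification for `L = F`. -/
private theorem H5_ramOK {K : Type} [Field K] [NumberField K] {F : Type} [Field F] [NumberField F]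
    [Algebra K F] (V : WeierstrassCurve F) (q : ℕ) : Pool.Agent.Lib.MP_1a91b9_ntDF.RamOK K V q F := by
  intro v w hvw
  exfalso
  have h0 : v.asIdeal ≤ w.asIdeal ^ 2 := fun x hx => hvw (Ideal.mem_map_of_mem _ hx)
  have h1 : v.asIdeal = w.asIdeal :=
    v.isMaximal.eq_of_le w.isPrime.ne_top (h0.trans (Ideal.pow_le_self two_ne_zero))
  rw [h1] at h0
  exact absurd (Ideal.pow_lt_self w.asIdeal w.ne_bot w.isPrime.ne_top 2 le_rfl)
    (not_lt_of_ge h0)

/-- From the property `Z` to the L-series of a curve over a smaller field which is isomorphic to `V` over `F`. -/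
private theorem H5_lne {K : Type} [Field K] [NumberField K] {F : Type} [Field F] [NumberField F] [Algebra K F]
    {V : WeierstrassCurve F} (h : PropZ K V) (P : Type) [Field P] [NumberField P] [Algebra P F]
    (W : WeierstrassCurve P) (C : WeierstrassCurve.VariableChange F) (hC : C • W.baseChange F = V) :
    LNonzero W := by
  obtain ⟨-, -, S, hS⟩ := h
  obtain ⟨q, hq1, hq⟩ := Nat.exists_infinite_primes (S.sup id + 1)
  have hqS : q ∉ S := fun h => by
    have h1 : id q ≤ S.sup id := Finset.le_sup h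
    rw [id] at h1
    omega
  have _ : Fact q.Prime := ⟨hq⟩
  have e2 : V.baseChange F = V := by
    show V.map (algebraMap F F) = V
    exact V.map_id
  obtain ⟨g, g1, g2, g3, -⟩ := hS q hqS 0 F F (by rw [pow_zero, Module.finrank_self])
    (H5_ramOK _ q) P W C (by rw [hC, e2])
  exact ⟨g, g1, g2, g3⟩

/-- The change of variables. -/
private theorem H5_vc {F : Type} [Field F] {a b f : F} (hf : f ≠ 0) (h : a = b * f ^ 4) :
    (⟨Units.mk0 f hf, 0, 0, 0⟩ : WeierstrassCurve.VariableChange F) • (⟨0, 0, 0, a, 0⟩ : WeierstrassCurve F) =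
      ⟨0, 0, 0, b, 0⟩ := by
  subst h
  ext
  · simp [WeierstrassCurve.variableChange_a₁]
  · simp [WeierstrassCurve.variableChange_a₂]
  · simp [WeierstrassCurve.variableChange_a₃]
  · simp [WeierstrassCurve.variableChange_a₄]
    field_simp
  · simp [WeierstrassCurve.variableChange_a₆]

/-- What is used of the property `M`: no new points over `M`, and the property `Z` of the twists. -/
def ExtM {K : Type} [Field K] [NumberField K] (A : K) (F M : Type) [Field F] [NumberField F] [Field M]
    [NumberField M] [Algebra K F] [Algebra F M] {n : ℕ} (b : Fin n → K) : Prop :=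
  (∀ x' y' : M, y' ^ 2 = x' ^ 3 + algebraMap F M (algebraMap K F A) * x' →
    ∃ x y : F, algebraMap F M x = x' ∧ algebraMap F M y = y') ∧
  ∀ (F' : Type) [Field F'] [NumberField F'] [Algebra K F'] [Algebra F F'] [IsScalarTower K F F'] [Algebra F' M]
    [IsScalarTower F F' M], ∀ J : Finset (Fin n), (¬ ∃ y : F', y ^ 2 = algebraMap K F' (∏ k ∈ J, b k)) →
    PropZ K (⟨0, 0, 0, algebraMap K F' (A * (∏ k ∈ J, b k) ^ 2), 0⟩ : WeierstrassCurve F')

section

variable {K F N M : Type} [Field K] [NumberField K] [Field F] [NumberField F] [Field N] [NumberField N] [Field M]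
  [NumberField M] [Algebra K F] [Algebra K N] [Algebra K M] [Algebra F M] [Algebra N M] [IsScalarTower K F M]
  [IsScalarTower K N M] {n : ℕ} {e b : Fin n → K} {z : Fin n → F} {y : Fin n → M} {x : Fin n → N}

/-- **H5a** (easy). The points: a point over `N` has the coordinates in `F` (seen in `M`), so in `P` by
`Sit.inter`. -/
theorem hypP_of (h : Sit K F N M e b z y x) {i : K} (hi : i ^ 2 = -1) {A : K} (hE : ExtM A F M b) : HypP A N := by
  intro P _ _ _ _ _ hP x' y' hxy
  have h1 : algebraMap N M y' ^ 2 = algebraMap N M x' ^ 3 + algebraMap F M (algebraMap K F A) * algebraMap N M x' := by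
    rw [← IsScalarTower.algebraMap_apply K F M, IsScalarTower.algebraMap_apply K N M, ← map_pow, hxy, map_add,
      map_pow, map_mul]
  obtain ⟨u, v, hu, hv⟩ := hE.1 _ _ h1
  obtain ⟨p, hp⟩ := h.inter hi P hP hu.symm
  obtain ⟨r, hr⟩ := h.inter hi P hP hv.symm
  exact ⟨p, r, hp, hr⟩

/-- **H5** (medium). **The twists.** Let `e₀ = x₀²` with `e₀` in `P` not a square, `e₀² = c` in `K`. By `Sit.form`
`x₀ = f y_J` in `M`, `f` in `F`, so `e₀ = f² b_J`, `b_J = ∏_{k ∈ J} b_k`. Let `F' = F(P)` in `M` (an intermediate field of `M / F`).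
`b_J` is not a square in `F'`: otherwise `y_J` is in `F'` (`y_J² = b_J`), so `x₀` is in `F'` and so in `P` by `Sit.lin`, and `e₀` is a
square in `P`. So `ExtM` gives `PropZ K (⟨0, 0, 0, A b_J², 0⟩ over F')`; take a prime number `q` outside `S`, `k = 0`, `L = M = F'`
(`RamOK` holds: see `propZ_of` in `ntDZ/Z1.lean` or `lne_desc` in `ntQD/U0.lean`), `N := P`, `W := ⟨0, 0, 0, A e₀², 0⟩` over
`P`: over `F'` it is `y² = x³ + A f⁴ b_J² x`, isomorphic to the curve by the change of variables with `u = f` or `f⁻¹`. So `BSD0 q W`,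
and so `LNonzero W`. -/
theorem hypL_of (h : Sit K F N M e b z y x) {i : K} (hi : i ^ 2 = -1) {A : K} (hE : ExtM A F M b) : HypL A N := by
  intro P _ _ _ _ _ hP e₀ hc hx hsq
  obtain ⟨c, hc⟩ := hc
  obtain ⟨x₀, hx₀⟩ := hx
  have he0 : e₀ ≠ 0 := by
    rintro rfl
    exact hsq ⟨0, by rw [mul_zero]⟩
  have hx0 : x₀ ≠ 0 := by
    rintro rfl
    rw [zero_pow two_ne_zero] at hx₀
    exact he0 ((map_eq_zero_iff _ (algebraMap P N).injective).1 hx₀.symm)
  have hx4 : x₀ ^ 4 = algebraMap K N c := by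
    have e1 : x₀ ^ 4 = (x₀ ^ 2) ^ 2 := by ring
    rw [e1, hx₀, ← map_pow, hc, ← IsScalarTower.algebraMap_apply K P N]
  obtain ⟨J, f, hf, hf0, -⟩ := h.form hi hx0 hx4
  have hyJ : (∏ k ∈ J, y k) ^ 2 = algebraMap K M (∏ k ∈ J, b k) := by
    rw [← Finset.prod_pow, map_prod]
    exact Finset.prod_congr rfl fun k _ => h.hy k
  -- the field generated by `F` and `P`
  let Fp : IntermediateField F M :=
    IntermediateField.adjoin F (Set.range fun p : P => algebraMap N M (algebraMap P N p))
  have hfin : Module.Finite F M := Module.Finite.of_restrictScalars_finite ℚ F M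
  have hfin' : Module.Finite F Fp := inferInstance
  have hnf : NumberField Fp := NumberField.of_module_finite F Fp
  have hmem : ∀ p : P, ((algebraMap N M).comp (algebraMap P N)) p ∈ Fp := fun p =>
    IntermediateField.subset_adjoin F _ ⟨p, rfl⟩
  let φ : P →+* Fp := ((algebraMap N M).comp (algebraMap P N)).codRestrict Fp hmem
  let _ : Algebra P Fp := φ.toAlgebra
  have hφ : ∀ p : P, ((algebraMap P Fp p : Fp) : M) = algebraMap N M (algebraMap P N p) := fun p => rfl
  have hns : ¬ ∃ w : Fp, w ^ 2 = algebraMap K Fp (∏ k ∈ J, b k) := by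
    rintro ⟨w, hw⟩
    have h1 : (w : M) ^ 2 = (∏ k ∈ J, y k) ^ 2 := by
      rw [hyJ]
      have h2 := congrArg (fun t : Fp => (t : M)) hw
      exact h2
    have h3 : ∏ k ∈ J, y k ∈ Fp := by
      rcases sq_eq_sq_iff_eq_or_eq_neg.1 h1 with h4 | h4
      · rw [← h4]
        exact w.2
      · have h5 : ∏ k ∈ J, y k = -(w : M) := by rw [h4, neg_neg]
        rw [h5]
        exact Fp.neg_mem w.2
    have h6 : algebraMap N M x₀ ∈ Fp := by
      rw [hf]
      exact Fp.mul_mem (Fp.algebraMap_mem f) h3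
    obtain ⟨p, hp⟩ := h.lin hi P hP h6
    refine hsq ⟨p, (algebraMap P N).injective ?_⟩
    rw [map_mul, hp, ← hx₀, sq]
  have hZ := hE.2 Fp J hns
  have e0 : algebraMap P Fp e₀ = algebraMap K Fp (∏ k ∈ J, b k) * algebraMap F Fp f ^ 2 := by
    apply Subtype.ext
    rw [hφ, ← hx₀, map_pow, hf, mul_pow, hyJ, mul_comm]
    rfl
  refine H5_lne hZ P _ ⟨Units.mk0 (algebraMap F Fp f) (by
    rw [Ne, map_eq_zero_iff _ (algebraMap F Fp).injective]
    exact hf0), 0, 0, 0⟩ ?_
  have e1 : (⟨0, 0, 0, algebraMap K P A * e₀ ^ 2, 0⟩ : WeierstrassCurve P).baseChange Fp =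
      ⟨0, 0, 0, algebraMap K Fp A * algebraMap P Fp e₀ ^ 2, 0⟩ := by
    have e2 : algebraMap P Fp (algebraMap K P A) = algebraMap K Fp A := by
      apply Subtype.ext
      rw [hφ, ← IsScalarTower.algebraMap_apply K P N, ← IsScalarTower.algebraMap_apply K N M]
      rfl
    have e3 : algebraMap P Fp (algebraMap K P A * e₀ ^ 2) = algebraMap K Fp A * algebraMap P Fp e₀ ^ 2 := by
      rw [map_mul, map_pow, e2]
    exact WeierstrassCurve.ext (map_zero _) (map_zero _) (map_zero _) e3 (map_zero _)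
  rw [e1]
  refine H5_vc _ ?_
  rw [e0, map_mul, map_pow]
  ring

end

end Pool.Agent.Lib.MP_1a91b9_ntQH
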