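import Pool.Agent.Lib.MP_1a91b9_ntQH.H5
import Pool.Agent.Lib.MP_1a91b9_ntQG.K1
import Pool.Agent.Lib.MP_1a91b9_ntDZ.Z4

/-!
# MP_1a91b9_nt (the abelian extensions of exponent four, relative form): the fields `QQ j b`
-/

set_option autoImplicit false

namespace Pool.Agent.Lib.MP_1a91b9_ntQH

open NumberField
open Pool.Agent.Lib.MP_1a91b9_ntDZ (PropZ LNonzero PropM)
open Pool.Agent.Lib.MP_1a91b9_ntDF (tw cK NK)

/-- What is used of the property `M`, from the property `M` with the clause on the rank zero. -/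
private theorem H6_ext {K : Type} [Field K] [NumberField K] (A : K) {F G M : Type} [Field F] [NumberField F]
    [Field G] [Algebra K F] [Algebra K G] [Field M] [NumberField M] [Algebra K M] [Algebra F M] [Algebra G M]
    [IsScalarTower K F M] [IsScalarTower K G M] {n : ℕ} {b : Fin n → K} {y : Fin n → G}
    (hy : ∀ k, y k ^ 2 = algebraMap K G (b k))
    (hGM : IntermediateField.adjoin F (Set.range (algebraMap G M)) = ⊤)
    (hP : PropM 2 (⟨0, 0, 0, A, 0⟩ : WeierstrassCurve K) F G) : ExtM A F M b := by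
  obtain ⟨-, h2⟩ := hP M hGM
  refine ⟨fun x' y' hxy => ?_, fun F' _ _ _ _ _ _ _ J hJ => ?_⟩
  · obtain ⟨h3, -⟩ := h2 M
    refine h3.1 x' y' ?_
    rw [WeierstrassCurve.Affine.equation_iff]
    simp only [WeierstrassCurve.baseChange, WeierstrassCurve.map_a₁, WeierstrassCurve.map_a₂,
      WeierstrassCurve.map_a₃, WeierstrassCurve.map_a₄, WeierstrassCurve.map_a₆, map_zero, zero_mul,
      add_zero]
    exact hxy
  · obtain ⟨-, -, -, -, h3⟩ := h2 F'
    have h4 := (h3 (∏ k ∈ J, b k) ⟨∏ k ∈ J, y k, by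
      rw [← Finset.prod_pow, map_prod]
      exact Finset.prod_congr rfl fun k _ => hy k⟩ hJ).1 1 one_pos one_lt_two
    have h5 : tw 2 (⟨0, 0, 0, A, 0⟩ : WeierstrassCurve K) F' ((∏ k ∈ J, b k) ^ 1) =
        ⟨0, 0, 0, algebraMap K F' (A * (∏ k ∈ J, b k) ^ 2), 0⟩ := by
      simp only [tw, pow_one, zero_mul, map_zero, Nat.reduceDiv]
    rw [h5] at h4
    exact h4

/-- The statement, from the fields and the generators. -/
private theorem H6_core {K : Type} [Field K] [NumberField K] {i : K} (hi : i ^ 2 = -1) (A : K)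
    {n : ℕ} {e b : Fin n → K} (he : ∀ k, e k ≠ 0) (hb : ∀ k, b k ≠ 0)
    {F G N M : Type} [Field F] [NumberField F] [Field G] [Field N] [NumberField N] [Field M] [NumberField M]
    [Algebra K F] [Algebra K G] [Algebra K N] [Algebra K M] [Algebra F M] [Algebra G M] [Algebra N M]
    [IsScalarTower K F M] [IsScalarTower K G M] [IsScalarTower K N M]
    {z : Fin n → F} (hz : ∀ k, z k ^ 4 = algebraMap K F (e k))
    {y : Fin n → G} (hy : Pool.Agent.Lib.MP_1a91b9_ntDF.Kum 2 b y)
    {x : Fin n → N} (hN : IntermediateField.adjoin K (Set.range x) = ⊤)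
    (hx : ∀ k, algebraMap N M (x k) = algebraMap F M (z k) * algebraMap G M (y k))
    (hGM : IntermediateField.adjoin F (Set.range (algebraMap G M)) = ⊤)
    (hG : Module.finrank K G = 2 ^ n)
    (hP : PropM 2 (⟨0, 0, 0, A, 0⟩ : WeierstrassCurve K) F G) : HypL A N ∧ HypP A N := by
  have hE := H6_ext A hy.pow hGM hP
  obtain ⟨h1, -⟩ := hP M hGM
  obtain ⟨-, h3⟩ := Pool.Agent.Lib.MP_1a91b9_ntDF.kum_push hy hGM
  have hS : Sit K F N M e b z (fun k => algebraMap G M (y k)) x :=
    ⟨he, hb, hz, fun k => by rw [← map_pow, hy.pow k, ← IsScalarTower.algebraMap_apply], hx, hN, h3,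
      h1.trans hG⟩
  exact ⟨hypL_of hS hi hE, hypP_of hS hi hE⟩

/-- The second of two intermediate fields generates the compositum over the first. -/
private theorem H6_gen {K : Type} [Field K] {Ω : Type} [Field Ω] [Algebra K Ω]
    (F G M : IntermediateField K Ω) (hM : M ≤ F ⊔ G) [Algebra F M] [Algebra G M]
    [IsScalarTower K F M] (h1 : ∀ x : F, ((algebraMap F M x : M) : Ω) = x)
    (h2 : ∀ x : G, ((algebraMap G M x : M) : Ω) = x) :
    IntermediateField.adjoin F (Set.range (algebraMap G M)) = ⊤ := by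
  have h3 : ((IntermediateField.adjoin F (Set.range (algebraMap G M))).restrictScalars K).map M.val =
      M := by
    refine le_antisymm ?_ (hM.trans (sup_le ?_ ?_))
    · rintro _ ⟨m, -, rfl⟩
      exact m.2
    · intro x hx
      exact ⟨algebraMap F M ⟨x, hx⟩, IntermediateField.algebraMap_mem
        (IntermediateField.adjoin F (Set.range (algebraMap G M))) _, h1 ⟨x, hx⟩⟩
    · intro x hx
      exact ⟨algebraMap G M ⟨x, hx⟩, IntermediateField.subset_adjoin F _ ⟨_, rfl⟩, h2 ⟨x, hx⟩⟩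
  rw [eq_top_iff]
  intro m _
  have h4 : (m : Ω) ∈ ((IntermediateField.adjoin F (Set.range (algebraMap G M))).restrictScalars K).map
      M.val := by
    rw [h3]
    exact m.2
  obtain ⟨m', hm', h5⟩ := h4
  have h6 : m' = m := Subtype.ext h5
  rw [← h6]
  exact hm'

/-- **H6** (medium+). Proof: `F = NK 4 e`, `M = NK 4 e ⊔ NK 2 b` in the algebraic closure (finite over `K`, a number field), the
inclusions as algebras; `N = NK 4 (e_k b_k²) ≤ M`. Choose fourth roots `z_k` of `e_k` (`nk4_kum` in `ntQG/K1.lean`), square roots `y_k`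
of `b_k` in `NK 2 b`, and `x_k = z_k y_k` in `N` (a fourth root of `e_k b_k²`), which generate `N` (`nk4_adjoin`). `d2Z`
(`ntDZ/Z4.lean`) for the curve `⟨0, 0, 0, A, 0⟩`, `l = 4`, `j = 1728`, `D = -4`, `s = 2 i`: `finrank K (NK 2 b) = 2 ^ n` and `PropM`; in
`PropM` with this `M`: `finrank F M = finrank K (NK 2 b) = 2 ^ n`, so `Sit`, and `ExtM`: the points from `NoNewPoints` for
`F' = M`; for `F'` and `J` the last clause with `e = ∏_{k ∈ J} b_k` (a square in `NK 2 b`): `PropR 2`, whose first part for `i = 1` is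
`PropZ K (tw 2 E F' (e ^ 1))`. Then `hypL_of`, `hypP_of`. -/
theorem hyp_NK {K : Type} [Field K] [NumberField K] (hK : Module.finrank ℚ K = 2) {i : K} (hi : i ^ 2 = -1)
    {A : K} (hA : A ≠ 0) {n : ℕ} {e b : Fin n → K} (he : ∀ k, e k ≠ 0) (hb : ∀ k, b k ≠ 0)
    [NumberField (NK 4 e)] [NumberField (NK 4 fun k => e k * b k ^ 2)]
    (hM : Pool.Agent.Lib.MP_1a91b9_ntMQ.Fin.PropMF (⟨0, 0, 0, A, 0⟩ : WeierstrassCurve K) (NK 4 e) b) :
    HypL A (NK 4 fun k => e k * b k ^ 2) ∧ HypP A (NK 4 fun k => e k * b k ^ 2) := by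
  have hp : Fact (Nat.Prime 2) := ⟨Nat.prime_two⟩
  have hζ : IsPrimitiveRoot (-1 : K) 2 := IsPrimitiveRoot.neg_one 0 (by norm_num)
  obtain ⟨hfF, -, z, hz⟩ := Pool.Agent.Lib.MP_1a91b9_ntQG.nk4_kum hi he
  obtain ⟨hfG, -, -, y, hy⟩ := Pool.Agent.Lib.MP_1a91b9_ntDF.nk_kum hζ hb
  have hF : IntermediateField.adjoin K {x : NK 4 e | ∃ c : K, x ^ 4 = algebraMap K (NK 4 e) c} = ⊤ := by
    rw [eq_top_iff, ← hz.top]
    refine IntermediateField.adjoin.mono _ _ _ ?_
    rintro _ ⟨k, rfl⟩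
    exact ⟨e k, hz.pow k⟩
  have hΔ : (⟨0, 0, 0, A, 0⟩ : WeierstrassCurve K).Δ = -64 * A ^ 3 := by
    simp only [WeierstrassCurve.Δ, WeierstrassCurve.b₂, WeierstrassCurve.b₄, WeierstrassCurve.b₆,
      WeierstrassCurve.b₈]
    ring
  have hc : (⟨0, 0, 0, A, 0⟩ : WeierstrassCurve K).c₄ = -48 * A := by
    simp only [WeierstrassCurve.c₄, WeierstrassCurve.b₂, WeierstrassCurve.b₄]
    ring
  obtain ⟨hG, hP⟩ := Pool.Agent.Lib.MP_1a91b9_ntDZ.d2Z K hK (⟨0, 0, 0, A, 0⟩ : WeierstrassCurve K)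
    ⟨rfl, rfl, rfl⟩ (by
      rw [hΔ]
      exact mul_ne_zero (by norm_num) (pow_ne_zero _ hA)) 1728 (-4) (by simp) (by
      rw [hΔ, hc]
      push_cast
      ring) ⟨2 * i, by
      push_cast
      linear_combination 4 * hi⟩ 4 (Or.inr ⟨rfl, i, hi⟩) (NK 4 e) hF hb hM
  have hle : NK 4 (fun k => e k * b k ^ 2) ≤ NK 4 e ⊔ NK 2 b ∧ ∃ x : Fin n → NK 4 (fun k => e k * b k ^ 2),
      (∀ k, (x k : AlgebraicClosure K) = z k * y k) ∧ IntermediateField.adjoin K (Set.range x) = ⊤ := by
    have h1 : ∀ k, ((z k : AlgebraicClosure K) * y k) ^ 4 =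
        algebraMap K (AlgebraicClosure K) (e k * b k ^ 2) := by
      intro k
      have h2 : ((z k : NK 4 e) : AlgebraicClosure K) ^ 4 = algebraMap K (AlgebraicClosure K) (e k) := by
        have := congrArg (fun t : NK 4 e => (t : AlgebraicClosure K)) (hz.pow k)
        exact this
      have h3 : ((y k : NK 2 b) : AlgebraicClosure K) ^ 2 = algebraMap K (AlgebraicClosure K) (b k) := by
        have := congrArg (fun t : NK 2 b => (t : AlgebraicClosure K)) (hy.pow k)
        exact this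
      rw [mul_pow, h2, map_mul, map_pow, ← h3, ← pow_mul]
    have h4 := Pool.Agent.Lib.MP_1a91b9_ntQG.nk4_adjoin hi two_ne_zero
      (fun k => mul_ne_zero (he k) (pow_ne_zero 2 (hb k))) h1
    have h5 : ∀ k, (z k : AlgebraicClosure K) * y k ∈ NK 4 (fun k => e k * b k ^ 2) := fun k => by
      rw [h4]
      exact IntermediateField.subset_adjoin K _ ⟨k, rfl⟩
    refine ⟨?_, fun k => ⟨_, h5 k⟩, fun k => rfl, ?_⟩
    · rw [h4, IntermediateField.adjoin_le_iff]
      rintro _ ⟨k, rfl⟩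
      exact mul_mem (le_sup_left (a := NK 4 e) (b := NK 2 b) (z k).2)
        (le_sup_right (a := NK 4 e) (b := NK 2 b) (y k).2)
    · refine IntermediateField.map_injective (NK 4 (fun k => e k * b k ^ 2)).val ?_
      rw [IntermediateField.adjoin_map, ← AlgHom.fieldRange_eq_map, IntermediateField.fieldRange_val]
      have h6 : (NK 4 (fun k => e k * b k ^ 2)).val ''
          Set.range (fun k => (⟨_, h5 k⟩ : NK 4 (fun k => e k * b k ^ 2))) =
          Set.range (fun k => (z k : AlgebraicClosure K) * y k) := by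
        rw [← Set.range_comp]
        rfl
      rw [h6]
      exact h4.symm
  obtain ⟨hle, x, hx, hN⟩ := hle
  obtain ⟨M, hMe⟩ : ∃ M, M = NK 4 e ⊔ NK 2 b := ⟨_, rfl⟩
  have hFM : NK 4 e ≤ M := by
    rw [hMe]
    exact le_sup_left
  have hGM : NK 2 b ≤ M := by
    rw [hMe]
    exact le_sup_right
  have hNM : NK 4 (fun k => e k * b k ^ 2) ≤ M := by
    rw [hMe]
    exact hle
  have hfM : FiniteDimensional K M := by
    rw [hMe]
    exact IntermediateField.finiteDimensional_sup _ _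
  have : NumberField M := NumberField.of_module_finite K M
  let _ : Algebra (NK 4 e) M := (IntermediateField.inclusion hFM).toRingHom.toAlgebra
  let _ : Algebra (NK 2 b) M := (IntermediateField.inclusion hGM).toRingHom.toAlgebra
  let _ : Algebra (NK 4 fun k => e k * b k ^ 2) M := (IntermediateField.inclusion hNM).toRingHom.toAlgebra
  have : IsScalarTower K (NK 4 e) M := IsScalarTower.of_algebraMap_eq fun _ => rfl
  have : IsScalarTower K (NK 2 b) M := IsScalarTower.of_algebraMap_eq fun _ => rfl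
  have : IsScalarTower K (NK 4 fun k => e k * b k ^ 2) M := IsScalarTower.of_algebraMap_eq fun _ => rfl
  exact H6_core (F := NK 4 e) (G := NK 2 b) (M := M) hi A he hb hz.pow hy hN
    (fun k => Subtype.ext (hx k))
    (H6_gen (NK 4 e) (NK 2 b) M hMe.le (fun _ => rfl) fun _ => rfl) hG hP

end Pool.Agent.Lib.MP_1a91b9_ntQH
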