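import Pool.Agent.Lib.MP_1a91b9_ntQH.H0

/-!
# MP_1a91b9_nt (the abelian extensions of exponent four, relative form): one quadratic step
-/

set_option autoImplicit false

namespace Pool.Agent.Lib.MP_1a91b9_ntQH

open NumberField
open Pool.Agent.Lib.MP_1a91b9_ntDV.Fin (RamOK RelBSD BSD0)
open Pool.Agent.Lib.MP_1a91b9_ntQT.Fin (PropS PropR5)
open Pool.Agent.Lib.MP_1a91b9_ntDZ (LNonzero)

section

variable {K : Type} [Field K] [NumberField K]

/-- the number `m ^ 2 e` is integral -/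
private theorem H7_int {P : Type} [Field P] [NumberField P] (e : P) :
    ∃ (m : P) (e' : 𝓞 P), m ≠ 0 ∧ (e' : P) = m ^ 2 * e := by
  have halg : IsAlgebraic ℤ e :=
    (IsFractionRing.isAlgebraic_iff ℤ ℚ P).2 (Algebra.IsAlgebraic.isAlgebraic e)
  obtain ⟨y, hy, hint⟩ := halg.exists_integral_multiple
  have h2 : IsIntegral ℤ ((y : P) ^ 2 * e) := by
    have h3 : (y : P) ^ 2 * e = y • (y • e) := by
      rw [zsmul_eq_mul, zsmul_eq_mul]
      ring
    rw [h3]
    exact hint.zsmul y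
  exact ⟨(y : P), ⟨(y : P) ^ 2 * e, h2⟩, by exact_mod_cast hy, rfl⟩

/-- the change of the variables -/
private theorem H7_vc {P : Type} [Field P] {m : P} (hm : m ≠ 0) (c : P) :
    (⟨Units.mk0 m hm, 0, 0, 0⟩ : WeierstrassCurve.VariableChange P) • (⟨0, 0, 0, m ^ 4 * c, 0⟩ : WeierstrassCurve P) =
      ⟨0, 0, 0, c, 0⟩ := by
  rw [WeierstrassCurve.variableChange_def]
  refine WeierstrassCurve.ext ?_ ?_ ?_ ?_ ?_
  · simp
  · simp
  · simp
  · simp only [Units.val_inv_eq_inv_val, Units.val_mk0]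
    field_simp
    ring
  · simp

omit [NumberField K] in
/-- the curve over `P` -/
private theorem H7_bc (A : K) (P : Type) [Field P] [Algebra K P] :
    (⟨0, 0, 0, A, 0⟩ : WeierstrassCurve K).baseChange P =
      Pool.Agent.Lib.MP_1a91b9_ntL.crv 0 (algebraMap K P A) :=
  Pool.Agent.Lib.MP_1a91b9_ntQT.crv0_map A

/-- **H7** (medium). **The property `R` of `e`.** Proof: `c = e²`, `c` in `K`: the curve `⟨0, 0, 0, A e², 0⟩` over `P` is the base change of
`⟨0, 0, 0, A c, 0⟩` over `K`, so `TowP` for it by `tow_self` (`ntQT/Q1.lean`) from `hL`. If `e` is integral: `tow_e` (`ntQT/TV5.lean`,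
with `QL (crv 0 A)` over `P` by `q_ql`, `ql_up` in `ntQT/TV2.lean`): `TowE K A e`, which is `PropR5` (see how `PropQ5` / `fin_T` get
`PropR` from `TowE` in `ntQT`, file `TL9` or where `TowE` is used; `crv 0 (e² A) = ⟨0, 0, 0, e² A, 0⟩`). In general take a
natural number `m ≠ 0` with `m e` integral and apply this to `e' = m² e`... (`m² e` is integral, `IsSquare (m² e) ↔ IsSquare e`): `TowP`
for `⟨0, 0, 0, A e'², 0⟩` by `towP_vc` (`ntJ`), and a root `y` of `e` gives the root `m y` of `e'`, which generates the same field. -/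
theorem propR_of (hK : Module.finrank ℚ K = 2) {i : K} (hi : i ^ 2 = -1) {A : K} (hA : A ≠ 0) {P : Type}
    [Field P] [NumberField P] [Algebra K P]
    (hP : IntermediateField.adjoin K {z : P | ∃ c : K, z ^ 4 = algebraMap K P c} = ⊤) {e : P}
    (he : ∃ c : K, e ^ 2 = algebraMap K P c) (hns : ¬ IsSquare e)
    (hL : LNonzero (⟨0, 0, 0, algebraMap K P A * e ^ 2, 0⟩ : WeierstrassCurve P)) :
    PropR5 (⟨0, 0, 0, A, 0⟩ : WeierstrassCurve K) P e := by
  obtain ⟨c, hc⟩ := he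
  have he0 : e ≠ 0 := by
    rintro rfl
    exact hns ⟨0, by rw [mul_zero]⟩
  have hc0 : c ≠ 0 := by
    rintro rfl
    rw [map_zero] at hc
    exact he0 (pow_eq_zero_iff two_ne_zero |>.1 hc)
  have hAP : algebraMap K P A ≠ 0 := (map_ne_zero _).2 hA
  have e1 : (⟨0, 0, 0, A * c, 0⟩ : WeierstrassCurve K).baseChange P = ⟨0, 0, 0, algebraMap K P A * e ^ 2, 0⟩ := by
    rw [H7_bc, map_mul, ← hc]
    rfl
  have hT : Pool.Agent.Lib.MP_1a91b9_ntJ.TowP K (⟨0, 0, 0, algebraMap K P A * e ^ 2, 0⟩ : WeierstrassCurve P) := by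
    rw [← e1]
    refine Pool.Agent.Lib.MP_1a91b9_ntQT.tow_self hK hi (mul_ne_zero hA hc0) hP ?_
    rw [e1]
    exact hL
  obtain ⟨m, e', hm, he'⟩ := H7_int e
  have he'0 : e' ≠ 0 := by
    rintro rfl
    exact mul_ne_zero (pow_ne_zero 2 hm) he0 he'.symm
  have e2 : (e' : P) ^ 2 * algebraMap K P A = m ^ 4 * (algebraMap K P A * e ^ 2) := by
    rw [he']
    ring
  have hT' : Pool.Agent.Lib.MP_1a91b9_ntJ.TowP K
      (Pool.Agent.Lib.MP_1a91b9_ntL.crv 0 ((e' : P) ^ 2 * algebraMap K P A)) := by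
    rw [e2]
    exact Pool.Agent.Lib.MP_1a91b9_ntJ.towP_vc (H7_vc hm (algebraMap K P A * e ^ 2)) hT
  have hE : Pool.Agent.Lib.MP_1a91b9_ntQT.TowE K (algebraMap K P A) (e' : P) := by
    refine Pool.Agent.Lib.MP_1a91b9_ntQT.tow_e hAP ?_ (i := algebraMap K P i) ?_ he'0 ?_ hT'
    · rw [← Pool.Agent.Lib.MP_1a91b9_ntQT.crv0_map]
      exact Pool.Agent.Lib.MP_1a91b9_ntQT.ql_up (Pool.Agent.Lib.MP_1a91b9_ntQT.q_ql hK hi hA)
    · rw [← map_pow, hi, map_neg, map_one]
    · rw [he']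
      rintro ⟨z, hz⟩
      refine hns ⟨m⁻¹ * z, ?_⟩
      have h3 : e = (m ^ 2)⁻¹ * (m ^ 2 * e) := by
        field_simp
      rw [h3, hz]
      ring
  obtain ⟨-, S₂, hS₂⟩ := hE
  intro V hV
  have hV' : V = ⟨0, 0, 0, algebraMap K P A * e ^ 2, 0⟩ := hV
  obtain ⟨S₁, hS₁⟩ := hT
  subst hV'
  refine ⟨⟨S₁, fun q _ hq k L M _ _ _ _ _ _ _ _ _ hM hram N _ _ _ W C hC =>
    hS₁ q hq k N L M hM hram W C hC⟩, S₂, fun q _ hq k L M _ _ _ _ _ _ _ _ _ hM hram L' _ _ _ y hy hgen => ?_⟩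
  have hram' : Pool.Agent.Lib.MP_1a91b9_ntQT.RamF K
      (Pool.Agent.Lib.MP_1a91b9_ntL.crv 0 ((e' : P) ^ 2 * algebraMap K P A)) q L := by
    intro v w hvw
    refine ⟨(hram v w hvw).1, fun hv V₀ C₀ hV₀ hΔ => ?_⟩
    refine (hram v w hvw).2 hv V₀
      (C₀ * (⟨Units.mk0 m hm, 0, 0, 0⟩ : WeierstrassCurve.VariableChange P)⁻¹) ?_ hΔ
    rw [← H7_vc hm (algebraMap K P A * e ^ 2), mul_smul, inv_smul_smul, ← e2]
    exact hV₀
  have hm' : algebraMap P L m ≠ 0 := (map_ne_zero _).2 hm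
  have hm'' : algebraMap L L' (algebraMap P L m) ≠ 0 := (map_ne_zero _).2 hm'
  have h1 := hS₂ q hq k L M hM hram' L' (algebraMap L L' (algebraMap P L m) * y) (by
    rw [he', mul_pow, hy, map_mul, map_mul, map_pow, map_pow]) (by
    rw [eq_top_iff, ← hgen, IntermediateField.adjoin_le_iff]
    intro z hz
    rw [Set.mem_singleton_iff.1 hz]
    have h2 := IntermediateField.mem_adjoin_simple_self L (algebraMap L L' (algebraMap P L m) * y)
    have h3 := mul_mem (inv_mem (IntermediateField.algebraMap_mem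
      (IntermediateField.adjoin L {algebraMap L L' (algebraMap P L m) * y}) (algebraMap P L m))) h2
    rw [inv_mul_cancel_left₀ hm''] at h3
    exact h3)
  rw [H7_bc]
  exact h1

/-- **H7b** (medium). **One quadratic step.** Proof: the L-series by `QL` (`q_ql` in `ntQT/TV2.lean`: product of the L-series of `E` and
of its twist by `e` over `P`, `twd (crv 0 A) e = crv 0 (A e²)`; `hL` gives the entire function), the relative conjecture from
the second part of `PropR5` with `k = 0`, `L = M = P` (`RamOK` is empty: `ram_self` in `ntQT/TV5.lean`, `rel_step`; `baseChange P` of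
a curve over `P` is the curve itself, `WeierstrassCurve.map_id`). -/
theorem quad_step (hK : Module.finrank ℚ K = 2) {i : K} (hi : i ^ 2 = -1) {A : K} (hA : A ≠ 0) {P : Type}
    [Field P] [NumberField P] [Algebra K P]
    (hP : IntermediateField.adjoin K {z : P | ∃ c : K, z ^ 4 = algebraMap K P c} = ⊤) {e : P}
    (he : ∃ c : K, e ^ 2 = algebraMap K P c) (hns : ¬ IsSquare e)
    (hL : LNonzero (⟨0, 0, 0, algebraMap K P A * e ^ 2, 0⟩ : WeierstrassCurve P))
    {P' : Type} [Field P'] [NumberField P'] [Algebra K P'] [Algebra P P'] [IsScalarTower K P P'] {y : P'}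
    (hy : y ^ 2 = algebraMap P P' e) (hgen : IntermediateField.adjoin P {y} = ⊤) :
    (∃ g : ℂ → ℂ, Differentiable ℂ g ∧ g 1 ≠ 0 ∧ ∀ s : ℂ, 3 / 2 < s.re →
      ((⟨0, 0, 0, A, 0⟩ : WeierstrassCurve K).baseChange P').LSeries s =
        ((⟨0, 0, 0, A, 0⟩ : WeierstrassCurve K).baseChange P).LSeries s * g s) ∧
    ∃ S : Finset ℕ, ∀ (q : ℕ) [Fact q.Prime], q ∉ S →
      RelBSD q ((⟨0, 0, 0, A, 0⟩ : WeierstrassCurve K).baseChange P)
        (((⟨0, 0, 0, A, 0⟩ : WeierstrassCurve K).baseChange P).baseChange P') := by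
  have he0 : e ≠ 0 := by
    rintro rfl
    exact hns ⟨0, by rw [mul_zero]⟩
  have e3 : (⟨0, 0, 0, A, 0⟩ : WeierstrassCurve K).baseChange P' =
      ((⟨0, 0, 0, A, 0⟩ : WeierstrassCurve K).baseChange P).baseChange P' := by
    show WeierstrassCurve.map _ _ = (WeierstrassCurve.map _ _).map _
    rw [WeierstrassCurve.map_map, IsScalarTower.algebraMap_eq K P P']
  refine ⟨?_, ?_⟩
  · obtain ⟨g, g1, g2, g3⟩ := hL
    refine ⟨g, g1, g3, fun s hs => ?_⟩
    have h1 := Pool.Agent.Lib.MP_1a91b9_ntQT.q_ql hK hi hA P P' e y he0 hy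
      (Pool.Agent.Lib.MP_1a91b9_ntQT.q4_sq' hy hns) (Pool.Agent.Lib.MP_1a91b9_ntC.quad_gen hy hgen) s hs
    have e4 : Pool.Agent.Lib.MP_1a91b9_ntW.J.twd
        ((Pool.Agent.Lib.MP_1a91b9_ntL.crv 0 A).map (algebraMap K P)) e =
        ⟨0, 0, 0, algebraMap K P A * e ^ 2, 0⟩ := by
      rw [Pool.Agent.Lib.MP_1a91b9_ntQT.crv0_map, Pool.Agent.Lib.MP_1a91b9_ntW.J.twd_crv, mul_zero, mul_comm]
    rw [e4, ← g2 s hs] at h1
    rw [e3]
    exact h1
  · obtain ⟨-, S, hS⟩ := propR_of hK hi hA hP he hns hL _ rfl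
    refine ⟨S, fun q _ hq => ?_⟩
    have h1 := hS q hq 0 P P (by rw [Module.finrank_self, pow_zero])
      (Pool.Agent.Lib.MP_1a91b9_ntQT.ram_self K _ q) P' y hy hgen
    have h2 : ((⟨0, 0, 0, A, 0⟩ : WeierstrassCurve K).baseChange P).baseChange P =
        (⟨0, 0, 0, A, 0⟩ : WeierstrassCurve K).baseChange P := WeierstrassCurve.map_id _
    rw [h2] at h1
    exact h1

end

end Pool.Agent.Lib.MP_1a91b9_ntQH
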