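import Pool.Agent.Lib.MP_1a91b9_ntDZ.Z7a

/-!
# MP_1a91b9_nt (the abelian extensions of exponent four, relative form): separated subsets
-/

set_option autoImplicit false

namespace Pool.Agent.Lib.MP_1a91b9_ntQH

open NumberField IntermediateField

/-- If two square roots generate the same field then their product is in the base field. -/
private theorem si_prod {K F : Type} [Field K] [CharZero K] [Field F] [Algebra K F] {a b : K} {y z : F}
    (hy : y ^ 2 = algebraMap K F a) (hz : z ^ 2 = algebraMap K F b)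
    (h : K⟮y⟯ = K⟮z⟯) : ∃ c : K, y * z = algebraMap K F c := by
  by_cases hyK : ∃ c : K, y = algebraMap K F c
  · obtain ⟨c, rfl⟩ := hyK
    have h1 : z ∈ K⟮z⟯ := mem_adjoin_simple_self K z
    rw [← h] at h1
    have h2 : K⟮algebraMap K F c⟯ = ⊥ := by
      rw [adjoin_simple_eq_bot_iff]
      exact IntermediateField.algebraMap_mem _ c
    rw [h2, mem_bot] at h1
    obtain ⟨d, rfl⟩ := h1
    exact ⟨c * d, (map_mul _ _ _).symm⟩
  · have hint : IsIntegral K y := ⟨Polynomial.X ^ 2 - Polynomial.C a, Polynomial.monic_X_pow_sub_C _ (by norm_num), by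
      rw [Polynomial.eval₂_sub, Polynomial.eval₂_pow, Polynomial.eval₂_X, Polynomial.eval₂_C, hy, sub_self]⟩
    have h1 : z ∈ K⟮y⟯ := by
      rw [h]
      exact mem_adjoin_simple_self K z
    -- `z = p + q y`
    obtain ⟨p, q, hpq⟩ : ∃ p q : K, z = algebraMap K F p + algebraMap K F q * y := by
      have h2 : z ∈ Algebra.adjoin K {y} := by
        rw [← adjoin_simple_toSubalgebra_of_isAlgebraic hint.isAlgebraic]
        exact h1
      refine Algebra.adjoin_induction (p := fun z _ => ∃ p q : K, z = algebraMap K F p + algebraMap K F q * y)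
        ?_ ?_ ?_ ?_ h2
      · rintro w hw
        rw [Set.mem_singleton_iff] at hw
        exact ⟨0, 1, by rw [hw, map_zero, map_one, zero_add, one_mul]⟩
      · intro r
        exact ⟨r, 0, by rw [map_zero, zero_mul, add_zero]⟩
      · rintro u v _ _ ⟨p, q, rfl⟩ ⟨p', q', rfl⟩
        exact ⟨p + p', q + q', by rw [map_add, map_add]; ring⟩
      · rintro u v _ _ ⟨p, q, rfl⟩ ⟨p', q', rfl⟩
        refine ⟨p * p' + q * q' * a, p * q' + q * p', ?_⟩
        rw [map_add, map_add, map_mul, map_mul, map_mul, map_mul, map_mul, ← hy]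
        ring
    have h3 : algebraMap K F (2 * p * q) * y = algebraMap K F (b - p ^ 2 - q ^ 2 * a) := by
      rw [map_sub, map_sub, map_mul, map_mul, map_mul, map_pow, map_pow, ← hz, ← hy, hpq, map_ofNat]
      ring
    by_cases hpq0 : 2 * p * q = 0
    · rcases mul_eq_zero.1 hpq0 with h4 | h4
      · have hp : p = 0 := by
          rcases mul_eq_zero.1 h4 with h5 | h5
          · exact absurd h5 (by norm_num)
          · exact h5
        refine ⟨q * a, ?_⟩
        rw [hpq, hp, map_zero, zero_add, map_mul, ← hy]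
        ring
      · exfalso
        apply hyK
        have h5 : y ∈ K⟮z⟯ := by
          rw [← h]
          exact mem_adjoin_simple_self K y
        have h6 : K⟮z⟯ = ⊥ := by
          rw [adjoin_simple_eq_bot_iff, hpq, h4, map_zero, zero_mul, add_zero]
          exact IntermediateField.algebraMap_mem _ p
        rw [h6, mem_bot] at h5
        obtain ⟨d, hd⟩ := h5
        exact ⟨d, hd.symm⟩
    · exfalso
      apply hyK
      refine ⟨(b - p ^ 2 - q ^ 2 * a) / (2 * p * q), ?_⟩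
      rw [map_div₀, ← h3, mul_div_cancel_left₀]
      rw [Ne, map_eq_zero]
      exact hpq0

/-- **Separated infinite subsets.** -/
theorem sep_inf {K : Type} [Field K] [NumberField K] (F : Type) [Field F] [NumberField F] [Algebra K F]
    {C : Set K} (hCf : C.Finite) (hC : ∀ c ∈ C, c ≠ 0) {T : Set K} (hT : T.Infinite) (h0 : 0 ∉ T)
    (hsq : ∀ δ ∈ T, ∀ δ' ∈ T, δ ≠ δ' → ¬ IsSquare (δ * δ')) :
    ∃ T' ⊆ T, T'.Infinite ∧ ∀ δ ∈ T', ∀ δ' ∈ T', δ ≠ δ' → ∀ c ∈ C, ∀ x : F,
      x ^ 2 * algebraMap K F δ' ≠ algebraMap K F (c * δ) := by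
  classical
  have hne : ∀ δ ∈ T, δ ≠ 0 := fun δ hδ h => h0 (h ▸ hδ)
  have _ : FiniteDimensional K F := inferInstance
  have hfin : Finite (IntermediateField K F) := (Field.exists_primitive_element_iff_finite_intermediateField K F).1
    ⟨inferInstance, Field.exists_primitive_element K F⟩
  have key : ∀ δ ∈ T, ∀ c ∈ C, {δ' ∈ T | ∃ y : F, y ^ 2 = algebraMap K F (c * δ * δ')}.Finite := by
    intro δ hδ c hc
    have hch : ∀ δ' : K, ∃ y : F, (∃ y : F, y ^ 2 = algebraMap K F (c * δ * δ')) →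
        y ^ 2 = algebraMap K F (c * δ * δ') := by
      intro δ'
      by_cases h : ∃ y : F, y ^ 2 = algebraMap K F (c * δ * δ')
      · exact ⟨h.choose, fun _ => h.choose_spec⟩
      · exact ⟨0, fun h' => absurd h' h⟩
    choose y hy using hch
    refine Set.Finite.of_injOn (f := fun δ' => K⟮y δ'⟯) (t := Set.univ) (fun _ _ => Set.mem_univ _) ?_
      (Set.finite_univ)
    rintro δ₁ ⟨hδ₁, h₁⟩ δ₂ ⟨hδ₂, h₂⟩ h
    by_contra hne'
    obtain ⟨r, hr⟩ := si_prod (hy δ₁ h₁) (hy δ₂ h₂) h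
    apply hsq δ₁ hδ₁ δ₂ hδ₂ hne'
    have h3 : r ^ 2 = (c * δ) ^ 2 * (δ₁ * δ₂) := by
      apply (algebraMap K F).injective
      rw [map_pow, ← hr, mul_pow, hy δ₁ h₁, hy δ₂ h₂, ← map_mul]
      congr 1
      ring
    have hcd : c * δ ≠ 0 := mul_ne_zero (hC c hc) (hne δ hδ)
    refine ⟨r / (c * δ), ?_⟩
    rw [div_mul_div_comm, eq_div_iff (mul_ne_zero hcd hcd), ← pow_two, ← pow_two, h3]
    ring
  obtain ⟨T', hT', hinf, hind⟩ := Pool.Agent.Lib.MP_1a91b9_ntDZ.ind_inf T hT
    (fun δ δ' => ∃ c ∈ C, ∃ x : F, x ^ 2 * algebraMap K F δ' = algebraMap K F (c * δ)) (by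
      intro δ hδ
      refine (hCf.biUnion fun c hc => key δ hδ c hc).subset ?_
      rintro δ' ⟨hδ', ⟨c, hc, x, hx⟩ | ⟨c, hc, x, hx⟩⟩
      · refine Set.mem_biUnion hc ⟨hδ', x * algebraMap K F δ', ?_⟩
        rw [mul_pow, pow_two (algebraMap K F δ'), ← mul_assoc, hx, ← map_mul]
      · refine Set.mem_biUnion hc ⟨hδ', x * algebraMap K F δ, ?_⟩
        rw [mul_pow, pow_two (algebraMap K F δ), ← mul_assoc, hx, ← map_mul]
        congr 1
        ring)
  exact ⟨T', hT', hinf, fun δ hδ δ' hδ' h c hc x hx => hind δ hδ δ' hδ' h ⟨c, hc, x, hx⟩⟩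

/-- **S1** **A separated infinite subset.** -/
theorem sep_sub {K F : Type} [Field K] [NumberField K] [Field F] [NumberField F] [Algebra K F] {A : K}
    (hA : A ≠ 0) {T : Set K} (hT : T.Infinite) (h0 : 0 ∉ T)
    (hsq : ∀ δ ∈ T, ∀ δ' ∈ T, δ ≠ δ' → ¬ IsSquare (δ * δ')) :
    ∃ T' ⊆ T, T'.Infinite ∧ ∀ δ ∈ T', ∀ δ' ∈ T', δ ≠ δ' → ∀ c ∈ ({1, -1, A, -A} : Set K), ∀ x : F,
      x ^ 2 * algebraMap K F δ' ≠ algebraMap K F (c * δ) := by
  refine sep_inf F (C := {1, -1, A, -A}) (Set.toFinite _) ?_ hT h0 hsq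
  rintro c (rfl | rfl | rfl | rfl)
  · exact one_ne_zero
  · exact neg_ne_zero.2 one_ne_zero
  · exact hA
  · exact neg_ne_zero.2 hA

end Pool.Agent.Lib.MP_1a91b9_ntQH
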