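import Pool.Agent.Lib.MP_1a91b9_ntQH.H6
import Pool.Agent.Lib.MP_1a91b9_ntQH.H9
import Pool.Agent.Lib.MP_1a91b9_ntQH.S1
import Pool.Agent.Lib.MP_1a91b9_ntDT.P5

/-!
# MP_1a91b9_nt (the abelian extensions of exponent four, relative form): the law for one family
-/

set_option autoImplicit false

namespace Pool.Agent.Lib.MP_1a91b9_ntQH

open NumberField
open Pool.Agent.Lib.MP_1a91b9_ntDF (tw NK cK)
open Pool.Agent.Lib.MP_1a91b9_ntQD (nr)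
open Pool.Agent.Lib.MP_1a91b9_ntQG (Ix Box QQ F4)

private theorem L1_pf {R : Type} [CommMonoid R] (x : R) : Squarefree x ↔ Pool.Agent.Lib.MP_1a91b9_ntDF.Pf 2 x := by
  constructor
  · intro h y hy
    exact h y (by rwa [← pow_two])
  · intro h y hy
    exact h y (by rwa [pow_two])

private theorem L1_nr_le {K : Type} [Field K] [NumberField K] {x y : 𝓞 K} (hy : y ≠ 0) (h : x ∣ y) :
    nr x ≤ nr y := by
  unfold nr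
  have h1 : Algebra.norm ℤ x ∣ Algebra.norm ℤ y := map_dvd (Algebra.norm ℤ) h
  have h2 : Algebra.norm ℤ y ≠ 0 := Algebra.norm_ne_zero_iff.2 hy
  have h3 : |Algebra.norm ℤ x| ≤ |Algebra.norm ℤ y| :=
    Int.le_of_dvd (abs_pos.2 h2) ((abs_dvd_abs _ _).2 h1)
  exact_mod_cast h3

private theorem L1_all {K : Type} [Field K] [NumberField K] {n : ℕ} (Z : ℝ) (d : Fin n → 𝓞 K) :
    ((∀ i, Pool.Agent.Lib.MP_1a91b9_ntDF.Pf 2 (d i) ∧ ((2 : ℕ) : 𝓞 K) ^ 0 ∣ d i - (fun _ => 0 : Fin n → 𝓞 K) i) ∧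
      ∃ A : 𝓞 K, A ≠ 0 ∧ |Algebra.norm ℤ A| ≤ Z ∧ ∀ i, d i ∣ A ^ (2 - 1)) ↔ d ∈ Box K n Z := by
  constructor
  · rintro ⟨h1, A, hA, hZ, h2⟩
    refine ⟨fun k => (L1_pf _).2 (h1 k).1, A, hA, ?_, fun k => ?_⟩
    · unfold nr
      exact_mod_cast hZ
    · have h3 := h2 k
      rwa [show 2 - 1 = 1 from rfl, pow_one] at h3
  · rintro ⟨h1, A, hA, hZ, h2⟩
    refine ⟨fun k => ⟨(L1_pf _).1 (h1 k), ?_⟩, A, hA, ?_, fun k => ?_⟩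
    · rw [pow_zero]
      exact one_dvd _
    · unfold nr at hZ
      exact_mod_cast hZ
    · rw [show 2 - 1 = 1 from rfl, pow_one]
      exact h2 k

private theorem L1_ee {K : Type} [Field K] [NumberField K] {n : ℕ} (j : Ix K n) (k : Fin n) :
    ((Pool.Agent.Lib.MP_1a91b9_ntQG.ee j k : 𝓞 K) : K) ≠ 0 := by
  have h1 : Pool.Agent.Lib.MP_1a91b9_ntQG.ee j k ≠ 0 := by
    unfold Pool.Agent.Lib.MP_1a91b9_ntQG.ee
    exact mul_ne_zero (Units.ne_zero _) (Finset.prod_ne_zero_iff.2 fun v _ => pow_ne_zero _ (j.2 v).2)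
  intro h
  exact h1 (RingOfIntegers.ext h)

private theorem L1_gen {K : Type} [Field K] [NumberField K] {i : K} (hi : i ^ 2 = -1) {n : ℕ} {w : Fin n → K}
    (hw : ∀ k, w k ≠ 0) :
    IntermediateField.adjoin K {x : NK 4 w | ∃ c : K, x ^ 4 = algebraMap K (NK 4 w) c} = ⊤ := by
  obtain ⟨-, -, y, hy⟩ := Pool.Agent.Lib.MP_1a91b9_ntQG.nk4_kum hi hw
  rw [eq_top_iff, ← hy.top]
  refine IntermediateField.adjoin.mono _ _ _ ?_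
  rintro _ ⟨k, rfl⟩
  exact ⟨w k, hy.pow k⟩

private theorem L1_tw {K : Type} [Field K] (A u : K) :
    tw 2 (⟨0, 0, 0, A, 0⟩ : WeierstrassCurve K) K u = (⟨0, 0, 0, A * u ^ 2, 0⟩ : WeierstrassCurve K) := by
  ext
  · rfl
  · simp [Pool.Agent.Lib.MP_1a91b9_ntDF.tw]
  · simp [Pool.Agent.Lib.MP_1a91b9_ntDF.tw]
  · simp [Pool.Agent.Lib.MP_1a91b9_ntDF.tw]
  · rfl

/-- **L1a** (easy+). `hyp_NK` and `propN_of` (`kum_gal` in `ntQG/K3.lean` with `nk4_kum` in `ntQG/K1.lean`). -/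
theorem propN_QQ {K : Type} [Field K] [NumberField K] (hK : Module.finrank ℚ K = 2) {i : K} (hi : i ^ 2 = -1)
    {A : K} (hA : A ≠ 0) {n : ℕ} {j : Ix K n} {b : Fin n → 𝓞 K} (hb : ∀ k, b k ≠ 0) [NumberField (F4 j)]
    (hM : Pool.Agent.Lib.MP_1a91b9_ntMQ.Fin.PropMF (⟨0, 0, 0, A, 0⟩ : WeierstrassCurve K) (F4 j) (cK K b)) :
    PropN (⟨0, 0, 0, A, 0⟩ : WeierstrassCurve K) (QQ j b) := by
  have hbK : ∀ k, ((b k : 𝓞 K) : K) ≠ 0 := fun k h => hb k (RingOfIntegers.ext h)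
  have hw : ∀ k, ((Pool.Agent.Lib.MP_1a91b9_ntQG.ee j k : 𝓞 K) : K) * ((b k : 𝓞 K) : K) ^ 2 ≠ 0 := fun k =>
    mul_ne_zero (L1_ee j k) (pow_ne_zero 2 (hbK k))
  obtain ⟨-, hnf, y, hy⟩ := Pool.Agent.Lib.MP_1a91b9_ntQG.nk4_kum hi hw
  have hnf' : NumberField (NK 4 fun k => ((Pool.Agent.Lib.MP_1a91b9_ntQG.ee j k : 𝓞 K) : K)) :=
    inferInstanceAs (NumberField (F4 j))
  obtain ⟨hL, hP⟩ := hyp_NK hK hi hA (e := fun k => ((Pool.Agent.Lib.MP_1a91b9_ntQG.ee j k : 𝓞 K) : K))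
    (b := fun k => ((b k : 𝓞 K) : K)) (L1_ee j) hbK hM
  obtain ⟨hG, hc, h4⟩ := Pool.Agent.Lib.MP_1a91b9_ntQG.kum_gal hi hy hw
  show PropN (⟨0, 0, 0, A, 0⟩ : WeierstrassCurve K)
    (NK 4 fun k => ((Pool.Agent.Lib.MP_1a91b9_ntQG.ee j k : 𝓞 K) : K) * ((b k : 𝓞 K) : K) ^ 2)
  exact propN_of hK hi hA hc h4 hL hP

/-- **L1** (medium). **The law for the fields `QQ j b`.** Proof: `sep_sub` for `F = F4 j`: `T'`; `l2T` (`ntDT/P5.lean`) for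
`E = ⟨0, 0, 0, A, 0⟩`, the pair `1728`, `-4`, `l = 4`, `F = F4 j`, `r = n`, `T'` (so `v = 1`), the class `n = 0`, `u = 0`: for large `X`, among the
`b` in the box `X` the proportion of those with at least `t` of the `δ` in `T'` with `PropMF` is at least `1 - ε`; for these `δ`
`propN_QQ` (`tw 2 E K δ = ⟨0, 0, 0, A δ², 0⟩`: `tw_eq` as in `ntQD/E1.lean`). (See `qg_E5.lean`, `law_e` of helper25, for the same
proof.) -/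
theorem law_T {K : Type} [Field K] [NumberField K] (hK : Module.finrank ℚ K = 2) [Finite (𝓞 K)ˣ]
    (hfin : ∀ Z : ℝ, {x : 𝓞 K | x ≠ 0 ∧ nr x ≤ Z}.Finite) {i : K} (hi : i ^ 2 = -1)
    {A : K} (hA : A ≠ 0) {T : Set K} (hT : T.Infinite) (h0 : 0 ∉ T)
    (hsq : ∀ δ ∈ T, ∀ δ' ∈ T, δ ≠ δ' → ¬ IsSquare (δ * δ')) {n : ℕ} (j : Ix K n) [NumberField (F4 j)]
    (t : ℕ) (ε : ℝ) (hε : 0 < ε) :
    ∀ᶠ Z : ℝ in Filter.atTop,
      (Nat.card {b : Fin n → 𝓞 K // b ∈ Box K n Z ∧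
        ¬ t ≤ {δ ∈ T | PropN (⟨0, 0, 0, A * δ ^ 2, 0⟩ : WeierstrassCurve K) (QQ j b)}.encard} : ℝ) ≤
        ε * (Nat.card (Box K n Z) : ℝ) := by
  classical
  obtain ⟨T', hTT, hTI, hsep⟩ := sep_sub (F := F4 j) hA hT h0 hsq
  have hΔ : (⟨0, 0, 0, A, 0⟩ : WeierstrassCurve K).Δ ≠ 0 := by
    have h1 : (⟨0, 0, 0, A, 0⟩ : WeierstrassCurve K).Δ = -64 * A ^ 3 := by
      simp only [WeierstrassCurve.Δ, WeierstrassCurve.b₂, WeierstrassCurve.b₄,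
        WeierstrassCurve.b₆, WeierstrassCurve.b₈]
      ring
    rw [h1]
    exact mul_ne_zero (by norm_num) (pow_ne_zero _ hA)
  have hj : (⟨0, 0, 0, A, 0⟩ : WeierstrassCurve K).c₄ ^ 3 =
      ((1728 : ℤ) : K) * (⟨0, 0, 0, A, 0⟩ : WeierstrassCurve K).Δ := by
    simp only [WeierstrassCurve.Δ, WeierstrassCurve.b₂, WeierstrassCurve.b₄,
      WeierstrassCurve.b₆, WeierstrassCurve.b₈, WeierstrassCurve.c₄]
    push_cast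
    ring
  have hD : ∃ s : K, s ^ 2 = ((-4 : ℤ) : K) := by
    refine ⟨2 * i, ?_⟩
    rw [mul_pow, hi]
    push_cast
    norm_num
  have hu : ∀ (k : Fin n) (q : 𝓞 K), Prime q →
      ¬ (q ^ 2 ∣ ((2 : ℕ) : 𝓞 K) ^ 0 ∧ q ^ 2 ∣ (fun _ => 0 : Fin n → 𝓞 K) k) := by
    rintro _ q hq ⟨h, -⟩
    rw [pow_zero] at h
    exact hq.not_isUnit (isUnit_of_dvd_one ((dvd_pow_self q two_ne_zero).trans h))
  have hF : IntermediateField.adjoin K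
      {x : F4 j | ∃ c : K, x ^ 4 = algebraMap K (F4 j) c} = ⊤ := L1_gen hi (L1_ee j)
  have key := Pool.Agent.Lib.MP_1a91b9_ntDT.l2T K hK (⟨0, 0, 0, A, 0⟩ : WeierstrassCurve K)
    ⟨rfl, rfl, rfl⟩ hΔ 1728 (-4) (by simp) hj hD 4 (Or.inr ⟨rfl, i, hi⟩) (F4 j) hF n
    T' (fun h => h0 (hTT h)) hsep 0 (fun _ => 0) hu t 1 (if_pos hTI).symm ε hε
  filter_upwards [key] with Z hZ1
  -- the sets
  let SA : Set (Fin n → 𝓞 K) := {d |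
    (∀ i, Pool.Agent.Lib.MP_1a91b9_ntDF.Pf 2 (d i) ∧ ((2 : ℕ) : 𝓞 K) ^ 0 ∣ d i - (fun _ => 0 : Fin n → 𝓞 K) i) ∧
      ∃ A : 𝓞 K, A ≠ 0 ∧ |Algebra.norm ℤ A| ≤ Z ∧ ∀ i, d i ∣ A ^ (2 - 1)}
  let SG : Set (Fin n → 𝓞 K) := {d |
    (∀ i, Pool.Agent.Lib.MP_1a91b9_ntDF.Pf 2 (d i) ∧ ((2 : ℕ) : 𝓞 K) ^ 0 ∣ d i - (fun _ => 0 : Fin n → 𝓞 K) i) ∧
      (∃ A : 𝓞 K, A ≠ 0 ∧ |Algebra.norm ℤ A| ≤ Z ∧ ∀ i, d i ∣ A ^ (2 - 1)) ∧
      t ≤ {δ ∈ T' | Pool.Agent.Lib.MP_1a91b9_ntMQ.Fin.PropMF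
        (tw 2 (⟨0, 0, 0, A, 0⟩ : WeierstrassCurve K) K δ) (F4 j) (cK K d)}.encard}
  let SB : Set (Fin n → 𝓞 K) := {b | b ∈ Box K n Z ∧
        ¬ t ≤ {δ ∈ T | PropN (⟨0, 0, 0, A * δ ^ 2, 0⟩ : WeierstrassCurve K) (QQ j b)}.encard}
  have hZ1' : 1 - ε ≤ (SG.ncard : ℝ) / (SA.ncard : ℝ) := hZ1
  have hSAB : SA = Box K n Z := Set.ext fun d => L1_all Z d
  change (SB.ncard : ℝ) ≤ ε * ((Box K n Z).ncard : ℝ)
  have hSAfin : SA.Finite := by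
    rw [hSAB]
    refine (Set.Finite.pi' (t := fun _ : Fin n => {x : 𝓞 K | x ≠ 0 ∧ nr x ≤ Z}) fun _ => hfin Z).subset ?_
    rintro d ⟨h1, A', hA', hZ', h2⟩ k
    exact ⟨(h1 k).ne_zero, (L1_nr_le hA' (h2 k)).trans hZ'⟩
  have hSGA : SG ⊆ SA := fun d hd => ⟨hd.1, hd.2.1⟩
  rw [← hSAB]
  have hSB : SB ⊆ SA \ SG := by
    rintro b ⟨h1, h4⟩
    refine ⟨(L1_all Z b).2 h1, ?_⟩
    rintro ⟨-, -, h5⟩
    refine h4 (h5.trans (Set.encard_le_encard ?_))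
    rintro δ ⟨hδ, hM⟩
    refine ⟨hTT hδ, ?_⟩
    have hδ0 : δ ≠ 0 := fun h => h0 (h ▸ hTT hδ)
    rw [L1_tw] at hM
    exact propN_QQ hK hi (mul_ne_zero hA (pow_ne_zero 2 hδ0)) (fun k => (h1.1 k).ne_zero) hM
  have hSB' : SB.ncard ≤ (SA \ SG).ncard := Set.ncard_le_ncard hSB (hSAfin.subset Set.sdiff_subset)
  have hdiff : (SA \ SG).ncard + SG.ncard = SA.ncard :=
    Set.ncard_sdiff_add_ncard_of_subset hSGA hSAfin
  have h1 : (SB.ncard : ℝ) ≤ (SA.ncard : ℝ) - (SG.ncard : ℝ) := by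
    have h2 : (SB.ncard : ℝ) ≤ ((SA \ SG).ncard : ℝ) := by exact_mod_cast hSB'
    have h3 : ((SA \ SG).ncard : ℝ) + (SG.ncard : ℝ) = (SA.ncard : ℝ) := by exact_mod_cast hdiff
    linarith
  rcases Nat.eq_zero_or_pos SA.ncard with h0 | h0
  · have h2 : (SB.ncard : ℝ) ≤ 0 := by
      rw [h0, Nat.cast_zero] at h1
      have h3 : (0 : ℝ) ≤ (SG.ncard : ℝ) := Nat.cast_nonneg _
      linarith
    rw [h0, Nat.cast_zero, mul_zero]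
    exact h2
  · have hpos : (0 : ℝ) < (SA.ncard : ℝ) := by exact_mod_cast h0
    rw [le_div_iff₀ hpos] at hZ1'
    linarith

end Pool.Agent.Lib.MP_1a91b9_ntQH
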