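import Pool.Agent.Lib.MP_1a91b9_ntQG.R4
import Pool.Agent.Lib.MP_1a91b9_ntQH.H3

/-!
# MP_1a91b9_nt (the abelian extensions of exponent four, relative form): the special family
-/

set_option autoImplicit false

namespace Pool.Agent.Lib.MP_1a91b9_ntQH

open NumberField
open Pool.Agent.Lib.MP_1a91b9_ntDF (NK)
open Pool.Agent.Lib.MP_1a91b9_ntQG (Ext Gm sp)

private theorem M1_mult {K : Type} [Field K] [NumberField K] {n : ℕ} {m : Fin n → ℕ} {π : Fin n → 𝓞 K}
    (hπ : ∀ k, Prime (π k)) (hne : ∀ k k', k ≠ k' → ¬ Associated (π k) (π k')) (c : Fin n → ℕ) {X Y : 𝓞 K}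
    (hX : X ≠ 0) (h : (∏ j, (if m j = 4 then π j else 1) ^ c j) * X ^ 2 = Y ^ 2) {k : Fin n} (hk : m k = 4) :
    Even (c k) := by
  have hP : ∀ j, (if m j = 4 then π j else 1) ≠ 0 := by
    intro j
    split_ifs
    · exact (hπ j).ne_zero
    · exact one_ne_zero
  have hY : Y ≠ 0 := by
    rintro rfl
    rw [zero_pow (by norm_num), mul_eq_zero, Finset.prod_eq_zero_iff] at h
    rcases h with ⟨j, _, hj⟩ | hj
    · exact pow_ne_zero _ (hP j) hj
    · exact pow_ne_zero _ hX hj
  have h1 : emultiplicity (π k) (∏ j, (if m j = 4 then π j else 1) ^ c j) = (c k : ℕ∞) := by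
    rw [Finset.emultiplicity_prod (hπ k), Finset.sum_eq_single k]
    · rw [if_pos hk, emultiplicity_pow_self_of_prime (hπ k)]
    · intro j _ hj
      rw [emultiplicity_pow (hπ k)]
      have h0 : emultiplicity (π k) (if m j = 4 then π j else 1) = 0 := by
        rw [emultiplicity_eq_zero]
        split_ifs
        · exact fun h2 => hne k j (Ne.symm hj) ((hπ k).associated_of_dvd (hπ j) h2)
        · exact fun h2 => (hπ k).not_isUnit (isUnit_of_dvd_one h2)
      rw [h0, mul_zero]
    · intro h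
      exact absurd (Finset.mem_univ k) h
  have h2 := congrArg (emultiplicity (π k)) h
  rw [emultiplicity_mul (hπ k), h1, emultiplicity_pow (hπ k), emultiplicity_pow (hπ k),
    (FiniteMultiplicity.of_prime_left (hπ k) hX).emultiplicity_eq_multiplicity,
    (FiniteMultiplicity.of_prime_left (hπ k) hY).emultiplicity_eq_multiplicity] at h2
  have h3 : c k + 2 * multiplicity (π k) X = 2 * multiplicity (π k) Y := by exact_mod_cast h2
  exact (Nat.even_add.1 (h3 ▸ even_two_mul _ : Even (c k + 2 * multiplicity (π k) X))).2 (even_two_mul _)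

/-- The product of the powers, with the odd part separated. -/
private theorem M1_split {R : Type} [CommRing R] {n : ℕ} (c : Fin n → ℕ) (b : Fin n → R) :
    ∏ j, b j ^ c j = (∏ j, b j ^ (c j / 2)) ^ 2 * ∏ j ∈ Finset.univ.filter (fun j => c j % 2 = 1), b j := by
  rw [Finset.prod_filter, ← Finset.prod_pow, ← Finset.prod_mul_distrib]
  refine Finset.prod_congr rfl fun j _ => ?_
  split_ifs with h
  · rw [← pow_mul, ← pow_succ]
    congr 1
    omega
  · rw [← pow_mul, mul_one]
    congr 1
    omega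

/-- **M1** (medium). **The group of the special family.** Proof: `mem_ext` (`ntQG/K5.lean`) for `w_k = π_k b_k²` (`m_k = 4`),
`w_k = b_k²` (`m_k = 2`). Let `∏ w_k ^ c_k = z⁴` in `K`. (1) Modulo squares: `∏_{m_k = 4} π_k ^ c_k` is a square in `K`, so the `c_k`
with `m_k = 4` are even (different primes), `c_k = 2 c'_k`. (2) Then `(∏_4 π_k^{c'_k} ∏_2 b_k^{c_k})² = (z² / ∏_4 b_k^{2 c'_k})²`, so
`∏_4 π_k^{c'_k} ∏_2 b_k^{c_k} = ± (z / ∏_4 b_k^{c'_k})²` is a square in `K` (`-1 = i²`). In `F` the `π_k` (`m_k = 4`) are squares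
(`z_k² ^ 2`), so `∏_2 b_k^{c_k}` is a square in `F`, and by `indep` (`H3`) the `c_k` with `m_k = 2` are even. (3) So `∏_4 π_k^{c'_k}` is a
square in `K`, the `c'_k` are even and `4 ∣ c_k`. -/
theorem grp_fam {K : Type} [Field K] [NumberField K] [IsPrincipalIdealRing (𝓞 K)] {i : K} (hi : i ^ 2 = -1)
    {n : ℕ} {m : Fin n → ℕ} (hm : ∀ k, m k = 2 ∨ m k = 4) {π : Fin n → 𝓞 K} (hπ : ∀ k, Prime (π k))
    (hne : ∀ k k', k ≠ k' → ¬ Associated (π k) (π k')) {b : Fin n → 𝓞 K} (hb : ∀ k, b k ≠ 0)
    (F M : Type) [Field F] [NumberField F] [Field M] [NumberField M] [Algebra K F] [Algebra K M] [Algebra F M]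
    [IsScalarTower K F M] {z : Fin n → F} (hz : ∀ k, m k = 4 → z k ^ 4 = algebraMap K F ((π k : 𝓞 K) : K))
    {y : Fin n → M} (hy : ∀ k, y k ^ 2 = algebraMap K M ((b k : 𝓞 K) : K))
    (hM : IntermediateField.adjoin F (Set.range y) = ⊤) (hdeg : Module.finrank F M = 2 ^ n) :
    NK 4 (sp m (fun k => if m k = 4 then π k else 1) b) ∈ Ext K (Gm m) := by
  have hc0 : ∀ x : 𝓞 K, x ≠ 0 → (x : K) ≠ 0 := fun x hx => RingOfIntegers.coe_ne_zero_iff.2 hx
  have hP0 : ∀ k, (if m k = 4 then π k else 1) ≠ 0 := by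
    intro k
    split_ifs
    · exact (hπ k).ne_zero
    · exact one_ne_zero
  have hsp : ∀ k, sp m (fun k => if m k = 4 then π k else 1) b k =
      (((if m k = 4 then π k else 1) * b k ^ 2 : 𝓞 K) : K) := by
    intro k
    show _ = algebraMap (𝓞 K) K ((if m k = 4 then π k else 1) * b k ^ 2)
    rw [map_mul, map_pow]
    unfold sp
    by_cases h : m k = 4
    · simp only [if_pos h]
    · simp only [if_neg h, map_one, one_pow]
  have hw : ∀ k, sp m (fun k => if m k = 4 then π k else 1) b k ≠ 0 := by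
    intro k
    rw [hsp]
    exact hc0 _ (mul_ne_zero (hP0 k) (pow_ne_zero 2 (hb k)))
  refine (Pool.Agent.Lib.MP_1a91b9_ntQG.mem_ext hi hm hw ?_ ?_).1
  · intro k hk
    refine ⟨(b k : K), ?_⟩
    unfold sp
    have h4 : m k ≠ 4 := by omega
    simp only [if_neg h4, map_one, one_pow, one_mul]
    ring
  · rintro c ⟨t, ht⟩
    -- the square root of minus one in the ring of integers
    obtain ⟨I, hI⟩ : ∃ I : 𝓞 K, I ^ 2 = -1 := by
      have h1 : IsIntegral (𝓞 K) (i ^ 2) := by
        rw [hi]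
        exact (isIntegral_one).neg
      obtain ⟨I, hI⟩ := IsIntegrallyClosed.exists_algebraMap_eq_of_isIntegral_pow (R := 𝓞 K) (by norm_num) h1
      refine ⟨I, RingOfIntegers.coe_injective ?_⟩
      show algebraMap (𝓞 K) K (I ^ 2) = algebraMap (𝓞 K) K (-1)
      rw [map_pow, hI, hi, map_neg, map_one]
    have h1 : ∏ k, sp m (fun k => if m k = 4 then π k else 1) b k ^ c k =
        algebraMap (𝓞 K) K (∏ k, ((if m k = 4 then π k else 1) * b k ^ 2) ^ c k) := by
      rw [map_prod]
      refine Finset.prod_congr rfl fun k _ => ?_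
      rw [map_pow]
      exact congrArg (fun x => x ^ c k) (hsp k)
    have h2 : IsIntegral (𝓞 K) (t ^ 4) := by
      rw [← ht, h1]
      exact isIntegral_algebraMap
    obtain ⟨Z, hZ⟩ := IsIntegrallyClosed.exists_algebraMap_eq_of_isIntegral_pow (R := 𝓞 K) (by norm_num) h2
    have h3 : ∏ k, ((if m k = 4 then π k else 1) * b k ^ 2) ^ c k = Z ^ 4 := by
      apply RingOfIntegers.coe_injective
      show algebraMap (𝓞 K) K _ = algebraMap (𝓞 K) K _
      rw [← h1, ht, map_pow, hZ]
    have h4 : (∏ k, (if m k = 4 then π k else 1) ^ c k) * (∏ k, b k ^ c k) ^ 2 = (Z ^ 2) ^ 2 := by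
      rw [← pow_mul, ← h3, ← Finset.prod_pow, ← Finset.prod_mul_distrib]
      refine Finset.prod_congr rfl fun k _ => ?_
      ring
    have hB : ∀ e : Fin n → ℕ, ∏ k, b k ^ e k ≠ 0 := fun e =>
      Finset.prod_ne_zero_iff.2 fun k _ => pow_ne_zero _ (hb k)
    have he1 : ∀ k, m k = 4 → Even (c k) := fun k hk => M1_mult hπ hne c (hB c) h4 hk
    have h5 : ∏ k, (if m k = 4 then π k else 1) ^ c k = (∏ k, (if m k = 4 then π k else 1) ^ (c k / 2)) ^ 2 := by
      rw [← Finset.prod_pow]
      refine Finset.prod_congr rfl fun k _ => ?_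
      by_cases h : m k = 4
      · obtain ⟨r, hr⟩ := he1 k h
        rw [← pow_mul]
        congr 1
        omega
      · rw [if_neg h, one_pow, one_pow, one_pow]
    -- the second step
    obtain ⟨V, hV⟩ : ∃ V : 𝓞 K, (∏ k, (if m k = 4 then π k else 1) ^ (c k / 2)) * ∏ k, b k ^ c k = V ^ 2 := by
      have h6 : ((∏ k, (if m k = 4 then π k else 1) ^ (c k / 2)) * ∏ k, b k ^ c k) ^ 2 = (Z ^ 2) ^ 2 := by
        rw [mul_pow, ← h5, h4]
      rcases sq_eq_sq_iff_eq_or_eq_neg.1 h6 with h7 | h7
      · exact ⟨Z, h7⟩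
      · refine ⟨I * Z, ?_⟩
        rw [h7, mul_pow, hI]
        ring
    have hV2 : (∏ k, (if m k = 4 then π k else 1) ^ (c k / 2)) * ((∏ k, b k ^ (c k / 2)) ^ 2 *
        ∏ j ∈ Finset.univ.filter (fun j => c j % 2 = 1), b j) = V ^ 2 := by
      rw [← M1_split, hV]
    have hJ : Finset.univ.filter (fun j => c j % 2 = 1) = ∅ := by
      by_contra hJ
      have hJn := Finset.nonempty_iff_ne_empty.2 hJ
      let φ : 𝓞 K →+* M := (algebraMap K M).comp (algebraMap (𝓞 K) K)
      have hφ : ∀ a : 𝓞 K, φ a = algebraMap F M (algebraMap K F (a : K)) := fun a =>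
        (IsScalarTower.algebraMap_apply K F M _)
      have hφi : Function.Injective φ :=
        (algebraMap K M).injective.comp (RingOfIntegers.coe_injective)
      have hyM : ∀ k, φ (b k) = y k ^ 2 := fun k => (hy k).symm
      have hnt : ∀ k, ∃ s : F, φ (if m k = 4 then π k else 1) = algebraMap F M s ^ 2 := by
        intro k
        by_cases h : m k = 4
        · refine ⟨z k ^ 2, ?_⟩
          rw [if_pos h, hφ, ← map_pow, ← pow_mul, hz k h]
        · refine ⟨1, ?_⟩
          rw [if_neg h, map_one, map_one, one_pow]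
      choose s hs using hnt
      have hU : (algebraMap F M ((∏ k, s k ^ (c k / 2)) * ∏ k, algebraMap K F (b k : K) ^ (c k / 2)) *
          ∏ j ∈ Finset.univ.filter (fun j => c j % 2 = 1), y j) ^ 2 = (φ V) ^ 2 := by
        rw [← map_pow φ V 2, ← hV2, map_mul φ, map_mul φ, map_pow φ, map_prod φ, map_prod φ, map_prod φ, mul_pow,
          map_mul (algebraMap F M), mul_pow, map_prod (algebraMap F M), map_prod (algebraMap F M),
          ← Finset.prod_pow Finset.univ 2 fun k => algebraMap F M (s k ^ (c k / 2)),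
          ← Finset.prod_pow _ 2 y, mul_assoc]
        congr 1
        · refine Finset.prod_congr rfl fun k _ => ?_
          rw [map_pow, map_pow, hs]
          ring
        · congr 1
          · congr 1
            refine Finset.prod_congr rfl fun k _ => ?_
            rw [map_pow, map_pow, hφ]
          · exact Finset.prod_congr rfl fun k _ => (hyM k).symm
      have hs0 : ∀ k, s k ≠ 0 := by
        intro k h0
        have h := hs k
        rw [h0, map_zero, zero_pow (by norm_num)] at h
        exact hP0 k (hφi (h.trans (map_zero φ).symm))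
      have hU0 : (∏ k, s k ^ (c k / 2)) * ∏ k, algebraMap K F (b k : K) ^ (c k / 2) ≠ 0 := by
        refine mul_ne_zero (Finset.prod_ne_zero_iff.2 fun k _ => pow_ne_zero _ (hs0 k))
          (Finset.prod_ne_zero_iff.2 fun k _ => pow_ne_zero _ ?_)
        exact (map_ne_zero (algebraMap K F)).2 (hc0 _ (hb k))
      refine indep (F := F) (M := M) (y := y) (fun k => ⟨algebraMap K F (b k : K), (map_ne_zero _).2 (hc0 _ (hb k)), ?_⟩)
        hM hdeg _ hJn ?_
      · rw [hy k]
        exact IsScalarTower.algebraMap_apply K F M _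
      · generalize (∏ k, s k ^ (c k / 2)) * ∏ k, algebraMap K F (b k : K) ^ (c k / 2) = U at hU hU0
        rcases sq_eq_sq_iff_eq_or_eq_neg.1 hU with h7 | h7
        · refine ⟨algebraMap K F (V : K) / U, ?_⟩
          rw [map_div₀, ← hφ, ← h7, mul_div_cancel_left₀]
          exact (map_ne_zero _).2 hU0
        · refine ⟨- algebraMap K F (V : K) / U, ?_⟩
          rw [map_div₀, map_neg, ← hφ, ← h7, mul_div_cancel_left₀]
          exact (map_ne_zero _).2 hU0
    have hev : ∀ k, c k % 2 = 0 := by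
      intro k
      by_contra h
      have h1 : k ∈ Finset.univ.filter (fun j => c j % 2 = 1) :=
        Finset.mem_filter.2 ⟨Finset.mem_univ k, by omega⟩
      rw [hJ] at h1
      exact Finset.notMem_empty k h1
    rw [hJ, Finset.prod_empty, mul_one] at hV2
    intro k
    rcases hm k with h | h
    · rw [h]
      exact Nat.dvd_of_mod_eq_zero (hev k)
    · obtain ⟨r, hr⟩ := M1_mult hπ hne (fun k => c k / 2) (hB _) hV2 h
      have h8 := hev k
      rw [h]
      omega

end Pool.Agent.Lib.MP_1a91b9_ntQH
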