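import Pool.Agent.Lib.MP_1a91b9_ntQH.L1
import Pool.Agent.Lib.MP_1a91b9_ntQH.M1
import Pool.Agent.Lib.MP_1a91b9_ntQG.C0

/-!
# MP_1a91b9_nt (the abelian extensions of exponent four, relative form): one curve
-/

set_option autoImplicit false

namespace Pool.Agent.Lib.MP_1a91b9_ntQH

open NumberField
open Pool.Agent.Lib.MP_1a91b9_ntDF (tw NK cK)
open Pool.Agent.Lib.MP_1a91b9_ntDF (cst Kum)
open Pool.Agent.Lib.MP_1a91b9_ntQD (nr)
open Pool.Agent.Lib.MP_1a91b9_ntQG (Box Ext Gm sp)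

/-- If the square roots of the `b k` generate an extension of `F` of the degree `2 ^ n` then the products are not
squares in `F`. -/
private theorem M2_ind {K F : Type} [Field K] [Field F] [NumberField F] [Algebra K F] {n : ℕ} {b : Fin n → K}
    (hb : ∀ k, b k ≠ 0)
    (hdeg : ∀ (N : Type) [Field N] [NumberField N] [Algebra F N] (x : Fin n → N),
      (∀ k, x k ^ 2 = algebraMap F N (algebraMap K F (b k))) →
      IntermediateField.adjoin F (Set.range x) = ⊤ → Module.finrank F N = 2 ^ n)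
    (J : Finset (Fin n)) (hJ : J.Nonempty) (f : F) : f ^ 2 ≠ algebraMap K F (∏ k ∈ J, b k) := by
  have h0 : ∀ k, ∃ y : AlgebraicClosure F, y ^ 2 = algebraMap F (AlgebraicClosure F) (algebraMap K F (b k)) :=
    fun k => IsAlgClosed.exists_pow_nat_eq _ two_pos
  choose y hy using h0
  have hint : ∀ x ∈ Set.range y, IsIntegral F x := by
    rintro _ ⟨k, rfl⟩
    exact (Algebra.IsAlgebraic.isAlgebraic (R := F) (y k)).isIntegral
  have hfd : FiniteDimensional F (IntermediateField.adjoin F (Set.range y)) :=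
    IntermediateField.finiteDimensional_adjoin hint
  have hnf : NumberField (IntermediateField.adjoin F (Set.range y)) := NumberField.of_module_finite F _
  have hx : ∀ k, y k ∈ IntermediateField.adjoin F (Set.range y) :=
    fun k => IntermediateField.subset_adjoin F _ ⟨k, rfl⟩
  obtain ⟨x, hxdef⟩ : ∃ x : Fin n → IntermediateField.adjoin F (Set.range y), ∀ k,
      (x k : AlgebraicClosure F) = y k := ⟨fun k => ⟨y k, hx k⟩, fun _ => rfl⟩
  have hx2 : ∀ k, x k ^ 2 = algebraMap F (IntermediateField.adjoin F (Set.range y)) (algebraMap K F (b k)) := by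
    intro k
    apply Subtype.ext
    show ((x k : IntermediateField.adjoin F (Set.range y)) : AlgebraicClosure F) ^ 2 = _
    rw [hxdef, hy]
    rfl
  have htop : IntermediateField.adjoin F (Set.range x) = ⊤ := by
    rw [eq_top_iff]
    have h1 : IntermediateField.map (IntermediateField.adjoin F (Set.range y)).val
        (IntermediateField.adjoin F (Set.range x)) = IntermediateField.adjoin F (Set.range y) := by
      rw [IntermediateField.adjoin_map, ← Set.range_comp]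
      congr 1
      congr 1
      funext k
      exact hxdef k
    intro z _
    have h2 : (z : AlgebraicClosure F) ∈ IntermediateField.map
        (IntermediateField.adjoin F (Set.range y)).val (IntermediateField.adjoin F (Set.range x)) := by
      rw [h1]
      exact z.2
    obtain ⟨w, hw, hwz⟩ := h2
    have h3 : w = z := Subtype.ext hwz
    rw [← h3]
    exact hw
  have hd := hdeg _ x hx2 htop
  have hI := indep (y := x) (fun k => ⟨algebraMap K F (b k), (map_ne_zero _).2 (hb k), hx2 k⟩) htop hd J hJ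
  intro hf
  have h4 : (∏ k ∈ J, x k) ^ 2 =
      (algebraMap F (IntermediateField.adjoin F (Set.range y)) f) ^ 2 := by
    rw [← Finset.prod_pow, ← map_pow, hf, map_prod, map_prod]
    exact Finset.prod_congr rfl fun k _ => hx2 k
  rcases sq_eq_sq_iff_eq_or_eq_neg.1 h4 with h5 | h5
  · exact hI ⟨f, h5.symm⟩
  · exact hI ⟨-f, by rw [map_neg]; exact h5.symm⟩

private theorem M2_split {R : Type} [CommMonoid R] {n : ℕ} (b : Fin n → R) (c : Fin n → ℕ) :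
    ∏ k, b k ^ c k = (∏ k ∈ Finset.univ.filter (fun k => Odd (c k)), b k) * (∏ k, b k ^ (c k / 2)) ^ 2 := by
  rw [Finset.prod_filter, ← Finset.prod_pow, ← Finset.prod_mul_distrib]
  refine Finset.prod_congr rfl fun k _ => ?_
  split_ifs with h
  · obtain ⟨t, ht⟩ := h
    have e1 : c k / 2 = t := by omega
    rw [e1, ht, ← pow_mul, pow_succ, mul_comm, mul_comm t 2]
  · rw [Nat.not_odd_iff_even] at h
    obtain ⟨t, ht⟩ := h
    have e1 : c k / 2 = t := by omega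
    rw [e1, ht, ← pow_mul, one_mul, mul_two]

private theorem M2_sq {L : Type} [Field L] {i B w : L} (hi : i ^ 2 = -1) (h : B ^ 2 = w ^ 4) :
    ∃ s : L, s ^ 2 = B := by
  have h1 : B ^ 2 = (w ^ 2) ^ 2 := by
    rw [h]
    ring
  rcases sq_eq_sq_iff_eq_or_eq_neg.1 h1 with h2 | h2
  · exact ⟨w, h2.symm⟩
  · refine ⟨i * w, ?_⟩
    rw [mul_pow, hi, h2]
    ring

/-- **The group of the special fields.** -/
private theorem M2_group {K : Type} [Field K] [NumberField K] [IsPrincipalIdealRing (𝓞 K)] {i : K} (hi : i ^ 2 = -1)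
    {n : ℕ} {m : Fin n → ℕ} (hm : ∀ k, m k = 2 ∨ m k = 4) {π : Fin n → 𝓞 K}
    (hπ : ∀ k, m k = 4 → Prime (π k)) (hπ1 : ∀ k, m k = 2 → π k = 1)
    (hne : ∀ k k', m k = 4 → m k' = 4 → k ≠ k' → ¬ Associated (π k) (π k')) {b : Fin n → 𝓞 K}
    (hb : ∀ k, b k ≠ 0)
    (hdeg : ∀ J : Finset (Fin n), J.Nonempty → ∀ f : NK 4 (fun k => ((π k : 𝓞 K) : K)),
      f ^ 2 ≠ algebraMap K (NK 4 (fun k => ((π k : 𝓞 K) : K))) (∏ k ∈ J, ((b k : 𝓞 K) : K))) :
    NK 4 (sp m π b) ∈ Ext K (Gm m) ∧ Module.finrank K (NK 4 (sp m π b)) = ∏ k, m k := by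
  have hc0 : ∀ x : 𝓞 K, x ≠ 0 → (x : K) ≠ 0 := fun x hx => RingOfIntegers.coe_ne_zero_iff.2 hx
  have hπ0 : ∀ k, π k ≠ 0 := by
    intro k
    rcases hm k with h | h
    · rw [hπ1 k h]
      exact one_ne_zero
    · exact (hπ k h).ne_zero
  have hsp : ∀ k, sp m π b k = (π k : K) * (b k : K) ^ 2 := by
    intro k
    unfold sp
    split_ifs with h
    · rfl
    · have h2 : m k = 2 := (hm k).resolve_right h
      rw [hπ1 k h2]
      show (1 : K) ^ 2 * _ = (1 : K) * _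
      rw [one_pow]
  have hw : ∀ k, sp m π b k ≠ 0 := by
    intro k
    rw [hsp]
    exact mul_ne_zero (hc0 _ (hπ0 k)) (pow_ne_zero 2 (hc0 _ (hb k)))
  refine Pool.Agent.Lib.MP_1a91b9_ntQG.mem_ext hi hm hw ?_ ?_
  · intro k hk
    refine ⟨(b k : K), ?_⟩
    rw [hsp, hπ1 k hk]
    show (1 : K) * _ = _
    rw [one_mul, pow_two]
  · rintro c ⟨z, hz⟩
    have hP0 : ∀ d : Fin n → ℕ, ∏ k, ((π k : 𝓞 K) : K) ^ d k ≠ 0 := fun d =>
      Finset.prod_ne_zero_iff.2 fun k _ => pow_ne_zero _ (hc0 _ (hπ0 k))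
    have hB0 : ∀ d : Fin n → ℕ, ∏ k, ((b k : 𝓞 K) : K) ^ d k ≠ 0 := fun d =>
      Finset.prod_ne_zero_iff.2 fun k _ => pow_ne_zero _ (hc0 _ (hb k))
    have hz1 : (∏ k, ((π k : 𝓞 K) : K) ^ c k) * (∏ k, ((b k : 𝓞 K) : K) ^ c k) ^ 2 = z ^ 4 := by
      rw [← hz, ← Finset.prod_pow, ← Finset.prod_mul_distrib]
      refine Finset.prod_congr rfl fun k _ => ?_
      rw [hsp]
      ring
    -- all the exponents are even
    have heven : ∀ k, Even (c k) := by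
      obtain ⟨-, -, y, hy⟩ := Pool.Agent.Lib.MP_1a91b9_ntQG.nk4_kum (K := K) hi (w := fun k => ((π k : 𝓞 K) : K)) (fun k => hc0 _ (hπ0 k))
      have hiF : (algebraMap K (NK 4 (fun k => ((π k : 𝓞 K) : K))) i) ^ 2 = -1 := by
        rw [← map_pow, hi, map_neg, map_one]
      have hy0 : ∏ k, y k ^ c k ≠ 0 := by
        refine Finset.prod_ne_zero_iff.2 fun k _ => pow_ne_zero _ fun h => ?_
        have h1 := hy.pow k
        rw [h, zero_pow (by norm_num)] at h1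
        exact hc0 _ (hπ0 k) ((map_eq_zero _).1 h1.symm)
      have hY : (∏ k, y k ^ c k) ^ 4 =
          algebraMap K (NK 4 (fun k => ((π k : 𝓞 K) : K))) (∏ k, ((π k : 𝓞 K) : K) ^ c k) := by
        rw [← Finset.prod_pow, map_prod]
        refine Finset.prod_congr rfl fun k _ => ?_
        rw [← pow_mul, mul_comm, pow_mul, hy.pow k, map_pow]
      have h2 := congrArg (algebraMap K (NK 4 (fun k => ((π k : 𝓞 K) : K)))) hz1
      rw [map_mul, ← hY, map_pow, map_pow] at h2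
      have h3 : (algebraMap K (NK 4 (fun k => ((π k : 𝓞 K) : K))) (∏ k, ((b k : 𝓞 K) : K) ^ c k)) ^ 2 =
          (algebraMap K (NK 4 (fun k => ((π k : 𝓞 K) : K))) z / ∏ k, y k ^ c k) ^ 4 := by
        rw [div_pow, eq_div_iff (pow_ne_zero 4 hy0), ← h2]
        ring
      obtain ⟨s, hs⟩ := M2_sq hiF h3
      rw [M2_split (fun k => ((b k : 𝓞 K) : K)) c, map_mul, map_pow] at hs
      intro k
      by_contra hk
      have hJ : (Finset.univ.filter (fun k => Odd (c k))).Nonempty :=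
        ⟨k, Finset.mem_filter.2 ⟨Finset.mem_univ k, Nat.not_even_iff_odd.1 hk⟩⟩
      have hD0 : algebraMap K (NK 4 (fun k => ((π k : 𝓞 K) : K))) (∏ k, ((b k : 𝓞 K) : K) ^ (c k / 2)) ≠ 0 :=
        (map_ne_zero _).2 (hB0 _)
      refine hdeg _ hJ (s / algebraMap K (NK 4 (fun k => ((π k : 𝓞 K) : K)))
        (∏ k, ((b k : 𝓞 K) : K) ^ (c k / 2))) ?_
      rw [div_pow, hs, mul_div_assoc, div_self (pow_ne_zero 2 hD0), mul_one]
    intro k
    rcases hm k with h | h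
    · rw [h]
      exact (heven k).two_dvd
    -- the exponents for `m k = 4`
    choose c' hc' using heven
    have hc2 : ∀ k, c k = c' k * 2 := fun k => by
      rw [hc' k]
      ring
    have h4 : ((∏ k, ((π k : 𝓞 K) : K) ^ c' k) * (∏ k, ((b k : 𝓞 K) : K) ^ c' k) ^ 2) ^ 2 = z ^ 4 := by
      rw [← hz1]
      have e1 : ∏ k, ((π k : 𝓞 K) : K) ^ c k = (∏ k, ((π k : 𝓞 K) : K) ^ c' k) ^ 2 := by
        rw [← Finset.prod_pow]
        refine Finset.prod_congr rfl fun k _ => ?_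
        rw [hc2 k, pow_mul]
      have e2 : ∏ k, ((b k : 𝓞 K) : K) ^ c k = (∏ k, ((b k : 𝓞 K) : K) ^ c' k) ^ 2 := by
        rw [← Finset.prod_pow]
        refine Finset.prod_congr rfl fun k _ => ?_
        rw [hc2 k, pow_mul]
      rw [e1, e2]
      ring
    obtain ⟨s, hs⟩ := M2_sq hi h4
    obtain ⟨r, hr⟩ : ∃ r, r = s / ∏ k, ((b k : 𝓞 K) : K) ^ c' k := ⟨_, rfl⟩
    have h5 : r ^ 2 = ∏ k, ((π k : 𝓞 K) : K) ^ c' k := by
      rw [hr, div_pow, hs, mul_div_assoc, div_self (pow_ne_zero 2 (hB0 c')), mul_one]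
    have h6 : ∏ k, ((π k : 𝓞 K) : K) ^ c' k = algebraMap (𝓞 K) K (∏ k, π k ^ c' k) := by
      rw [map_prod]
      exact Finset.prod_congr rfl fun k _ => by rw [map_pow]
    have h7 : IsIntegral (𝓞 K) (r ^ 2) := by
      rw [h5, h6]
      exact isIntegral_algebraMap
    obtain ⟨Z, hZ⟩ := IsIntegrallyClosed.exists_algebraMap_eq_of_isIntegral_pow (R := 𝓞 K) (by norm_num) h7
    have h8 : ∏ k, π k ^ c' k = Z ^ 2 := by
      apply RingOfIntegers.coe_injective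
      show algebraMap (𝓞 K) K (∏ k, π k ^ c' k) = algebraMap (𝓞 K) K (Z ^ 2)
      rw [← h6, ← h5, map_pow, hZ]
    have hZ0 : Z ≠ 0 := by
      rintro rfl
      rw [zero_pow (by norm_num)] at h8
      exact (Finset.prod_ne_zero_iff.2 fun k _ => pow_ne_zero _ (hπ0 k)) h8
    have hpk := hπ k h
    have h9 : emultiplicity (π k) (Z ^ 2) = (c' k : ℕ∞) := by
      rw [← h8, Finset.emultiplicity_prod hpk, Finset.sum_eq_single k]
      · exact emultiplicity_pow_self_of_prime hpk _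
      · intro k' _ hk'
        rw [emultiplicity_pow hpk]
        have h10 : emultiplicity (π k) (π k') = 0 := by
          rw [emultiplicity_eq_zero]
          intro hd
          rcases hm k' with h11 | h11
          · rw [hπ1 k' h11] at hd
            exact hpk.not_isUnit (isUnit_of_dvd_one hd)
          · exact hne k k' h h11 (Ne.symm hk') (hpk.associated_of_dvd (hπ k' h11) hd)
        rw [h10, mul_zero]
      · intro h10
        exact absurd (Finset.mem_univ k) h10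
    have h10 : FiniteMultiplicity (π k) Z := FiniteMultiplicity.of_prime_left hpk hZ0
    rw [emultiplicity_pow hpk, h10.emultiplicity_eq_multiplicity] at h9
    have h11 : 2 * multiplicity (π k) Z = c' k := by exact_mod_cast h9
    rw [h, hc2 k, ← h11]
    exact ⟨multiplicity (π k) Z, by ring⟩

private theorem M2_pf {R : Type} [CommMonoid R] (x : R) :
    Squarefree x ↔ Pool.Agent.Lib.MP_1a91b9_ntDF.Pf 2 x := by
  constructor
  · intro h y hy
    exact h y (by rwa [← pow_two])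
  · intro h y hy
    exact h y (by rwa [pow_two])

private theorem M2_all {K : Type} [Field K] [NumberField K] {n : ℕ} (Z : ℝ) (d : Fin n → 𝓞 K) :
    ((∀ i, Pool.Agent.Lib.MP_1a91b9_ntDF.Pf 2 (d i) ∧ ((2 : ℕ) : 𝓞 K) ^ 0 ∣ d i - (fun _ => 0 : Fin n → 𝓞 K) i) ∧
      ∃ A : 𝓞 K, A ≠ 0 ∧ |Algebra.norm ℤ A| ≤ Z ∧ ∀ i, d i ∣ A ^ (2 - 1)) ↔ d ∈ Box K n Z := by
  constructor
  · rintro ⟨h1, A, hA, hZ, h2⟩
    refine ⟨fun k => (M2_pf _).2 (h1 k).1, A, hA, ?_, fun k => ?_⟩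
    · unfold nr
      exact_mod_cast hZ
    · have h3 := h2 k
      rwa [show 2 - 1 = 1 from rfl, pow_one] at h3
  · rintro ⟨h1, A, hA, hZ, h2⟩
    refine ⟨fun k => ⟨(M2_pf _).1 (h1 k), ?_⟩, A, hA, ?_, fun k => ?_⟩
    · rw [pow_zero]
      exact one_dvd _
    · unfold nr at hZ
      exact_mod_cast hZ
    · rw [show 2 - 1 = 1 from rfl, pow_one]
      exact h2 k

private theorem M2_gen {K : Type} [Field K] [NumberField K] {i : K} (hi : i ^ 2 = -1) {n : ℕ} {w : Fin n → K}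
    (hw : ∀ k, w k ≠ 0) :
    IntermediateField.adjoin K {x : NK 4 w | ∃ c : K, x ^ 4 = algebraMap K (NK 4 w) c} = ⊤ := by
  obtain ⟨-, -, y, hy⟩ := Pool.Agent.Lib.MP_1a91b9_ntQG.nk4_kum hi hw
  rw [eq_top_iff, ← hy.top]
  refine IntermediateField.adjoin.mono _ _ _ ?_
  rintro _ ⟨k, rfl⟩
  exact ⟨w k, hy.pow k⟩

private theorem M2_tw {K : Type} [Field K] (A : K) :
    tw 2 (⟨0, 0, 0, A, 0⟩ : WeierstrassCurve K) K 1 = (⟨0, 0, 0, A, 0⟩ : WeierstrassCurve K) := by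
  ext
  · rfl
  · simp [Pool.Agent.Lib.MP_1a91b9_ntDF.tw]
  · simp [Pool.Agent.Lib.MP_1a91b9_ntDF.tw]
  · simp [Pool.Agent.Lib.MP_1a91b9_ntDF.tw]
  · rfl

private theorem M2_cst (p : ℕ) (K F : Type) [Field K] [NumberField K] [Field F] : 0 < cst p K F := by
  unfold cst
  split_ifs with h1
  · exact Pool.Agent.Lib.MP_1a91b9_ntZ.cb_three.1
  all_goals
    refine (Pool.Agent.Lib.MP_1a91b9_ntZ.cb_two (P := Prime (2 : 𝓞 K)) (Q := ∃ x : F, x ^ 2 = -1)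
      (R := Squarefree (2 : 𝓞 K)) ?_).1
    simp only [*, if_true, if_false]

/-- The property `N` of `K((e_k b_k²)^(1/4))` from the property `M`. -/
private theorem M2_propN {K : Type} [Field K] [NumberField K] (hK : Module.finrank ℚ K = 2) {i : K} (hi : i ^ 2 = -1)
    {A : K} (hA : A ≠ 0) {n : ℕ} {e b : Fin n → K} (he : ∀ k, e k ≠ 0) (hb : ∀ k, b k ≠ 0)
    [NumberField (NK 4 e)]
    (hM : Pool.Agent.Lib.MP_1a91b9_ntMQ.Fin.PropMF (⟨0, 0, 0, A, 0⟩ : WeierstrassCurve K) (NK 4 e) b) :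
    PropN (⟨0, 0, 0, A, 0⟩ : WeierstrassCurve K) (NK 4 fun k => e k * b k ^ 2) := by
  have hw : ∀ k, e k * b k ^ 2 ≠ 0 := fun k => mul_ne_zero (he k) (pow_ne_zero 2 (hb k))
  obtain ⟨-, hnf, y, hy⟩ := Pool.Agent.Lib.MP_1a91b9_ntQG.nk4_kum hi hw
  obtain ⟨hL, hP⟩ := hyp_NK hK hi hA he hb hM
  obtain ⟨hG, hc, h4⟩ := Pool.Agent.Lib.MP_1a91b9_ntQG.kum_gal hi hy hw
  exact propN_of hK hi hA hc h4 hL hP

/-- The tuples with the property `M` for one curve. -/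
private theorem M2_law {K : Type} [Field K] [NumberField K] (hK : Module.finrank ℚ K = 2) {i : K} (hi : i ^ 2 = -1)
    {n : ℕ} {e : Fin n → K} (he : ∀ k, e k ≠ 0) [NumberField (NK 4 e)] :
    ∃ v : ℝ, 0 < v ∧ ∀ A : K, A ≠ 0 → ∀ᶠ Z : ℝ in Filter.atTop,
      v ≤ (Nat.card {b : Fin n → 𝓞 K // b ∈ Box K n Z ∧
        Pool.Agent.Lib.MP_1a91b9_ntMQ.Fin.PropMF (⟨0, 0, 0, A, 0⟩ : WeierstrassCurve K) (NK 4 e) (cK K b)} : ℝ) /
        (Nat.card (Box K n Z) : ℝ) := by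
  classical
  obtain ⟨c, hc⟩ : ∃ c, c = cst 2 K (NK 4 e) ^ ((2 ^ n - 1) * Module.finrank K (NK 4 e)) := ⟨_, rfl⟩
  have hc0 : 0 < c := by
    rw [hc]
    exact pow_pos (M2_cst 2 K (NK 4 e)) _
  refine ⟨c / 2, by linarith, fun A hA => ?_⟩
  have hΔ : (⟨0, 0, 0, A, 0⟩ : WeierstrassCurve K).Δ ≠ 0 := by
    have h1 : (⟨0, 0, 0, A, 0⟩ : WeierstrassCurve K).Δ = -64 * A ^ 3 := by
      simp only [WeierstrassCurve.Δ, WeierstrassCurve.b₂, WeierstrassCurve.b₄,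
        WeierstrassCurve.b₆, WeierstrassCurve.b₈]
      ring
    rw [h1]
    exact mul_ne_zero (by norm_num) (pow_ne_zero _ hA)
  have hj : (⟨0, 0, 0, A, 0⟩ : WeierstrassCurve K).c₄ ^ 3 =
      ((1728 : ℤ) : K) * (⟨0, 0, 0, A, 0⟩ : WeierstrassCurve K).Δ := by
    simp only [WeierstrassCurve.Δ, WeierstrassCurve.b₂, WeierstrassCurve.b₄,
      WeierstrassCurve.b₆, WeierstrassCurve.b₈, WeierstrassCurve.c₄]
    push_cast
    ring
  have hD : ∃ s : K, s ^ 2 = ((-4 : ℤ) : K) := by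
    refine ⟨2 * i, ?_⟩
    rw [mul_pow, hi]
    push_cast
    norm_num
  have hu : ∀ (k : Fin n) (q : 𝓞 K), Prime q →
      ¬ (q ^ 2 ∣ ((2 : ℕ) : 𝓞 K) ^ 0 ∧ q ^ 2 ∣ (fun _ => 0 : Fin n → 𝓞 K) k) := by
    rintro _ q hq ⟨h, -⟩
    rw [pow_zero] at h
    exact hq.not_isUnit (isUnit_of_dvd_one ((dvd_pow_self q two_ne_zero).trans h))
  have hv : c = if ({1} : Set K).Infinite then 1 else ∑ j ∈ Finset.Icc 1 ({1} : Set K).ncard,
      ((({1} : Set K).ncard.choose j : ℕ) : ℝ) *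
      (cst 2 K (NK 4 e) ^ ((2 ^ n - 1) * Module.finrank K (NK 4 e))) ^ j *
        (1 - cst 2 K (NK 4 e) ^ ((2 ^ n - 1) * Module.finrank K (NK 4 e))) ^ (({1} : Set K).ncard - j) := by
    rw [if_neg (Set.not_infinite.2 (Set.finite_singleton 1)), Set.ncard_singleton, ← hc]
    simp
  have key := Pool.Agent.Lib.MP_1a91b9_ntDT.l2T K hK (⟨0, 0, 0, A, 0⟩ : WeierstrassCurve K)
    ⟨rfl, rfl, rfl⟩ hΔ 1728 (-4) (by simp) hj hD 4 (Or.inr ⟨rfl, i, hi⟩) (NK 4 e) (M2_gen hi he) n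
    {1} (fun h => one_ne_zero (Set.mem_singleton_iff.1 h).symm)
    (fun δ hδ δ' hδ' hne => absurd ((Set.mem_singleton_iff.1 hδ).trans (Set.mem_singleton_iff.1 hδ').symm) hne)
    0 (fun _ => 0) hu 1 c hv (c / 2) (by linarith)
  filter_upwards [key] with Z hZ
  have e1 : {d : Fin n → 𝓞 K |
      (∀ i, Pool.Agent.Lib.MP_1a91b9_ntDF.Pf 2 (d i) ∧ ((2 : ℕ) : 𝓞 K) ^ 0 ∣ d i - (fun _ => 0 : Fin n → 𝓞 K) i) ∧
      ∃ A : 𝓞 K, A ≠ 0 ∧ |Algebra.norm ℤ A| ≤ Z ∧ ∀ i, d i ∣ A ^ (2 - 1)} = Box K n Z :=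
    Set.ext fun d => M2_all Z d
  have e2 : {d : Fin n → 𝓞 K |
      (∀ i, Pool.Agent.Lib.MP_1a91b9_ntDF.Pf 2 (d i) ∧ ((2 : ℕ) : 𝓞 K) ^ 0 ∣ d i - (fun _ => 0 : Fin n → 𝓞 K) i) ∧
      (∃ A : 𝓞 K, A ≠ 0 ∧ |Algebra.norm ℤ A| ≤ Z ∧ ∀ i, d i ∣ A ^ (2 - 1)) ∧
      (1 : ℕ) ≤ {δ ∈ ({1} : Set K) | Pool.Agent.Lib.MP_1a91b9_ntMQ.Fin.PropMF
        (tw 2 (⟨0, 0, 0, A, 0⟩ : WeierstrassCurve K) K δ) (NK 4 e) (cK K d)}.encard} =
      {b : Fin n → 𝓞 K | b ∈ Box K n Z ∧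
        Pool.Agent.Lib.MP_1a91b9_ntMQ.Fin.PropMF (⟨0, 0, 0, A, 0⟩ : WeierstrassCurve K) (NK 4 e) (cK K b)} := by
    ext d
    have h1 : ((1 : ℕ) : ℕ∞) ≤ {δ ∈ ({1} : Set K) | Pool.Agent.Lib.MP_1a91b9_ntMQ.Fin.PropMF
        (tw 2 (⟨0, 0, 0, A, 0⟩ : WeierstrassCurve K) K δ) (NK 4 e) (cK K d)}.encard ↔
        Pool.Agent.Lib.MP_1a91b9_ntMQ.Fin.PropMF (⟨0, 0, 0, A, 0⟩ : WeierstrassCurve K) (NK 4 e) (cK K d) := by
      rw [Nat.cast_one, Set.one_le_encard_iff_nonempty]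
      constructor
      · rintro ⟨δ, hδ, h⟩
        rw [Set.mem_singleton_iff.1 hδ, M2_tw] at h
        exact h
      · intro h
        refine ⟨1, rfl, ?_⟩
        rw [M2_tw]
        exact h
    rw [Set.mem_ofPred_eq, Set.mem_ofPred_eq, ← M2_all Z d, h1, and_assoc]
  have hZ' : c - c / 2 ≤ (Nat.card ({d : Fin n → 𝓞 K |
      (∀ i, Pool.Agent.Lib.MP_1a91b9_ntDF.Pf 2 (d i) ∧ ((2 : ℕ) : 𝓞 K) ^ 0 ∣ d i - (fun _ => 0 : Fin n → 𝓞 K) i) ∧
      (∃ A : 𝓞 K, A ≠ 0 ∧ |Algebra.norm ℤ A| ≤ Z ∧ ∀ i, d i ∣ A ^ (2 - 1)) ∧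
      (1 : ℕ) ≤ {δ ∈ ({1} : Set K) | Pool.Agent.Lib.MP_1a91b9_ntMQ.Fin.PropMF
        (tw 2 (⟨0, 0, 0, A, 0⟩ : WeierstrassCurve K) K δ) (NK 4 e) (cK K d)}.encard} : Set (Fin n → 𝓞 K)) : ℝ) /
      (Nat.card ({d : Fin n → 𝓞 K |
      (∀ i, Pool.Agent.Lib.MP_1a91b9_ntDF.Pf 2 (d i) ∧ ((2 : ℕ) : 𝓞 K) ^ 0 ∣ d i - (fun _ => 0 : Fin n → 𝓞 K) i) ∧
      ∃ A : 𝓞 K, A ≠ 0 ∧ |Algebra.norm ℤ A| ≤ Z ∧ ∀ i, d i ∣ A ^ (2 - 1)} : Set (Fin n → 𝓞 K)) : ℝ) := hZ
  rw [e1, e2] at hZ'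
  have h3 : c / 2 = c - c / 2 := by ring
  rw [h3]
  exact hZ'

/-- **M2** (medium+). **One curve, the special family.** Proof: `F = NK 4 d` with `d_k = π_k` (`m_k = 4`), `d_k = 1` (`m_k = 2`).
`l2T` (`ntDT/P5.lean`) for `E = ⟨0, 0, 0, A, 0⟩`, the pair `1728`, `-4`, `l = 4`, this `F`, `r = n`, the set `T = {1}` (`tw 2 E K 1 = E`),
`t = 1`, the class `n = 0`, `u = 0`: `v` is the sum over `j` in `Icc 1 1` and equals `cst 2 K F ^ ((2^n - 1) [F : K]) > 0` (`cst`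
is positive: `cb_two` as in the private `Z7_cst` of `ntDZ/Z7.lean`), which does not depend on `A`; `c = v / 2`. For the `b` in the
box with `PropMF E F (cK K b)`: `PropN` over `NK 4 (d_k b_k²)` by `hyp_NK` (`H6`) and `propN_of` (`H9`), `kum_gal`, as in
`propN_QQ` (`L1`), and `NK 4 (d_k b_k²) = NK 4 (sp m π' b)` (the functions are equal: `sp m π' b k` is `π_k b_k²` or `1² b_k²`); the
group by `grp_fam` (`M1`), with `M = NK 4 d ⊔ NK 2 b` and `finrank F M = 2 ^ n` from `d2Z` as in the proof of `H6`. -/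
theorem law_one {K : Type} [Field K] [NumberField K] (hK : Module.finrank ℚ K = 2) [IsPrincipalIdealRing (𝓞 K)]
    [Finite (𝓞 K)ˣ] (hfin : ∀ Z : ℝ, {x : 𝓞 K | x ≠ 0 ∧ nr x ≤ Z}.Finite) {i : K} (hi : i ^ 2 = -1)
    {n : ℕ} {m : Fin n → ℕ} (hm : ∀ k, m k = 2 ∨ m k = 4) {π : Fin n → 𝓞 K} (hπ : ∀ k, Prime (π k))
    (hne : ∀ k k', k ≠ k' → ¬ Associated (π k) (π k')) :
    ∃ c : ℝ, 0 < c ∧ ∀ A : K, A ≠ 0 → ∀ᶠ Z : ℝ in Filter.atTop,
      c * (Nat.card (Box K n Z) : ℝ) ≤ (Nat.card {b : Fin n → 𝓞 K // b ∈ Box K n Z ∧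
        NK 4 (sp m (fun k => if m k = 4 then π k else 1) b) ∈ Ext K (Gm m) ∧
        PropN (⟨0, 0, 0, A, 0⟩ : WeierstrassCurve K) (NK 4 (sp m (fun k => if m k = 4 then π k else 1) b))} : ℝ) := by
  classical
  obtain ⟨π', hπd⟩ : ∃ π' : Fin n → 𝓞 K, π' = fun k => if m k = 4 then π k else 1 := ⟨_, rfl⟩
  have hπ4 : ∀ k, m k = 4 → π' k = π k := fun k h => by rw [hπd]; exact if_pos h
  have hπ1 : ∀ k, m k = 2 → π' k = 1 := fun k h => by rw [hπd]; exact if_neg (by omega)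
  have hπ0 : ∀ k, π' k ≠ 0 := by
    intro k
    rcases hm k with h | h
    · rw [hπ1 k h]
      exact one_ne_zero
    · rw [hπ4 k h]
      exact (hπ k).ne_zero
  have he : ∀ k, ((π' k : 𝓞 K) : K) ≠ 0 := fun k => RingOfIntegers.coe_ne_zero_iff.2 (hπ0 k)
  obtain ⟨-, hnf, -⟩ := Pool.Agent.Lib.MP_1a91b9_ntQG.nk4_kum hi (w := fun k => ((π' k : 𝓞 K) : K)) he
  obtain ⟨v, hv, hlaw⟩ := M2_law hK hi (e := fun k => ((π' k : 𝓞 K) : K)) he
  refine ⟨v, hv, fun A hA => ?_⟩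
  rw [← hπd]
  filter_upwards [hlaw A hA, Filter.eventually_ge_atTop (1 : ℝ)] with Z hZ hZ1
  have hB : (0 : ℝ) < (Nat.card (Box K n Z) : ℝ) := by
    exact_mod_cast Pool.Agent.Lib.MP_1a91b9_ntQG.box_pos hfin n hZ1
  rw [le_div_iff₀ hB] at hZ
  refine hZ.trans ?_
  have hbf := Pool.Agent.Lib.MP_1a91b9_ntQG.box_fin hfin n Z
  have h1 : {b : Fin n → 𝓞 K | b ∈ Box K n Z ∧
      Pool.Agent.Lib.MP_1a91b9_ntMQ.Fin.PropMF (⟨0, 0, 0, A, 0⟩ : WeierstrassCurve K)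
        (NK 4 fun k => ((π' k : 𝓞 K) : K)) (cK K b)} ⊆
      {b : Fin n → 𝓞 K | b ∈ Box K n Z ∧ NK 4 (sp m π' b) ∈ Ext K (Gm m) ∧
      PropN (⟨0, 0, 0, A, 0⟩ : WeierstrassCurve K) (NK 4 (sp m π' b))} := by
    rintro b ⟨hb, hM⟩
    have hb0 : ∀ k, b k ≠ 0 := fun k => (hb.1 k).ne_zero
    have hbK : ∀ k, ((b k : 𝓞 K) : K) ≠ 0 := fun k => RingOfIntegers.coe_ne_zero_iff.2 (hb0 k)
    refine ⟨hb, ?_, ?_⟩
    · refine (M2_group hi hm (fun k h => ?_) hπ1 (fun k k' h h' hkk => ?_) hb0 ?_).1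
      · rw [hπ4 k h]
        exact hπ k
      · rw [hπ4 k h, hπ4 k' h']
        exact hne k k' hkk
      · intro J hJ f
        exact M2_ind (b := fun k => ((b k : 𝓞 K) : K)) hbK
          (fun N _ _ _ x hx htop => (hM N x hx htop).1) J hJ f
    · have h2 : sp m π' b = fun k => ((π' k : 𝓞 K) : K) * ((b k : 𝓞 K) : K) ^ 2 := by
        funext k
        unfold sp
        split_ifs with h
        · rfl
        · have h3 : m k = 2 := (hm k).resolve_right h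
          rw [hπ1 k h3]
          show (1 : K) ^ 2 * _ = (1 : K) * _
          rw [one_pow]
      rw [h2]
      exact M2_propN hK hi hA he hbK hM
  have h2 := Nat.card_mono (hbf.subset fun b hb => hb.1) h1
  exact_mod_cast h2

end Pool.Agent.Lib.MP_1a91b9_ntQH
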