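import Pool.Agent.Lib.MP_1a91b9_ntQH.M2
import Pool.Agent.Lib.MP_1a91b9_ntQH.M4
import Pool.Agent.Lib.MP_1a91b9_ntQH.M5

/-!
# MP_1a91b9_nt (the abelian extensions of exponent four, relative form): a positive proportion for one curve
-/

set_option autoImplicit false

namespace Pool.Agent.Lib.MP_1a91b9_ntQH

open NumberField
open Pool.Agent.Lib.MP_1a91b9_ntDF (DiscLe NK)
open Pool.Agent.Lib.MP_1a91b9_ntQD (nr)
open Pool.Agent.Lib.MP_1a91b9_ntQG (Box Ext Gm sp)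

/-- **M6** (easy+). **A positive proportion, one curve.** Proof: `primes_ex` (`ntQG/R4.lean`), `law_one`, `many_good` with
`π' k = if m k = 4 then π k else 1`, `total_le`; the number of all the fields is positive as the number of the good ones is
(`box_pos`). The finiteness `hfin`: the first part of `few_bad` (`ntQG/F1.lean`) for `P = True`. -/
theorem pos_prop {K : Type} [Field K] [NumberField K] (hK : Module.finrank ℚ K = 2)
    [IsPrincipalIdealRing (𝓞 K)] [Finite (𝓞 K)ˣ] {i : K} (hi : i ^ 2 = -1) {n : ℕ} {m : Fin n → ℕ}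
    (hm : ∀ k, m k = 2 ∨ m k = 4) {g : ℕ} (hg : ∏ k, m k = 4 * g) (hg0 : 0 < g) :
    ∃ c : ℝ, 0 < c ∧ ∀ A : K, A ≠ 0 → ∀ᶠ X : ℝ in Filter.atTop, c ≤
      (Nat.card {N : IntermediateField K (AlgebraicClosure K) // N ∈ Ext K (Gm m) ∧ DiscLe N X ∧
        PropN (⟨0, 0, 0, A, 0⟩ : WeierstrassCurve K) N} : ℝ) /
      (Nat.card {N : IntermediateField K (AlgebraicClosure K) // N ∈ Ext K (Gm m) ∧ DiscLe N X} : ℝ) := by
  classical
  obtain ⟨π, hπ, hne⟩ := Pool.Agent.Lib.MP_1a91b9_ntQG.primes_ex K n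
  have hnf := (Pool.Agent.Lib.MP_1a91b9_ntQD.card_le hK hi).1
  obtain ⟨hfin, -⟩ := Pool.Agent.Lib.MP_1a91b9_ntQG.few_bad hK hi hm hg hg0 (fun _ => True) (fun j ε hε => by
    filter_upwards with Z
    have h0 : IsEmpty {b : Fin n → 𝓞 K // b ∈ Box K n Z ∧
        Module.finrank K (Pool.Agent.Lib.MP_1a91b9_ntQG.QQ j b) = ∏ k, m k ∧ ¬ True} :=
      ⟨fun b => b.2.2.2 trivial⟩
    rw [Nat.card_of_isEmpty, Nat.cast_zero]
    positivity)
  obtain ⟨c, hc, hlaw⟩ := law_one hK hnf hi hm hπ hne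
  obtain ⟨c', hc', hmany⟩ := many_good hK hi hm hg hg0 (π := fun k => if m k = 4 then π k else 1)
    (fun k => by
      split_ifs
      · exact (hπ k).ne_zero
      · exact one_ne_zero) hfin hc
  obtain ⟨C, hC, htot⟩ := total_le hK hi hm hg hg0
  refine ⟨c' / C, div_pos hc' hC, fun A hA => ?_⟩
  filter_upwards [hmany (fun N => PropN (⟨0, 0, 0, A, 0⟩ : WeierstrassCurve K) N) (hlaw A hA),
    Filter.eventually_ge_atTop (1 : ℝ)] with X h1 hX
  have hY : (1 : ℝ) ≤ X ^ (1 / (2 * g : ℝ)) := Real.one_le_rpow hX (by positivity)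
  have hB : (0 : ℝ) < (Nat.card (Box K n (X ^ (1 / (2 * g : ℝ)))) : ℝ) := by
    exact_mod_cast Pool.Agent.Lib.MP_1a91b9_ntQG.box_pos hnf n hY
  have h2 := htot X
  have h3 : (Nat.card {N : IntermediateField K (AlgebraicClosure K) // N ∈ Ext K (Gm m) ∧ DiscLe N X ∧
      PropN (⟨0, 0, 0, A, 0⟩ : WeierstrassCurve K) N} : ℝ) ≤
      (Nat.card {N : IntermediateField K (AlgebraicClosure K) // N ∈ Ext K (Gm m) ∧ DiscLe N X} : ℝ) := by
    have h4 : {N : IntermediateField K (AlgebraicClosure K) | N ∈ Ext K (Gm m) ∧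
        DiscLe N X ∧ PropN (⟨0, 0, 0, A, 0⟩ : WeierstrassCurve K) N} ⊆
        {N : IntermediateField K (AlgebraicClosure K) | N ∈ Ext K (Gm m) ∧ DiscLe N X} :=
      fun N hN => ⟨hN.1, hN.2.1⟩
    exact_mod_cast Set.ncard_le_ncard h4 (hfin X)
  have hall : (0 : ℝ) < (Nat.card {N : IntermediateField K (AlgebraicClosure K) //
      N ∈ Ext K (Gm m) ∧ DiscLe N X} : ℝ) := lt_of_lt_of_le (mul_pos hc' hB) (h1.trans h3)
  rw [div_le_div_iff₀ hC hall]
  nlinarith [mul_le_mul_of_nonneg_left h2 hc'.le, mul_le_mul_of_nonneg_right h1 hC.le]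

end Pool.Agent.Lib.MP_1a91b9_ntQH
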