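import Pool.Agent.Lib.MP_1a91b9_ntQG.E0
import Pool.Agent.Lib.MP_1a91b9_ntQG.K3
import Pool.Agent.Lib.MP_1a91b9_ntQH.H6
import Pool.Agent.Lib.MP_1a91b9_ntQD.U0

/-!
# MP_1a91b9_nt (the abelian extensions of exponent four, relative form): the unconditional case
-/

set_option autoImplicit false

namespace Pool.Agent.Lib.MP_1a91b9_ntQH

open NumberField
open Pool.Agent.Lib.MP_1a91b9_ntDZ (PropZ LNonzero)
open Pool.Agent.Lib.MP_1a91b9_ntDF (tw cK NK)
open Pool.Agent.Lib.MP_1a91b9_ntQG (AllZ)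

/-- The property `Z` over the compositum. -/
private theorem V0_core {K : Type} [Field K] [NumberField K] (hK : Module.finrank ℚ K = 2) {i : K}
    (hi : i ^ 2 = -1) {A : K} (hA : A ≠ 0) {n : ℕ} {b : Fin n → K} {F G M : Type} [Field F] [NumberField F]
    [Field G] [Field M] [NumberField M] [Algebra K F] [Algebra K G] [Algebra K M] [Algebra F M] [Algebra G M]
    [IsScalarTower K F M] [IsScalarTower K G M] {y : Fin n → G}
    (hy : Pool.Agent.Lib.MP_1a91b9_ntDF.Kum 2 b y)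
    (hGM : IntermediateField.adjoin F (Set.range (algebraMap G M)) = ⊤)
    (hgen : IntermediateField.adjoin K {z : M | ∃ c : K, z ^ 4 = algebraMap K M c} = ⊤)
    (hM : Pool.Agent.Lib.MP_1a91b9_ntMQ.Fin.PropMF (⟨0, 0, 0, A, 0⟩ : WeierstrassCurve K) F b)
    (hL : LNonzero ((⟨0, 0, 0, A, 0⟩ : WeierstrassCurve K).baseChange F)) :
    PropZ K ((⟨0, 0, 0, A, 0⟩ : WeierstrassCurve K).baseChange M) := by
  obtain ⟨-, h3⟩ := Pool.Agent.Lib.MP_1a91b9_ntDF.kum_push hy hGM
  obtain ⟨-, h4⟩ := hM M (fun k => algebraMap G M (y k)) (fun k => by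
    rw [← map_pow, hy.pow k, ← IsScalarTower.algebraMap_apply, ← IsScalarTower.algebraMap_apply]) h3
  obtain ⟨-, ⟨g, g1, g2, g3⟩, -⟩ := h4 M
  obtain ⟨h, h1, h2, h5⟩ := hL
  exact Pool.Agent.Lib.MP_1a91b9_ntDZ.propZ_of
    (Pool.Agent.Lib.MP_1a91b9_ntQT.tow_self hK hi hA (F := M) hgen
      ⟨fun s => h s * g s, h1.mul g1, fun s hs => by rw [g3 s hs, ← h2 s hs], mul_ne_zero h5 g2⟩)

/-- The property `Z` over the subfields. -/
theorem allZ_desc {K : Type} [Field K] [NumberField K] (hK : Module.finrank ℚ K = 2) {i : K}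
    (hi : i ^ 2 = -1) {A : K} (hA : A ≠ 0) {N M : Type} [Field N] [NumberField N] [Algebra K N] [IsGalois K N]
    (hc : ∀ σ τ : N ≃ₐ[K] N, σ * τ = τ * σ) (h4 : ∀ σ : N ≃ₐ[K] N, σ ^ 4 = 1) [Field M] [NumberField M]
    [Algebra K M] [Algebra N M] [IsScalarTower K N M]
    (hZ : PropZ K ((⟨0, 0, 0, A, 0⟩ : WeierstrassCurve K).baseChange M)) :
    AllZ (⟨0, 0, 0, A, 0⟩ : WeierstrassCurve K) N := by
  intro P _ _ _ _ _
  let _ : Algebra P M := ((algebraMap N M).comp (algebraMap P N)).toAlgebra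
  have : IsScalarTower K P M := IsScalarTower.of_algebraMap_eq fun u => by
    show algebraMap K M u = algebraMap N M (algebraMap P N (algebraMap K P u))
    rw [← IsScalarTower.algebraMap_apply K P N, ← IsScalarTower.algebraMap_apply K N M]
  exact Pool.Agent.Lib.MP_1a91b9_ntDZ.propZ_of
    (Pool.Agent.Lib.MP_1a91b9_ntQT.tow_self hK hi hA (F := P)
      (Pool.Agent.Lib.MP_1a91b9_ntQG.between hi hc h4 P)
      (Pool.Agent.Lib.MP_1a91b9_ntQD.lne_desc P hZ))

/-- The second of two intermediate fields generates the compositum over the first. -/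
private theorem V0_gen {K : Type} [Field K] {Ω : Type} [Field Ω] [Algebra K Ω]
    (F G M : IntermediateField K Ω) (hM : M ≤ F ⊔ G) [Algebra F M] [Algebra G M]
    [IsScalarTower K F M] (h1 : ∀ x : F, ((algebraMap F M x : M) : Ω) = x)
    (h2 : ∀ x : G, ((algebraMap G M x : M) : Ω) = x) :
    IntermediateField.adjoin F (Set.range (algebraMap G M)) = ⊤ := by
  have h3 : ((IntermediateField.adjoin F (Set.range (algebraMap G M))).restrictScalars K).map M.val =
      M := by
    refine le_antisymm ?_ (hM.trans (sup_le ?_ ?_))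
    · rintro _ ⟨m, -, rfl⟩
      exact m.2
    · intro x hx
      exact ⟨algebraMap F M ⟨x, hx⟩, IntermediateField.algebraMap_mem
        (IntermediateField.adjoin F (Set.range (algebraMap G M))) _, h1 ⟨x, hx⟩⟩
    · intro x hx
      exact ⟨algebraMap G M ⟨x, hx⟩, IntermediateField.subset_adjoin F _ ⟨_, rfl⟩, h2 ⟨x, hx⟩⟩
  rw [eq_top_iff]
  intro m _
  have h4 : (m : Ω) ∈ ((IntermediateField.adjoin F (Set.range (algebraMap G M))).restrictScalars K).map
      M.val := by
    rw [h3]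
    exact m.2
  obtain ⟨m', hm', h5⟩ := h4
  have h6 : m' = m := Subtype.ext h5
  rw [← h6]
  exact hm'

/-- The compositum is generated by fourth roots. -/
private theorem V0_four {K : Type} [Field K] {n : ℕ} (e b : Fin n → K)
    (M : IntermediateField K (AlgebraicClosure K)) (hM : M = NK 4 e ⊔ NK 2 b) :
    IntermediateField.adjoin K {z : M | ∃ c : K, z ^ 4 = algebraMap K M c} = ⊤ := by
  refine IntermediateField.map_injective M.val ?_
  rw [← AlgHom.fieldRange_eq_map, IntermediateField.fieldRange_val]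
  refine le_antisymm ?_ ?_
  · rintro _ ⟨m, -, rfl⟩
    exact m.2
  · have key : ∀ x : AlgebraicClosure K, x ∈ M → (∃ c : K, x ^ 4 = algebraMap K (AlgebraicClosure K) c) →
        x ∈ (IntermediateField.adjoin K {z : M | ∃ c : K, z ^ 4 = algebraMap K M c}).map M.val := by
      rintro x hx ⟨c, hc⟩
      exact ⟨⟨x, hx⟩, IntermediateField.subset_adjoin K _ ⟨c, Subtype.ext hc⟩, rfl⟩
    conv_lhs => rw [hM]
    refine sup_le ?_ ?_
    · refine IntermediateField.adjoin_le_iff.2 ?_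
      rintro x ⟨k, hx⟩
      refine key x ?_ ⟨e k, hx⟩
      rw [hM]
      exact le_sup_left (a := NK 4 e) (b := NK 2 b) (IntermediateField.subset_adjoin K _ ⟨k, hx⟩)
    · refine IntermediateField.adjoin_le_iff.2 ?_
      rintro x ⟨k, hx⟩
      refine key x ?_ ⟨b k ^ 2, ?_⟩
      · rw [hM]
        exact le_sup_right (a := NK 4 e) (b := NK 2 b) (IntermediateField.subset_adjoin K _ ⟨k, hx⟩)
      · rw [map_pow, ← hx, ← pow_mul]

/-- **The property `Z` over all the fields between `K` and `N`.** -/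
theorem allZ_NK {K : Type} [Field K] [NumberField K] (hK : Module.finrank ℚ K = 2) {i : K} (hi : i ^ 2 = -1)
    {A : K} (hA : A ≠ 0) {n : ℕ} {e b : Fin n → K} (he : ∀ k, e k ≠ 0) (hb : ∀ k, b k ≠ 0)
    [NumberField (NK 4 e)]
    (hM : Pool.Agent.Lib.MP_1a91b9_ntMQ.Fin.PropMF (⟨0, 0, 0, A, 0⟩ : WeierstrassCurve K) (NK 4 e) b)
    (hL : LNonzero ((⟨0, 0, 0, A, 0⟩ : WeierstrassCurve K).baseChange (NK 4 e))) :
    AllZ (⟨0, 0, 0, A, 0⟩ : WeierstrassCurve K) (NK 4 fun k => e k * b k ^ 2) := by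
  have hp : Fact (Nat.Prime 2) := ⟨Nat.prime_two⟩
  have hζ : IsPrimitiveRoot (-1 : K) 2 := IsPrimitiveRoot.neg_one 0 (by norm_num)
  have hw : ∀ k, e k * b k ^ 2 ≠ 0 := fun k => mul_ne_zero (he k) (pow_ne_zero 2 (hb k))
  obtain ⟨hfF, -, z, hz⟩ := Pool.Agent.Lib.MP_1a91b9_ntQG.nk4_kum hi he
  obtain ⟨-, hnfN, x, hx⟩ := Pool.Agent.Lib.MP_1a91b9_ntQG.nk4_kum hi hw
  obtain ⟨hfG, -, -, y, hy⟩ := Pool.Agent.Lib.MP_1a91b9_ntDF.nk_kum hζ hb
  obtain ⟨hG, hc, h4⟩ := Pool.Agent.Lib.MP_1a91b9_ntQG.kum_gal hi hx hw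
  have hle : NK 4 (fun k => e k * b k ^ 2) ≤ NK 4 e ⊔ NK 2 b := by
    have h1 : ∀ k, ((z k : AlgebraicClosure K) * y k) ^ 4 =
        algebraMap K (AlgebraicClosure K) (e k * b k ^ 2) := by
      intro k
      have h2 : ((z k : NK 4 e) : AlgebraicClosure K) ^ 4 = algebraMap K (AlgebraicClosure K) (e k) := by
        have := congrArg (fun t : NK 4 e => (t : AlgebraicClosure K)) (hz.pow k)
        exact this
      have h3 : ((y k : NK 2 b) : AlgebraicClosure K) ^ 2 = algebraMap K (AlgebraicClosure K) (b k) := by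
        have := congrArg (fun t : NK 2 b => (t : AlgebraicClosure K)) (hy.pow k)
        exact this
      rw [mul_pow, h2, map_mul, map_pow, ← h3, ← pow_mul]
    rw [Pool.Agent.Lib.MP_1a91b9_ntQG.nk4_adjoin hi two_ne_zero
      (fun k => mul_ne_zero (he k) (pow_ne_zero 2 (hb k))) h1, IntermediateField.adjoin_le_iff]
    rintro _ ⟨k, rfl⟩
    exact mul_mem (le_sup_left (a := NK 4 e) (b := NK 2 b) (z k).2)
      (le_sup_right (a := NK 4 e) (b := NK 2 b) (y k).2)
  obtain ⟨M, hMe⟩ : ∃ M, M = NK 4 e ⊔ NK 2 b := ⟨_, rfl⟩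
  have hFM : NK 4 e ≤ M := by
    rw [hMe]
    exact le_sup_left
  have hGM : NK 2 b ≤ M := by
    rw [hMe]
    exact le_sup_right
  have hNM : NK 4 (fun k => e k * b k ^ 2) ≤ M := by
    rw [hMe]
    exact hle
  have hfM : FiniteDimensional K M := by
    rw [hMe]
    exact IntermediateField.finiteDimensional_sup _ _
  have : NumberField M := NumberField.of_module_finite K M
  let _ : Algebra (NK 4 e) M := (IntermediateField.inclusion hFM).toRingHom.toAlgebra
  let _ : Algebra (NK 2 b) M := (IntermediateField.inclusion hGM).toRingHom.toAlgebra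
  let _ : Algebra (NK 4 fun k => e k * b k ^ 2) M := (IntermediateField.inclusion hNM).toRingHom.toAlgebra
  have : IsScalarTower K (NK 4 e) M := IsScalarTower.of_algebraMap_eq fun _ => rfl
  have : IsScalarTower K (NK 2 b) M := IsScalarTower.of_algebraMap_eq fun _ => rfl
  have : IsScalarTower K (NK 4 fun k => e k * b k ^ 2) M := IsScalarTower.of_algebraMap_eq fun _ => rfl
  have hZ := V0_core (F := NK 4 e) (G := NK 2 b) (M := M) hK hi hA hy
    (V0_gen (NK 4 e) (NK 2 b) M hMe.le (fun _ => rfl) fun _ => rfl) (V0_four e b M hMe) hM hL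
  exact allZ_desc hK hi hA hc h4 hZ

end Pool.Agent.Lib.MP_1a91b9_ntQH
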