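import Pool.Agent.Lib.MP_1a91b9_ntQH.V1
import Pool.Agent.Lib.MP_1a91b9_ntDT.P5
import Pool.Agent.Lib.MP_1a91b9_ntDF.C0

/-!
# MP_1a91b9_nt (the abelian extensions of exponent four, relative form): the groups of exponent two, unconditional case
-/

set_option autoImplicit false

namespace Pool.Agent.Lib.MP_1a91b9_ntQH

open NumberField
open Pool.Agent.Lib.MP_1a91b9_ntDF (tw NK cK DiscLe)
open Pool.Agent.Lib.MP_1a91b9_ntQD (nr)
open Pool.Agent.Lib.MP_1a91b9_ntQG (Ext Gm AllZ)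
open Pool.Agent.Lib.MP_1a91b9_ntDZ (PropZ LNonzero)

private theorem V2_tw {K : Type} [Field K] (A u : K) :
    tw 2 (⟨0, 0, 0, A, 0⟩ : WeierstrassCurve K) K u = ⟨0, 0, 0, A * u ^ 2, 0⟩ := by
  unfold tw
  refine WeierstrassCurve.ext rfl ?_ ?_ ?_ rfl
  · show algebraMap K K (0 * u ^ (2 / 2)) = 0
    rw [zero_mul, map_zero]
  · show algebraMap K K (0 * u ^ (3 / 2)) = 0
    rw [zero_mul, map_zero]
  · show algebraMap K K (A * u ^ (4 / 2)) = A * u ^ 2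
    rfl

private theorem V2_twF {K F : Type} [Field K] [Field F] [Algebra K F] (a u : K) :
    tw 2 (⟨0, 0, 0, a, 0⟩ : WeierstrassCurve K) F (u ^ 1) =
      ⟨0, 0, 0, algebraMap K F (a * u ^ 2), 0⟩ := by
  unfold tw
  refine WeierstrassCurve.ext rfl ?_ ?_ ?_ rfl
  · show algebraMap K F (0 * (u ^ 1) ^ (2 / 2)) = 0
    rw [zero_mul, map_zero]
  · show algebraMap K F (0 * (u ^ 1) ^ (3 / 2)) = 0
    rw [zero_mul, map_zero]
  · show algebraMap K F (a * (u ^ 1) ^ 2) = algebraMap K F (a * u ^ 2)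
    rw [pow_one]

private theorem V2_eqn {K F M : Type} [Field K] [Field F] [Field M] [Algebra K F] [Algebra F M] (a : K)
    {x y : M} (h : y ^ 2 = x ^ 3 + algebraMap F M (algebraMap K F a) * x) :
    (((⟨0, 0, 0, a, 0⟩ : WeierstrassCurve K).baseChange F).baseChange M).toAffine.Equation x y := by
  rw [WeierstrassCurve.Affine.equation_iff]
  show y ^ 2 + algebraMap F M (algebraMap K F 0) * x * y + algebraMap F M (algebraMap K F 0) * y =
    x ^ 3 + algebraMap F M (algebraMap K F 0) * x ^ 2 + algebraMap F M (algebraMap K F a) * x +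
      algebraMap F M (algebraMap K F 0)
  rw [map_zero, map_zero]
  linear_combination h

private theorem V2_disc {K : Type} [Field K] (a : K) :
    (⟨0, 0, 0, a, 0⟩ : WeierstrassCurve K).Δ = -64 * a ^ 3 := by
  unfold WeierstrassCurve.Δ WeierstrassCurve.b₂ WeierstrassCurve.b₄ WeierstrassCurve.b₆
    WeierstrassCurve.b₈
  ring

private theorem V2_c4 {K : Type} [Field K] (a : K) :
    (⟨0, 0, 0, a, 0⟩ : WeierstrassCurve K).c₄ = -48 * a := by
  unfold WeierstrassCurve.c₄ WeierstrassCurve.b₂ WeierstrassCurve.b₄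
  ring

private theorem V2_64 {K : Type} [Field K] [NumberField K] : (-64 : K) ≠ 0 := by
  have h0 : ((-64 : ℤ) : K) ≠ 0 := Int.cast_ne_zero.2 (by norm_num)
  push_cast at h0
  exact h0

private theorem V2_adj {K : Type} [Field K] (S : Set K) : IntermediateField.adjoin K S = ⊤ := by
  rw [eq_top_iff]
  intro x _
  exact IntermediateField.algebraMap_mem _ x

private theorem V2_neg {K : Type} [Field K] [NumberField K] : IsPrimitiveRoot (-1 : K) 2 := by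
  have h0 : orderOf (-1 : K) = 2 := by
    have := Fact.mk Nat.prime_two
    refine orderOf_eq_prime (by norm_num) ?_
    intro h
    have h2 : (2 : K) = 0 := by linear_combination (-1 : K) * h
    exact two_ne_zero h2
  have h1 := IsPrimitiveRoot.orderOf (-1 : K)
  rwa [h0] at h1

private theorem V2_four {n : ℕ} (g : Multiplicative (Fin n → ZMod 2)) : g ^ 4 = 1 := by
  refine Multiplicative.toAdd.injective ?_
  rw [toAdd_pow, toAdd_one]
  funext k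
  show 4 • (Multiplicative.toAdd g k) = 0
  have h : ∀ x : ZMod 2, 4 • x = 0 := by decide
  exact h _

private theorem V2_extM {K : Type} [Field K] [NumberField K] {a : K} {n : ℕ} {d : Fin n → K}
    [NumberField (NK 2 d)] {y : Fin n → NK 2 d} (hy : Pool.Agent.Lib.MP_1a91b9_ntDF.Kum 2 d y)
    (hM : Pool.Agent.Lib.MP_1a91b9_ntDZ.PropM 2 (⟨0, 0, 0, a, 0⟩ : WeierstrassCurve K) K (NK 2 d)) : ExtM a K (NK 2 d) d := by
  have htop : IntermediateField.adjoin K (Set.range (algebraMap (NK 2 d) (NK 2 d))) = ⊤ := by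
    rw [eq_top_iff]
    intro x _
    exact IntermediateField.subset_adjoin K _ ⟨x, rfl⟩
  obtain ⟨-, h2⟩ := hM (NK 2 d) htop
  refine ⟨fun x' y' h => (h2 (NK 2 d)).1.1 x' y' (V2_eqn a h), ?_⟩
  intro F' _ _ i1 i2 i3 i4 i5 J hJ
  obtain rfl : i1 = i2 := by
    refine Algebra.algebra_ext i1 i2 fun r => ?_
    exact @IsScalarTower.algebraMap_apply K K F' _ _ _ _ i2 i1 i3 r
  have hex : ∃ x : NK 2 d, x ^ 2 = algebraMap K (NK 2 d) (∏ k ∈ J, d k) := by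
    refine ⟨∏ k ∈ J, y k, ?_⟩
    rw [← Finset.prod_pow, map_prod]
    exact Finset.prod_congr rfl fun k _ => hy.pow k
  have h := ((h2 F').2.2.2.2 (∏ k ∈ J, d k) hex hJ).1 1 one_pos one_lt_two
  rwa [V2_twF] at h

private theorem V2_propN {K : Type} [Field K] [NumberField K] (hK : Module.finrank ℚ K = 2) {i : K}
    (hi : i ^ 2 = -1) {a : K} (ha : a ≠ 0) {n : ℕ} {d : Fin n → K} (hd : ∀ k, d k ≠ 0)
    (h : Pool.Agent.Lib.MP_1a91b9_ntMQ.Fin.PropMF (⟨0, 0, 0, a, 0⟩ : WeierstrassCurve K) K d)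
    (hZ : LNonzero ((⟨0, 0, 0, a, 0⟩ : WeierstrassCurve K).baseChange K)) :
    Module.finrank K (NK 2 d) = 2 ^ n ∧ PropN (⟨0, 0, 0, a, 0⟩ : WeierstrassCurve K) (NK 2 d) ∧
      AllS (⟨0, 0, 0, a, 0⟩ : WeierstrassCurve K) (NK 2 d) := by
  have hp2 : Fact (Nat.Prime 2) := ⟨Nat.prime_two⟩
  obtain ⟨h1, h2⟩ := Pool.Agent.Lib.MP_1a91b9_ntDZ.d2Z K hK (⟨0, 0, 0, a, 0⟩ : WeierstrassCurve K)
    ⟨rfl, rfl, rfl⟩
    (by
      rw [V2_disc]
      exact mul_ne_zero V2_64 (pow_ne_zero 3 ha))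
    1728 (-4) (by simp)
    (by
      rw [V2_disc, V2_c4]
      push_cast
      ring)
    ⟨2 * i, by
      push_cast
      linear_combination 4 * hi⟩ 2 (Or.inl rfl) K (V2_adj _) hd h
  refine ⟨h1, ?_⟩
  obtain ⟨-, hn, -, y, hy⟩ := Pool.Agent.Lib.MP_1a91b9_ntDF.nk_kum (V2_neg (K := K)) hd
  obtain ⟨hgal, ⟨e⟩⟩ := Pool.Agent.Lib.MP_1a91b9_ntDF.a3_grp (V2_neg (K := K)) two_pos hd h1
  have hE := V2_extM hy h2
  have hS : Sit K K (NK 2 d) (NK 2 d) (fun _ => 1) d (fun _ => 1) y y :=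
    { he := fun _ => one_ne_zero
      hb := hd
      hz := fun _ => by rw [one_pow, map_one]
      hy := hy.pow
      hx := fun k => by
        rw [map_one, one_mul]
        rfl
      hN := hy.top
      hM := hy.top
      deg := h1 }
  have htop : IntermediateField.adjoin K (Set.range (algebraMap (NK 2 d) (NK 2 d))) = ⊤ := by
    rw [eq_top_iff]
    intro x _
    exact IntermediateField.subset_adjoin K _ ⟨x, rfl⟩
  obtain ⟨-, h3⟩ := h2 (NK 2 d) htop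
  refine ⟨?_, allS_of fun P _ _ _ _ _ => ((h3 P).2.2.1 hZ)⟩
  refine propN_of hK hi ha ?_ ?_ (hypL_of hS hi hE) (hypP_of hS hi hE)
  · intro σ τ
    refine e.injective ?_
    rw [map_mul, map_mul, mul_comm]
  · intro σ
    refine e.injective ?_
    rw [map_pow, map_one]
    exact V2_four _

private theorem V2_grp {G : Type} [Group G] {n : ℕ} :
    Nonempty (G ≃* Gm (fun _ : Fin n => 2)) ↔ Nonempty (G ≃* Multiplicative (Fin n → ZMod 2)) := by
  have e : Multiplicative (Fin n → ZMod 2) ≃* Gm (fun _ : Fin n => 2) :=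
    { toFun := fun f k => Multiplicative.ofAdd (Multiplicative.toAdd f k)
      invFun := fun g => Multiplicative.ofAdd fun k => Multiplicative.toAdd (g k)
      left_inv := fun _ => rfl
      right_inv := fun _ => rfl
      map_mul' := fun _ _ => rfl }
  exact ⟨fun ⟨g⟩ => ⟨g.trans e.symm⟩, fun ⟨g⟩ => ⟨g.trans e⟩⟩

private theorem V2_ext (K : Type) [Field K] (n : ℕ) :
    Ext K (Gm (fun _ : Fin n => 2)) = Pool.Agent.Lib.MP_1a91b9_ntDF.Ext K 2 n := by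
  ext N
  exact and_congr Iff.rfl V2_grp

private theorem V2_ne {K : Type} [Field K] [NumberField K] {d : 𝓞 K}
    (hd : Pool.Agent.Lib.MP_1a91b9_ntDF.Pf 2 d) : d ≠ 0 := by
  rintro rfl
  exact not_isUnit_zero (hd 0 (dvd_zero _))

private theorem V2_nr {K : Type} [Field K] [NumberField K] {a b : 𝓞 K} (hb : b ≠ 0) (h : a ∣ b) :
    nr a ≤ nr b := by
  have h1 : Algebra.norm ℤ a ∣ Algebra.norm ℤ b := map_dvd (Algebra.norm ℤ) h
  have h2 : Algebra.norm ℤ b ≠ 0 := Algebra.norm_ne_zero_iff.2 hb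
  have h3 : |Algebra.norm ℤ a| ≤ |Algebra.norm ℤ b| :=
    Int.le_of_dvd (abs_pos.2 h2) ((abs_dvd_abs _ _).2 h1)
  unfold nr
  exact_mod_cast h3

private theorem V2_ratio {α : Type} {D : Set α} {R S : Set α} (hD : D.Finite) (hRS : R ⊆ S)
    (hSD : S ⊆ D) {c : ℝ} (h : c ≤ (Nat.card R : ℝ) / (Nat.card D : ℝ)) :
    c ≤ (Nat.card S : ℝ) / (Nat.card D : ℝ) := by
  refine h.trans ?_
  have h1 : Nat.card R ≤ Nat.card S := Nat.card_mono (hD.subset hSD) hRS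
  have h2 : (Nat.card R : ℝ) ≤ (Nat.card S : ℝ) := by exact_mod_cast h1
  exact div_le_div_of_nonneg_right h2 (Nat.cast_nonneg _)

/-- **The groups of exponent two, the unconditional case.** -/
theorem exp_two_U {K : Type} [Field K] [NumberField K] (hK : Module.finrank ℚ K = 2)
    [IsPrincipalIdealRing (𝓞 K)] [Finite (𝓞 K)ˣ]
    (hfin : ∀ Z : ℝ, {x : 𝓞 K | x ≠ 0 ∧ nr x ≤ Z}.Finite) {i : K} (hi : i ^ 2 = -1)
    {A : K} (hA : A ≠ 0) {U : Set K} (hU : U.Infinite) (hU0 : 0 ∉ U)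
    (hZ : ∀ u ∈ U, PropZ K ((tw 2 (⟨0, 0, 0, A, 0⟩ : WeierstrassCurve K) K u).baseChange K))
    (hs : ∀ u ∈ U, ∀ u' ∈ U, u ≠ u' → ∀ c ∈ ({1, -1, A, -A} : Set K), ∀ x : K, x ^ 2 * u' ≠ c * u)
    {n : ℕ} {m : Fin n → ℕ} (hm : ∀ k, m k = 2) (t : ℕ) (ε : ℝ) (hε : 0 < ε) :
    ∀ᶠ X : ℝ in Filter.atTop, 1 - ε ≤
      (Nat.card {N : IntermediateField K (AlgebraicClosure K) // N ∈ Ext K (Gm m) ∧ DiscLe N X ∧
        t ≤ {δ ∈ U | PropN (⟨0, 0, 0, A * δ ^ 2, 0⟩ : WeierstrassCurve K) N ∧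
          AllS (⟨0, 0, 0, A * δ ^ 2, 0⟩ : WeierstrassCurve K) N}.encard} : ℝ) /
      (Nat.card {N : IntermediateField K (AlgebraicClosure K) // N ∈ Ext K (Gm m) ∧ DiscLe N X} : ℝ) := by
  obtain rfl : m = fun _ => 2 := funext hm
  have hp2 : Fact (Nat.Prime 2) := ⟨Nat.prime_two⟩
  rw [V2_ext]
  refine Pool.Agent.Lib.MP_1a91b9_ntDF.law_disc (p := 2) V2_neg hfin n
    (fun N => (t : ℕ∞) ≤ {δ ∈ U | PropN (⟨0, 0, 0, A * δ ^ 2, 0⟩ : WeierstrassCurve K) N ∧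
      AllS (⟨0, 0, 0, A * δ ^ 2, 0⟩ : WeierstrassCurve K) N}.encard) 1
    ?_ ε hε
  intro a w hw η hη
  have key := Pool.Agent.Lib.MP_1a91b9_ntDT.l2T K hK (⟨0, 0, 0, A, 0⟩ : WeierstrassCurve K)
    ⟨rfl, rfl, rfl⟩
    (by
      rw [V2_disc]
      exact mul_ne_zero V2_64 (pow_ne_zero 3 hA))
    1728 (-4) (by simp)
    (by
      rw [V2_disc, V2_c4]
      push_cast
      ring)
    ⟨2 * i, by
      push_cast
      linear_combination 4 * hi⟩ 2 (Or.inl rfl) K (V2_adj _) n U hU0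
    (fun δ hδ δ' hδ' hne e he x => hs δ hδ δ' hδ' hne e he x) a w hw (max t 1) 1
    (by rw [if_pos hU]) η hη
  filter_upwards [key] with X hX
  refine V2_ratio (D := {d : Fin n → 𝓞 K | (∀ i, Pool.Agent.Lib.MP_1a91b9_ntDF.Pf 2 (d i) ∧
    ((2 : ℕ) : 𝓞 K) ^ a ∣ d i - w i) ∧
      ∃ A, A ≠ 0 ∧ |Algebra.norm ℤ A| ≤ X ∧ ∀ i, d i ∣ A ^ (2 - 1)}) ?_ ?_ ?_ hX
  · have h1 : (Set.pi Set.univ (fun _ : Fin n => {x : 𝓞 K | x ≠ 0 ∧ nr x ≤ X})).Finite :=
      Set.Finite.pi fun _ => hfin X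
    refine h1.subset ?_
    rintro d ⟨hd, B, hB, hBX, hdB⟩ k -
    refine ⟨V2_ne (hd k).1, (V2_nr hB ?_).trans hBX⟩
    have h2 := hdB k
    rwa [Nat.add_one_sub_one, pow_one] at h2
  · rintro d ⟨hd, hB, ht⟩
    refine ⟨hd, hB, ?_⟩
    have hd0 : ∀ k, cK K d k ≠ 0 := fun k h0 => V2_ne (hd k).1 (RingOfIntegers.ext h0)
    have hall : ∀ δ ∈ {δ ∈ U | Pool.Agent.Lib.MP_1a91b9_ntMQ.Fin.PropMF
        (tw 2 (⟨0, 0, 0, A, 0⟩ : WeierstrassCurve K) K δ) K (cK K d)},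
        Module.finrank K (NK 2 (cK K d)) = 2 ^ n ∧
          PropN (⟨0, 0, 0, A * δ ^ 2, 0⟩ : WeierstrassCurve K) (NK 2 (cK K d)) ∧
          AllS (⟨0, 0, 0, A * δ ^ 2, 0⟩ : WeierstrassCurve K) (NK 2 (cK K d)) := by
      rintro δ ⟨hδ, h⟩
      have hZδ := hZ δ hδ
      rw [V2_tw] at h hZδ
      have hδ0 : δ ≠ 0 := fun h1 => hU0 (h1 ▸ hδ)
      exact V2_propN hK hi (mul_ne_zero hA (pow_ne_zero 2 hδ0)) hd0 h hZδ.1
    have h1 : (1 : ℕ∞) ≤ {δ ∈ U | Pool.Agent.Lib.MP_1a91b9_ntMQ.Fin.PropMF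
        (tw 2 (⟨0, 0, 0, A, 0⟩ : WeierstrassCurve K) K δ) K (cK K d)}.encard :=
      le_trans (by exact_mod_cast le_max_right t 1) ht
    obtain ⟨δ, hδ⟩ := Set.one_le_encard_iff_nonempty.1 h1
    refine ⟨(hall δ hδ).1, ?_⟩
    have h2 : (t : ℕ∞) ≤ {δ ∈ U | Pool.Agent.Lib.MP_1a91b9_ntMQ.Fin.PropMF
        (tw 2 (⟨0, 0, 0, A, 0⟩ : WeierstrassCurve K) K δ) K (cK K d)}.encard :=
      le_trans (by exact_mod_cast le_max_left t 1) ht
    exact h2.trans (Set.encard_le_encard fun δ hδ => ⟨hδ.1, (hall δ hδ).2⟩)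
  · rintro d ⟨hd, hB, -⟩
    exact ⟨hd, hB⟩

end Pool.Agent.Lib.MP_1a91b9_ntQH
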