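import Pool.Agent.Lib.MP_1a91b9_ntQG.F3
import Pool.Agent.Lib.MP_1a91b9_ntQG.X2
import Pool.Agent.Lib.MP_1a91b9_ntQH.V2

/-!
# MP_1a91b9_nt (the abelian extensions of exponent four, relative form): the unconditional case
-/

set_option autoImplicit false

namespace Pool.Agent.Lib.MP_1a91b9_ntQH

open NumberField
open Pool.Agent.Lib.MP_1a91b9_ntDF (DiscLe tw)
open Pool.Agent.Lib.MP_1a91b9_ntL (crv)
open Pool.Agent.Lib.MP_1a91b9_ntQG (Ix Box QQ F4 Ext Gm ee)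

/-- The ring of integers is a principal ideal domain. -/
private theorem V3_pid {K : Type} [Field K] [NumberField K] (hK : Module.finrank ℚ K = 2) {i : K}
    (hi : i ^ 2 = -1) : IsPrincipalIdealRing (𝓞 K) := by
  have hW : Pool.Agent.Lib.MP_1a91b9_ntY.CMK (crv (0 : K) 1) := by
    refine ⟨?_, 1728, -4, 2 * i, by decide, ?_, ?_⟩
    · rw [Pool.Agent.Lib.MP_1a91b9_ntY.crv_Δ]
      norm_num
    · rw [mul_pow, hi]
      norm_num
    · refine Pool.Agent.Lib.MP_1a91b9_ntY.hasJ_crv ?_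
      norm_num
  have hP : Pool.Agent.Lib.MP_1a91b9_ntY.Pt2 (crv (0 : K) 1) := by
    refine ⟨0, ?_⟩
    unfold crv WeierstrassCurve.b₂ WeierstrassCurve.b₄ WeierstrassCurve.b₆
    ring
  exact Pool.Agent.Lib.MP_1a91b9_ntC.pid_of hK hW hP

/-- The nonzero elements with bounded norm are finitely many. -/
private theorem V3_fin {K : Type} [Field K] [NumberField K] [Finite (𝓞 K)ˣ] (Z : ℝ) :
    {x : 𝓞 K | x ≠ 0 ∧ Pool.Agent.Lib.MP_1a91b9_ntQD.nr x ≤ Z}.Finite :=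
  Pool.Agent.Lib.MP_1a91b9_ntW.J.finite_norm_le (K := K) Z

private theorem V3_ee {K : Type} [Field K] [NumberField K] {n : ℕ} (j : Ix K n) (k : Fin n) :
    ee j k ≠ 0 := by
  unfold ee
  exact mul_ne_zero (Units.ne_zero _) (Finset.prod_ne_zero_iff.2 fun v _ => pow_ne_zero _ (j.2 v).2)

/-- A box is finite. -/
private theorem V3_box {K : Type} [Field K] [NumberField K]
    (hfin : ∀ Z : ℝ, {x : 𝓞 K | x ≠ 0 ∧ Pool.Agent.Lib.MP_1a91b9_ntQD.nr x ≤ Z}.Finite) (n : ℕ) (Z : ℝ) :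
    (Box K n Z).Finite := by
  refine (Set.Finite.pi' (t := fun _ : Fin n => {x : 𝓞 K | x ≠ 0 ∧ Pool.Agent.Lib.MP_1a91b9_ntQD.nr x ≤ Z})
    fun _ => hfin Z).subset ?_
  rintro d ⟨h1, B, hB, hBZ, h2⟩ k
  refine ⟨(h1 k).ne_zero, le_trans ?_ hBZ⟩
  have h3 : Algebra.norm ℤ (d k) ∣ Algebra.norm ℤ B := map_dvd (Algebra.norm ℤ) (h2 k)
  have h4 : Algebra.norm ℤ B ≠ 0 := Algebra.norm_ne_zero_iff.2 hB
  have h5 : |Algebra.norm ℤ (d k)| ≤ |Algebra.norm ℤ B| :=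
    Int.le_of_dvd (abs_pos.2 h4) ((abs_dvd_abs _ _).2 h3)
  unfold Pool.Agent.Lib.MP_1a91b9_ntQD.nr
  exact_mod_cast h5

/-- **The unconditional case.** -/
theorem fin_U (K : Type) [Field K] [NumberField K] (hK : Module.finrank ℚ K = 2) (hi : ∃ i : K, i ^ 2 = -1)
    (A : K) (hA : A ≠ 0) :
    ∃ T : Set K, T.Infinite ∧ 0 ∉ T ∧ (∀ δ ∈ T, ∀ δ' ∈ T, δ ≠ δ' → ¬ IsSquare (δ * δ')) ∧
      ∀ (G : Type) [CommGroup G] [Finite G], (∀ x : G, x ^ 4 = 1) → ∀ (t : ℕ) (ε : ℝ), 0 < ε →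
        ∀ᶠ X : ℝ in Filter.atTop, 1 - ε ≤
        (Nat.card {N : IntermediateField K (AlgebraicClosure K) // N ∈ Ext K G ∧ DiscLe N X ∧
          t ≤ {δ ∈ T | PropN (⟨0, 0, 0, A * δ ^ 2, 0⟩ : WeierstrassCurve K) N ∧
            AllS (⟨0, 0, 0, A * δ ^ 2, 0⟩ : WeierstrassCurve K) N}.encard} : ℝ) /
        (Nat.card {N : IntermediateField K (AlgebraicClosure K) // N ∈ Ext K G ∧ DiscLe N X} : ℝ) := by
  obtain ⟨i, hi⟩ := hi
  have hfu : Finite (𝓞 K)ˣ := by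
    refine Pool.Agent.Lib.MP_1a91b9_ntW.J.finite_units hK
      (Pool.Agent.Lib.MP_1a91b9_ntW.J.no_real (s := i) (a := -1) ?_ (by norm_num))
    rw [hi]
    norm_num
  have hpi : IsPrincipalIdealRing (𝓞 K) := V3_pid hK hi
  have hfin := V3_fin (K := K)
  obtain ⟨U, hUi, hU0, hUZ, hUs, hUe⟩ := Pool.Agent.Lib.MP_1a91b9_ntQG.univ_set hK hi hA
  refine ⟨U, hUi, hU0, fun u hu u' hu' hne h => ?_, fun G _ _ hG t ε hε => ?_⟩
  · obtain ⟨r, hr⟩ := h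
    have hu0 : u' ≠ 0 := fun h => hU0 (h ▸ hu')
    refine hUs u hu u' hu' hne 1 (Or.inl rfl) (r / u') ?_
    rw [one_mul, div_pow, pow_two, ← hr]
    field_simp
  obtain ⟨n, m, hm, ⟨φ⟩⟩ := Pool.Agent.Lib.MP_1a91b9_ntQG.grp G hG
  have hExt : Ext K G = Ext K (Gm m) := by
    ext N
    exact and_congr_right fun _ => ⟨fun ⟨ψ⟩ => ⟨ψ.trans φ⟩, fun ⟨ψ⟩ => ⟨ψ.trans φ.symm⟩⟩
  rw [hExt]
  by_cases h4 : ∃ k, m k = 4
  · obtain ⟨g, hg0, hg⟩ := Pool.Agent.Lib.MP_1a91b9_ntQG.grp_four hm h4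
    refine Pool.Agent.Lib.MP_1a91b9_ntQG.almost_all hK hi hm hg hg0
      (fun N => (t : ℕ∞) ≤ {δ ∈ U | PropN (⟨0, 0, 0, A * δ ^ 2, 0⟩ : WeierstrassCurve K) N ∧
        AllS (⟨0, 0, 0, A * δ ^ 2, 0⟩ : WeierstrassCurve K) N}.encard)
      (fun j ε hε => ?_) ε hε
    have hne : ∀ k, ((ee j k : 𝓞 K) : K) ≠ 0 := fun k => by
      have h := V3_ee j k
      exact_mod_cast h
    obtain ⟨-, hnf, -⟩ := Pool.Agent.Lib.MP_1a91b9_ntQG.nk4_kum hi (w := fun k => ((ee j k : 𝓞 K) : K)) hne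
    have _ : NumberField (F4 j) := hnf
    have _ : NumberField (Pool.Agent.Lib.MP_1a91b9_ntDF.NK 4 (Pool.Agent.Lib.MP_1a91b9_ntDF.cK K (ee j))) := hnf
    obtain ⟨S, hS, hSZ, hSs⟩ := hUe n (ee j) (V3_ee j)
    filter_upwards [law_U hK hfin hi hA hUi hU0 j hS hSZ hSs t ε hε] with Z hZ
    refine le_trans ?_ hZ
    rw [Nat.cast_le]
    exact Set.ncard_le_ncard (fun b hb => ⟨hb.1, hb.2.2⟩) ((V3_box hfin n Z).subset fun b hb => hb.1)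
  · exact exp_two_U hK hfin hi hA hUi hU0 hUZ hUs (fun k => (hm k).resolve_right fun h => h4 ⟨k, h⟩) t ε hε

end Pool.Agent.Lib.MP_1a91b9_ntQH
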