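import Pool.Agent.Lib.MP_1a91b9_ntQH.H0

/-!
# MP_1a91b9_nt (the abelian extensions of exponent four, all the intermediate fields): definitions
-/

set_option autoImplicit false

namespace Pool.Agent.Lib.MP_1a91b9_ntQH

open NumberField
open Pool.Agent.Lib.MP_1a91b9_ntDV.Fin (RamOK RelBSD BSD0)
open Pool.Agent.Lib.MP_1a91b9_ntQT.Fin (PropS PropR5)
open Pool.Agent.Lib.MP_1a91b9_ntDZ (LNonzero)

/-- The property of the field `P` between `K` and `N` (the body of the property `N`). -/
def PropP {K : Type} [Field K] [NumberField K] (E : WeierstrassCurve K) (N : Type) [Field N] [Algebra K N]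
    (P : Type) [Field P] [NumberField P] [Algebra K P] [Algebra P N] : Prop :=
  (∀ (P' : Type) [Field P'] [NumberField P'] [Algebra K P'] [Algebra P P'] [IsScalarTower K P P']
    [Algebra P' N] [IsScalarTower P P' N],
    (∀ x' y' : P', (E.baseChange P').toAffine.Equation x' y' →
      ∃ x y : P, algebraMap P P' x = x' ∧ algebraMap P P' y = y') ∧
    (∃ g : ℂ → ℂ, Differentiable ℂ g ∧ g 1 ≠ 0 ∧ ∀ s : ℂ, 3 / 2 < s.re →
      (E.baseChange P').LSeries s = (E.baseChange P).LSeries s * g s) ∧
    (Module.finrank P P' ≠ 1 → ∃ S : Finset ℕ, ∀ (q : ℕ) [Fact q.Prime], q ∉ S →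
      RelBSD q (E.baseChange P) ((E.baseChange P).baseChange P'))) ∧
  (∀ e : P, ¬ IsSquare e → (∃ x : N, x ^ 2 = algebraMap P N e) → PropR5 E P e) ∧
  ((∃ g : ℂ → ℂ, Differentiable ℂ g ∧ (∀ s : ℂ, 3 / 2 < s.re → g s = (E.baseChange P).LSeries s) ∧
    g 1 ≠ 0) → AllS E N)

/-- **The property `A`**: the same for all the fields between `K` and `N`. -/
def PropA {K : Type} [Field K] [NumberField K] (E : WeierstrassCurve K) (N : Type) [Field N] [Algebra K N] :
    Prop :=
  ∀ (P : Type) [Field P] [NumberField P] [Algebra K P] [Algebra P N] [IsScalarTower K P N], PropP E N P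

theorem propN_iff {K : Type} [Field K] [NumberField K] (E : WeierstrassCurve K) (N : Type) [Field N] [Algebra K N] :
    PropN E N ↔ ∀ (P : Type) [Field P] [NumberField P] [Algebra K P] [Algebra P N] [IsScalarTower K P N],
      (∀ σ : N ≃ₐ[P] N, σ * σ = 1) → PropP E N P := Iff.rfl

/-- The strong hypothesis: the quartic twists of rank zero. -/
def HypLs {K : Type} [Field K] [NumberField K] (A : K) (N : Type) [Field N] [Algebra K N] : Prop :=
  ∀ (P : Type) [Field P] [NumberField P] [Algebra K P] [Algebra P N] [IsScalarTower K P N],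
    ∀ c : K, (∃ x : N, x ^ 4 = algebraMap K N c) → (∀ z : P, z ^ 4 ≠ algebraMap K P c) →
      LNonzero (⟨0, 0, 0, algebraMap K P (A * c), 0⟩ : WeierstrassCurve P)

/-- The strong hypothesis: the points. -/
def HypPs {K : Type} [Field K] [NumberField K] (A : K) (N : Type) [Field N] [Algebra K N] : Prop :=
  ∀ x' y' : N, y' ^ 2 = x' ^ 3 + algebraMap K N A * x' →
    ∃ x y : K, algebraMap K N x = x' ∧ algebraMap K N y = y'

end Pool.Agent.Lib.MP_1a91b9_ntQH
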