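import Pool.Agent.Lib.MP_1a91b9_ntQH.W0
import Pool.Agent.Lib.MP_1a91b9_ntQH.H3
import Pool.Agent.Lib.MP_1a91b9_ntQG.K3
import Pool.Agent.Lib.MP_1a91b9_ntQD.U0

/-!
# MP_1a91b9_nt (the abelian extensions of exponent four, all the intermediate fields): the quartic twists over `K`
-/

set_option autoImplicit false

namespace Pool.Agent.Lib.MP_1a91b9_ntQH

open NumberField
open Pool.Agent.Lib.MP_1a91b9_ntDZ (LNonzero)

/-- The descent from `F` to `K`. -/
private theorem W1_desc {K : Type} [Field K] [NumberField K] (hK : Module.finrank ℚ K = 2) {i : K} (hi : i ^ 2 = -1)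
    {B : K} (hB : B ≠ 0) {N : Type} [Field N] [NumberField N] [Algebra K N] [IsGalois K N]
    (hc : ∀ σ τ : N ≃ₐ[K] N, σ * τ = τ * σ) (h4 : ∀ σ : N ≃ₐ[K] N, σ ^ 4 = 1)
    (F : Type) [Field F] [NumberField F] [Algebra K F] [Algebra F N] [IsScalarTower K F N]
    (h : LNonzero (⟨0, 0, 0, algebraMap K F B, 0⟩ : WeierstrassCurve F)) :
    LNonzero (⟨0, 0, 0, B, 0⟩ : WeierstrassCurve K) := by
  have e1 : (⟨0, 0, 0, B, 0⟩ : WeierstrassCurve K).baseChange F = ⟨0, 0, 0, algebraMap K F B, 0⟩ := by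
    have e0 : algebraMap K F 0 = 0 := map_zero _
    show (⟨algebraMap K F 0, algebraMap K F 0, algebraMap K F 0, algebraMap K F B, algebraMap K F 0⟩ :
      WeierstrassCurve F) = _
    rw [e0]
  have e2 : (⟨0, 0, 0, B, 0⟩ : WeierstrassCurve K).baseChange K = ⟨0, 0, 0, B, 0⟩ := rfl
  rw [← e1] at h
  have hT := Pool.Agent.Lib.MP_1a91b9_ntQT.tow_self hK hi hB (F := F)
    (Pool.Agent.Lib.MP_1a91b9_ntQG.between hi hc h4 F) h
  have h2 := Pool.Agent.Lib.MP_1a91b9_ntQD.lne_desc (F := F) K (Pool.Agent.Lib.MP_1a91b9_ntDZ.propZ_of hT)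
  rw [e2] at h2
  exact h2

/-- **W1** (medium). **The quartic twists over `K`.** Let `c` be in `K`, a fourth power `x⁴` in `N`, not one in `K`. Then
the L-series of `y² = x³ + A c x` over `K` is not zero at `1`. Proof: (1) `c = u²`, `u` in `K`: `u` is not a square in `K` (else `c` is a
fourth power). A square root of `u` in `N`: `x⁴ = u²`, so `x² = ± u`, `x` or `i' x` with `i'² = -1`... (`x² = -u`: `(s x)²` with
`s² = -1`, `s = algebraMap i`). If `u` is a square in `F`: `hL0` (`A * u ^ 2 = A * c`). Otherwise `hL` for `P = F`, `e = u` gives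
`LNonzero ⟨0, 0, 0, A u², 0⟩` over `F`, and (3). (2) `c` is not a square in `K`: `x²` is in `F` by `sq_mem` (`H3`): `e` in `F`,
`e ↦ x²`, `e² = c`. `e` is not a square in `F`: if `r² = e` then `r⁴ = c`, and `r²` is in `K` by `sq_mem` for `F / K`
(hypothesis `h1`, with `P = K`, `N = F`; `F / K` is Galois, abelian), so `c = (r²)²` is a square in `K`. `hL` for `P = F`, this `e` gives
`LNonzero ⟨0, 0, 0, A e², 0⟩ = ⟨0, 0, 0, A c, 0⟩` over `F`, and (3). (3) Descent from `F` to `K`: `LNonzero` of the curve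
`⟨0, 0, 0, A c, 0⟩` over `F` gives `PropZ` over `F` (`tow_self` in `ntQT/Q1.lean` with `between` for `F`, `propZ_of` in `ntDZ`; see the last
clause in `H9.lean`), and `lne_desc` (`ntQD/U0.lean`) for `P = K` (`baseChange K` of a curve over `K` is the curve). -/
theorem atom {K : Type} [Field K] [NumberField K] (hK : Module.finrank ℚ K = 2) {i : K} (hi : i ^ 2 = -1)
    {A : K} (hA : A ≠ 0) {N : Type} [Field N] [NumberField N] [Algebra K N] [IsGalois K N]
    (hc : ∀ σ τ : N ≃ₐ[K] N, σ * τ = τ * σ) (h4 : ∀ σ : N ≃ₐ[K] N, σ ^ 4 = 1) (hL : HypL A N)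
    (F : Type) [Field F] [NumberField F] [Algebra K F] [Algebra F N] [IsScalarTower K F N] [IsGalois K F]
    (h0 : ∀ σ : N ≃ₐ[F] N, σ * σ = 1) (h1 : ∀ σ : F ≃ₐ[K] F, σ * σ = 1)
    (hL0 : ∀ u : K, ¬ IsSquare u → (∃ x : F, x ^ 2 = algebraMap K F u) →
      LNonzero (⟨0, 0, 0, A * u ^ 2, 0⟩ : WeierstrassCurve K))
    {c : K} (hx : ∃ x : N, x ^ 4 = algebraMap K N c) (hz : ∀ z : K, z ^ 4 ≠ c) :
    LNonzero (⟨0, 0, 0, A * c, 0⟩ : WeierstrassCurve K) := by
  have hc0 : c ≠ 0 := by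
    rintro rfl
    exact hz 0 (zero_pow four_ne_zero)
  have hB : A * c ≠ 0 := mul_ne_zero hA hc0
  obtain ⟨x, hx⟩ := hx
  by_cases hsq : IsSquare c
  · obtain ⟨u, hu⟩ := hsq
    have hus : ¬ IsSquare u := by
      rintro ⟨v, hv⟩
      refine hz v ?_
      rw [hu, hv]
      ring
    obtain ⟨s, hs⟩ : ∃ s : N, s ^ 2 = algebraMap K N u := by
      have h5 : (x ^ 2) ^ 2 = (algebraMap K N u) ^ 2 := by
        rw [← pow_mul, hx, hu, map_mul, sq]
      rcases sq_eq_sq_iff_eq_or_eq_neg.1 h5 with h6 | h6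
      · exact ⟨x, h6⟩
      · refine ⟨algebraMap K N i * x, ?_⟩
        rw [mul_pow, h6, ← map_pow, hi, map_neg, map_one, neg_mul_neg, one_mul]
    by_cases huF : ∃ x : F, x ^ 2 = algebraMap K F u
    · have h6 := hL0 u hus huF
      rwa [show A * u ^ 2 = A * c by rw [hu, sq]] at h6
    · have h6 := hL F h0 (algebraMap K F u) ⟨u ^ 2, (map_pow _ _ _).symm⟩
        ⟨s, by rw [hs, ← IsScalarTower.algebraMap_apply K F N]⟩
        (fun ⟨r, hr⟩ => huF ⟨r, by rw [hr, sq]⟩)
      rw [show algebraMap K F A * (algebraMap K F u) ^ 2 = algebraMap K F (A * c) by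
        rw [← map_pow, ← map_mul, hu, sq]] at h6
      exact W1_desc hK hi hB hc h4 F h6
  · obtain ⟨e, he⟩ := sq_mem hi F h0 hx
    have he2 : e ^ 2 = algebraMap K F c := by
      apply (algebraMap F N).injective
      rw [map_pow, he, ← pow_mul, hx, ← IsScalarTower.algebraMap_apply K F N]
    have hns : ¬ IsSquare e := by
      rintro ⟨r, hr⟩
      have hr4 : r ^ 4 = algebraMap K F c := by
        rw [← he2, hr]
        ring
      obtain ⟨p, hp⟩ := sq_mem (N := F) hi K h1 hr4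
      refine hsq ⟨p, (algebraMap K F).injective ?_⟩
      rw [map_mul, hp, ← hr4]
      ring
    have h6 := hL F h0 e ⟨c, he2⟩ ⟨x, he.symm⟩ hns
    rw [he2, ← map_mul] at h6
    exact W1_desc hK hi hB hc h4 F h6

end Pool.Agent.Lib.MP_1a91b9_ntQH
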