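import Pool.Agent.Lib.MP_1a91b9_ntQH.W0
import Pool.Agent.Lib.MP_1a91b9_ntQH.H7

/-!
# MP_1a91b9_nt (the abelian extensions of exponent four, all the intermediate fields): the product of two L-series
-/

set_option autoImplicit false

namespace Pool.Agent.Lib.MP_1a91b9_ntQH

open NumberField
open Pool.Agent.Lib.MP_1a91b9_ntDZ (LNonzero)

/-- **W2** (medium-). **One quadratic step up.** `P' = P(√f)`, `f² = d` in `K`. If the L-series of `⟨0, 0, 0, A c, 0⟩` and of
`⟨0, 0, 0, A c d, 0⟩` over `P` are not zero at `1` then that of `⟨0, 0, 0, A c, 0⟩` over `P'` is not zero at `1`: it is the product.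
Proof: `q_ql` (`ntQT/TV2.lean`) for the curve `crv 0 (A c)`, as in the first part of the proof of `quad_step` (`H7.lean`):
`twd (crv 0 (A c)) f = ⟨0, 0, 0, A c f², 0⟩` over `P`. The two entire functions are multiplied. -/
theorem lne_up {K : Type} [Field K] [NumberField K] (hK : Module.finrank ℚ K = 2) {i : K} (hi : i ^ 2 = -1)
    {A c d : K} (hA : A ≠ 0) (hc : c ≠ 0) {P : Type} [Field P] [NumberField P] [Algebra K P] {f : P}
    (hf : f ^ 2 = algebraMap K P d) (hns : ¬ IsSquare f)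
    {P' : Type} [Field P'] [NumberField P'] [Algebra K P'] [Algebra P P'] [IsScalarTower K P P'] {y : P'}
    (hy : y ^ 2 = algebraMap P P' f) (hgen : IntermediateField.adjoin P {y} = ⊤)
    (h1 : LNonzero (⟨0, 0, 0, algebraMap K P (A * c), 0⟩ : WeierstrassCurve P))
    (h2 : LNonzero (⟨0, 0, 0, algebraMap K P (A * (c * d)), 0⟩ : WeierstrassCurve P)) :
    LNonzero (⟨0, 0, 0, algebraMap K P' (A * c), 0⟩ : WeierstrassCurve P') := by
  have hf0 : f ≠ 0 := by
    rintro rfl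
    exact hns ⟨0, by rw [mul_zero]⟩
  have e3 : (⟨0, 0, 0, algebraMap K P' (A * c), 0⟩ : WeierstrassCurve P') =
      (⟨0, 0, 0, A * c, 0⟩ : WeierstrassCurve K).baseChange P' :=
    (Pool.Agent.Lib.MP_1a91b9_ntQT.crv0_map (A * c)).symm
  have e0 : (⟨0, 0, 0, algebraMap K P (A * c), 0⟩ : WeierstrassCurve P) =
      (⟨0, 0, 0, A * c, 0⟩ : WeierstrassCurve K).baseChange P :=
    (Pool.Agent.Lib.MP_1a91b9_ntQT.crv0_map (A * c)).symm
  have e5 : (⟨0, 0, 0, A * c, 0⟩ : WeierstrassCurve K).baseChange P' =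
      ((⟨0, 0, 0, A * c, 0⟩ : WeierstrassCurve K).baseChange P).baseChange P' := by
    show WeierstrassCurve.map _ _ = (WeierstrassCurve.map _ _).map _
    rw [WeierstrassCurve.map_map, IsScalarTower.algebraMap_eq K P P']
  obtain ⟨g, g1, g2, g3⟩ := h1
  obtain ⟨g', g1', g2', g3'⟩ := h2
  refine ⟨fun s => g s * g' s, g1.mul g1', fun s hs => ?_, mul_ne_zero g3 g3'⟩
  have h1 := Pool.Agent.Lib.MP_1a91b9_ntQT.q_ql hK hi (mul_ne_zero hA hc) P P' f y hf0 hy
    (Pool.Agent.Lib.MP_1a91b9_ntQT.q4_sq' hy hns) (Pool.Agent.Lib.MP_1a91b9_ntC.quad_gen hy hgen) s hs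
  have e4 : Pool.Agent.Lib.MP_1a91b9_ntW.J.twd
      ((Pool.Agent.Lib.MP_1a91b9_ntL.crv 0 (A * c)).map (algebraMap K P)) f =
      ⟨0, 0, 0, algebraMap K P (A * (c * d)), 0⟩ := by
    rw [Pool.Agent.Lib.MP_1a91b9_ntQT.crv0_map, Pool.Agent.Lib.MP_1a91b9_ntW.J.twd_crv, mul_zero, hf, ← map_mul]
    have h5 : d * (A * c) = A * (c * d) := by ring
    rw [h5]
  rw [e4] at h1
  rw [e3, e5]
  show g s * g' s = _
  rw [g2 s hs, g2' s hs, e0]
  exact h1.symm

end Pool.Agent.Lib.MP_1a91b9_ntQH
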