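import Pool.Agent.Lib.MP_1a91b9_ntQH.W1
import Pool.Agent.Lib.MP_1a91b9_ntQH.W2

/-!
# MP_1a91b9_nt (the abelian extensions of exponent four, all the intermediate fields): the quartic twists
-/

set_option autoImplicit false

namespace Pool.Agent.Lib.MP_1a91b9_ntQH

open NumberField
open Pool.Agent.Lib.MP_1a91b9_ntDZ (LNonzero)

/-- the fields between `K` and `N` -/
private theorem W3_gal {K : Type} [Field K] [NumberField K] {N : Type} [Field N] [NumberField N]
    [Algebra K N] [IsGalois K N] (hc : ∀ σ τ : N ≃ₐ[K] N, σ * τ = τ * σ) (h4 : ∀ σ : N ≃ₐ[K] N, σ ^ 4 = 1)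
    (P : Type) [Field P] [NumberField P] [Algebra K P] [Algebra P N] [IsScalarTower K P N] :
    IsGalois K P ∧ (∀ σ τ : P ≃ₐ[K] P, σ * τ = τ * σ) ∧ ∀ σ : P ≃ₐ[K] P, σ ^ 4 = 1 := by
  have hfinN : FiniteDimensional K N := Module.Finite.of_restrictScalars_finite ℚ K N
  have hfinP : FiniteDimensional K P := Module.Finite.of_restrictScalars_finite ℚ K P
  have hg : IsGalois K P := by
    obtain ⟨E, hE⟩ : ∃ E : IntermediateField K N, E = (IsScalarTower.toAlgHom K P N).fieldRange := ⟨_, rfl⟩
    have hn : E.fixingSubgroup.Normal := ⟨fun a ha g => by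
      rw [hc g a, mul_assoc, mul_inv_cancel, mul_one]
      exact ha⟩
    have h1 : IsGalois K (IntermediateField.fixedField E.fixingSubgroup) :=
      IsGalois.of_fixedField_normal_subgroup _
    have h2 : IsGalois K E := by
      rw [IsGalois.fixedField_fixingSubgroup] at h1
      exact h1
    rw [hE] at h2
    have e : (IsScalarTower.toAlgHom K P N).fieldRange ≃ₐ[K] P :=
      (AlgEquiv.ofInjectiveField (IsScalarTower.toAlgHom K P N)).symm
    exact IsGalois.of_algEquiv e
  have hs : Function.Surjective (AlgEquiv.restrictNormalHom (F := K) (K₁ := N) P) :=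
    AlgEquiv.restrictNormalHom_surjective N
  refine ⟨hg, ?_, ?_⟩
  · intro σ τ
    obtain ⟨σ', rfl⟩ := hs σ
    obtain ⟨τ', rfl⟩ := hs τ
    rw [← map_mul, hc, map_mul]
  · intro σ
    obtain ⟨σ', rfl⟩ := hs σ
    rw [← map_pow, h4, map_one]

/-- **The last quadratic step.** -/
private theorem W3_step {K : Type} [Field K] [NumberField K] {i : K} (hi : i ^ 2 = -1) (P : Type) [Field P]
    [NumberField P] [Algebra K P] [IsGalois K P] (hc : ∀ σ τ : P ≃ₐ[K] P, σ * τ = τ * σ)
    (h4 : ∀ σ : P ≃ₐ[K] P, σ ^ 4 = 1) (h1 : Module.finrank K P ≠ 1) :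
    ∃ P₁ : IntermediateField K P, Module.finrank P₁ P = 2 ∧ ∃ (w : P) (f : P₁) (d : K),
      w ^ 2 = (f : P) ∧ f ^ 2 = algebraMap K P₁ d ∧ (¬ ∃ p : P₁, (p : P) = w) ∧
      IntermediateField.adjoin P₁ {w} = ⊤ := by
  have hfin : FiniteDimensional K P := Module.Finite.of_restrictScalars_finite ℚ K P
  -- an element of order two
  obtain ⟨τ, hτ1, hτ2⟩ : ∃ τ : P ≃ₐ[K] P, τ ≠ 1 ∧ τ ^ 2 = 1 := by
    have hcard := IsGalois.card_aut_eq_finrank K P
    have hnt : Nontrivial (P ≃ₐ[K] P) := by
      by_contra hcon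
      rw [not_nontrivial_iff_subsingleton] at hcon
      have h2 : Nat.card (P ≃ₐ[K] P) = 1 := Nat.card_eq_one_iff_unique.2 ⟨hcon, ⟨1⟩⟩
      exact h1 (hcard.symm.trans h2)
    obtain ⟨σ, hσ⟩ := exists_ne (1 : P ≃ₐ[K] P)
    by_cases h2 : σ ^ 2 = 1
    · exact ⟨σ, hσ, h2⟩
    · exact ⟨σ ^ 2, h2, by rw [← pow_mul]; exact h4 σ⟩
  obtain ⟨P₁, hP₁⟩ : ∃ P₁ : IntermediateField K P, P₁ = IntermediateField.fixedField (Subgroup.zpowers τ) :=
    ⟨_, rfl⟩
  have hord : orderOf τ = 2 := by
    have h2 : Fact (Nat.Prime 2) := ⟨Nat.prime_two⟩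
    exact orderOf_eq_prime hτ2 hτ1
  have h2 : Module.finrank P₁ P = 2 := by
    rw [hP₁, IntermediateField.finrank_fixedField_eq_card, Nat.card_zpowers, hord]
  have hg1 : IsGalois P₁ P := IsGalois.tower_top_of_isGalois K P₁ P
  have hinv : ∀ σ : P ≃ₐ[P₁] P, σ * σ = 1 := by
    intro σ
    have h3 := IsGalois.card_aut_eq_finrank P₁ P
    rw [h2] at h3
    have h5 : σ ^ Nat.card (P ≃ₐ[P₁] P) = 1 := pow_card_eq_one'
    rw [h3, pow_two] at h5
    exact h5
  have hnb : ¬ ∀ x : P, x ∈ P₁ := by
    intro h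
    have h3 : P₁ = ⊤ := eq_top_iff.2 fun x _ => h x
    have h5 : Module.finrank P₁ P = 1 := by
      rw [h3]
      exact IntermediateField.finrank_top
    omega
  obtain ⟨w, d, hw, hwP⟩ : ∃ (w : P) (d : K), w ^ 4 = algebraMap K P d ∧ w ∉ P₁ := by
    by_contra hcon
    push Not at hcon
    apply hnb
    intro x
    have hx : x ∈ IntermediateField.adjoin K {z : P | ∃ c : K, z ^ 4 = algebraMap K P c} := by
      rw [Pool.Agent.Lib.MP_1a91b9_ntQG.between hi hc h4 P]
      exact IntermediateField.mem_top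
    refine IntermediateField.adjoin_le_iff.2 ?_ hx
    rintro z ⟨c, hz⟩
    exact hcon z c hz
  obtain ⟨f, hf⟩ := sq_mem hi P₁ hinv hw
  have hwN : ¬ ∃ p : P₁, (p : P) = w := by
    rintro ⟨p, hp⟩
    exact hwP (hp ▸ p.2)
  refine ⟨P₁, h2, w, f, d, hf.symm, ?_, hwN, ?_⟩
  · apply (algebraMap P₁ P).injective
    rw [map_pow, hf, ← pow_mul, ← IsScalarTower.algebraMap_apply K P₁ P]
    exact hw
  · have h3 := Module.finrank_mul_finrank P₁ (IntermediateField.adjoin P₁ {w}) P
    rw [h2] at h3
    have h5 : Module.finrank P₁ (IntermediateField.adjoin P₁ {w}) ≠ 1 := by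
      intro h
      rw [IntermediateField.finrank_eq_one_iff, IntermediateField.adjoin_simple_eq_bot_iff,
        IntermediateField.mem_bot] at h
      obtain ⟨p, hp⟩ := h
      exact hwN ⟨p, hp⟩
    have h6 : Module.finrank P₁ (IntermediateField.adjoin P₁ {w}) ∣ 2 := ⟨_, h3.symm⟩
    have h7 : Module.finrank P₁ (IntermediateField.adjoin P₁ {w}) = 2 :=
      ((Nat.dvd_prime Nat.prime_two).1 h6).resolve_left h5
    have h8 : Module.finrank (IntermediateField.adjoin P₁ {w}) P = 1 := by
      rw [h7] at h3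
      omega
    exact IntermediateField.finrank_eq_one_iff_eq_top.1 h8

/-- **W3** (medium). **The strong hypothesis for the L-series.** Proof: induction on `finrank K P` (strong, for all `c`). If it is `1`
then `K → P` is bijective: `atom` (`W1`) and transport (`LNonzero` over `P` of the base change: `ls_one` of `ntQT`, as in the case
`finrank = 1` of `H8.lean`; or write `P` as the quadratic step from a smaller field in all the other cases and treat this
case with the isomorphism). Otherwise there are a field `P₁` between `K` and `P` (an intermediate field) and an element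
`w` of `P`, not in `P₁`, with `w⁴` in `K`, `w² = f` in `P₁`, `P = P₁(w)`: the Galois group of `P / K` (`P / K` is Galois and abelian
of exponent four: a quotient of that of `N`; or use `N`) is a nontrivial group of exponent `4`, so it has an element of
order two; `P₁` is its fixed field, so `P / P₁` has the group of order two, and `between` (`ntQG/K3.lean`) for `P` gives a `w`
not in `P₁` with `w⁴` in `K`, `w²` in `P₁` by `sq_mem` (`H3`, with `N` replaced by `P`). Let `f² = w⁴ = d` in `K`. `c` is not a fourth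
power in `P₁` (not even in `P`) and `c d` is not: `z⁴ = c d = c w⁴` with `z` in `P₁` gives `(z / w)⁴ = c` in `P`. The
fourth roots in `N`: `x` and `x w`. So the induction hypothesis gives the two L-series of `W2`, `lne_up`. -/
theorem hypLs_of {K : Type} [Field K] [NumberField K] (hK : Module.finrank ℚ K = 2) {i : K} (hi : i ^ 2 = -1)
    {A : K} (hA : A ≠ 0) {N : Type} [Field N] [NumberField N] [Algebra K N] [IsGalois K N]
    (hc : ∀ σ τ : N ≃ₐ[K] N, σ * τ = τ * σ) (h4 : ∀ σ : N ≃ₐ[K] N, σ ^ 4 = 1)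
    (h : ∀ c : K, (∃ x : N, x ^ 4 = algebraMap K N c) → (∀ z : K, z ^ 4 ≠ c) →
      LNonzero (⟨0, 0, 0, A * c, 0⟩ : WeierstrassCurve K)) : HypLs A N := by
  have key : ∀ (m : ℕ) (P : Type) [Field P] [NumberField P] [Algebra K P] [Algebra P N] [IsScalarTower K P N],
      Module.finrank K P = m →
      ∀ c : K, (∃ x : N, x ^ 4 = algebraMap K N c) → (∀ z : P, z ^ 4 ≠ algebraMap K P c) →
        LNonzero (⟨0, 0, 0, algebraMap K P (A * c), 0⟩ : WeierstrassCurve P) := by
    intro m
    induction m using Nat.strong_induction_on with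
    | _ m IH =>
    intro P _ _ _ _ _ hm c hx hz
    have hfin : FiniteDimensional K P := Module.Finite.of_restrictScalars_finite ℚ K P
    have hc0 : c ≠ 0 := by
      rintro rfl
      exact hz 0 (by rw [map_zero, zero_pow (by norm_num)])
    by_cases h1 : Module.finrank K P = 1
    · obtain ⟨g, g1, g2, g3⟩ := h c hx fun z hzc => hz (algebraMap K P z) (by rw [← map_pow, hzc])
      refine ⟨g, g1, fun s hs => ?_, g3⟩
      have e : (⟨0, 0, 0, algebraMap K P (A * c), 0⟩ : WeierstrassCurve P) =
          (⟨0, 0, 0, A * c, 0⟩ : WeierstrassCurve K).map (algebraMap K P) :=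
        WeierstrassCurve.ext (map_zero _).symm (map_zero _).symm (map_zero _).symm rfl (map_zero _).symm
      have hj : Pool.Agent.Lib.MP_1a91b9_nuI.HasJ (⟨0, 0, 0, A * c, 0⟩ : WeierstrassCurve K) 1728 :=
        Pool.Agent.Lib.MP_1a91b9_ntQT.q_hasJ (A * c)
      rw [e, Pool.Agent.Lib.MP_1a91b9_ntQT.ls_one h1 hj s]
      exact g2 s hs
    · obtain ⟨hg, hcP, h4P⟩ := W3_gal hc h4 P
      obtain ⟨P₁, h2, w, f, d, hwf, hfd, hwP, hgen⟩ := W3_step hi P hcP h4P h1
      have t3 : IsScalarTower K P₁ N := IsScalarTower.of_algebraMap_eq fun u => by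
        rw [IsScalarTower.algebraMap_apply K P N]
        rfl
      have hlt : Module.finrank K P₁ < m := by
        have h5 := Module.finrank_mul_finrank K P₁ P
        have h6 : 0 < Module.finrank K P₁ := Module.finrank_pos
        rw [h2, hm] at h5
        omega
      have hw0 : w ≠ 0 := fun h => hwP ⟨0, by rw [h]; rfl⟩
      have hns : ¬ IsSquare f := by
        rintro ⟨r, hr⟩
        have e1 : (w - (r : P)) * (w + (r : P)) = 0 := by
          rw [hr] at hwf
          have e2 : ((r * r : P₁) : P) = (r : P) * (r : P) := rfl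
          rw [e2] at hwf
          linear_combination hwf
        rcases mul_eq_zero.1 e1 with h5 | h5
        · exact hwP ⟨r, (sub_eq_zero.1 h5).symm⟩
        · exact hwP ⟨-r, by
            rw [eq_neg_of_add_eq_zero_left h5]
            rfl⟩
      have hw4 : w ^ 4 = algebraMap K P d := by
        have e1 : w ^ 4 = (w ^ 2) ^ 2 := by ring
        rw [e1, hwf]
        exact congrArg (fun t : P₁ => (t : P)) hfd
      refine lne_up hK hi hA hc0 hfd hns (P' := P) (y := w) hwf hgen ?_ ?_
      · refine IH _ hlt P₁ rfl c hx fun z hzc => hz (z : P) ?_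
        have h5 := congrArg (fun t : P₁ => (t : P)) hzc
        exact h5
      · refine IH _ hlt P₁ rfl (c * d) ?_ fun z hzc => hz ((z : P) / w) ?_
        · obtain ⟨x, hx⟩ := hx
          refine ⟨x * algebraMap P N w, ?_⟩
          rw [mul_pow, hx, ← map_pow, hw4, ← IsScalarTower.algebraMap_apply K P N, map_mul]
        · have h5 : (z : P) ^ 4 = algebraMap K P (c * d) := congrArg (fun t : P₁ => (t : P)) hzc
          rw [div_pow, h5, hw4, map_mul, mul_div_assoc, div_self, mul_one]
          rw [← hw4]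
          exact pow_ne_zero 4 hw0
  intro P _ _ _ _ _ c hx hz
  exact key _ P rfl c hx hz

end Pool.Agent.Lib.MP_1a91b9_ntQH
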