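import Pool.Agent.Lib.MP_1a91b9_ntQH.W0
import Pool.Agent.Lib.MP_1a91b9_ntQH.H7
import Pool.Agent.Lib.MP_1a91b9_ntQH.H3
import Pool.Agent.Lib.MP_1a91b9_ntQG.K3

/-!
# MP_1a91b9_nt (the abelian extensions of exponent four, all the intermediate fields): the chain of quadratic steps
-/

set_option autoImplicit false

namespace Pool.Agent.Lib.MP_1a91b9_ntQH

open NumberField
open Pool.Agent.Lib.MP_1a91b9_ntDV.Fin (RamOK RelBSD BSD0)
open Pool.Agent.Lib.MP_1a91b9_ntQT.Fin (PropS PropR5)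
open Pool.Agent.Lib.MP_1a91b9_ntDZ (LNonzero)

/-- **W4a** (easy). From the strong hypothesis to the elements `e` of `P` with `e²` in `K`: `e² = c`, `x⁴ = c` in `N`, and
`z⁴ = c` with `z` in `P` gives `z² = ± e`, `e = z²` or `e = (i z)²`. -/
theorem hypLs_e {K : Type} [Field K] [NumberField K] {i : K} (hi : i ^ 2 = -1) {A : K} {N : Type}
    [Field N] [NumberField N] [Algebra K N] (hL : HypLs A N)
    (P : Type) [Field P] [NumberField P] [Algebra K P] [Algebra P N] [IsScalarTower K P N] {e : P} {c : K}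
    (he : e ^ 2 = algebraMap K P c) (hx : ∃ x : N, x ^ 2 = algebraMap P N e) (hns : ¬ IsSquare e) :
    LNonzero (⟨0, 0, 0, algebraMap K P A * e ^ 2, 0⟩ : WeierstrassCurve P) := by
  rw [he, ← map_mul]
  obtain ⟨x, hx⟩ := hx
  refine hL P c ⟨x, ?_⟩ fun z hz => hns ?_
  · rw [IsScalarTower.algebraMap_apply K P N, ← he, map_pow, ← hx]
    ring
  · have e1 : (z ^ 2 - e) * (z ^ 2 + e) = 0 := by
      linear_combination hz - he
    rcases mul_eq_zero.1 e1 with h | h
    · exact ⟨z, by linear_combination -h⟩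
    · have hi' : algebraMap K P i ^ 2 = -1 := by
        rw [← map_pow, hi, map_neg, map_one]
      exact ⟨algebraMap K P i * z, by linear_combination h - z ^ 2 * hi'⟩

section

variable {K : Type} [Field K] [NumberField K]

omit [NumberField K] in
/-- Two steps. -/
private theorem W4_comb {P P₁ P' : Type} [Field P] [NumberField P] [Field P₁] [NumberField P₁]
    [Field P'] [NumberField P'] [Algebra K P] [Algebra K P₁] [Algebra K P'] [Algebra P P₁] [Algebra P₁ P']
    [Algebra P P'] [IsScalarTower K P P₁] [IsScalarTower K P₁ P'] (E : WeierstrassCurve K)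
    (h1 : (∃ g : ℂ → ℂ, Differentiable ℂ g ∧ g 1 ≠ 0 ∧ ∀ s : ℂ, 3 / 2 < s.re →
        (E.baseChange P₁).LSeries s = (E.baseChange P).LSeries s * g s) ∧
      ∃ S : Finset ℕ, ∀ (q : ℕ) [Fact q.Prime], q ∉ S →
        RelBSD q (E.baseChange P) ((E.baseChange P).baseChange P₁))
    (h2 : (∃ g : ℂ → ℂ, Differentiable ℂ g ∧ g 1 ≠ 0 ∧ ∀ s : ℂ, 3 / 2 < s.re →
        (E.baseChange P').LSeries s = (E.baseChange P₁).LSeries s * g s) ∧
      ∃ S : Finset ℕ, ∀ (q : ℕ) [Fact q.Prime], q ∉ S →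
        RelBSD q (E.baseChange P₁) ((E.baseChange P₁).baseChange P'))
    (hp : ∀ x' y' : P', (E.baseChange P').toAffine.Equation x' y' →
      ∃ x y : P, algebraMap P P' x = x' ∧ algebraMap P P' y = y')
    (e3 : (E.baseChange P).baseChange P' = E.baseChange P') :
    (∃ g : ℂ → ℂ, Differentiable ℂ g ∧ g 1 ≠ 0 ∧ ∀ s : ℂ, 3 / 2 < s.re →
      (E.baseChange P').LSeries s = (E.baseChange P).LSeries s * g s) ∧
    ∃ S : Finset ℕ, ∀ (q : ℕ) [Fact q.Prime], q ∉ S →
      RelBSD q (E.baseChange P) ((E.baseChange P).baseChange P') := by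
  obtain ⟨⟨g₁, a1, a2, a3⟩, S₁, hS₁⟩ := h1
  obtain ⟨⟨g₂, b1, b2, b3⟩, S₂, hS₂⟩ := h2
  have e1 : (E.baseChange P).baseChange P₁ = E.baseChange P₁ := by
    show (E.map (algebraMap K P)).map (algebraMap P P₁) = E.map (algebraMap K P₁)
    rw [WeierstrassCurve.map_map, ← IsScalarTower.algebraMap_eq K P P₁]
  have e2 : (E.baseChange P₁).baseChange P' = E.baseChange P' := by
    show (E.map (algebraMap K P₁)).map (algebraMap P₁ P') = E.map (algebraMap K P')
    rw [WeierstrassCurve.map_map, ← IsScalarTower.algebraMap_eq K P₁ P']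
  refine ⟨⟨fun s => g₁ s * g₂ s, a1.mul b1, mul_ne_zero a2 b2, fun s hs => ?_⟩, S₁ ∪ S₂, fun q _ hq => ?_⟩
  · rw [b3 s hs, a3 s hs, mul_assoc]
  · have r1 := hS₁ q fun h => hq (Finset.mem_union_left _ h)
    have r2 := hS₂ q fun h => hq (Finset.mem_union_right _ h)
    rw [e1] at r1
    rw [e2] at r2
    rw [e3]
    exact Pool.Agent.Lib.MP_1a91b9_ntQT.relQ_trans' r1 r2 hp

/-- The induction. -/
private theorem W4_ind (hK : Module.finrank ℚ K = 2) {i : K} (hi : i ^ 2 = -1) {A : K} (hA : A ≠ 0) {N : Type}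
    [Field N] [NumberField N] [Algebra K N] [IsGalois K N] (hc : ∀ σ τ : N ≃ₐ[K] N, σ * τ = τ * σ)
    (h4 : ∀ σ : N ≃ₐ[K] N, σ ^ 4 = 1) (hL : HypLs A N) (hPt : HypPs A N)
    (P' : Type) [Field P'] [NumberField P'] [Algebra K P'] [Algebra P' N] [IsScalarTower K P' N] (m : ℕ) :
    ∀ (P : Type) [Field P] [NumberField P] [Algebra K P] [Algebra P N] [IsScalarTower K P N]
      [Algebra P P'] [IsScalarTower K P P'] [IsScalarTower P P' N],
      Module.finrank P P' = m → (∃ g : ℂ → ℂ, Differentiable ℂ g ∧ g 1 ≠ 0 ∧ ∀ s : ℂ, 3 / 2 < s.re →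
      ((⟨0, 0, 0, A, 0⟩ : WeierstrassCurve K).baseChange P').LSeries s =
        ((⟨0, 0, 0, A, 0⟩ : WeierstrassCurve K).baseChange P).LSeries s * g s) ∧
    (Module.finrank P P' ≠ 1 → ∃ S : Finset ℕ, ∀ (q : ℕ) [Fact q.Prime], q ∉ S →
      RelBSD q ((⟨0, 0, 0, A, 0⟩ : WeierstrassCurve K).baseChange P)
        (((⟨0, 0, 0, A, 0⟩ : WeierstrassCurve K).baseChange P).baseChange P')) := by
  induction m using Nat.strong_induction_on with
  | _ m IH =>
  intro P _ _ _ _ _ _ _ _ hm
  have hfin : FiniteDimensional P P' := Module.Finite.of_restrictScalars_finite ℚ P P'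
  have eE : ((⟨0, 0, 0, A, 0⟩ : WeierstrassCurve K).baseChange P).baseChange P' =
      (⟨0, 0, 0, A, 0⟩ : WeierstrassCurve K).baseChange P' := by
    show ((⟨0, 0, 0, A, 0⟩ : WeierstrassCurve K).map (algebraMap K P)).map (algebraMap P P') =
      (⟨0, 0, 0, A, 0⟩ : WeierstrassCurve K).map (algebraMap K P')
    rw [WeierstrassCurve.map_map, ← IsScalarTower.algebraMap_eq K P P']
  by_cases h1 : Module.finrank P P' = 1
  · refine ⟨⟨fun _ => 1, differentiable_const _, one_ne_zero, fun s _ => ?_⟩, fun h => absurd h1 h⟩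
    rw [mul_one, ← eE]
    have hj : Pool.Agent.Lib.MP_1a91b9_nuI.HasJ ((⟨0, 0, 0, A, 0⟩ : WeierstrassCurve K).baseChange P) 1728 := by
      have e := Pool.Agent.Lib.MP_1a91b9_ntQT.crv0_map (F := P) A
      have e' := Pool.Agent.Lib.MP_1a91b9_ntQT.q_hasJ (algebraMap K P A)
      rw [← e] at e'
      exact e'
    exact Pool.Agent.Lib.MP_1a91b9_ntQT.ls_one h1 hj s
  -- the element `w`
  obtain ⟨w, c, hw, hwP⟩ : ∃ (w : P') (c : K), w ^ 4 = algebraMap K P' c ∧ ¬ ∃ p : P, algebraMap P P' p = w := by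
    by_contra hcon
    push Not at hcon
    apply h1
    rw [← IntermediateField.bot_eq_top_iff_finrank_eq_one, eq_top_iff]
    intro x _
    have hx : x ∈ IntermediateField.adjoin K {z : P' | ∃ c : K, z ^ 4 = algebraMap K P' c} := by
      rw [Pool.Agent.Lib.MP_1a91b9_ntQG.between hi hc h4 P']
      exact IntermediateField.mem_top
    have hle : IntermediateField.adjoin K {z : P' | ∃ c : K, z ^ 4 = algebraMap K P' c} ≤
        (IsScalarTower.toAlgHom K P P').fieldRange := by
      rw [IntermediateField.adjoin_le_iff]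
      rintro z ⟨c, hz⟩
      obtain ⟨p, hp⟩ := hcon z c hz
      exact ⟨p, hp⟩
    obtain ⟨p, hp⟩ := hle hx
    rw [IntermediateField.mem_bot]
    exact ⟨p, hp⟩
  obtain ⟨w, e, c, he', hec, hwP⟩ : ∃ (w : P') (e : P) (c : K), w ^ 2 = algebraMap P P' e ∧
      e ^ 2 = algebraMap K P c ∧ ¬ ∃ p : P, algebraMap P P' p = w := by
    by_cases h2 : ∃ p : P, algebraMap P P' p = w ^ 2
    · obtain ⟨e, he⟩ := h2
      refine ⟨w, e, c, he.symm, ?_, hwP⟩
      apply (algebraMap P P').injective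
      rw [map_pow, he, ← IsScalarTower.algebraMap_apply K P P', ← hw]
      ring
    · refine ⟨w ^ 2, algebraMap K P c, c ^ 2, ?_, (map_pow _ _ _).symm, h2⟩
      rw [← IsScalarTower.algebraMap_apply K P P', ← hw]
      ring
  have hns : ¬ IsSquare e := by
    rintro ⟨r, hr⟩
    have e1 : (w - algebraMap P P' r) * (w + algebraMap P P' r) = 0 := by
      rw [hr, map_mul] at he'
      linear_combination he'
    rcases mul_eq_zero.1 e1 with h | h
    · exact hwP ⟨r, (sub_eq_zero.1 h).symm⟩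
    · exact hwP ⟨-r, by rw [map_neg]; exact (eq_neg_of_add_eq_zero_left h).symm⟩
  have hLe : LNonzero (⟨0, 0, 0, algebraMap K P A * e ^ 2, 0⟩ : WeierstrassCurve P) :=
    hypLs_e hi hL P hec ⟨algebraMap P' N w, by
      rw [← map_pow, he', ← IsScalarTower.algebraMap_apply P P' N]⟩ hns
  have hPg := Pool.Agent.Lib.MP_1a91b9_ntQG.between hi hc h4 P
  by_cases htop : IntermediateField.adjoin P {w} = ⊤
  · obtain ⟨q1, q2⟩ := quad_step hK hi hA hPg ⟨c, hec⟩ hns hLe he' htop
    exact ⟨q1, fun _ => q2⟩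
  -- the intermediate field
  obtain ⟨P₁, hP₁⟩ : ∃ P₁ : IntermediateField P P', P₁ = IntermediateField.adjoin P {w} := ⟨_, rfl⟩
  have hw₁ : w ∈ P₁ := by
    rw [hP₁]
    exact IntermediateField.mem_adjoin_simple_self P _
  have hg := Pool.Agent.Lib.MP_1a91b9_ntQT.gen_sub hP₁ hw₁
  have hy : (⟨w, hw₁⟩ : P₁) ^ 2 = algebraMap P P₁ e := Subtype.ext he'
  have s1 := quad_step hK hi hA hPg ⟨c, hec⟩ hns hLe hy hg
  have hKP₁ : ∀ u : K, algebraMap P₁ P' (algebraMap K P₁ u) = algebraMap K P' u := fun u => by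
    have e0 : ((u • (1 : P₁) : P₁) : P') = u • (1 : P') := rfl
    show ((algebraMap K P₁ u : P₁) : P') = algebraMap K P' u
    rw [Algebra.algebraMap_eq_smul_one (A := P₁), e0, ← Algebra.algebraMap_eq_smul_one]
  have t1 : IsScalarTower K P₁ P' := IsScalarTower.of_algebraMap_eq fun u => (hKP₁ u).symm
  have t2 : IsScalarTower P₁ P' N := inferInstance
  have t3 : IsScalarTower K P₁ N := IsScalarTower.of_algebraMap_eq fun u => by
    rw [IsScalarTower.algebraMap_apply K P' N, ← hKP₁ u]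
    rfl
  have t4 : IsScalarTower P P₁ N := IsScalarTower.of_algebraMap_eq fun u => by
    rw [IsScalarTower.algebraMap_apply P P' N]
    rfl
  have hne : Module.finrank P₁ P' ≠ 1 := fun h => htop (by
    rw [← hP₁]
    exact IntermediateField.finrank_eq_one_iff_eq_top.1 h)
  have hne' : Module.finrank P P₁ ≠ 1 := fun h => by
    rw [IntermediateField.finrank_eq_one_iff] at h
    rw [h, IntermediateField.mem_bot] at hw₁
    exact hwP hw₁
  have hmul := Module.finrank_mul_finrank P P₁ P'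
  have p1 : 0 < Module.finrank P P₁ := Module.finrank_pos
  have p2 : 0 < Module.finrank P₁ P' := Module.finrank_pos
  have hlt : Module.finrank P₁ P' < m := by
    rw [← hm, ← hmul]
    nlinarith [Nat.lt_of_le_of_ne p1 (Ne.symm hne')]
  obtain ⟨i1, i2⟩ := IH _ hlt P₁ rfl
  obtain ⟨f1, f2⟩ := W4_comb (⟨0, 0, 0, A, 0⟩ : WeierstrassCurve K) s1 ⟨i1, i2 hne⟩ (fun x' y' hxy => by
    have h11 := (WeierstrassCurve.Affine.equation_iff _ _).1 hxy
    have h12 : y' ^ 2 = x' ^ 3 + algebraMap K P' A * x' := by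
      have e0 : (⟨0, 0, 0, A, 0⟩ : WeierstrassCurve K).baseChange P' = ⟨0, 0, 0, algebraMap K P' A, 0⟩ :=
        WeierstrassCurve.ext (map_zero _) (map_zero _) (map_zero _) rfl (map_zero _)
      rw [e0] at h11
      simp only at h11
      linear_combination h11
    obtain ⟨x, y, hx, hy⟩ := hPt (algebraMap P' N x') (algebraMap P' N y') (by
      rw [IsScalarTower.algebraMap_apply K P' N, ← map_pow, h12, map_add, map_mul, map_pow])
    refine ⟨algebraMap K P x, algebraMap K P y, (algebraMap P' N).injective ?_, (algebraMap P' N).injective ?_⟩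
    · rw [← IsScalarTower.algebraMap_apply P P' N, ← IsScalarTower.algebraMap_apply K P N, hx]
    · rw [← IsScalarTower.algebraMap_apply P P' N, ← IsScalarTower.algebraMap_apply K P N, hy]) eE
  exact ⟨f1, fun _ => f2⟩

end

/-- **W4** (medium). **The chain, for all the fields.** Proof: as `chain` (`H8.lean`; copy its proof), without the condition on the
elements of order two: there is a `w` in `P'`, not in `P`, with `w⁴` in `K`; if `w²` is not in `P` replace `w` by `w²`; so `w² = e` is in `P`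
and `e²` is in `K`; `hypLs_e` gives the L-series. -/
theorem chain_s {K : Type} [Field K] [NumberField K] (hK : Module.finrank ℚ K = 2) {i : K} (hi : i ^ 2 = -1)
    {A : K} (hA : A ≠ 0) {N : Type} [Field N] [NumberField N] [Algebra K N] [IsGalois K N]
    (hc : ∀ σ τ : N ≃ₐ[K] N, σ * τ = τ * σ) (h4 : ∀ σ : N ≃ₐ[K] N, σ ^ 4 = 1) (hL : HypLs A N)
    (hPt : HypPs A N)
    (P P' : Type) [Field P] [NumberField P] [Field P'] [NumberField P'] [Algebra K P] [Algebra P N]
    [IsScalarTower K P N] [Algebra K P'] [Algebra P P'] [IsScalarTower K P P'] [Algebra P' N]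
    [IsScalarTower P P' N] :
    (∃ g : ℂ → ℂ, Differentiable ℂ g ∧ g 1 ≠ 0 ∧ ∀ s : ℂ, 3 / 2 < s.re →
      ((⟨0, 0, 0, A, 0⟩ : WeierstrassCurve K).baseChange P').LSeries s =
        ((⟨0, 0, 0, A, 0⟩ : WeierstrassCurve K).baseChange P).LSeries s * g s) ∧
    (Module.finrank P P' ≠ 1 → ∃ S : Finset ℕ, ∀ (q : ℕ) [Fact q.Prime], q ∉ S →
      RelBSD q ((⟨0, 0, 0, A, 0⟩ : WeierstrassCurve K).baseChange P)
        (((⟨0, 0, 0, A, 0⟩ : WeierstrassCurve K).baseChange P).baseChange P')) := by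
  have t1 : IsScalarTower K P' N := IsScalarTower.of_algebraMap_eq fun u => by
    rw [IsScalarTower.algebraMap_apply K P N, IsScalarTower.algebraMap_apply P P' N,
      ← IsScalarTower.algebraMap_apply K P P']
  exact W4_ind hK hi hA hc h4 hL hPt P' _ P rfl

end Pool.Agent.Lib.MP_1a91b9_ntQH
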