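import Pool.Agent.Lib.MP_1a91b9_ntQH.W4
import Pool.Agent.Lib.MP_1a91b9_ntQH.H10
import Pool.Agent.Lib.MP_1a91b9_ntQD.U0

/-!
# MP_1a91b9_nt (the abelian extensions of exponent four, all the intermediate fields): the property `A`
-/

set_option autoImplicit false

namespace Pool.Agent.Lib.MP_1a91b9_ntQH

open NumberField
open Pool.Agent.Lib.MP_1a91b9_ntDZ (LNonzero PropZ)

/-- The elements of `P(s)`, `s² = e`. -/
private theorem W5_ab {P N : Type} [Field P] [NumberField P] [Field N] [NumberField N] [Algebra P N] {e : P} {s : N}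
    (hs : s ^ 2 = algebraMap P N e) {z : N} (hz : z ∈ IntermediateField.adjoin P {s}) :
    ∃ a b : P, z = algebraMap P N a + algebraMap P N b * s := by
  have hfin : FiniteDimensional P N := Module.Finite.of_restrictScalars_finite ℚ P N
  have hint : IsIntegral P s := Algebra.IsIntegral.isIntegral s
  have h1 : z ∈ Algebra.adjoin P {s} := by
    rw [← IntermediateField.adjoin_simple_toSubalgebra_of_isAlgebraic hint.isAlgebraic]
    exact hz
  obtain ⟨f, hf⟩ := Algebra.adjoin_singleton_eq_range_aeval P s ▸ h1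
  have hmon := Polynomial.monic_X_pow_sub_C e two_ne_zero
  have h2 : Polynomial.aeval s (f %ₘ (Polynomial.X ^ 2 - Polynomial.C e)) = z := by
    rw [Polynomial.aeval_modByMonic_eq_self_of_root (by simp [hs])]
    exact hf
  have h3 : (f %ₘ (Polynomial.X ^ 2 - Polynomial.C e)).natDegree < 2 := by
    have h4 := Polynomial.natDegree_modByMonic_lt f hmon (by
      intro h5
      have h6 := congrArg Polynomial.natDegree h5
      rw [Polynomial.natDegree_X_pow_sub_C, Polynomial.natDegree_one] at h6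
      omega)
    rwa [Polynomial.natDegree_X_pow_sub_C] at h4
  refine ⟨(f %ₘ (Polynomial.X ^ 2 - Polynomial.C e)).coeff 0, (f %ₘ (Polynomial.X ^ 2 - Polynomial.C e)).coeff 1, ?_⟩
  rw [← h2, Polynomial.aeval_eq_sum_range' h3, Finset.sum_range_succ, Finset.sum_range_one, Algebra.smul_def,
    Algebra.smul_def, pow_zero, mul_one, pow_one]

/-- The class of `e` modulo squares contains the square of an element with the fourth power in `K`. -/
private theorem W5_gen {K : Type} [Field K] [NumberField K] {i : K} (hi : i ^ 2 = -1) {N : Type} [Field N]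
    [NumberField N] [Algebra K N] [IsGalois K N] (hc : ∀ σ τ : N ≃ₐ[K] N, σ * τ = τ * σ)
    (h4 : ∀ σ : N ≃ₐ[K] N, σ ^ 4 = 1) {P : Type} [Field P] [NumberField P] [Algebra K P] [Algebra P N]
    [IsScalarTower K P N] {e : P} (hns : ¬ IsSquare e) {s : N}
    (hs : s ^ 2 = algebraMap P N e) :
    ∃ (b : P) (z : N) (c : K), b ≠ 0 ∧ z ^ 2 = algebraMap P N (b ^ 2 * e) ∧ z ^ 4 = algebraMap K N c := by
  have hsP : ∀ p : P, algebraMap P N p ≠ s := by
    intro p hp
    refine hns ⟨p, (algebraMap P N).injective ?_⟩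
    rw [map_mul, hp, ← hs, sq]
  have hst : IsScalarTower K (IntermediateField.adjoin P {s}) N := IsScalarTower.of_algebraMap_eq fun x => rfl
  have hbet := Pool.Agent.Lib.MP_1a91b9_ntQG.between hi hc h4 (IntermediateField.adjoin P {s})
  obtain ⟨z₀, ⟨c₀, hzc₀⟩, hzP₀⟩ : ∃ z : IntermediateField.adjoin P {s},
      (∃ c : K, z ^ 4 = algebraMap K (IntermediateField.adjoin P {s}) c) ∧
      ∀ p : P, algebraMap P (IntermediateField.adjoin P {s}) p ≠ z := by
    by_contra hcon
    push Not at hcon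
    have h1 : IntermediateField.adjoin K {z : IntermediateField.adjoin P {s} |
        ∃ c : K, z ^ 4 = algebraMap K (IntermediateField.adjoin P {s}) c} ≤
        (IsScalarTower.toAlgHom K P (IntermediateField.adjoin P {s})).fieldRange := by
      rw [IntermediateField.adjoin_le_iff]
      intro z hz
      exact hcon z hz
    rw [hbet] at h1
    obtain ⟨p, hp⟩ := h1 (IntermediateField.mem_top (x := (⟨s, IntermediateField.mem_adjoin_simple_self P s⟩ :
      IntermediateField.adjoin P {s})))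
    exact hsP p (congrArg (algebraMap (IntermediateField.adjoin P {s}) N) hp)
  have hz4₀ : ((z₀ : N)) ^ 4 = algebraMap K N c₀ := congrArg (algebraMap (IntermediateField.adjoin P {s}) N) hzc₀
  obtain ⟨z, c, p, hz4, hzP, hp⟩ : ∃ (z : IntermediateField.adjoin P {s}) (c : K) (p : P),
      ((z : N)) ^ 4 = algebraMap K N c ∧ (∀ p : P, algebraMap P (IntermediateField.adjoin P {s}) p ≠ z) ∧
      algebraMap P N p = (z : N) ^ 2 := by
    by_cases hsq : ∃ p : P, algebraMap P N p = (z₀ : N) ^ 2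
    · obtain ⟨p, hp⟩ := hsq
      exact ⟨z₀, c₀, p, hz4₀, hzP₀, hp⟩
    · have hcoe : (((z₀ ^ 2 : IntermediateField.adjoin P {s})) : N) = (z₀ : N) ^ 2 := rfl
      refine ⟨z₀ ^ 2, c₀ ^ 2, algebraMap K P c₀, ?_, ?_, ?_⟩
      · rw [hcoe, map_pow, ← hz4₀]
        ring
      · intro p hp
        refine hsq ⟨p, ?_⟩
        rw [← hcoe, ← hp]
        rfl
      · rw [hcoe, ← IsScalarTower.algebraMap_apply K P N, ← hz4₀]
        ring
  obtain ⟨a, b, hab⟩ := W5_ab hs z.2
  have hb : b ≠ 0 := by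
    rintro rfl
    refine hzP a ?_
    apply (algebraMap (IntermediateField.adjoin P {s}) N).injective
    rw [map_zero, zero_mul, add_zero] at hab
    exact hab.symm
  have ha : a = 0 := by
    by_contra ha
    have h2ab : (2 : P) * a * b ≠ 0 := mul_ne_zero (mul_ne_zero two_ne_zero ha) hb
    refine hsP ((p - a ^ 2 - b ^ 2 * e) / (2 * a * b)) ?_
    have h3 : algebraMap P N (2 * a * b) ≠ 0 := by
      rw [Ne, map_eq_zero]
      exact h2ab
    rw [map_div₀, div_eq_iff h3]
    have h5 : algebraMap P N p = (algebraMap P N a + algebraMap P N b * s) ^ 2 := by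
      rw [hp, ← hab]
    rw [map_sub, map_sub, h5, map_pow, map_mul, map_pow, ← hs, map_mul, map_mul, map_ofNat]
    ring
  refine ⟨b, z, c, hb, ?_, hz4⟩
  rw [hab, ha, map_zero, zero_add, mul_pow, hs, map_mul, map_pow]

/-- **W5** (medium-). **The property `A`.** Proof: as `propN_of` (`H9.lean`; copy its proof) with `chain_s`, `hypLs_e`; in the clause
for `e` (a root `s` of `e` in `N`) there is a `z` in `P(s)`, not in `P`, with `z⁴` in `K`; if `z²` is not in `P` replace `z` by `z²`; so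
`z²` is in `P`, `z = b s`, `z² = b² e`, and `(b² e)² = z⁴` is in `K`. The points: by `hPt` they come from `K`. -/
theorem propA_of {K : Type} [Field K] [NumberField K] (hK : Module.finrank ℚ K = 2) {i : K} (hi : i ^ 2 = -1)
    {A : K} (hA : A ≠ 0) {N : Type} [Field N] [NumberField N] [Algebra K N] [IsGalois K N]
    (hc : ∀ σ τ : N ≃ₐ[K] N, σ * τ = τ * σ) (h4 : ∀ σ : N ≃ₐ[K] N, σ ^ 4 = 1) (hL : HypLs A N)
    (hPt : HypPs A N) : PropA (⟨0, 0, 0, A, 0⟩ : WeierstrassCurve K) N := by
  intro P _ _ _ _ _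
  refine ⟨?_, ?_, ?_⟩
  · intro P' _ _ _ _ _ _ _
    refine ⟨?_, chain_s hK hi hA hc h4 hL hPt P P'⟩
    intro x' y' hxy
    have h1 : y' ^ 2 = x' ^ 3 + algebraMap K P' A * x' := by
      have h2 := (WeierstrassCurve.Affine.equation_iff _ _).1 hxy
      have e1 : (((⟨0, 0, 0, A, 0⟩ : WeierstrassCurve K).baseChange P').toAffine).a₁ = 0 := map_zero _
      have e2 : (((⟨0, 0, 0, A, 0⟩ : WeierstrassCurve K).baseChange P').toAffine).a₂ = 0 := map_zero _
      have e3 : (((⟨0, 0, 0, A, 0⟩ : WeierstrassCurve K).baseChange P').toAffine).a₃ = 0 := map_zero _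
      have e4 : (((⟨0, 0, 0, A, 0⟩ : WeierstrassCurve K).baseChange P').toAffine).a₄ = algebraMap K P' A := rfl
      have e6 : (((⟨0, 0, 0, A, 0⟩ : WeierstrassCurve K).baseChange P').toAffine).a₆ = 0 := map_zero _
      rw [e1, e2, e3, e4, e6] at h2
      linear_combination h2
    have eA : algebraMap P' N (algebraMap K P' A) = algebraMap K N A := by
      rw [IsScalarTower.algebraMap_apply K P P', ← IsScalarTower.algebraMap_apply P P' N,
        ← IsScalarTower.algebraMap_apply K P N]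
    have h3 : algebraMap P' N y' ^ 2 = algebraMap P' N x' ^ 3 + algebraMap K N A * algebraMap P' N x' := by
      rw [← eA, ← map_pow, h1, map_add, map_pow, map_mul]
    obtain ⟨x, y, hx, hy⟩ := hPt _ _ h3
    refine ⟨algebraMap K P x, algebraMap K P y, ?_, ?_⟩
    · apply (algebraMap P' N).injective
      rw [← IsScalarTower.algebraMap_apply P P' N, ← IsScalarTower.algebraMap_apply K P N, hx]
    · apply (algebraMap P' N).injective
      rw [← IsScalarTower.algebraMap_apply P P' N, ← IsScalarTower.algebraMap_apply K P N, hy]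
  · rintro e hns ⟨s, hs⟩
    obtain ⟨b, z, c, hb, hz2, hz4⟩ := W5_gen hi hc h4 hns hs
    have hc' : (b ^ 2 * e) ^ 2 = algebraMap K P c := by
      refine (algebraMap P N).injective ?_
      rw [map_pow, ← hz2, ← pow_mul, ← IsScalarTower.algebraMap_apply K P N, ← hz4]
    have hns' : ¬ IsSquare (b ^ 2 * e) := by
      rintro ⟨t, ht⟩
      refine hns ⟨t / b, ?_⟩
      rw [div_mul_div_comm, eq_div_iff (mul_ne_zero hb hb), ← ht]
      ring
    have h5 := propR_of hK hi hA (Pool.Agent.Lib.MP_1a91b9_ntQG.between hi hc h4 P) ⟨c, hc'⟩ hns'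
      (hypLs_e hi hL P hc' ⟨z, hz2⟩ hns')
    have h6 := propR_sq (inv_ne_zero hb) h5
    have e7 : b⁻¹ ^ 2 * (b ^ 2 * e) = e := by
      rw [← mul_assoc, ← mul_pow, inv_mul_cancel₀ hb, one_pow, one_mul]
    rwa [e7] at h6
  · rintro ⟨g, g1, g2, g3⟩
    obtain ⟨⟨g', g1', g2', g3'⟩, -⟩ := chain_s hK hi hA hc h4 hL hPt P N
    have hT := Pool.Agent.Lib.MP_1a91b9_ntQT.tow_self hK hi hA (F := N)
      (Pool.Agent.Lib.MP_1a91b9_ntQG.between hi hc h4 N)
      ⟨fun s => g s * g' s, g1.mul g1', fun s hs => by rw [g3' s hs, ← g2 s hs], mul_ne_zero g3 g2'⟩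
    have hZ : PropZ K ((⟨0, 0, 0, A, 0⟩ : WeierstrassCurve K).baseChange N) :=
      Pool.Agent.Lib.MP_1a91b9_ntDZ.propZ_of hT
    intro Q _ _ _ _ _
    have hQ : LNonzero ((⟨0, 0, 0, A, 0⟩ : WeierstrassCurve K).baseChange Q) :=
      Pool.Agent.Lib.MP_1a91b9_ntQD.lne_desc Q hZ
    obtain ⟨S, hS⟩ := Pool.Agent.Lib.MP_1a91b9_ntQT.tow_self hK hi hA (F := Q)
      (Pool.Agent.Lib.MP_1a91b9_ntQG.between hi hc h4 Q) hQ
    exact ⟨S, fun q _ hq k L M _ _ _ _ _ _ _ _ _ hM hram N' _ _ _ W C hC =>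
      hS q hq k N' L M hM hram W C hC⟩

end Pool.Agent.Lib.MP_1a91b9_ntQH
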