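import Pool.Agent.Lib.MP_1a91b9_ntQH.W0
import Pool.Agent.Lib.MP_1a91b9_ntQH.H5
import Pool.Agent.Lib.MP_1a91b9_ntMQ.UW8

/-!
# MP_1a91b9_nt (the abelian extensions of exponent four, all the intermediate fields): the base
-/

set_option autoImplicit false

namespace Pool.Agent.Lib.MP_1a91b9_ntQH

open NumberField
open Pool.Agent.Lib.MP_1a91b9_ntDF (tw NK cK)
open Pool.Agent.Lib.MP_1a91b9_ntDZ (LNonzero)

/-- What is used of the property `M`, over the field `K`. -/
private theorem W6a_ext {K : Type} [Field K] [NumberField K] {A : K} {n : ℕ} {e : Fin n → K} {M : Type} [Field M]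
    [NumberField M] [Algebra K M] {y : Fin n → M} (hy : ∀ k, y k ^ 2 = algebraMap K M (e k))
    (hM : IntermediateField.adjoin K (Set.range y) = ⊤)
    (hM0 : Pool.Agent.Lib.MP_1a91b9_ntMQ.Fin.PropMF (⟨0, 0, 0, A, 0⟩ : WeierstrassCurve K) K e) :
    Module.finrank K M = 2 ^ n ∧ ExtM A K M e := by
  obtain ⟨h1, h2⟩ := hM0 M y hy hM
  refine ⟨h1, fun x' y' hxy => ?_, fun F' _ _ i1 i2 i3 i4 i5 J hJ => ?_⟩
  · obtain ⟨h3, -⟩ := h2 M
    refine h3.1 x' y' ?_
    rw [WeierstrassCurve.Affine.equation_iff]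
    simp only [WeierstrassCurve.baseChange, WeierstrassCurve.map_a₁, WeierstrassCurve.map_a₂,
      WeierstrassCurve.map_a₃, WeierstrassCurve.map_a₄, WeierstrassCurve.map_a₆, map_zero, zero_mul,
      add_zero]
    exact hxy
  · obtain rfl : i1 = i2 := by
      refine Algebra.algebra_ext i1 i2 fun r => ?_
      exact @IsScalarTower.algebraMap_apply K K F' _ _ _ _ i2 i1 i3 r
    obtain ⟨-, -, -, h3⟩ := h2 F'
    have hns : ¬ IsSquare (algebraMap K F' (∏ k ∈ J, e k)) := by
      rintro ⟨w, hw⟩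
      exact hJ ⟨w, by rw [sq]; exact hw.symm⟩
    obtain ⟨-, h4⟩ := h3 J hns
    obtain ⟨S, hS⟩ := h4 ⟨0, 0, 0, algebraMap K F' (A * (∏ k ∈ J, e k) ^ 2), 0⟩
      (WeierstrassCurve.ext rfl (by
        show (0 : F') = algebraMap K F' (0 * ∏ k ∈ J, e k)
        rw [zero_mul, map_zero]) rfl rfl rfl)
    exact Pool.Agent.Lib.MP_1a91b9_ntDZ.propZ_of ⟨S, fun q _ hq k N L M _ _ _ _ _ _ _ _ _ _ _ _ hM hR W C hC =>
      (hS q hq k L M hM hR).1 N W C hC⟩

/-- The automorphisms of a field generated by square roots. -/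
private theorem W6a_inv {K M : Type} [Field K] [Field M] [Algebra K M] {n : ℕ} {e : Fin n → K} {y : Fin n → M}
    (hy : ∀ k, y k ^ 2 = algebraMap K M (e k)) (hM : IntermediateField.adjoin K (Set.range y) = ⊤)
    (σ : M ≃ₐ[K] M) : σ * σ = 1 := by
  ext x
  show σ (σ x) = x
  have hx : x ∈ IntermediateField.adjoin K (Set.range y) := by
    rw [hM]
    exact IntermediateField.mem_top
  induction hx using IntermediateField.adjoin_induction with
  | mem x hx =>
    obtain ⟨k, rfl⟩ := hx
    have h1 : σ (y k) ^ 2 = y k ^ 2 := by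
      rw [← map_pow, hy k, AlgEquiv.commutes]
    rcases sq_eq_sq_iff_eq_or_eq_neg.1 h1 with h2 | h2
    · rw [h2, h2]
    · rw [h2, map_neg, h2, neg_neg]
  | algebraMap c => rw [AlgEquiv.commutes, AlgEquiv.commutes]
  | add a b _ _ ha hb => rw [map_add, map_add, ha, hb]
  | inv a _ ha => rw [map_inv₀, map_inv₀, ha]
  | mul a b _ _ ha hb => rw [map_mul, map_mul, ha, hb]

/-- **W6a** (medium). **The base.** Let `F` be a field with the property `M` of the tuple `e` over `K`: for every field `F` between `K`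
and a field generated by square roots of the `e k` (given as `F → M`): `hL0` and `hP0`. Proof: `M` is an `N` of `PropMF` (over the field `K`
itself, `F = K` there). For `u` not a square in `K` with a root in `F`, so in `M`: `u = ∏_(k in J) e_k * z²` with `J` nonempty
(`indep` / Kummer theory, see how `X1.lean` (`exp_two`) gets `HypL` for `F = K`: `hypL_of` (`H5`) with `F = K`, `N = M`, `e = 1`, `b = e`,
`z = 1`, `x = y`), and `PropMF` (the twist by `∏ e_k`; `LNonzero` of the twist by `J` is in `PropR`). The points: `NoNewPoints` of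
`PropMF` for `F' = M` (or `hypP_of`). -/
theorem base_hyp {K : Type} [Field K] [NumberField K] (hK : Module.finrank ℚ K = 2) {i : K} (hi : i ^ 2 = -1)
    {A : K} (hA : A ≠ 0) {n : ℕ} {e : Fin n → K} (he : ∀ k, e k ≠ 0)
    (hM0 : Pool.Agent.Lib.MP_1a91b9_ntMQ.Fin.PropMF (⟨0, 0, 0, A, 0⟩ : WeierstrassCurve K) K e)
    (F M : Type) [Field F] [NumberField F] [Algebra K F] [Field M] [NumberField M] [Algebra K M] [Algebra F M]
    [IsScalarTower K F M] {y : Fin n → M} (hy : ∀ k, y k ^ 2 = algebraMap K M (e k))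
    (hM : IntermediateField.adjoin K (Set.range y) = ⊤) :
    (∀ u : K, ¬ IsSquare u → (∃ x : F, x ^ 2 = algebraMap K F u) →
      LNonzero (⟨0, 0, 0, A * u ^ 2, 0⟩ : WeierstrassCurve K)) ∧
    (∀ x' y' : F, y' ^ 2 = x' ^ 3 + algebraMap K F A * x' →
      ∃ x y : K, algebraMap K F x = x' ∧ algebraMap K F y = y') := by
  obtain ⟨hdeg, hE⟩ := W6a_ext hy hM hM0
  have hS : Sit K K M M (fun _ => 1) e (fun _ => 1) y y :=
    { he := fun _ => one_ne_zero
      hb := he
      hz := fun _ => by rw [one_pow, map_one]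
      hy := hy
      hx := fun k => by
        rw [map_one, one_mul]
        rfl
      hN := hM
      hM := hM
      deg := hdeg }
  have hL := hypL_of hS hi hE
  have hP := hypP_of hS hi hE
  refine ⟨fun u hu ⟨x, hx⟩ => ?_, fun x' y' hxy => ?_⟩
  · exact hL K (W6a_inv hy hM) u ⟨u ^ 2, rfl⟩ ⟨algebraMap F M x, by
      rw [← map_pow, hx, ← IsScalarTower.algebraMap_apply]⟩ hu
  · obtain ⟨x, y, h1, h2⟩ := hP K (W6a_inv hy hM) (algebraMap F M x') (algebraMap F M y') (by
      rw [← map_pow, hxy, map_add, map_pow, map_mul, ← IsScalarTower.algebraMap_apply])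
    refine ⟨x, y, (algebraMap F M).injective ?_, (algebraMap F M).injective ?_⟩
    · rw [← IsScalarTower.algebraMap_apply, h1]
    · rw [← IsScalarTower.algebraMap_apply, h2]

end Pool.Agent.Lib.MP_1a91b9_ntQH
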