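import Pool.Agent.Lib.MP_1a91b9_ntQH.W3
import Pool.Agent.Lib.MP_1a91b9_ntQH.W6a
import Pool.Agent.Lib.MP_1a91b9_ntQH.W5
import Pool.Agent.Lib.MP_1a91b9_ntQH.H6
import Pool.Agent.Lib.MP_1a91b9_ntQG.K1

/-!
# MP_1a91b9_nt (the abelian extensions of exponent four, all the intermediate fields): the special family
-/

set_option autoImplicit false

namespace Pool.Agent.Lib.MP_1a91b9_ntQH

open NumberField
open Pool.Agent.Lib.MP_1a91b9_ntDF (tw NK cK)
open Pool.Agent.Lib.MP_1a91b9_ntDZ (LNonzero)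

/-- An endomorphism which maps the generators to `±` themselves is an involution. -/
private theorem W6_inv {K N : Type} [Field K] [Field N] [Algebra K N] {S : Set N}
    (hN : IntermediateField.adjoin K S = ⊤) (σ : N →ₐ[K] N) (h : ∀ x ∈ S, σ x ^ 2 = x ^ 2) (a : N) :
    σ (σ a) = a := by
  have ha : a ∈ IntermediateField.adjoin K S := by
    rw [hN]
    exact IntermediateField.mem_top
  refine IntermediateField.adjoin_induction (F := K) (s := S) (p := fun z _ => σ (σ z) = z)
    ?_ ?_ ?_ ?_ ?_ ha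
  · intro x hx
    rcases sq_eq_sq_iff_eq_or_eq_neg.1 (h x hx) with h1 | h1
    · rw [h1, h1]
    · rw [h1, map_neg, h1, neg_neg]
  · intro x
    rw [AlgHom.commutes, AlgHom.commutes]
  · intro a b _ _ ha hb
    rw [map_add, map_add, ha, hb]
  · intro a _ ha
    rw [map_inv₀, map_inv₀, ha]
  · intro a b _ _ ha hb
    rw [map_mul, map_mul, ha, hb]

/-- The field generated by the squares of the generators. -/
private theorem W6_field {K : Type} [Field K] {n : ℕ} {N : Type} [Field N]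
    [Algebra K N] {w : Fin n → K} {x : Fin n → N} (hx : Pool.Agent.Lib.MP_1a91b9_ntDF.Kum 4 w x) :
    (∀ σ : N ≃ₐ[IntermediateField.adjoin K (Set.range fun k => x k ^ 2)] N, σ * σ = 1) ∧
    ∀ σ : IntermediateField.adjoin K (Set.range fun k => x k ^ 2) ≃ₐ[K]
      IntermediateField.adjoin K (Set.range fun k => x k ^ 2), σ * σ = 1 := by
  have hmem : ∀ k, x k ^ 2 ∈ IntermediateField.adjoin K (Set.range fun k => x k ^ 2) := fun k =>
    IntermediateField.subset_adjoin K _ ⟨k, rfl⟩
  generalize hF : IntermediateField.adjoin K (Set.range fun k => x k ^ 2) = F at hmem ⊢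
  refine ⟨fun σ => AlgEquiv.ext fun a => ?_, fun σ => AlgEquiv.ext fun a => ?_⟩
  · refine W6_inv hx.top (((σ : N →ₐ[F] N).restrictScalars K)) ?_ a
    rintro _ ⟨k, rfl⟩
    have h1 := σ.commutes ⟨x k ^ 2, hmem k⟩
    have h2 : algebraMap F N ⟨x k ^ 2, hmem k⟩ = x k ^ 2 := rfl
    rw [h2, map_pow] at h1
    exact h1
  · have hg : IntermediateField.adjoin K (Set.range fun k => (⟨x k ^ 2, hmem k⟩ : F)) = ⊤ := by
      refine IntermediateField.map_injective F.val ?_
      rw [IntermediateField.adjoin_map, ← AlgHom.fieldRange_eq_map, IntermediateField.fieldRange_val]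
      have h5 : F.val '' Set.range (fun k => (⟨x k ^ 2, hmem k⟩ : F)) = Set.range fun k => x k ^ 2 := by
        rw [← Set.range_comp]
        rfl
      rw [h5, hF]
    refine W6_inv hg (σ : F →ₐ[K] F) ?_ a
    rintro _ ⟨k, rfl⟩
    have h1 : (⟨x k ^ 2, hmem k⟩ : F) ^ 2 = algebraMap K F (w k) := by
      refine Subtype.ext ?_
      show (x k ^ 2) ^ 2 = algebraMap K N (w k)
      rw [← pow_mul, hx.pow k]
    show σ (⟨x k ^ 2, hmem k⟩ : F) ^ 2 = (⟨x k ^ 2, hmem k⟩ : F) ^ 2
    rw [← map_pow, h1, AlgEquiv.commutes]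

/-- The statement, from the fields. -/
private theorem W6_core {K : Type} [Field K] [NumberField K] (hK : Module.finrank ℚ K = 2) {i : K}
    (hi : i ^ 2 = -1) {A : K} (hA : A ≠ 0) {n : ℕ} {e : Fin n → K} (he : ∀ k, e k ≠ 0)
    (hM0 : Pool.Agent.Lib.MP_1a91b9_ntMQ.Fin.PropMF (⟨0, 0, 0, A, 0⟩ : WeierstrassCurve K) K e)
    {N : Type} [Field N] [NumberField N] [Algebra K N] [IsGalois K N]
    (hc : ∀ σ τ : N ≃ₐ[K] N, σ * τ = τ * σ) (h4 : ∀ σ : N ≃ₐ[K] N, σ ^ 4 = 1) (hL : HypL A N)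
    (hP : HypP A N) (F : Type) [Field F] [NumberField F] [Algebra K F] [Algebra F N] [IsScalarTower K F N]
    [IsGalois K F] (h0 : ∀ σ : N ≃ₐ[F] N, σ * σ = 1) (h1 : ∀ σ : F ≃ₐ[K] F, σ * σ = 1)
    (M : Type) [Field M] [NumberField M] [Algebra K M] [Algebra F M] [IsScalarTower K F M] {y : Fin n → M}
    (hy : ∀ k, y k ^ 2 = algebraMap K M (e k)) (hM : IntermediateField.adjoin K (Set.range y) = ⊤) :
    PropA (⟨0, 0, 0, A, 0⟩ : WeierstrassCurve K) N := by
  obtain ⟨hL0, hP0⟩ := base_hyp hK hi hA he hM0 F M hy hM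
  have hLs : HypLs A N := hypLs_of hK hi hA hc h4 fun c hx hz =>
    atom hK hi hA hc h4 hL F h0 h1 hL0 hx hz
  have hPs : HypPs A N := by
    intro x' y' hxy
    obtain ⟨x, y, rfl, rfl⟩ := hP F h0 x' y' hxy
    have h2 : y ^ 2 = x ^ 3 + algebraMap K F A * x := by
      apply (algebraMap F N).injective
      rw [map_pow, hxy, map_add, map_mul, map_pow, ← IsScalarTower.algebraMap_apply K F N]
    obtain ⟨x0, y0, rfl, rfl⟩ := hP0 x y h2
    exact ⟨x0, y0, IsScalarTower.algebraMap_apply K F N _, IsScalarTower.algebraMap_apply K F N _⟩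
  exact propA_of hK hi hA hc h4 hLs hPs

/-- **W6** (medium). **The property `A` of the special fields.** `N = K((d_k b_k²)^(1/4))`, `d_k = e_k` or `1`. Proof: `hyp_NK` (`H6`) with
`e = d` gives `HypL`, `HypP` for `N`; `kum_gal` (`ntQG/K3.lean`) with `nk4_kum` (`ntQG/K1.lean`): `N / K` is Galois, abelian, of exponent `4`. Let `F` be the
intermediate field of `N / K` generated by the squares `x_k²` of the fourth roots `x_k` of `d_k b_k²` in `N` (`x_k² = ± √d_k b_k`). Its
elements `x_k²` are square roots of `d_k b_k²` (an element of `K` times `e_k`, or a square of `K`), so `F` embeds into a field `M` generated over `K`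
by square roots of all the `e_k` (take `M = NK 2 e`, or the compositum, in an algebraic closure of `N`; an embedding `F → M`
over `K` as `F` is generated by elements whose images `± √d_k b_k` are in `M`: work in one algebraic closure). `h0`: for
`σ` over `F`: `σ (x_k)² = x_k²`, so `σ x_k = ± x_k`, `σ σ x_k = x_k`. `h1`: the same for `F / K` with the generators `x_k²`, whose
squares are in `K`. `base_hyp` for `F → M`; `atom`, `hypLs_of` for `N`; the points: `HypP` with `P = F`, then `base_hyp`. `propA_of`. -/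
theorem propA_fam {K : Type} [Field K] [NumberField K] (hK : Module.finrank ℚ K = 2) {i : K} (hi : i ^ 2 = -1)
    {A : K} (hA : A ≠ 0) {n : ℕ} {e d b : Fin n → K} (he : ∀ k, e k ≠ 0) (hb : ∀ k, b k ≠ 0)
    (hd : ∀ k, d k = e k ∨ d k = 1)
    (hM0 : Pool.Agent.Lib.MP_1a91b9_ntMQ.Fin.PropMF (⟨0, 0, 0, A, 0⟩ : WeierstrassCurve K) K e)
    [NumberField (NK 4 d)]
    (hM : Pool.Agent.Lib.MP_1a91b9_ntMQ.Fin.PropMF (⟨0, 0, 0, A, 0⟩ : WeierstrassCurve K) (NK 4 d) b) :
    PropA (⟨0, 0, 0, A, 0⟩ : WeierstrassCurve K) (NK 4 fun k => d k * b k ^ 2) := by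
  have hd0 : ∀ k, d k ≠ 0 := by
    intro k
    rcases hd k with h | h
    · rw [h]
      exact he k
    · rw [h]
      exact one_ne_zero
  have hw : ∀ k, d k * b k ^ 2 ≠ 0 := fun k => mul_ne_zero (hd0 k) (pow_ne_zero 2 (hb k))
  obtain ⟨hfN, hnN, x, hx⟩ := Pool.Agent.Lib.MP_1a91b9_ntQG.nk4_kum hi hw
  obtain ⟨hL, hP⟩ := hyp_NK hK hi hA hd0 hb hM
  obtain ⟨hG, hc, h4⟩ := Pool.Agent.Lib.MP_1a91b9_ntQG.kum_gal hi hx hw
  have hp : Fact (Nat.Prime 2) := ⟨Nat.prime_two⟩
  have hζ : IsPrimitiveRoot (-1 : K) 2 := IsPrimitiveRoot.neg_one 0 (by norm_num)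
  obtain ⟨hfM, hnM, -, y, hy⟩ := Pool.Agent.Lib.MP_1a91b9_ntDF.nk_kum hζ he
  obtain ⟨h0, h1⟩ := W6_field hx
  have hle : ∀ a : NK 4 (fun k => d k * b k ^ 2),
      a ∈ IntermediateField.adjoin K (Set.range fun k => x k ^ 2) → (a : AlgebraicClosure K) ∈ NK 2 e := by
    have h2 : IntermediateField.adjoin K (Set.range fun k => x k ^ 2) ≤
        (NK 2 e).comap (NK 4 (fun k => d k * b k ^ 2)).val := by
      rw [IntermediateField.adjoin_le_iff]
      rintro _ ⟨k, rfl⟩
      show ((x k ^ 2 : NK 4 (fun k => d k * b k ^ 2)) : AlgebraicClosure K) ∈ NK 2 e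
      have h3 : ((x k ^ 2 : NK 4 (fun k => d k * b k ^ 2)) : AlgebraicClosure K) ^ 2 =
          algebraMap K (AlgebraicClosure K) (d k * b k ^ 2) := by
        have h4 := congrArg (fun t : NK 4 (fun k => d k * b k ^ 2) => (t : AlgebraicClosure K)) (hx.pow k)
        have h5 : x k ^ 4 = (x k ^ 2) ^ 2 := by rw [← pow_mul]
        rw [h5] at h4
        exact h4
      have h6 : ((y k : NK 2 e) : AlgebraicClosure K) ^ 2 = algebraMap K (AlgebraicClosure K) (e k) := by
        have := congrArg (fun t : NK 2 e => (t : AlgebraicClosure K)) (hy.pow k)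
        exact this
      obtain ⟨s, hs⟩ : ∃ s : NK 2 e, (s : AlgebraicClosure K) ^ 2 =
          algebraMap K (AlgebraicClosure K) (d k * b k ^ 2) := by
        rcases hd k with h | h
        · refine ⟨y k * algebraMap K (NK 2 e) (b k), ?_⟩
          show (((y k : NK 2 e) : AlgebraicClosure K) * algebraMap K (AlgebraicClosure K) (b k)) ^ 2 = _
          rw [mul_pow, h6, map_mul, map_pow, h]
        · refine ⟨algebraMap K (NK 2 e) (b k), ?_⟩
          show (algebraMap K (AlgebraicClosure K) (b k)) ^ 2 = _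
          rw [h, one_mul, map_pow]
      rcases sq_eq_sq_iff_eq_or_eq_neg.1 (h3.trans hs.symm) with h7 | h7
      · rw [h7]
        exact s.2
      · rw [h7]
        exact neg_mem s.2
    exact fun a ha => h2 ha
  generalize IntermediateField.adjoin K (Set.range fun k => x k ^ 2) = F at h0 h1 hle
  have : IsAbelianGalois K (NK 4 fun k => d k * b k ^ 2) :=
    { toIsGalois := hG
      toIsMulCommutative := ⟨⟨hc⟩⟩ }
  have hGF : IsGalois K F := (inferInstance : IsAbelianGalois K F).toIsGalois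
  have : NumberField F := NumberField.of_module_finite K F
  let φ : F →+* NK 2 e :=
    (((NK 4 (fun k => d k * b k ^ 2)).val.comp F.val : F →ₐ[K] AlgebraicClosure K) :
      F →+* AlgebraicClosure K).codRestrict (NK 2 e) fun a => hle _ a.2
  let _ : Algebra F (NK 2 e) := φ.toAlgebra
  have : IsScalarTower K F (NK 2 e) := IsScalarTower.of_algebraMap_eq fun _ => rfl
  exact W6_core hK hi hA he hM0 hc h4 hL hP F h0 h1 (NK 2 e) hy.pow hy.top

end Pool.Agent.Lib.MP_1a91b9_ntQH
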